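import Pool.Agent.H35.Lir.Frame

/-!
Corollaries of the weighted energy theorem with a typed set.
-/

namespace Pool.Agent.H35.Lir

open Finset

/-- A digraph with outdegrees at most `d` on the set `S` is properly `2d+1`-colourable. -/
theorem exists_proper {V : Type} [DecidableEq V] (E : V → V → Prop) (hE : ∀ x, ¬ E x x) (d : ℕ)
    [DecidableRel E] (S : Finset V) (h : ∀ x ∈ S, #{y ∈ S | E x y} ≤ d) :
    ∃ f : V → Fin (2 * d + 1), ∀ x ∈ S, ∀ y ∈ S, E x y → f x ≠ f y := by
  induction S using Finset.strongInduction with
  | H S ih =>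
    by_cases hS : S = ∅
    · subst hS
      exact ⟨fun _ => 0, by simp⟩
    · -- a vertex of small indegree
      obtain ⟨v, hv, hvd⟩ : ∃ v ∈ S, #{x ∈ S | E x v} ≤ d := by
        by_contra hcon
        push Not at hcon
        have h1 : ∑ x ∈ S, #{y ∈ S | E x y} = ∑ y ∈ S, #{x ∈ S | E x y} :=
          Finset.sum_card_bipartiteAbove_eq_sum_card_bipartiteBelow E
        have h2 : ∑ x ∈ S, #{y ∈ S | E x y} ≤ ∑ _x ∈ S, d := Finset.sum_le_sum h
        have h3 : ∑ _y ∈ S, (d + 1) ≤ ∑ y ∈ S, #{x ∈ S | E x y} := Finset.sum_le_sum hcon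
        rw [Finset.sum_const, smul_eq_mul] at h2 h3
        have h4 : 0 < #S := Finset.card_pos.2 (Finset.nonempty_of_ne_empty hS)
        nlinarith
      obtain ⟨f, hf⟩ := ih (S.erase v) (Finset.erase_ssubset hv) (fun x hx =>
        (Finset.card_le_card (Finset.filter_subset_filter _ (Finset.erase_subset _ _))).trans
          (h x (Finset.mem_of_mem_erase hx)))
      obtain ⟨c, hc⟩ : ∃ c : Fin (2 * d + 1),
          c ∉ ({y ∈ S | E v y} ∪ {x ∈ S | E x v}).image f := by
        by_contra hcon
        push Not at hcon
        have h1 : (Finset.univ : Finset (Fin (2 * d + 1))) ⊆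
            ({y ∈ S | E v y} ∪ {x ∈ S | E x v}).image f := fun c _ => hcon c
        have h2 := (Finset.card_le_card h1).trans Finset.card_image_le
        have h3 := Finset.card_union_le {y ∈ S | E v y} {x ∈ S | E x v}
        have h4 := h v hv
        rw [Finset.card_univ, Fintype.card_fin] at h2
        omega
      refine ⟨Function.update f v c, fun x hx y hy hxy => ?_⟩
      have hne : x ≠ y := by rintro rfl; exact hE x hxy
      by_cases hxv : x = v
      · subst hxv
        rw [Function.update_self, Function.update_of_ne hne.symm]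
        rintro rfl
        apply hc
        rw [Finset.mem_image]
        exact ⟨y, Finset.mem_union_left _ (Finset.mem_filter.2 ⟨hy, hxy⟩), rfl⟩
      · by_cases hyv : y = v
        · subst hyv
          rw [Function.update_self, Function.update_of_ne hxv]
          rintro rfl
          apply hc
          rw [Finset.mem_image]
          exact ⟨x, Finset.mem_union_right _ (Finset.mem_filter.2 ⟨hx, hxy⟩), rfl⟩
        · rw [Function.update_of_ne hxv, Function.update_of_ne hyv]
          exact hf x (Finset.mem_erase.2 ⟨hxv, hx⟩) y (Finset.mem_erase.2 ⟨hyv, hy⟩) hxy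

variable {V : Type}

theorem reverse_wli (D : V → V → Prop) {k : ℕ} (c : V → V → Fin k)
    (h : IsWLIColouring (fun x y => D y x) c) : IsWLIColouring D fun x y => c y x := by
  intro i x y hxy heq
  refine h i y x hxy ?_
  have h1 := congrArg Prod.fst heq
  have h2 := congrArg Prod.snd heq
  exact Prod.ext h2.symm h1.symm

/-- the six types for three colours -/
def s6 : Fin 7 → Fin 3 := ![0, 0, 1, 1, 2, 2, 0]
def t6 : Fin 7 → Fin 3 := ![1, 2, 0, 2, 0, 1, 1]

theorem s6_ne (i : Fin 7) : s6 i ≠ t6 i := by
  revert i; decide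

theorem st6_inj (i j : Fin 7) (hi : i ≠ 6) (hj : j ≠ 6) (hij : i ≠ j) :
    (s6 i, t6 i) ≠ (s6 j, t6 j) := by
  revert i j; decide

/-- chromatic number at most seven -/
theorem exists_three_of_seven [Finite V] (D : V → V → Prop) (hD : ∀ x, ¬ D x x)
    (f : V → Fin 7) (hf : ∀ x y, D x y → f x ≠ f y) :
    ∃ c : V → V → Fin 3, IsWLIColouring D c := by
  refine exists_colouring_frame D hD (by norm_num) (t := 1) (by norm_num) le_rfl
    {x | f x ≠ 6} (fun x => s6 (f x)) (fun x => t6 (f x)) (fun x _ => s6_ne _) ?_ ?_
  · intro x hx y hy hxy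
    exact st6_inj _ _ hx hy (hf x y hxy)
  · intro x y hx hy hxy
    simp only [Set.mem_ofPred_eq, not_not] at hx hy
    exact absurd (hx.trans hy.symm) (hf x y hxy)

/-- outdegrees at most five -/
theorem exists_three_of_outDeg [Finite V] (D : V → V → Prop) (hD : ∀ x, ¬ D x x)
    (h : ∀ x, outDeg D x ≤ 5) : ∃ c : V → V → Fin 3, IsWLIColouring D c := by
  classical
  have := Fintype.ofFinite V
  set L : Set V := {x | ∃ y, D x y ∧ outDeg D x + 2 ≤ outDeg D y} with hL
  set S : Finset V := L.toFinset with hS
  have hcard : ∀ x ∈ S, #{y ∈ S | D x y} ≤ 2 := by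
    intro x hx
    rw [hS, Set.mem_toFinset] at hx
    obtain ⟨z, hxz, hz⟩ := hx
    have hout : ({y | D x y} : Finset V).card = outDeg D x := by
      unfold outDeg
      rw [Set.ncard_eq_toFinset_card']
      congr 1
      ext y
      simp
    have h1 : #{y ∈ S | D x y} ≤ #({y | D x y} : Finset V) := by
      apply Finset.card_le_card
      intro y hy
      simp only [Finset.mem_filter, Finset.mem_univ, true_and] at hy ⊢
      exact hy.2
    by_cases hzS : z ∈ S
    · rw [hS, Set.mem_toFinset] at hzS
      obtain ⟨w, hzw, hw⟩ := hzS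
      have := h w
      omega
    · have h2 : #{y ∈ S | D x y} < #({y | D x y} : Finset V) := by
        apply Finset.card_lt_card
        rw [Finset.ssubset_iff_of_subset]
        · exact ⟨z, by simp [hxz], by simp [hzS]⟩
        · intro y hy
          simp only [Finset.mem_filter, Finset.mem_univ, true_and] at hy ⊢
          exact hy.2
      have := h z
      omega
  obtain ⟨f, hf⟩ := exists_proper D hD 2 S hcard
  refine exists_colouring_frame D hD (by norm_num) (t := 1) (by norm_num) le_rfl
    L (fun x => s6 ((f x).castLE (by norm_num))) (fun x => t6 ((f x).castLE (by norm_num)))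
    (fun x _ => s6_ne _) ?_ ?_
  · intro x hx y hy hxy
    have h1 := hf x (by rw [hS, Set.mem_toFinset]; exact hx) y
      (by rw [hS, Set.mem_toFinset]; exact hy) hxy
    refine st6_inj _ _ ?_ ?_ ?_
    · intro h2
      have := congrArg Fin.val h2
      simp at this
      have := (f x).2
      omega
    · intro h2
      have := congrArg Fin.val h2
      simp at this
      have := (f y).2
      omega
    · intro h2
      apply h1
      apply Fin.ext
      have := congrArg Fin.val h2
      simpa using this
  · intro x y hx hy hxy _ _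
    have h1 : outDeg D y ≤ outDeg D x + 1 := by
      by_contra hlt
      exact hx ⟨y, hxy, by omega⟩
    have h2 : (outDeg D y : ℝ) ≤ outDeg D x + 1 := by exact_mod_cast h1
    norm_num
    linarith

end Pool.Agent.H35.Lir
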