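import Pool.Agent.H35.Lir.Conds

/-!
Richardson's theorem: a finite digraph without odd closed walks has a kernel.
-/

namespace Pool.Agent.H35.Lir

open Finset

variable {V : Type}

theorem Walk.trans {D : V → V → Prop} : ∀ {m n : ℕ} {x y z : V}, Walk D m x y → Walk D n y z →
    Walk D (m + n) x z
  | 0, n, x, y, z, h1, h2 => by
    have : x = y := h1
    subst this
    rw [Nat.zero_add]
    exact h2
  | m + 1, n, x, y, z, ⟨u, h1, h2⟩, h3 => by
    have : m + 1 + n = (m + n) + 1 := by ring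
    rw [this]
    exact ⟨u, h1, h2.trans h3⟩

theorem Walk.mono {D E : V → V → Prop} (hDE : ∀ x y, D x y → E x y) :
    ∀ {n : ℕ} {x y : V}, Walk D n x y → Walk E n x y
  | 0, _, _, h => h
  | _ + 1, _, _, ⟨z, h1, h2⟩ => ⟨z, hDE _ _ h1, h2.mono hDE⟩

theorem walk_one {D : V → V → Prop} {x y : V} (h : D x y) : Walk D 1 x y := ⟨y, h, rfl⟩

/-- Richardson's theorem -/
theorem exists_kernel (D : V → V → Prop) (h : ∀ x n, Odd n → ¬ Walk D n x x) (X : Finset V) :
    ∃ K : Finset V, K ⊆ X ∧ (∀ x ∈ K, ∀ y ∈ K, ¬ D x y) ∧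
      ∀ x ∈ X, x ∉ K → ∃ y ∈ K, D x y := by
  classical
  induction X using Finset.strongInduction with
  | H X ih =>
    by_cases hX : X = ∅
    · subst hX
      exact ⟨∅, Finset.empty_subset _, by simp, by simp⟩
    set E : V → V → Prop := fun a b => D a b ∧ a ∈ X ∧ b ∈ X with hE
    have hED : ∀ x y, E x y → D x y := fun x y h => h.1
    obtain ⟨s, hs, hmin⟩ := Finset.exists_min_image X
      (fun s => #(X.filter fun y => ∃ n, Walk E n s y)) (Finset.nonempty_of_ne_empty hX)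
    -- strongly connected
    have hback : ∀ y ∈ X, (∃ n, Walk E n s y) → ∃ n, Walk E n y s := by
      rintro y hy ⟨n, hn⟩
      have hsub : (X.filter fun z => ∃ n, Walk E n y z) ⊆ X.filter fun z => ∃ n, Walk E n s z := by
        intro z hz
        rw [Finset.mem_filter] at hz ⊢
        obtain ⟨h1, m, hm⟩ := hz
        exact ⟨h1, n + m, hn.trans hm⟩
      have heq := Finset.eq_of_subset_of_card_le hsub (hmin y hy)
      have : s ∈ X.filter fun z => ∃ n, Walk E n s z := by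
        rw [Finset.mem_filter]
        exact ⟨hs, 0, rfl⟩
      rw [← heq, Finset.mem_filter] at this
      exact this.2
    have hdisj : ∀ y ∈ X, (∃ n, Even n ∧ Walk E n s y) → (∃ n, Odd n ∧ Walk E n s y) → False := by
      rintro y hy ⟨n, hn, hw⟩ ⟨m, hm, hw'⟩
      obtain ⟨k, hk⟩ := hback y hy ⟨n, hw⟩
      rcases Nat.even_or_odd k with he | ho
      · exact h s (m + k) (hm.add_even he) ((hw'.trans hk).mono hED)
      · exact h s (n + k) (hn.add_odd ho) ((hw.trans hk).mono hED)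
    obtain ⟨K1, hK1⟩ : ∃ K1 : Finset V, K1 = X.filter fun y => ∃ n, Even n ∧ Walk E n s y :=
      ⟨_, rfl⟩
    have mK1 : ∀ y, y ∈ K1 ↔ y ∈ X ∧ ∃ n, Even n ∧ Walk E n s y := by
      intro y; rw [hK1, Finset.mem_filter]
    have hsK : s ∈ K1 := (mK1 s).2 ⟨hs, 0, by decide, rfl⟩
    obtain ⟨X', hX'⟩ : ∃ X' : Finset V, X' = X.filter fun x => x ∉ K1 ∧ ∀ y ∈ K1, ¬ D x y :=
      ⟨_, rfl⟩
    have mX' : ∀ x, x ∈ X' ↔ x ∈ X ∧ x ∉ K1 ∧ ∀ y ∈ K1, ¬ D x y := by
      intro x; rw [hX', Finset.mem_filter]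
    have hXX : X' ⊂ X := by
      rw [Finset.ssubset_iff_of_subset (by rw [hX']; exact Finset.filter_subset _ _)]
      exact ⟨s, hs, fun h => ((mX' s).1 h).2.1 hsK⟩
    obtain ⟨K', hK', hind, habs⟩ := ih X' hXX
    -- arcs leaving `K1` inside `X` end in absorbed vertices
    have hout : ∀ y ∈ K1, ∀ x ∈ X, D y x → x ∉ K1 ∧ ∃ z ∈ K1, D x z := by
      intro y hy x hx hyx
      obtain ⟨hyX, n, hn, hw⟩ := (mK1 y).1 hy
      have hodd : ∃ n, Odd n ∧ Walk E n s x :=
        ⟨n + 1, hn.add_one, hw.trans (walk_one ⟨hyx, hyX, hx⟩)⟩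
      have hxK : x ∉ K1 := by
        intro hxK
        exact hdisj x hx ((mK1 x).1 hxK).2 hodd
      refine ⟨hxK, ?_⟩
      obtain ⟨m, hm, hw'⟩ := hodd
      obtain ⟨k, hk⟩ := hback x hx ⟨m, hw'⟩
      rcases k with _ | k
      · have : x = s := hk
        rw [this] at hxK
        exact absurd hsK hxK
      · obtain ⟨z, hxz, hz⟩ := hk
        refine ⟨z, (mK1 z).2 ⟨hxz.2.2, m + 1, hm.add_one, hw'.trans (walk_one hxz)⟩, hxz.1⟩
    refine ⟨K1 ∪ K', ?_, ?_, ?_⟩
    · apply Finset.union_subset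
      · rw [hK1]; exact Finset.filter_subset _ _
      · exact hK'.trans hXX.1
    · intro x hx y hy hxy
      rcases Finset.mem_union.1 hx with hx | hx
      · rcases Finset.mem_union.1 hy with hy | hy
        · exact (hout x hx y ((mK1 y).1 hy).1 hxy).1 hy
        · have h1 := (mX' y).1 (hK' hy)
          obtain ⟨-, z, hz, hyz⟩ := hout x hx y h1.1 hxy
          exact h1.2.2 z hz hyz
      · rcases Finset.mem_union.1 hy with hy | hy
        · exact ((mX' x).1 (hK' hx)).2.2 y hy hxy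
        · exact hind x hx y hy hxy
    · intro x hx hxK
      rw [Finset.mem_union, not_or] at hxK
      by_cases hab : ∃ y ∈ K1, D x y
      · obtain ⟨y, hy, hxy⟩ := hab
        exact ⟨y, Finset.mem_union_left _ hy, hxy⟩
      · have hxX' : x ∈ X' := by
          rw [mX']
          exact ⟨hx, hxK.1, fun y hy hxy => hab ⟨y, hy, hxy⟩⟩
        obtain ⟨y, hy, hxy⟩ := habs x hxX' hxK.2
        exact ⟨y, Finset.mem_union_right _ hy, hxy⟩

end Pool.Agent.H35.Lir
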