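import Pool.Agent.H35.Lir.Lab

/-!
Resolution of the deferred vertices, and the theorem for acyclic digraphs.
-/

namespace Pool.Agent.H35.Lir

open Finset

variable {V : Type} [Fintype V]

theorem pattern_big {α : Type*} [DecidableEq α] {S : Finset α} {s : α → ℕ} (h : Pattern S s) :
    ∃ u ∈ S, #S < s u ∧ s u ≤ 2 * #S := by
  rcases h with ⟨p, hp, h1, -⟩ | ⟨h3, p, hp, q, hq, r, hr, -, -, -, -, h | h⟩
  · have := Finset.card_pos.2 ⟨p, hp⟩
    exact ⟨p, hp, by omega, by omega⟩
  · exact ⟨p, hp, by omega, by omega⟩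
  · exact ⟨p, hp, by omega, by omega⟩

variable {D : V → V → Prop}

open Classical in
/-- the colouring given by the labels and the colours `s` of the deferred vertices -/
noncomputable def Lab.col (L : Lab D) (s : V → Fin 2) : V → V → Fin 2 :=
  fun x y => if L.k x = 0 then (if y ∈ L.T x then 0 else 1) else s x

/-- number of arcs of colour `i` entering `y` -/
noncomputable def nin (D : V → V → Prop) (c : V → V → Fin 2) (y : V) (i : Fin 2) : ℕ :=
  cnt2 (fun a b => D b a) (fun a b => c b a) y i

open Classical in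
theorem nin_def (c : V → V → Fin 2) (y : V) (i : Fin 2) :
    nin D c y i = #{z | D z y ∧ c z y = i} := rfl

open Classical in
/-- deferred vertices with real or deferred partner `y` -/
noncomputable def Lab.G (L : Lab D) (y : V) : Finset V := {z | L.k z = 1 ∧ L.p z = y}

open Classical in
/-- number of arcs of colour `i` entering `y` from vertices outside `G y` -/
noncomputable def Lab.base (L : Lab D) (s : V → Fin 2) (i : Fin 2) (y : V) : ℕ :=
  #{z | (D z y ∧ L.col s z y = i) ∧ ¬ (L.k z = 1 ∧ L.p z = y)}

theorem Lab.mem_G (L : Lab D) {z y : V} : z ∈ L.G y ↔ L.k z = 1 ∧ L.p z = y := by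
  classical
  unfold Lab.G
  simp

/-- deferred inneighbours of a vertex with label `(n, n)` -/
theorem Lab.cls (L : Lab D) {z y : V} {n : ℕ} (hA : L.A y = n) (hB : L.B y = n) (hzy : D z y)
    (hz : L.k z ≠ 0) : (L.k z = 1 ∧ L.p z = y ∧ outDeg D z = n) ∨
      (¬ (L.k z = 1 ∧ L.p z = y) ∧ n < outDeg D z) := by
  rcases L.hk z with h | h | h
  · exact absurd h hz
  · obtain ⟨h1, h2, h3, h4, h5, h6⟩ := L.hone z h
    by_cases hp : L.p z = y
    · left
      rw [hp] at h4
      exact ⟨h, hp, by omega⟩
    · right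
      have := (h6 y hzy (fun h => hp h.symm)).1
      exact ⟨fun h => hp h.2, by omega⟩
  · obtain ⟨h1, h2, h3, h4⟩ := L.htwo z h
    right
    refine ⟨fun h' => by omega, ?_⟩
    rcases h4 y hzy with h5 | h5 <;> omega

theorem Lab.base_congr (L : Lab D) {s s' : V → Fin 2} {y : V} {n : ℕ} (hA : L.A y = n)
    (hB : L.B y = n) (h : ∀ z, L.k z ≠ 0 → n < outDeg D z → s' z = s z) (i : Fin 2) :
    L.base s' i y = L.base s i y := by
  classical
  unfold Lab.base
  congr 1
  ext z
  simp only [Finset.mem_filter, Finset.mem_univ, true_and]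
  refine and_congr_left fun hz => and_congr_right fun hzy => ?_
  unfold Lab.col
  by_cases hk : L.k z = 0
  · rw [if_pos hk, if_pos hk]
  · rw [if_neg hk, if_neg hk]
    rcases L.cls hA hB hzy hk with h1 | h1
    · exact absurd ⟨h1.1, h1.2.1⟩ hz
    · rw [h z hk h1.2]

open Classical in
theorem Lab.nin_eq (L : Lab D) (s : V → Fin 2) (y : V) (i : Fin 2) :
    nin D (L.col s) y i = L.base s i y + #((L.G y).filter fun z => s z = i) := by
  rw [nin_def, ← Finset.card_filter_add_card_filter_not (s := ({z | D z y ∧ L.col s z y = i} :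
    Finset V)) (fun z => ¬ (L.k z = 1 ∧ L.p z = y)), Finset.filter_filter, Finset.filter_filter]
  unfold Lab.base
  congr 2
  ext z
  simp only [Finset.mem_filter, Finset.mem_univ, true_and, not_not]
  rw [L.mem_G]
  constructor
  · rintro ⟨⟨h1, h2⟩, h3⟩
    refine ⟨h3, ?_⟩
    unfold Lab.col at h2
    rwa [if_neg (by omega)] at h2
  · rintro ⟨h3, h2⟩
    refine ⟨⟨?_, ?_⟩, h3⟩
    · rw [← h3.2]
      exact (L.hone z h3.1).2.2.1
    · unfold Lab.col
      rw [if_neg (by omega)]
      exact h2

theorem nin_add (c : V → V → Fin 2) (y : V) :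
    nin D c y 0 + nin D c y 1 = inDeg D y :=
  cnt2_add (fun a b => D b a) (fun a b => c b a) y

open Classical in
theorem Lab.base_add (L : Lab D) (s : V → Fin 2) (y : V) :
    L.base s 0 y + L.base s 1 y + #(L.G y) = inDeg D y := by
  rw [← nin_add (L.col s) y, L.nin_eq, L.nin_eq]
  have : #(L.G y) = #((L.G y).filter fun z => s z = 0) + #((L.G y).filter fun z => s z = 1) := by
    rw [← Finset.card_filter_add_card_filter_not (s := L.G y) (fun z => s z = 0)]
    congr 2
    ext z
    simp only [Finset.mem_filter]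
    refine and_congr_right fun _ => ?_
    rcases fin2 (s z) with h | h <;> simp [h]
  omega

/-- the condition on a deferred vertex -/
def Lab.OK (L : Lab D) (s : V → Fin 2) (x : V) : Prop :=
  (L.k x = 1 → L.k (L.p x) = 0 →
    nin D (L.col s) x (s x) ≠ nin D (L.col s) (L.p x) (s x)) ∧
  (L.k x = 1 → L.k (L.p x) ≠ 0 → s x ≠ s (L.p x)) ∧
  (L.k x = 2 → nin D (L.col s) x (s x) = 0)

/-- the other colour -/
def fl (i : Fin 2) : Fin 2 := if i = 0 then 1 else 0

theorem fl_ne (i : Fin 2) : fl i ≠ i := by
  fin_cases i <;> decide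

theorem Lab.nin_congr (L : Lab D) {s s' : V → Fin 2} {y : V} {n d : ℕ} (hA : L.A y = d)
    (hB : L.B y = d) (hnd : n < d) (h : ∀ z, n < outDeg D z → s' z = s z) (i : Fin 2) :
    nin D (L.col s') y i = nin D (L.col s) y i := by
  classical
  rw [nin_def, nin_def]
  congr 1
  ext z
  simp only [Finset.mem_filter, Finset.mem_univ, true_and]
  refine and_congr_right fun hzy => ?_
  unfold Lab.col
  by_cases hk : L.k z = 0
  · rw [if_pos hk, if_pos hk]
  · rw [if_neg hk, if_neg hk]
    have : n < outDeg D z := by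
      rcases L.cls hA hB hzy hk with h1 | h1
      · omega
      · omega
    rw [h z this]

/-- one class -/
theorem Lab.step (L : Lab D) (hac : ∀ x, ¬ Relation.TransGen D x x)
    (h1 : ∀ u w, CriticalPair D u w → inDeg D u ≤ inDeg D w) (n : ℕ)
    (s : V → Fin 2) (hs : ∀ x, L.k x ≠ 0 → n + 1 ≤ outDeg D x → L.OK s x) :
    ∃ s' : V → Fin 2, ∀ x, L.k x ≠ 0 → n ≤ outDeg D x → L.OK s' x := by
  classical
  obtain ⟨ρ, hρ⟩ := exists_rank D hac
  -- the choice in the groups with real partner
  have hR : ∀ w, ∃ R : Finset V, L.k w = 0 → L.A w = n → L.B w = n → inDeg D w ≠ 0 →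
      R ⊆ L.G w ∧ (∀ u ∈ L.G w, u ∈ R → L.base s 0 u ≠ L.base s 0 w + #R) ∧
        ∀ u ∈ L.G w, u ∉ R → L.base s 1 u ≠ L.base s 1 w + #(L.G w \ R) := by
    intro w
    by_cases hw : L.k w = 0 ∧ L.A w = n ∧ L.B w = n ∧ inDeg D w ≠ 0
    · obtain ⟨hk, hA, hB, hin⟩ := hw
      obtain ⟨a, ha⟩ : ∃ a : V → ℕ, ∀ u, a u =
        if L.base s 0 w ≤ L.base s 0 u then L.base s 0 u - L.base s 0 w
          else 3 * #(L.G w) + 3 := ⟨_, fun _ => rfl⟩
      obtain ⟨b, hb⟩ : ∃ b : V → ℕ, ∀ u, b u =
        if L.base s 1 w ≤ L.base s 1 u then L.base s 1 u - L.base s 1 w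
          else 3 * #(L.G w) + 3 := ⟨_, fun _ => rfl⟩
      obtain ⟨R, hRG, -, hR1, hR2⟩ := local_split (L.G w) (L.G w) subset_rfl a b ∅ (by
        right; right
        refine ⟨rfl, fun hp => ?_⟩
        obtain ⟨u, hu, hu1, hu2⟩ := pattern_big hp
        rw [L.mem_G] at hu
        obtain ⟨g1, g2, g3, g4, g5, g6⟩ := L.hone u hu.1
        rw [hu.2] at g3 g4
        have hdeg : outDeg D w = 2 * outDeg D u := by
          have := (L.hreal w hin hk).2.2.1
          omega
        have h2 := h1 u w ⟨g3, hdeg, fun x hux hxw => by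
          obtain ⟨-, h7⟩ := g6 x hux (by rw [hu.2]; exact hxw)
          have hxin : inDeg D x ≠ 0 := by
            intro h
            rw [inDeg, Set.ncard_eq_zero (Set.toFinite _), Set.eq_empty_iff_forall_notMem] at h
            exact h u hux
          rcases L.hk x with h8 | h8 | h8
          · have h9 := (L.hreal x hxin h8).2.2.1
            omega
          · have h9 := (L.hone x h8).1
            have h10 := (L.hone x h8).2.1
            omega
          · have h9 := (L.htwo x h8).1
            have h10 := (L.htwo x h8).2.1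
            omega⟩
        have h3 := L.base_add s u
        have h4 := L.base_add s w
        rw [ha, hb] at hu1 hu2
        split_ifs at hu1 hu2 <;> omega)
      refine ⟨R, fun _ _ _ _ => ⟨hRG, fun u hu huR heq => ?_, fun u hu huR heq => ?_⟩⟩
      · apply hR1 u hu huR
        rw [ha, if_pos (by omega)]
        omega
      · apply hR2 u hu huR
        rw [hb, if_pos (by omega)]
        omega
    · exact ⟨∅, fun h2 h3 h4 h5 => absurd ⟨h2, h3, h4, h5⟩ hw⟩
  choose R hR using hR
  -- the choice at deferred vertices of the second kind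
  have hi : ∀ x, ∃ i : Fin 2, L.k x = 2 → L.base s i x = 0 := by
    intro x
    by_cases hx : L.k x = 2
    · have h2 := L.base_add s x
      have h3 := (L.htwo x hx).2.2.1
      by_cases h4 : L.base s 0 x = 0
      · exact ⟨0, fun _ => h4⟩
      · exact ⟨1, fun _ => by omega⟩
    · exact ⟨0, fun h => absurd h hx⟩
  choose i hi using hi
  obtain ⟨s0, hs0⟩ : ∃ s0 : V → Fin 2, ∀ x, s0 x = if L.k x = 2 then i x else
    (if x ∈ R (L.p x) then 0 else 1) := ⟨_, fun _ => rfl⟩
  -- the vertices with deferred partner
  obtain ⟨f, hf⟩ := exists_rec ρ (fun v (x : Fin 2) g =>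
    x = if L.k v = 1 ∧ L.k (L.p v) ≠ 0 then fl (g (L.p v)) else s0 v)
    (by
      intro v x g g' hg hx
      rw [hx]
      by_cases hc : L.k v = 1 ∧ L.k (L.p v) ≠ 0
      · rw [if_pos hc, if_pos hc, hg _ (hρ _ _ (L.hone v hc.1).2.2.1)]
      · rw [if_neg hc, if_neg hc]) (fun _ => 0) (fun v g _ => ⟨_, rfl⟩)
  obtain ⟨s', hs'⟩ : ∃ s' : V → Fin 2, ∀ x, s' x = if outDeg D x = n then f x else s x :=
    ⟨_, fun _ => rfl⟩
  have hs'n : ∀ x, outDeg D x = n → s' x = f x := fun x hx => by rw [hs', if_pos hx]
  have hs's : ∀ x, n < outDeg D x → s' x = s x := fun x hx => by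
    rw [hs', if_neg (by omega)]
  have hbase : ∀ y i, L.A y = n → L.B y = n → L.base s' i y = L.base s i y := by
    intro y i hA hB
    exact L.base_congr hA hB (fun z _ hz => hs's z hz) i
  -- deferred vertices of class `n`: the inneighbours in `G` have the other colour
  have hchild : ∀ y, L.k y ≠ 0 → L.A y = n → L.B y = n → outDeg D y = n →
      nin D (L.col s') y (s' y) = L.base s (s' y) y := by
    intro y hk hA hB hd
    rw [L.nin_eq, hbase y _ hA hB, Finset.card_eq_zero.2, Nat.add_zero]
    rw [Finset.filter_eq_empty_iff]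
    intro z hz heq
    rw [L.mem_G] at hz
    obtain ⟨g1, g2, g3, g4, g5, g6⟩ := L.hone z hz.1
    rw [hz.2] at g4
    have hdz : outDeg D z = n := by omega
    rw [hs'n z hdz, hs'n y hd, hf z, if_pos ⟨hz.1, by rw [hz.2]; exact hk⟩, hz.2] at heq
    exact fl_ne _ heq
  refine ⟨s', fun x hk hx => ?_⟩
  rcases Nat.lt_or_ge n (outDeg D x) with hlt | hge
  · -- larger classes are not affected
    obtain ⟨k1, k2, k3⟩ := hs x hk (by omega)
    have hss : s' x = s x := hs's x hlt
    refine ⟨fun e1 e2 => ?_, fun e1 e2 => ?_, fun e1 => ?_⟩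
    · obtain ⟨g1, g2, g3, g4, g5, g6⟩ := L.hone x e1
      rw [hss, L.nin_congr g1 g2 hlt hs's, L.nin_congr g4 g5 hlt hs's]
      exact k1 e1 e2
    · obtain ⟨g1, g2, g3, g4, g5, g6⟩ := L.hone x e1
      have hpd : outDeg D (L.p x) = outDeg D x := by
        rcases L.hk (L.p x) with h | h | h
        · exact absurd h e2
        · have := (L.hone _ h).1
          omega
        · have := (L.htwo _ h).1
          omega
      rw [hss, hs's _ (by omega)]
      exact k2 e1 e2
    · obtain ⟨g1, g2, g3, g4⟩ := L.htwo x e1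
      rw [hss, L.nin_congr g1 g2 hlt hs's]
      exact k3 e1
  · have hd : outDeg D x = n := by omega
    refine ⟨fun e1 e2 => ?_, fun e1 e2 => ?_, fun e1 => ?_⟩
    · obtain ⟨g1, g2, g3, g4, g5, g6⟩ := L.hone x e1
      have hin : inDeg D (L.p x) ≠ 0 := by
        intro h
        rw [inDeg, Set.ncard_eq_zero (Set.toFinite _), Set.eq_empty_iff_forall_notMem] at h
        exact h x g3
      obtain ⟨hRG, hR1, hR2⟩ := hR (L.p x) e2 (by omega) (by omega) hin
      have hxG : x ∈ L.G (L.p x) := L.mem_G.2 ⟨e1, rfl⟩
      have hGs : ∀ z ∈ L.G (L.p x), s' z = if z ∈ R (L.p x) then 0 else 1 := by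
        intro z hz
        rw [L.mem_G] at hz
        have hdz : outDeg D z = n := by
          have := (L.hone z hz.1).2.2.2.1
          rw [hz.2] at this
          omega
        rw [hs'n z hdz, hf z, if_neg (by rw [hz.2]; exact fun h => h.2 e2), hs0,
          if_neg (by omega), hz.2]
      rw [hchild x hk (by omega) (by omega) hd, L.nin_eq, hbase _ _ (by omega) (by omega)]
      by_cases hxR : x ∈ R (L.p x)
      · have hsx : s' x = 0 := by rw [hGs x hxG, if_pos hxR]
        have hfil : ((L.G (L.p x)).filter fun z => s' z = 0) = R (L.p x) := by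
          ext z
          rw [Finset.mem_filter]
          constructor
          · rintro ⟨h2, h3⟩
            rw [hGs z h2] at h3
            by_contra h4
            rw [if_neg h4] at h3
            exact absurd h3 (by decide)
          · intro h2
            exact ⟨hRG h2, by rw [hGs z (hRG h2), if_pos h2]⟩
        rw [hsx, hfil]
        exact hR1 x hxG hxR
      · have hsx : s' x = 1 := by rw [hGs x hxG, if_neg hxR]
        have hfil : ((L.G (L.p x)).filter fun z => s' z = 1) =
            L.G (L.p x) \ R (L.p x) := by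
          ext z
          rw [Finset.mem_filter, Finset.mem_sdiff]
          refine and_congr_right fun h2 => ?_
          rw [hGs z h2]
          constructor
          · intro h3 h4
            rw [if_pos h4] at h3
            exact absurd h3 (by decide)
          · intro h3
            rw [if_neg h3]
        rw [hsx, hfil]
        exact hR2 x hxG hxR
    · obtain ⟨g1, g2, g3, g4, g5, g6⟩ := L.hone x e1
      have hpd : outDeg D (L.p x) = n := by
        rcases L.hk (L.p x) with h | h | h
        · exact absurd h e2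
        · have := (L.hone _ h).1
          omega
        · have := (L.htwo _ h).1
          omega
      rw [hs'n x hd, hs'n _ hpd, hf x, if_pos ⟨e1, e2⟩]
      exact fl_ne _
    · obtain ⟨g1, g2, g3, g4⟩ := L.htwo x e1
      rw [hchild x hk (by omega) (by omega) hd]
      have hsx : s' x = i x := by
        rw [hs'n x hd, hf x, if_neg (fun h => by omega), hs0, if_pos e1]
      rw [hsx]
      exact hi x e1

theorem Lab.exists_ok (L : Lab D) (hac : ∀ x, ¬ Relation.TransGen D x x)
    (h1 : ∀ u w, CriticalPair D u w → inDeg D u ≤ inDeg D w) :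
    ∃ s : V → Fin 2, ∀ x, L.k x ≠ 0 → L.OK s x := by
  have main : ∀ m n : ℕ, n + m = (∑ v, outDeg D v) + 1 →
      ∃ s : V → Fin 2, ∀ x, L.k x ≠ 0 → n ≤ outDeg D x → L.OK s x := by
    intro m
    induction m with
    | zero =>
      intro n hn
      refine ⟨fun _ => 0, fun x _ hx => ?_⟩
      have := Finset.single_le_sum (f := fun v => outDeg D v) (fun _ _ => Nat.zero_le _)
        (Finset.mem_univ x)
      omega
    | succ m ih =>
      intro n hn
      obtain ⟨s, hs⟩ := ih (n + 1) (by omega)
      exact L.step hac h1 n s hs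
  obtain ⟨s, hs⟩ := main _ 0 (Nat.zero_add _)
  exact ⟨s, fun x hx => hs x hx (Nat.zero_le _)⟩

/-- values of the outdegrees -/
theorem Lab.cnt_real (L : Lab D) (s : V → Fin 2) {y : V} (hin : inDeg D y ≠ 0)
    (hk : L.k y = 0) : cnt2 D (L.col s) y 0 = L.A y ∧ cnt2 D (L.col s) y 1 = L.B y := by
  classical
  obtain ⟨h1, h2, h3, -, -⟩ := L.hreal y hin hk
  have h0 : cnt2 D (L.col s) y 0 = L.A y := by
    rw [h2]
    unfold cnt2
    congr 1
    ext z
    simp only [Finset.mem_filter, Finset.mem_univ, true_and]
    unfold Lab.col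
    rw [if_pos hk]
    constructor
    · rintro ⟨h4, h5⟩
      by_contra h6
      rw [if_neg h6] at h5
      exact absurd h5 (by decide)
    · intro h4
      exact ⟨h1 z h4, if_pos h4⟩
  have := cnt2_add D (L.col s) y
  exact ⟨h0, by omega⟩

theorem Lab.cnt_def (L : Lab D) (s : V → Fin 2) {y : V} (hk : L.k y ≠ 0) (i : Fin 2) :
    cnt2 D (L.col s) y i = outDeg D y ∨ (s y ≠ i ∧ cnt2 D (L.col s) y i = 0) := by
  classical
  by_cases h : s y = i
  · left
    rw [← outDeg_card]
    unfold cnt2
    congr 1
    ext z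
    simp only [Finset.mem_filter, Finset.mem_univ, true_and]
    unfold Lab.col
    rw [if_neg hk]
    simp [h]
  · right
    refine ⟨h, ?_⟩
    unfold cnt2
    rw [Finset.card_eq_zero, Finset.filter_eq_empty_iff]
    rintro z - ⟨-, h2⟩
    unfold Lab.col at h2
    rw [if_neg hk] at h2
    exact h h2

/-- **Acyclic digraphs.** -/
theorem acyclic_two (hac : ∀ x, ¬ Relation.TransGen D x x)
    (h1 : ∀ u w, CriticalPair D u w → inDeg D u ≤ inDeg D w)
    (h2 : ∀ u, 2 ≤ inDeg D u → ¬ Exceptional D u) :
    ∃ c : V → V → Fin 2, IsWLIColouring D c := by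
  classical
  obtain ⟨L⟩ := exists_lab D hac h2
  obtain ⟨s, hs⟩ := L.exists_ok hac h1
  refine ⟨L.col s, ?_⟩
  rintro i x y ⟨hxy, rfl⟩
  by_cases hx0 : inDeg D x = 0
  · exact good_of_source hxy hx0
  intro heq
  simp only [Prod.mk.injEq] at heq
  have ho : cnt2 D (L.col s) x (L.col s x y) = cnt2 D (L.col s) y (L.col s x y) := by
    rw [← outDeg_cnt2, ← outDeg_cnt2]
    exact heq.1
  have hn : nin D (L.col s) x (L.col s x y) = nin D (L.col s) y (L.col s x y) := by
    unfold nin
    rw [← inDeg_cnt2, ← inDeg_cnt2]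
    exact heq.2
  have hpos : 0 < cnt2 D (L.col s) x (L.col s x y) := by
    unfold cnt2
    exact Finset.card_pos.2 ⟨y, by simp [hxy]⟩
  have hnpos : 0 < nin D (L.col s) y (L.col s x y) := by
    rw [nin_def]
    exact Finset.card_pos.2 ⟨x, by simp [hxy]⟩
  have hy0 : inDeg D y ≠ 0 := by
    intro h
    rw [inDeg, Set.ncard_eq_zero (Set.toFinite _), Set.eq_empty_iff_forall_notMem] at h
    exact h x hxy
  by_cases hkx : L.k x = 0
  · -- `x` is real
    obtain ⟨r1, r2, r3, r4, r5⟩ := L.hreal x hx0 hkx
    obtain ⟨c0, c1⟩ := L.cnt_real s hx0 hkx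
    by_cases hyT : y ∈ L.T x
    · have hcol : L.col s x y = 0 := by
        unfold Lab.col; rw [if_pos hkx, if_pos hyT]
      rw [hcol] at ho hpos
      rw [c0] at ho hpos
      have h3 := r4 y hxy hyT
      by_cases hky : L.k y = 0
      · rw [(L.cnt_real s hy0 hky).1] at ho
        exact h3 ho.symm
      · have hAy : L.A y = outDeg D y := by
          rcases L.hk y with h | h | h
          · exact absurd h hky
          · exact (L.hone y h).1
          · exact (L.htwo y h).1
        rcases L.cnt_def s hky 0 with h | h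
        · omega
        · omega
    · have hcol : L.col s x y = 1 := by
        unfold Lab.col; rw [if_pos hkx, if_neg hyT]
      rw [hcol] at ho hpos
      rw [c1] at ho hpos
      have h3 := r5 y hxy hyT
      by_cases hky : L.k y = 0
      · rw [(L.cnt_real s hy0 hky).2] at ho
        exact h3 ho.symm
      · have hBy : L.B y = outDeg D y := by
          rcases L.hk y with h | h | h
          · exact absurd h hky
          · exact (L.hone y h).2.1
          · exact (L.htwo y h).2.1
        rcases L.cnt_def s hky 1 with h | h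
        · omega
        · omega
  · -- `x` is deferred
    have hcol : L.col s x y = s x := by
      unfold Lab.col; rw [if_neg hkx]
    rw [hcol] at ho hn hpos hnpos
    obtain ⟨k1, k2, k3⟩ := hs x hkx
    have hox : cnt2 D (L.col s) x (s x) = outDeg D x := by
      rcases L.cnt_def s hkx (s x) with h | h
      · exact h
      · exact absurd rfl h.1
    rcases L.hk x with h | h | h
    · exact hkx h
    · obtain ⟨g1, g2, g3, g4, g5, g6⟩ := L.hone x h
      by_cases hyp : y = L.p x
      · by_cases hky : L.k y = 0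
        · apply k1 h (by rw [← hyp]; exact hky)
          rw [← hyp]
          exact hn
        · have h3 := k2 h (by rw [← hyp]; exact hky)
          rw [← hyp] at h3
          have h4 : cnt2 D (L.col s) y (s x) = 0 := by
            unfold cnt2
            rw [Finset.card_eq_zero, Finset.filter_eq_empty_iff]
            rintro z - ⟨-, h5⟩
            unfold Lab.col at h5
            rw [if_neg hky] at h5
            exact h3 h5.symm
          omega
      · obtain ⟨⟨h3, h4⟩, -⟩ := g6 y hxy hyp
        by_cases hky : L.k y = 0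
        · obtain ⟨c0, c1⟩ := L.cnt_real s hy0 hky
          rcases fin2 (s x) with h5 | h5
          · rw [h5] at ho hox
            omega
          · rw [h5] at ho hox
            omega
        · have hAy : L.A y = outDeg D y := by
            rcases L.hk y with h | h | h
            · exact absurd h hky
            · exact (L.hone y h).1
            · exact (L.htwo y h).1
          rcases L.cnt_def s hky (s x) with h5 | h5
          · omega
          · omega
    · have := k3 h
      omega

end Pool.Agent.H35.Lir
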