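import Pool.Agent.H35.Lir.Conds
import Pool.Agent.H35.Lir.FrameCor
import Pool.Agent.H35.Lir.Kernel
import Pool.Agent.H35.Lir.Resolve

/-!
Two colours for digraphs whose strongly ascending vertices induce a bipartite skeleton; outdegrees
at most three.
-/

namespace Pool.Agent.H35.Lir

open Finset

variable {V : Type}

theorem exists_two_of_strAsc [Fintype V] (D : V → V → Prop) (hD : ∀ x, ¬ D x x) (ρ : V → Fin 2)
    (hρ : ∀ x y, D x y → StrAsc D x → StrAsc D y → ρ x ≠ ρ y) :
    ∃ c : V → V → Fin 2, IsWLIColouring D c := by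
  obtain ⟨n, hn⟩ : ∃ n : ℝ, n = (Fintype.card V : ℝ) := ⟨_, rfl⟩
  have hn0 : 0 ≤ n := by rw [hn]; positivity
  have hpos : 0 < n + 1 := by linarith
  have hinle : ∀ x, (inDeg D x : ℝ) ≤ n := by
    intro x
    have : inDeg D x ≤ Fintype.card V := by
      unfold inDeg
      rw [← Nat.card_eq_fintype_card, ← Set.ncard_univ]
      exact Set.ncard_le_ncard (Set.subset_univ _) (Set.toFinite _)
    rw [hn]
    exact_mod_cast this
  obtain ⟨s, hs, hs1, hmul⟩ : ∃ s : ℝ, 0 < s ∧ s ≤ 1 ∧ s * (n + 1) = 1 := by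
    refine ⟨1 / (n + 1), by positivity, ?_, by field_simp⟩
    rw [div_le_one hpos]; linarith
  have h21 : ((2 : ℕ) : ℝ) - 1 = 1 := by norm_num
  refine exists_colouring_frame D hD (by norm_num) (t := 1 - s) (by linarith)
    (by linarith) {x | StrAsc D x} ρ (fun x => fl (ρ x)) (fun x _ => (fl_ne _).symm) ?_ ?_
  · intro x hx y hy hxy heq
    exact hρ x y hxy hx hy (congrArg Prod.fst heq)
  · intro x y hx hy hxy hsrc _
    have hnx : ¬ StrAsc D x := hx
    have hcase : outDeg D y ≤ outDeg D x ∨ (outDeg D y = outDeg D x + 1 ∧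
        inDeg D x ≤ inDeg D y) := by
      by_contra hcon
      apply hnx
      refine ⟨hsrc, y, hxy, ?_⟩
      push Not at hcon
      obtain ⟨h1, h2⟩ := hcon
      by_cases h3 : outDeg D y = outDeg D x + 1
      · exact Or.inr ⟨h3, h2 h3⟩
      · left; omega
    have hix := hinle x
    have hiy : (0 : ℝ) ≤ inDeg D y := by positivity
    rw [h21]
    rcases hcase with h | ⟨h1, h2⟩
    · have h' : (outDeg D y : ℝ) ≤ outDeg D x := by exact_mod_cast h
      have e1 : (1 - s) * ((outDeg D y : ℝ) - outDeg D x) ≤ 0 :=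
        mul_nonpos_of_nonneg_of_nonpos (by linarith) (by linarith)
      have e2 : s * ((inDeg D x : ℝ) - inDeg D y) ≤ s * n :=
        mul_le_mul_of_nonneg_left (by linarith) hs.le
      have e3 : s * n < 1 := by nlinarith
      have e4 : 1 - (1 - s) = s := by ring
      rw [e4]
      linarith
    · have h1' : (outDeg D y : ℝ) - outDeg D x = 1 := by
        rw [h1]; push_cast; ring
      have h2' : (inDeg D x : ℝ) ≤ inDeg D y := by exact_mod_cast h2
      have e2 : s * ((inDeg D x : ℝ) - inDeg D y) ≤ 0 :=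
        mul_nonpos_of_nonneg_of_nonpos hs.le (by linarith)
      have e4 : 1 - (1 - s) = s := by ring
      rw [h1', e4]
      linarith

/-- outdegrees at most three -/
theorem exists_two_of_outDeg_three [Fintype V] (D : V → V → Prop) (hD : ∀ x, ¬ D x x)
    (h : ∀ x, inDeg D x ≠ 0 → outDeg D x ≤ 3)
    (hodd : ∀ x n, Odd n → ¬ Walk (fun a b => D a b ∧ StrAsc D a ∧ StrAsc D b) n x x) :
    ∃ c : V → V → Fin 2, IsWLIColouring D c := by
  classical
  have hpos : ∀ u v, D u v → inDeg D v ≠ 0 := by
    intro u v huv h0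
    rw [inDeg, Set.ncard_eq_zero (Set.toFinite _), Set.eq_empty_iff_forall_notMem] at h0
    exact h0 u huv
  -- at most one strongly ascending outneighbour
  have huniq : ∀ x y z, StrAsc D x → D x y → StrAsc D y → D x z → StrAsc D z → y = z := by
    intro x y z hx hy hy' hz hz'
    by_contra hne
    have h2 : 2 ≤ outDeg D x := by
      rw [← Set.ncard_pair hne]
      apply Set.ncard_le_ncard _ (Set.toFinite _)
      rintro w (rfl | rfl)
      · exact hy
      · exact hz
    obtain ⟨-, u, hxu, hlt⟩ := hx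
    have hu3 := h u (hpos x u hxu)
    have hna : ¬ StrAsc D u := by
      rintro ⟨-, w, huw, hlt'⟩
      have := h w (hpos u w huw)
      omega
    have huy : u ≠ y := fun h => hna (h ▸ hy')
    have huz : u ≠ z := fun h => hna (h ▸ hz')
    have h3 : 3 ≤ outDeg D x := by
      have : ({u, y, z} : Set V).ncard = 3 := by
        rw [Set.ncard_eq_three]
        exact ⟨u, y, z, huy, huz, hne, rfl⟩
      rw [← this]
      apply Set.ncard_le_ncard _ (Set.toFinite _)
      rintro w (rfl | rfl | rfl)
      · exact hxu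
      · exact hy
      · exact hz
    omega
  obtain ⟨K, hK, hind, habs⟩ := exists_kernel _ hodd (Finset.univ.filter fun x => StrAsc D x)
  have mK : ∀ x ∈ K, StrAsc D x := by
    intro x hx
    have := hK hx
    simpa using this
  refine exists_two_of_strAsc D hD (fun x => if x ∈ K then 0 else 1) ?_
  intro x y hxy hx hy
  by_cases h1 : x ∈ K
  · by_cases h2 : y ∈ K
    · exact absurd ⟨hxy, hx, hy⟩ (hind x h1 y h2)
    · simp [h1, h2]
  · by_cases h2 : y ∈ K
    · simp [h1, h2]
    · exfalso
      obtain ⟨z, hz, hxz⟩ := habs x (by simp [hx]) h1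
      rw [huniq x y z hx hxy hy hxz.1 hxz.2.2] at h2
      exact h2 hz

end Pool.Agent.H35.Lir
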