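import Pool.Agent.H35.Lir.Factor

/-!
# Choosing the windows

For every vertex we choose windows such that adjacent vertices cannot conflict.
-/

namespace Pool.Agent.H35.Lir.Fac

open Finset

/-- the possible degrees when the fixed part is `f` and the windows are `{a, a+1}`, `{b, b+1}` -/
def win (f a b : ℕ) : Finset ℕ := {f + a, f + a + 1, f + b, f + b + 1}

lemma mem_win {f a b p : ℕ} :
    p ∈ win f a b ↔ p = f + a ∨ p = f + a + 1 ∨ p = f + b ∨ p = f + b + 1 := by
  simp [win]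

lemma card_win (f a b : ℕ) : (win f a b).card ≤ 4 := by
  unfold win
  exact card_le_four

/-- no conflict is possible between a vertex with total degrees `o₁, n₁` whose first degrees are in
`P₁ × Q₁` and a vertex with total degrees `o₂, n₂` whose first degrees are in `P₂ × Q₂`. -/
def Cpt (o₁ n₁ : ℕ) (P₁ Q₁ : Finset ℕ) (o₂ n₂ : ℕ) (P₂ Q₂ : Finset ℕ) : Prop :=
  ∀ p ∈ P₁, ∀ q ∈ Q₁, ∀ p' ∈ P₂, ∀ q' ∈ Q₂,
    ¬ (p = p' ∧ q = q') ∧ ¬ (o₁ + p' = o₂ + p ∧ n₁ + q' = n₂ + q)

lemma Cpt.symm {o₁ n₁ : ℕ} {P₁ Q₁ : Finset ℕ} {o₂ n₂ : ℕ} {P₂ Q₂ : Finset ℕ}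
    (h : Cpt o₁ n₁ P₁ Q₁ o₂ n₂ P₂ Q₂) : Cpt o₂ n₂ P₂ Q₂ o₁ n₁ P₁ Q₁ := by
  intro p hp q hq p' hp' q' hq'
  have := h p' hp' q' hq' p hp q hq
  constructor
  · rintro ⟨h1, h2⟩; exact this.1 ⟨h1.symm, h2.symm⟩
  · rintro ⟨h1, h2⟩; exact this.2 ⟨h1.symm, h2.symm⟩

lemma adm_choice {d i j : ℕ} (hi : i < d / 6) (hj : j < d / 6) : Adm d (d / 2 - i) (d / 2 + j) := by
  unfold Adm; omega

lemma adm_triv (d : ℕ) : Adm d (d / 2) (d / 2) := by unfold Adm; omega

/-- a given value is hit by few choices -/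
lemma kill (f d w n : ℕ) (hn : n ≤ d / 2) :
    ((range n ×ˢ range n).filter fun ij : ℕ × ℕ =>
      w ∈ win f (d / 2 - ij.1) (d / 2 + ij.2)).card ≤ 4 * n := by
  have hsub : ((range n ×ˢ range n).filter fun ij : ℕ × ℕ =>
      w ∈ win f (d / 2 - ij.1) (d / 2 + ij.2)) ⊆
      (({f + d / 2 - w, f + d / 2 + 1 - w} : Finset ℕ) ×ˢ range n) ∪
        (range n ×ˢ ({w - (f + d / 2), w - (f + d / 2) - 1} : Finset ℕ)) := by
    rintro ⟨i, j⟩ h
    simp only [mem_filter, mem_product, mem_range, mem_win] at h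
    simp only [mem_union, mem_product, mem_range, mem_insert, mem_singleton]
    obtain ⟨⟨h1, h2⟩, h3⟩ := h
    rcases h3 with h3 | h3 | h3 | h3
    · left; exact ⟨Or.inl (by omega), h2⟩
    · left; exact ⟨Or.inr (by omega), h2⟩
    · right; exact ⟨h1, Or.inl (by omega)⟩
    · right; exact ⟨h1, Or.inr (by omega)⟩
  refine (card_le_card hsub).trans ((card_union_le _ _).trans ?_)
  rw [card_product, card_product, card_range]
  have e1 : ({f + d / 2 - w, f + d / 2 + 1 - w} : Finset ℕ).card ≤ 2 := card_le_two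
  have e2 : ({w - (f + d / 2), w - (f + d / 2) - 1} : Finset ℕ).card ≤ 2 := card_le_two
  nlinarith

/-- one coordinate: few forbidden values can be avoided -/
lemma sel1 (f d n : ℕ) (hn : n ≤ d / 2) (F : Finset ℕ) (hF : 4 * F.card < n) :
    ∃ i < n, ∃ j < n, ∀ w ∈ F, w ∉ win f (d / 2 - i) (d / 2 + j) := by
  classical
  by_contra hcon
  push Not at hcon
  have hsub : range n ×ˢ range n ⊆ F.biUnion fun w => (range n ×ˢ range n).filter
      fun ij : ℕ × ℕ => w ∈ win f (d / 2 - ij.1) (d / 2 + ij.2) := by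
    rintro ⟨i, j⟩ h
    simp only [mem_product, mem_range] at h
    obtain ⟨w, hw, hw'⟩ := hcon i h.1 j h.2
    simp only [mem_biUnion, mem_filter, mem_product, mem_range]
    exact ⟨w, hw, h, hw'⟩
  have h1 := card_le_card hsub
  have h2 : (F.biUnion fun w => (range n ×ˢ range n).filter
      fun ij : ℕ × ℕ => w ∈ win f (d / 2 - ij.1) (d / 2 + ij.2)).card ≤ F.card * (4 * n) :=
    card_biUnion_le_card_mul _ _ _ fun w _ => kill f d w n hn
  rw [card_product, card_range] at h1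
  have h3 : n * n ≤ F.card * (4 * n) := h1.trans h2
  have hn0 : 0 < n := by omega
  nlinarith

/-- two coordinates: few forbidden cells can be avoided -/
lemma sel2 (f d n f' d' n' : ℕ) (hn : n ≤ d / 2) (hn' : n' ≤ d' / 2) (F : Finset (ℕ × ℕ))
    (hF : 16 * F.card < n * n') :
    ∃ i < n, ∃ j < n, ∃ k < n', ∃ l < n', ∀ w ∈ F,
      ¬ (w.1 ∈ win f (d / 2 - i) (d / 2 + j) ∧ w.2 ∈ win f' (d' / 2 - k) (d' / 2 + l)) := by
  classical
  by_contra hcon
  push Not at hcon
  have hsub : (range n ×ˢ range n) ×ˢ (range n' ×ˢ range n') ⊆ F.biUnion fun w =>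
      ((range n ×ˢ range n).filter
        fun ij : ℕ × ℕ => w.1 ∈ win f (d / 2 - ij.1) (d / 2 + ij.2)) ×ˢ
      ((range n' ×ˢ range n').filter
        fun ij : ℕ × ℕ => w.2 ∈ win f' (d' / 2 - ij.1) (d' / 2 + ij.2)) := by
    rintro ⟨⟨i, j⟩, ⟨k, l⟩⟩ h
    simp only [mem_product, mem_range] at h
    obtain ⟨w, hw, hw', hw''⟩ := hcon i h.1.1 j h.1.2 k h.2.1 l h.2.2
    simp only [mem_biUnion, mem_filter, mem_product, mem_range]
    exact ⟨w, hw, ⟨h.1, hw'⟩, ⟨h.2, hw''⟩⟩
  have h1 := card_le_card hsub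
  have h2 : (F.biUnion fun w =>
      ((range n ×ˢ range n).filter
        fun ij : ℕ × ℕ => w.1 ∈ win f (d / 2 - ij.1) (d / 2 + ij.2)) ×ˢ
      ((range n' ×ˢ range n').filter
        fun ij : ℕ × ℕ => w.2 ∈ win f' (d' / 2 - ij.1) (d' / 2 + ij.2))).card
      ≤ F.card * ((4 * n) * (4 * n')) := by
    refine card_biUnion_le_card_mul _ _ _ fun w _ => ?_
    rw [card_product]
    exact Nat.mul_le_mul (kill f d w.1 n hn) (kill f' d' w.2 n' hn')
  rw [card_product, card_product, card_product, card_range, card_range] at h1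
  have h3 : n * n * (n' * n') ≤ F.card * ((4 * n) * (4 * n')) := h1.trans h2
  have hn0 : 0 < n * n' := by omega
  have h4 : (n * n') * (n * n') ≤ (16 * F.card) * (n * n') := by
    calc (n * n') * (n * n') = n * n * (n' * n') := by ring
      _ ≤ F.card * ((4 * n) * (4 * n')) := h3
      _ = (16 * F.card) * (n * n') := by ring
  have h5 := Nat.le_of_mul_le_mul_right h4 hn0
  omega

/-- a vertex with few neighbours -/
lemma degen {V : Type} [DecidableEq V] (R : V → V → Prop) [DecidableRel R] (W : Finset V)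
    (hW : W.Nonempty) (K : ℕ) (hR : ∀ v ∈ W, (W.filter fun w => R w v).card < K) :
    ∃ v ∈ W, (W.filter fun w => R v w ∨ R w v).card < 2 * K := by
  by_contra hcon
  push Not at hcon
  have h1 : ∑ v ∈ W, (W.filter fun w => R v w).card = ∑ w ∈ W, (W.filter fun v => R v w).card :=
    sum_card_bipartiteAbove_eq_sum_card_bipartiteBelow R
  have h2 : ∑ w ∈ W, (W.filter fun v => R v w).card < ∑ w ∈ W, K :=
    sum_lt_sum_of_nonempty hW hR
  have h3 : ∑ v ∈ W, (2 * K) ≤ ∑ v ∈ W, (W.filter fun w => R v w ∨ R w v).card :=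
    sum_le_sum hcon
  have h4 : ∑ v ∈ W, (W.filter fun w => R v w ∨ R w v).card ≤
      ∑ v ∈ W, ((W.filter fun w => R v w).card + (W.filter fun w => R w v).card) := by
    refine sum_le_sum fun v _ => ?_
    rw [filter_or]
    exact card_union_le _ _
  rw [sum_add_distrib, h1] at h4
  simp only [sum_const, smul_eq_mul] at h2 h3
  nlinarith

section

variable {V : Type} [Fintype V] [DecidableEq V]

/-- the invariant of the greedy choice -/
def Inv (A : Finset (V × V)) (f f' o n : V → ℕ) (W : Finset V) (a b a' b' : V → ℕ) : Prop :=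
  (∀ v, Adm (dL A v) (a v) (b v)) ∧ (∀ v, Adm (dR A v) (a' v) (b' v)) ∧
    ∀ x ∈ W, ∀ y ∈ W, (x, y) ∈ A →
      Cpt (o x) (n x) (win (f x) (a x) (b x)) (win (f' x) (a' x) (b' x))
        (o y) (n y) (win (f y) (a y) (b y)) (win (f' y) (a' y) (b' y))

lemma extend {A : Finset (V × V)} (hA : ∀ v, (v, v) ∉ A) {f f' o n : V → ℕ} {W : Finset V}
    {a b a' b' : V → ℕ} {v : V} (h : Inv A f f' o n (W.erase v) a b a' b')
    (α β α' β' : ℕ) (h1 : Adm (dL A v) α β) (h2 : Adm (dR A v) α' β')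
    (hC : ∀ y ∈ W.erase v, ((v, y) ∈ A ∨ (y, v) ∈ A) →
      Cpt (o v) (n v) (win (f v) α β) (win (f' v) α' β')
        (o y) (n y) (win (f y) (a y) (b y)) (win (f' y) (a' y) (b' y))) :
    ∃ a b a' b', Inv A f f' o n W a b a' b' := by
  obtain ⟨h3, h4, h5⟩ := h
  refine ⟨Function.update a v α, Function.update b v β, Function.update a' v α',
    Function.update b' v β', fun x => ?_, fun x => ?_, fun x hx y hy hxy => ?_⟩
  · by_cases hxv : x = v
    · subst hxv; simpa using h1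
    · simpa [hxv] using h3 x
  · by_cases hxv : x = v
    · subst hxv; simpa using h2
    · simpa [hxv] using h4 x
  · by_cases hxv : x = v
    · subst hxv
      have hyx : y ≠ x := fun h => hA x (by rw [h] at hxy; exact hxy)
      have := hC y (mem_erase.2 ⟨hyx, hy⟩) (Or.inl hxy)
      simpa [hyx] using this
    · by_cases hyv : y = v
      · subst hyv
        have := (hC x (mem_erase.2 ⟨hxv, hx⟩) (Or.inr hxy)).symm
        simpa [hxv] using this
      · have := h5 x (mem_erase.2 ⟨hxv, hx⟩) y (mem_erase.2 ⟨hyv, hy⟩) hxy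
        simpa [hxv, hyv] using this

lemma far {d a b f o d' a' b' f' o' p p' : ℕ} (h1 : 16000000 ≤ d) (h2 : f + d ≤ o)
    (h3 : Adm d a b) (h4 : p ∈ win f a b) (h5 : o' < 40000) (h6 : f' + d' ≤ o')
    (h7 : Adm d' a' b') (h8 : p' ∈ win f' a' b') : p ≠ p' ∧ o + p' ≠ o' + p := by
  rw [mem_win] at h4 h8
  unfold Adm at h3 h7
  omega

lemma choose_mid {A : Finset (V × V)} (hA : ∀ v, (v, v) ∉ A) {f f' o n : V → ℕ} {W : Finset V}
    {a b a' b' : V → ℕ} {v : V} (h : Inv A f f' o n (W.erase v) a b a' b')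
    (h1 : 40000 ≤ dL A v) (h2 : 40000 ≤ dR A v) : ∃ a b a' b', Inv A f f' o n W a b a' b' := by
  set N := (W.erase v).filter fun y => (v, y) ∈ A ∨ (y, v) ∈ A with hN
  have hNcard : N.card ≤ dL A v + dR A v := by
    have : N ⊆ (univ.filter fun y => (v, y) ∈ A) ∪ (univ.filter fun y => (y, v) ∈ A) := by
      intro y hy
      simp only [hN, mem_filter, mem_union, mem_univ, true_and] at hy ⊢
      exact hy.2
    exact (card_le_card this).trans (card_union_le _ _)
  set F : Finset (ℕ × ℕ) := N.biUnion fun y =>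
    (win (f y) (a y) (b y) ×ˢ win (f' y) (a' y) (b' y)) ∪
      (win (f y) (a y) (b y) ×ˢ win (f' y) (a' y) (b' y)).image
        (fun c : ℕ × ℕ => (o v + c.1 - o y, n v + c.2 - n y)) with hF
  have hFcard : F.card ≤ N.card * 32 := by
    refine card_biUnion_le_card_mul _ _ _ fun y _ => ?_
    have e1 : (win (f y) (a y) (b y) ×ˢ win (f' y) (a' y) (b' y)).card ≤ 16 := by
      rw [card_product]
      exact Nat.mul_le_mul (card_win _ _ _) (card_win _ _ _)
    have e2 := card_image_le (s := win (f y) (a y) (b y) ×ˢ win (f' y) (a' y) (b' y))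
      (f := fun c : ℕ × ℕ => (o v + c.1 - o y, n v + c.2 - n y))
    refine (card_union_le _ _).trans ?_
    omega
  have hlt : 16 * F.card < dL A v / 6 * (dR A v / 6) := by
    have e1 : 16 * F.card ≤ 512 * (dL A v + dR A v) := by omega
    obtain ⟨s, hs⟩ : ∃ s, s = dL A v / 6 := ⟨_, rfl⟩
    obtain ⟨t, ht⟩ : ∃ t, t = dR A v / 6 := ⟨_, rfl⟩
    have e2 : dL A v ≤ 6 * s + 5 := by omega
    have e3 : dR A v ≤ 6 * t + 5 := by omega
    have e4 : 6666 ≤ s := by omega
    have e5 : 6666 ≤ t := by omega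
    rw [← hs, ← ht]
    obtain ⟨s', rfl⟩ := Nat.exists_eq_add_of_le e4
    obtain ⟨t', rfl⟩ := Nat.exists_eq_add_of_le e5
    nlinarith [Nat.zero_le (s' * t')]
  obtain ⟨i, hi, j, hj, k, hk, l, hl, hsel⟩ :=
    sel2 (f v) (dL A v) (dL A v / 6) (f' v) (dR A v) (dR A v / 6) (by omega) (by omega) F hlt
  refine extend hA h (dL A v / 2 - i) (dL A v / 2 + j) (dR A v / 2 - k) (dR A v / 2 + l)
    (adm_choice hi hj) (adm_choice hk hl) ?_
  intro y hy hadj p hp q hq p' hp' q' hq'
  have hyN : y ∈ N := by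
    simp only [hN, mem_filter]
    exact ⟨hy, hadj⟩
  constructor
  · rintro ⟨rfl, rfl⟩
    refine hsel (p, q) ?_ ⟨hp, hq⟩
    simp only [hF, mem_biUnion, mem_union, mem_product]
    exact ⟨y, hyN, Or.inl ⟨hp', hq'⟩⟩
  · rintro ⟨e1, e2⟩
    refine hsel (p, q) ?_ ⟨hp, hq⟩
    simp only [hF, mem_biUnion, mem_union, mem_product, mem_image, Prod.exists, Prod.mk.injEq]
    exact ⟨y, hyN, Or.inr ⟨p', q', ⟨hp', hq'⟩, by omega, by omega⟩⟩

omit [Fintype V] [DecidableEq V] in
/-- avoiding the neighbours in one coordinate -/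
lemma sel_one (d : ℕ) (hd : 16000000 ≤ d) (f o : V → ℕ) (a b : V → ℕ) (v : V) (N : Finset V)
    (hN : N.card < 80000) :
    ∃ i < d / 6, ∃ j < d / 6, ∀ y ∈ N, ∀ p ∈ win (f v) (d / 2 - i) (d / 2 + j),
      ∀ p' ∈ win (f y) (a y) (b y), p ≠ p' ∧ o v + p' ≠ o y + p := by
  set F : Finset ℕ := N.biUnion fun y => win (f y) (a y) (b y) ∪
      (win (f y) (a y) (b y)).image (fun c : ℕ => o v + c - o y) with hF
  have hFcard : F.card ≤ N.card * 8 := by
    refine card_biUnion_le_card_mul _ _ _ fun y _ => ?_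
    have e1 := card_win (f y) (a y) (b y)
    have e2 := card_image_le (s := win (f y) (a y) (b y)) (f := fun c : ℕ => o v + c - o y)
    refine (card_union_le _ _).trans ?_
    omega
  obtain ⟨i, hi, j, hj, hsel⟩ := sel1 (f v) d (d / 6) (by omega) F (by omega)
  refine ⟨i, hi, j, hj, fun y hy p hp p' hp' => ⟨?_, ?_⟩⟩
  · rintro rfl
    refine hsel p ?_ hp
    simp only [hF, mem_biUnion, mem_union]
    exact ⟨y, hy, Or.inl hp'⟩
  · intro e1
    refine hsel p ?_ hp
    simp only [hF, mem_biUnion, mem_union, mem_image]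
    exact ⟨y, hy, Or.inr ⟨p', hp', by omega⟩⟩

/-- **Choice of the windows.** -/
theorem exists_windows (A : Finset (V × V)) (hA : ∀ v, (v, v) ∉ A) (f f' o n : V → ℕ)
    (S : Finset V) (hf : ∀ v ∈ S, f v + dL A v ≤ o v) (hf' : ∀ v ∈ S, f' v + dR A v ≤ n v)
    (hS : ∀ v ∈ S, (40000 ≤ dL A v ∧ 40000 ≤ dR A v) ∨ (16000000 ≤ dL A v ∧ n v < 40000) ∨
      (16000000 ≤ dR A v ∧ o v < 40000)) :
    ∀ W ⊆ S, ∃ a b a' b', Inv A f f' o n W a b a' b' := by
  intro W
  induction W using Finset.strongInduction with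
  | H W ih =>
  intro hWS
  rcases W.eq_empty_or_nonempty with rfl | hne
  · exact ⟨fun v => dL A v / 2, fun v => dL A v / 2, fun v => dR A v / 2, fun v => dR A v / 2,
      fun v => adm_triv _, fun v => adm_triv _, by simp⟩
  have step : ∀ v ∈ W, ∃ a b a' b', Inv A f f' o n (W.erase v) a b a' b' := fun v hv =>
    ih _ (erase_ssubset hv) ((erase_subset _ _).trans hWS)
  by_cases c1 : ∃ v ∈ W, 40000 ≤ dL A v ∧ 40000 ≤ dR A v
  · obtain ⟨v, hv, h1, h2⟩ := c1
    obtain ⟨a, b, a', b', h⟩ := step v hv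
    exact choose_mid hA h h1 h2
  push Not at c1
  set W2 := W.filter fun v => 16000000 ≤ dL A v ∧ n v < 40000 with hW2
  have h3 : ∀ y ∈ W, y ∉ W2 → 16000000 ≤ dR A y ∧ o y < 40000 := by
    intro y hy hy2
    rcases hS y (hWS hy) with h | h | h
    · exact absurd h.2 (by have := c1 y hy h.1; omega)
    · exact absurd (mem_filter.2 ⟨hy, h⟩) hy2
    · exact h
  rcases W2.eq_empty_or_nonempty with hemp | hne2
  · -- all vertices have small outdegree
    have h3' : ∀ y ∈ W, 16000000 ≤ dR A y ∧ o y < 40000 := fun y hy =>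
      h3 y hy (by rw [hemp]; simp)
    obtain ⟨v, hv, hcard⟩ := degen (fun x y => (y, x) ∈ A) W hne 40000 (fun v hv => by
      have e1 : (W.filter fun w => (v, w) ∈ A).card ≤ dL A v :=
        card_le_card (filter_subset_filter _ (subset_univ _))
      have e2 := hf v (hWS hv)
      have e3 := (h3' v hv).2
      show (W.filter fun w => (v, w) ∈ A).card < 40000
      omega)
    obtain ⟨a, b, a', b', h⟩ := step v hv
    obtain ⟨k, hk, l, hl, hsel⟩ := sel_one (dR A v) (h3' v hv).1 f' n a' b' v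
      (W.filter fun w => (w, v) ∈ A ∨ (v, w) ∈ A) (by omega)
    refine extend hA h (dL A v / 2) (dL A v / 2) (dR A v / 2 - k) (dR A v / 2 + l)
      (adm_triv _) (adm_choice hk hl) ?_
    intro y hy hadj p hp q hq p' hp' q' hq'
    have := hsel y (mem_filter.2 ⟨mem_of_mem_erase hy, hadj.symm⟩) q hq q' hq'
    exact ⟨fun h => this.1 h.2, fun h => this.2 h.2⟩
  · obtain ⟨v, hv, hcard⟩ := degen (fun x y => (x, y) ∈ A) W2 hne2 40000 (fun v hv => by
      have e1 : (W2.filter fun w => (w, v) ∈ A).card ≤ dR A v :=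
        card_le_card (filter_subset_filter _ (subset_univ _))
      have hv' := mem_filter.1 hv
      have e2 := hf' v (hWS hv'.1)
      show (W2.filter fun w => (w, v) ∈ A).card < 40000
      omega)
    have hv' := mem_filter.1 hv
    obtain ⟨a, b, a', b', h⟩ := step v hv'.1
    obtain ⟨i, hi, j, hj, hsel⟩ := sel_one (dL A v) hv'.2.1 f o a b v
      (W2.filter fun w => (v, w) ∈ A ∨ (w, v) ∈ A) (by omega)
    refine extend hA h (dL A v / 2 - i) (dL A v / 2 + j) (dR A v / 2) (dR A v / 2)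
      (adm_choice hi hj) (adm_triv _) ?_
    intro y hy hadj p hp q hq p' hp' q' hq'
    have key : p ≠ p' ∧ o v + p' ≠ o y + p := by
      by_cases hy2 : y ∈ W2
      · exact hsel y (mem_filter.2 ⟨hy2, hadj⟩) p hp p' hp'
      · have hyW := mem_of_mem_erase hy
        have e1 := h3 y hyW hy2
        exact far hv'.2.1 (hf v (hWS hv'.1)) (adm_choice hi hj) hp e1.2 (hf y (hWS hyW))
          (h.1 y) hp'
    exact ⟨fun h => key.1 h.1, fun h => key.2 h.1⟩

end

end Pool.Agent.H35.Lir.Fac
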