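import Pool.Agent.H35.Lir.Defs

/-!
Definitions used in the conditions of the hand-ins on weak locally irregular colourings.
-/

namespace Pool.Agent.H35.Lir

variable {V : Type}

/-- `Walk D n x y`: there is a directed walk of length `n` from `x` to `y` -/
def Walk (D : V → V → Prop) : ℕ → V → V → Prop
  | 0, x, y => x = y
  | n + 1, x, y => ∃ z, D x z ∧ Walk D n z y

/-- `x` is ascending: it is not a source and has an outneighbour of larger outdegree -/
def Ascending (D : V → V → Prop) (x : V) : Prop :=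
  inDeg D x ≠ 0 ∧ ∃ y, D x y ∧ outDeg D x < outDeg D y

/-- `x` is strongly ascending: it is not a source and has an outneighbour `y` whose outdegree is at
least `outDeg D x + 2`, or equal to `outDeg D x + 1` while the indegree of `y` is less than that of
`x`. -/
def StrAsc (D : V → V → Prop) (x : V) : Prop :=
  inDeg D x ≠ 0 ∧ ∃ y, D x y ∧ (outDeg D x + 2 ≤ outDeg D y ∨
    (outDeg D y = outDeg D x + 1 ∧ inDeg D y < inDeg D x))

/-- The outneighbours of `v` outside `C` form the exceptional pattern relative to `v`: let `n` be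
their number and `N` the outdegree of `v`.  One has outdegree `N + n` and the others `N`, or
`n ≥ 3` and three of them have outdegrees `N + n`, `N + n - 2`, `N + n - 2` or `N + n - 1`,
`N + n - 1`, `N + n - 2` and the others `N`. -/
def RelPattern (D : V → V → Prop) (C : Set V) (v : V) : Prop :=
  (∃ p, (D v p ∧ p ∉ C) ∧ outDeg D p = outDeg D v + {w | D v w ∧ w ∉ C}.ncard ∧
    ∀ w, (D v w ∧ w ∉ C) → w ≠ p → outDeg D w = outDeg D v) ∨
  (3 ≤ {w | D v w ∧ w ∉ C}.ncard ∧ ∃ p q r, (D v p ∧ p ∉ C) ∧ (D v q ∧ q ∉ C) ∧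
    (D v r ∧ r ∉ C) ∧ p ≠ q ∧ p ≠ r ∧ q ≠ r ∧
    (∀ w, (D v w ∧ w ∉ C) → w ≠ p → w ≠ q → w ≠ r → outDeg D w = outDeg D v) ∧
    ((outDeg D p = outDeg D v + {w | D v w ∧ w ∉ C}.ncard ∧
      outDeg D q = outDeg D v + {w | D v w ∧ w ∉ C}.ncard - 2 ∧
      outDeg D r = outDeg D v + {w | D v w ∧ w ∉ C}.ncard - 2) ∨
     (outDeg D p = outDeg D v + {w | D v w ∧ w ∉ C}.ncard - 1 ∧
      outDeg D q = outDeg D v + {w | D v w ∧ w ∉ C}.ncard - 1 ∧
      outDeg D r = outDeg D v + {w | D v w ∧ w ∉ C}.ncard - 2)))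

/-- number of outneighbours `w` of `v` with `t w = i` -/
noncomputable def typeDeg (D : V → V → Prop) (t : V → Option (Fin 2)) (v : V)
    (i : Option (Fin 2)) : ℕ :=
  {w | D v w ∧ t w = i}.ncard

/-- `t` is a good typing of `D`: `t v = some i` means that `v` is in class `i`, `t v = none` that
`v` is free -/
structure GoodTyping (D : V → V → Prop) (t : V → Option (Fin 2)) : Prop where
  acyc : ∀ x, ¬ Relation.TransGen (fun a b => D a b ∧ t a = none ∧ t b = none) x x
  typed : ∀ v w i, D v w → t v = some i → t w = some i →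
    typeDeg D t v (some i) ≠ typeDeg D t w (some i) ∨ inDeg D v ≠ inDeg D w
  free : ∀ v w i, t v = none → inDeg D v ≠ 0 → D v w → t w = some i →
    typeDeg D t w (some i) = 0 ∨ inDeg D v < inDeg D w ∨
    typeDeg D t w (some i) < typeDeg D t v (some i) ∨
    typeDeg D t v (some i) + typeDeg D t v none < typeDeg D t w (some i)
  pat : ∀ v, t v = none → inDeg D v ≠ 0 → ¬ RelPattern D {w | t w ≠ none} v

/-- `x` is steep: it is not a source, no outneighbour of `x` is a sink, and some outneighbour of `x`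
has outdegree at least `outDeg D x + 2`. -/
def Steep (D : V → V → Prop) (x : V) : Prop :=
  inDeg D x ≠ 0 ∧ (∀ z, D x z → outDeg D z ≠ 0) ∧ ∃ y, D x y ∧ outDeg D x + 2 ≤ outDeg D y

/-- types of the vertices of `L`: `s x c = 0` means that no arc of colour `c` enters `x`, and
`s x c = 2` that no arc of colour `c` leaves `x` -/
structure Types (D : V → V → Prop) (L : Set V) (s : V → Fin 3 → Fin 3) : Prop where
  arc : ∀ x ∈ L, ∀ y ∈ L, D x y → ∃ c, s x c < s y c
  zero : ∀ x ∈ L, ∃ c, s x c = 0
  two : ∀ x ∈ L, ∃ c, s x c = 2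

/-- `z` is flexible: it is in `L` and of type `(0, 2, 2)`, or it is a sink outside `L` -/
def Flex (D : V → V → Prop) (L : Set V) (s : V → Fin 3 → Fin 3) (z : V) : Prop :=
  (z ∈ L ∧ s z 1 = 2 ∧ s z 2 = 2) ∨ (z ∉ L ∧ outDeg D z = 0)

/-- `x` is not absorbed by the classes `cl`: it is in no class, neither a source nor a sink, and it
has no outneighbour in a class and no sink outneighbour -/
def Unabsorbed (D : V → V → Prop) (cl : V → Option (Fin 3)) (x : V) : Prop :=
  cl x = none ∧ inDeg D x ≠ 0 ∧ outDeg D x ≠ 0 ∧ ∀ y, D x y → cl y = none ∧ outDeg D y ≠ 0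

/-- three independent classes such that the vertices which are not absorbed induce an acyclic
digraph and have no inneighbour in class `0` -/
structure Absorbing (D : V → V → Prop) (cl : V → Option (Fin 3)) : Prop where
  proper : ∀ x y i, D x y → cl x = some i → cl y ≠ some i
  zero : ∀ x y, D x y → cl x = some 0 → ¬ Unabsorbed D cl y
  acyc : ∀ x, ¬ Relation.TransGen
    (fun a b => D a b ∧ Unabsorbed D cl a ∧ Unabsorbed D cl b) x x

/-- The arcs of `D` with both ends outside `L`. -/
def Outside (D : V → V → Prop) (L : Set V) : V → V → Prop := fun x y => D x y ∧ x ∉ L ∧ y ∉ L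

/-- The hypothesis on a vertex `v` outside `L`: it is a source or a sink of `D`, or it has no
neighbour outside `L`, or its degrees are large. -/
def GoodVertex (D : V → V → Prop) (L : Set V) (v : V) : Prop :=
  (outDeg D v = 0 ∨ inDeg D v = 0) ∨
  (outDeg (Outside D L) v = 0 ∧ inDeg (Outside D L) v = 0) ∨
  (40000 ≤ outDeg (Outside D L) v ∧ 40000 ≤ inDeg (Outside D L) v) ∨
  (16000000 ≤ outDeg (Outside D L) v ∧ inDeg D v < 40000) ∨
  (16000000 ≤ inDeg (Outside D L) v ∧ outDeg D v < 40000)

end Pool.Agent.H35.Lir
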