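import Pool.Agent.H35.Lir.Split

/-!
The structure of the outneighbourhood of a vertex all of whose splittings are excluded.
-/

namespace Pool.Agent.H35.Lir

open Finset

variable {α : Type*} [DecidableEq α]

/-- In a situation in which every number of red arcs is excluded by the outneighbours alone:
the structure of the values. -/
theorem dead_structure (S : Finset α) (a b : α → ℕ) (hd : 0 < #S)
    (hdead : ∀ j ≤ #S, ¬ (Disjoint (S.filter fun w => a w = j) (S.filter fun w => b w = #S - j) ∧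
      #(S.filter fun w => a w = j) ≤ #S - j ∧ #(S.filter fun w => b w = #S - j) ≤ j)) :
    (∃ p ∈ S, a p = #S ∧ b p = #S ∧ ∀ w ∈ S, w ≠ p → (a w < #S ∧ b w < #S) ∧
      (a w + b w = #S ∨ (3 ≤ #S ∧ a w + b w = 2 * #S - 2))) ∨
    (3 ≤ #S ∧ ∃ p ∈ S, ∃ q ∈ S, ∃ r ∈ S, p ≠ q ∧ p ≠ r ∧ q ≠ r ∧
      a p + b p = 2 * #S - 1 ∧ a q + b q = 2 * #S - 1 ∧ a r = #S - 1 ∧ b r = #S - 1 ∧
      (∀ w ∈ S, w ≠ p → w ≠ q → w ≠ r → a w + b w = #S) ∧
      ∀ w ∈ S, a w < #S ∨ b w < #S) := by
  obtain ⟨d, hdS⟩ : ∃ d, d = #S := ⟨_, rfl⟩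
  rw [← hdS] at hdead hd
  obtain ⟨X, hX⟩ : ∃ X : ℕ → Finset α, ∀ j, X j = S.filter fun w => a w = j := ⟨_, fun _ => rfl⟩
  obtain ⟨Y, hY⟩ : ∃ Y : ℕ → Finset α, ∀ j, Y j = S.filter fun w => b w = d - j :=
    ⟨_, fun _ => rfl⟩
  simp only [← hX, ← hY] at hdead
  have memX : ∀ w j, w ∈ X j ↔ w ∈ S ∧ a w = j := by
    intro w j; rw [hX, Finset.mem_filter]
  have memY : ∀ w j, w ∈ Y j ↔ w ∈ S ∧ b w = d - j := by
    intro w j; rw [hY, Finset.mem_filter]
  -- each value is excluded in one of three ways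
  have hdead' : ∀ j ≤ d, (∃ w, w ∈ X j ∧ w ∈ Y j) ∨ d - j < #(X j) ∨ j < #(Y j) := by
    intro j hj
    have := hdead j hj
    by_contra hcon
    push Not at hcon
    apply this
    refine ⟨?_, hcon.2.1, hcon.2.2⟩
    rw [Finset.disjoint_left]
    exact fun w h1 h2 => hcon.1 w h1 h2
  have hg : ∀ j ∈ range (d + 1), gw d j ≤ #(X j) + #(Y j) := by
    intro j hj
    rw [Finset.mem_range] at hj
    rcases hdead' j (by omega) with ⟨w, h1, h2⟩ | h | h
    · have := Finset.card_pos.2 ⟨w, h1⟩
      have := Finset.card_pos.2 ⟨w, h2⟩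
      unfold gw
      split_ifs <;> omega
    · unfold gw
      split_ifs <;> omega
    · unfold gw
      split_ifs <;> omega
  have hsX : ∑ j ∈ range (d + 1), #(X j) = #(S.filter fun w => a w ≤ d) := by
    rw [← sum_fiber]
    exact Finset.sum_congr rfl fun j _ => by rw [hX]
  have hsY : ∑ j ∈ range (d + 1), #(Y j) = #(S.filter fun w => b w ≤ d) := by
    rw [← sum_fiber']
    exact Finset.sum_congr rfl fun j _ => by rw [hY]
  have hcX : #(S.filter fun w => a w ≤ d) ≤ d := by
    rw [hdS]; exact Finset.card_le_card (Finset.filter_subset _ _)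
  have hcY : #(S.filter fun w => b w ≤ d) ≤ d := by
    rw [hdS]; exact Finset.card_le_card (Finset.filter_subset _ _)
  have hsum := Finset.sum_le_sum hg
  rw [sum_gw d hd, Finset.sum_add_distrib, hsX, hsY] at hsum
  have heq : ∀ j ∈ range (d + 1), gw d j = #(X j) + #(Y j) := by
    rw [← Finset.sum_eq_sum_iff_of_le hg, sum_gw d hd, Finset.sum_add_distrib, hsX, hsY]
    omega
  have haS : ∀ w ∈ S, a w ≤ d := by
    have : S.filter (fun w => a w ≤ d) = S :=
      Finset.eq_of_subset_of_card_le (Finset.filter_subset _ _) (by rw [← hdS]; omega)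
    intro w hw
    rw [← this, Finset.mem_filter] at hw
    exact hw.2
  have hbS : ∀ w ∈ S, b w ≤ d := by
    have : S.filter (fun w => b w ≤ d) = S :=
      Finset.eq_of_subset_of_card_le (Finset.filter_subset _ _) (by rw [← hdS]; omega)
    intro w hw
    rw [← this, Finset.mem_filter] at hw
    exact hw.2
  -- extreme values
  have h0 := heq 0 (by simp)
  have hdd := heq d (by simp)
  have hg0 : gw d 0 = 1 := by simp [gw]
  have hgd : gw d d = 1 := by simp [gw]
  rw [hg0] at h0
  rw [hgd] at hdd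
  have hY0 : #(Y 0) = 1 ∧ #(X 0) = 0 := by
    rcases hdead' 0 (by omega) with ⟨w, h1, h2⟩ | h | h
    · have := Finset.card_pos.2 ⟨w, h1⟩
      have := Finset.card_pos.2 ⟨w, h2⟩
      omega
    · omega
    · omega
  have hXd : #(X d) = 1 ∧ #(Y d) = 0 := by
    rcases hdead' d le_rfl with ⟨w, h1, h2⟩ | h | h
    · have := Finset.card_pos.2 ⟨w, h1⟩
      have := Finset.card_pos.2 ⟨w, h2⟩
      omega
    · omega
    · omega
  obtain ⟨p, hp⟩ := Finset.card_eq_one.1 hXd.1
  obtain ⟨q, hq⟩ := Finset.card_eq_one.1 hY0.1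
  have hX0 := Finset.card_eq_zero.1 hY0.2
  have hYd := Finset.card_eq_zero.1 hXd.2
  have hpm : p ∈ X d := by rw [hp]; simp
  have hqm : q ∈ Y 0 := by rw [hq]; simp
  rw [memX] at hpm
  rw [memY] at hqm
  -- the range of the values
  have hpa : ∀ w ∈ S, w ≠ p → 1 ≤ a w ∧ a w ≤ d - 1 := by
    intro w hw hne
    have h1 := haS w hw
    have h2 : a w ≠ 0 := by
      intro h
      have : w ∈ X 0 := (memX w 0).2 ⟨hw, h⟩
      rw [hX0] at this
      simp at this
    have h3 : a w ≠ d := by
      intro h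
      have : w ∈ X d := (memX w d).2 ⟨hw, h⟩
      rw [hp, Finset.mem_singleton] at this
      exact hne this
    omega
  have hqb : ∀ w ∈ S, w ≠ q → 1 ≤ b w ∧ b w ≤ d - 1 := by
    intro w hw hne
    have h1 := hbS w hw
    have h2 : b w ≠ 0 := by
      intro h
      have : w ∈ Y d := (memY w d).2 ⟨hw, by omega⟩
      rw [hYd] at this
      simp at this
    have h3 : b w ≠ d := by
      intro h
      have : w ∈ Y 0 := (memY w 0).2 ⟨hw, by omega⟩
      rw [hq, Finset.mem_singleton] at this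
      exact hne this
    omega
  -- middle values
  have hmid : ∀ j, 1 ≤ j → j ≤ d - 1 → #(X j) + #(Y j) = 2 := by
    intro j h1 h2
    rw [← heq j (by rw [Finset.mem_range]; omega)]
    unfold gw
    rw [if_neg (by omega)]
  have hmid' : ∀ j, 1 ≤ j → j ≤ d - 1 →
      (∃ w, X j = {w} ∧ Y j = {w}) ∨ (j = d - 1 ∧ #(X j) = 2 ∧ #(Y j) = 0) ∨
        (j = 1 ∧ #(X j) = 0 ∧ #(Y j) = 2) := by
    intro j h1 h2
    have h3 := hmid j h1 h2
    rcases hdead' j (by omega) with ⟨w, h4, h5⟩ | h | h
    · left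
      have h6 := Finset.card_pos.2 ⟨w, h4⟩
      have h7 := Finset.card_pos.2 ⟨w, h5⟩
      obtain ⟨x, hx⟩ := Finset.card_eq_one.1 (by omega : #(X j) = 1)
      obtain ⟨y, hy⟩ := Finset.card_eq_one.1 (by omega : #(Y j) = 1)
      rw [hx, Finset.mem_singleton] at h4
      rw [hy, Finset.mem_singleton] at h5
      exact ⟨w, by rw [hx, h4], by rw [hy, h5]⟩
    · right; left
      omega
    · right; right
      omega
  -- vertices different from `p`
  have hA : ∀ w ∈ S, w ≠ p → a w + b w = d ∨ (a w = d - 1 ∧ #(X (d - 1)) = 2 ∧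
      #(Y (d - 1)) = 0) := by
    intro w hw hne
    obtain ⟨h1, h2⟩ := hpa w hw hne
    have hwX : w ∈ X (a w) := (memX w _).2 ⟨hw, rfl⟩
    rcases hmid' (a w) h1 h2 with ⟨x, hx, hy⟩ | ⟨h3, h4, h5⟩ | ⟨h3, h4, h5⟩
    · left
      have hwx : w = x := by rwa [hx, Finset.mem_singleton] at hwX
      have : w ∈ Y (a w) := by rw [hy, Finset.mem_singleton]; exact hwx
      have := ((memY w _).1 this).2
      omega
    · right
      rw [← h3]
      exact ⟨rfl, h4, h5⟩
    · exfalso
      have := Finset.card_pos.2 ⟨w, hwX⟩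
      omega
  -- vertices different from `q`
  have hB : ∀ w ∈ S, w ≠ q → a w + b w = d ∨ (b w = d - 1 ∧ #(X 1) = 0 ∧ #(Y 1) = 2) := by
    intro w hw hne
    obtain ⟨h1, h2⟩ := hqb w hw hne
    have hwY : w ∈ Y (d - b w) := (memY w _).2 ⟨hw, by omega⟩
    rcases hmid' (d - b w) (by omega) (by omega) with ⟨x, hx, hy⟩ | ⟨h3, h4, h5⟩ | ⟨h3, h4, h5⟩
    · left
      have hwx : w = x := by rwa [hy, Finset.mem_singleton] at hwY
      have : w ∈ X (d - b w) := by rw [hx, Finset.mem_singleton]; exact hwx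
      have := ((memX w _).1 this).2
      omega
    · exfalso
      have := Finset.card_pos.2 ⟨w, hwY⟩
      omega
    · right
      rw [← h3]
      exact ⟨by omega, h4, h5⟩
  by_cases hpq : p = q
  · subst hpq
    left
    refine ⟨p, hpm.1, by rw [← hdS]; exact hpm.2, by rw [← hdS, hqm.2]; omega, ?_⟩
    intro w hw hne
    have h1 := hpa w hw hne
    have h2 := hqb w hw hne
    rw [← hdS]
    refine ⟨by omega, ?_⟩
    rcases hA w hw hne with h3 | ⟨h3, h4, h5⟩
    · exact Or.inl h3
    · rcases hB w hw hne with h6 | ⟨h6, h7, h8⟩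
      · exact Or.inl h6
      · right
        have : d - 1 ≠ 1 := by
          intro h
          rw [h] at h4
          omega
        omega
  · -- `p ≠ q`
    have hqp : q ≠ p := Ne.symm hpq
    have hbp : b p = d - 1 ∧ #(X 1) = 0 ∧ #(Y 1) = 2 := by
      rcases hB p hpm.1 hpq with h | h
      · exfalso
        have := (hqb p hpm.1 hpq).1
        have := hpm.2
        omega
      · exact h
    have haq : a q = d - 1 ∧ #(X (d - 1)) = 2 ∧ #(Y (d - 1)) = 0 := by
      rcases hA q hqm.1 hqp with h | h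
      · exfalso
        have := (hpa q hqm.1 hqp).1
        have := hqm.2
        omega
      · exact h
    obtain ⟨hb1, hx1, hy1⟩ := hbp
    obtain ⟨ha1, hx2, hy0⟩ := haq
    have hd3 : 3 ≤ d := by
      obtain ⟨h1, h2⟩ := hpa q hqm.1 hqp
      have : d - 1 ≠ 1 := by
        intro h
        rw [h] at hx2
        omega
      omega
    have hqX : q ∈ X (d - 1) := (memX _ _).2 ⟨hqm.1, ha1⟩
    obtain ⟨r, hrX, hrq⟩ : ∃ r ∈ X (d - 1), r ≠ q := Finset.exists_mem_ne (by omega) q
    have hr := (memX _ _).1 hrX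
    have hrp : r ≠ p := by
      rintro rfl
      have := hpm.2
      omega
    have hXe : X (d - 1) = {q, r} := by
      refine (Finset.eq_of_subset_of_card_le ?_ ?_).symm
      · intro w hw
        simp only [Finset.mem_insert, Finset.mem_singleton] at hw
        rcases hw with rfl | rfl <;> assumption
      · rw [hx2, Finset.card_pair (Ne.symm hrq)]
    have hbr : b r = d - 1 := by
      rcases hB r hr.1 hrq with h | ⟨h, -, -⟩
      · exfalso
        have : r ∈ Y (d - 1) := (memY _ _).2 ⟨hr.1, by omega⟩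
        have := Finset.card_pos.2 ⟨r, this⟩
        omega
      · exact h
    right
    refine ⟨by omega, p, hpm.1, q, hqm.1, r, hr.1, hpq, Ne.symm hrp, Ne.symm hrq,
      by rw [← hdS, hpm.2]; omega, by rw [← hdS, hqm.2]; omega, by rw [← hdS]; exact hr.2,
      by rw [← hdS]; exact hbr, ?_, ?_⟩
    · intro w hw h1 h2 h3
      rw [← hdS]
      rcases hA w hw h1 with h | ⟨h, -, -⟩
      · exact h
      · exfalso
        have : w ∈ X (d - 1) := (memX _ _).2 ⟨hw, h⟩
        rw [hXe] at this
        simp only [Finset.mem_insert, Finset.mem_singleton] at this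
        exact this.elim h2 h3
    · intro w hw
      rw [← hdS]
      by_cases hwp : w = p
      · right
        rw [hwp]
        omega
      · left
        have := hpa w hw hwp
        omega

/-- Either a good choice of the set of red arcs exists, or every number is excluded. -/
theorem split_or_dead (S : Finset α) (a b : α → ℕ) :
    (∃ T ⊆ S, (∀ w ∈ S, w ∈ T → a w ≠ #T) ∧ ∀ w ∈ S, w ∉ T → b w ≠ #(S \ T)) ∨
    (0 < #S ∧ ∀ j ≤ #S, ¬ (Disjoint (S.filter fun w => a w = j)
        (S.filter fun w => b w = #S - j) ∧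
      #(S.filter fun w => a w = j) ≤ #S - j ∧ #(S.filter fun w => b w = #S - j) ≤ j)) := by
  by_cases hcon : ∃ T ⊆ S, (∀ w ∈ S, w ∈ T → a w ≠ #T) ∧ ∀ w ∈ S, w ∉ T → b w ≠ #(S \ T)
  · exact Or.inl hcon
  · right
    refine ⟨?_, ?_⟩
    · by_contra h0
      have hSe : S = ∅ := Finset.card_eq_zero.1 (by omega)
      exact hcon ⟨∅, Finset.empty_subset _, by simp [hSe], by simp [hSe]⟩
    · rintro j hj ⟨hdis, hb, hr⟩
      apply hcon
      have hXS : (S.filter fun w => a w = j) ⊆ S := Finset.filter_subset _ _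
      have hsub : (S.filter fun w => b w = #S - j) ⊆ S \ (S.filter fun w => a w = j) := by
        intro y hy
        rw [Finset.mem_sdiff]
        refine ⟨(Finset.mem_filter.1 hy).1, fun hy' => ?_⟩
        exact Finset.disjoint_left.1 hdis hy' hy
      have hcard : j ≤ #(S \ (S.filter fun w => a w = j)) := by
        rw [Finset.card_sdiff_of_subset hXS]
        omega
      obtain ⟨T, hT1, hT2, hT3⟩ := Finset.exists_subsuperset_card_eq hsub hr hcard
      have hTS : T ⊆ S := hT2.trans Finset.sdiff_subset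
      refine ⟨T, hTS, ?_, ?_⟩
      · intro w hw hwT haw
        have h1 := hT2 hwT
        rw [Finset.mem_sdiff] at h1
        exact h1.2 (Finset.mem_filter.2 ⟨hw, by rw [haw, hT3]⟩)
      · intro w hw hwT hbw
        apply hwT
        apply hT1
        rw [Finset.mem_filter]
        refine ⟨hw, ?_⟩
        rw [hbw, Finset.card_sdiff_of_subset hTS, hT3]

end Pool.Agent.H35.Lir
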