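import Mathlib

/-!
# Weak locally irregular arc colourings of digraphs: definitions

A digraph on a finite vertex set `V` is a relation `D : V → V → Prop` (`D x y` = there is an arc
from `x` to `y`) without loops.
-/

namespace Pool.Agent.H35.Lir

variable {V : Type}

/-- The number of arcs of `A` leaving `v`. -/
noncomputable def outDeg (A : V → V → Prop) (v : V) : ℕ := {w | A v w}.ncard

/-- The number of arcs of `A` entering `v`. -/
noncomputable def inDeg (A : V → V → Prop) (v : V) : ℕ := {u | A u v}.ncard

/-- `A` is weak locally irregular: the two ends of every arc differ in outdegree or indegree. -/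
def WeakLocallyIrregular (A : V → V → Prop) : Prop :=
  ∀ x y, A x y → (outDeg A x, inDeg A x) ≠ (outDeg A y, inDeg A y)

/-- An arc colouring `c` of `D` all of whose colour classes are weak locally irregular. -/
def IsWLIColouring (D : V → V → Prop) {k : ℕ} (c : V → V → Fin k) : Prop :=
  ∀ i, WeakLocallyIrregular fun x y => D x y ∧ c x y = i

/-- The weak locally irregular chromatic index: the least number of colours. -/
noncomputable def lir (D : V → V → Prop) : ℕ :=
  sInf {k | ∃ c : V → V → Fin k, IsWLIColouring D c}

end Pool.Agent.H35.Lir
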