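import Pool.Agent.H35.Lir.Defs

namespace Pool.Agent.H35.Lir

open Finset

variable {V : Type} [Fintype V]

open Classical in
/-- outdegree minus indegree in colour `i` -/
noncomputable def sv (D : V → V → Prop) {k : ℕ} (c : V → V → Fin k) (i : Fin k) (v : V) : ℤ :=
  (∑ w, if D v w ∧ c v w = i then (1 : ℤ) else 0) -
    ∑ w, if D w v ∧ c w v = i then (1 : ℤ) else 0

omit [Fintype V] in
open Classical in
theorem outDeg_eq [Fintype V] (A : V → V → Prop) (v : V) :
    (outDeg A v : ℤ) = ∑ w, if A v w then (1 : ℤ) else 0 := by
  unfold outDeg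
  rw [Set.ncard_eq_toFinset_card', Finset.sum_boole]
  congr 2
  ext w
  simp

omit [Fintype V] in
open Classical in
theorem inDeg_eq [Fintype V] (A : V → V → Prop) (v : V) :
    (inDeg A v : ℤ) = ∑ w, if A w v then (1 : ℤ) else 0 := by
  unfold inDeg
  rw [Set.ncard_eq_toFinset_card', Finset.sum_boole]
  congr 2
  ext w
  simp

theorem sv_eq (D : V → V → Prop) {k : ℕ} (c : V → V → Fin k) (i : Fin k) (v : V) :
    sv D c i v = (outDeg (fun x y => D x y ∧ c x y = i) v : ℤ) -
      inDeg (fun x y => D x y ∧ c x y = i) v := by
  rw [outDeg_eq, inDeg_eq]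
  unfold sv
  congr 1 <;> refine Finset.sum_congr rfl fun w _ => ?_ <;> congr

open Classical in
theorem sum_sv (D : V → V → Prop) {k : ℕ} (c : V → V → Fin k) (v : V) :
    ∑ i, sv D c i v = (outDeg D v : ℤ) - inDeg D v := by
  rw [outDeg_eq, inDeg_eq]
  unfold sv
  rw [Finset.sum_sub_distrib, Finset.sum_comm, Finset.sum_comm (s := univ (α := Fin k))]
  congr 1
  · refine Finset.sum_congr rfl fun w _ => ?_
    by_cases h : D v w
    · simp [h]
    · simp [h]
  · refine Finset.sum_congr rfl fun w _ => ?_
    by_cases h : D w v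
    · simp [h]
    · simp [h]

open Classical in
/-- recolour the arc `(x, y)` with colour `j` -/
noncomputable def recol {k : ℕ} (c : V → V → Fin k) (x y : V) (j : Fin k) : V → V → Fin k :=
  fun u w => if u = x ∧ w = y then j else c u w

open Classical in
theorem sv_recol (D : V → V → Prop) {k : ℕ} (c : V → V → Fin k) {x y : V} (hxy : D x y)
    (j l : Fin k) (v : V) :
    sv D (recol c x y j) l v = sv D c l v +
      ((if l = j then (1 : ℤ) else 0) - (if l = c x y then 1 else 0)) *
        ((if v = x then 1 else 0) - (if v = y then 1 else 0)) := by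
  have h1 : (∑ w, if D v w ∧ recol c x y j v w = l then (1 : ℤ) else 0) =
      (∑ w, if D v w ∧ c v w = l then (1 : ℤ) else 0) +
        ((if l = j then (1 : ℤ) else 0) - (if l = c x y then 1 else 0)) *
          (if v = x then 1 else 0) := by
    by_cases hv : v = x
    · subst hv
      have : ∀ w, (if D v w ∧ recol c v y j v w = l then (1 : ℤ) else 0) =
          (if D v w ∧ c v w = l then (1 : ℤ) else 0) +
            (if w = y then ((if l = j then (1 : ℤ) else 0) - (if l = c v y then 1 else 0))
              else 0) := by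
        intro w
        unfold recol
        by_cases hw : w = y
        · subst hw
          simp only [and_self, if_true, hxy, true_and]
          by_cases h1 : j = l
          · by_cases h2 : c v w = l
            · simp [h1, h2]
            · simp [h1, h2, Ne.symm h2]
          · by_cases h2 : c v w = l
            · simp [h1, h2, Ne.symm h1]
            · simp [h1, h2, Ne.symm h2, Ne.symm h1]
        · simp [hw]
      rw [Finset.sum_congr rfl fun w _ => this w, Finset.sum_add_distrib]
      simp
    · simp [hv, recol]
  have h2 : (∑ w, if D w v ∧ recol c x y j w v = l then (1 : ℤ) else 0) =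
      (∑ w, if D w v ∧ c w v = l then (1 : ℤ) else 0) +
        ((if l = j then (1 : ℤ) else 0) - (if l = c x y then 1 else 0)) *
          (if v = y then 1 else 0) := by
    by_cases hv : v = y
    · subst hv
      have : ∀ w, (if D w v ∧ recol c x v j w v = l then (1 : ℤ) else 0) =
          (if D w v ∧ c w v = l then (1 : ℤ) else 0) +
            (if w = x then ((if l = j then (1 : ℤ) else 0) - (if l = c x v then 1 else 0))
              else 0) := by
        intro w
        unfold recol
        by_cases hw : w = x
        · subst hw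
          simp only [and_self, if_true, hxy, true_and]
          by_cases h1 : j = l
          · by_cases h2 : c w v = l
            · simp [h1, h2]
            · simp [h1, h2, Ne.symm h2]
          · by_cases h2 : c w v = l
            · simp [h1, h2, Ne.symm h1]
            · simp [h1, h2, Ne.symm h2, Ne.symm h1]
        · simp [hw]
      rw [Finset.sum_congr rfl fun w _ => this w, Finset.sum_add_distrib]
      simp
    · simp [hv, recol]
  unfold sv
  rw [h1, h2]
  ring

/-- weighted energy -/
noncomputable def energy (D : V → V → Prop) {k : ℕ} (m : Fin k → ℤ) (c : V → V → Fin k) : ℤ :=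
  ∑ v, ∑ i, m i * (sv D c i v) ^ 2

open Classical in
theorem energy_recol (D : V → V → Prop) {k : ℕ} (m : Fin k → ℤ) (c : V → V → Fin k) {x y : V}
    (hne : x ≠ y) (hxy : D x y) (j : Fin k) (hj : j ≠ c x y) :
    energy D m (recol c x y j) = energy D m c +
      2 * ((m j * sv D c j x - m (c x y) * sv D c (c x y) x) -
        (m j * sv D c j y - m (c x y) * sv D c (c x y) y)) + 2 * (m j + m (c x y)) := by
  unfold energy
  set i := c x y with hi
  have key : ∀ v, ∑ l, m l * (sv D (recol c x y j) l v) ^ 2 =
      (∑ l, m l * (sv D c l v) ^ 2) +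
        (2 * (m j * sv D c j v - m i * sv D c i v) * ((if v = x then 1 else 0) -
          (if v = y then 1 else 0)) + (m j + m i) * ((if v = x then 1 else 0) -
          (if v = y then 1 else 0)) ^ 2) := by
    intro v
    have hexp : ∀ l, m l * (sv D (recol c x y j) l v) ^ 2 = m l * (sv D c l v) ^ 2 +
        ((if l = j then 2 * (m l * sv D c l v) * ((if v = x then (1:ℤ) else 0) -
          (if v = y then 1 else 0)) + m l * ((if v = x then (1:ℤ) else 0) -
          (if v = y then 1 else 0)) ^ 2 else 0) +
        (if l = i then -(2 * (m l * sv D c l v) * ((if v = x then (1:ℤ) else 0) -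
          (if v = y then 1 else 0))) + m l * ((if v = x then (1:ℤ) else 0) -
          (if v = y then 1 else 0)) ^ 2 else 0)) := by
      intro l
      rw [sv_recol D c hxy j l v, ← hi]
      by_cases h1 : l = j
      · have h2 : l ≠ i := by rw [h1]; exact hj
        rw [if_pos h1, if_neg h2, if_pos h1, if_neg h2]
        ring
      · by_cases h2 : l = i
        · rw [if_neg h1, if_pos h2, if_neg h1, if_pos h2]
          ring
        · rw [if_neg h1, if_neg h2, if_neg h1, if_neg h2]
          ring
    rw [Finset.sum_congr rfl fun l _ => hexp l, Finset.sum_add_distrib, Finset.sum_add_distrib,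
      Finset.sum_ite_eq' univ j, Finset.sum_ite_eq' univ i]
    simp only [Finset.mem_univ, if_true]
    ring
  rw [Finset.sum_congr rfl fun v _ => key v, Finset.sum_add_distrib]
  have hexp2 : ∀ v, (2 * (m j * sv D c j v - m i * sv D c i v) * ((if v = x then (1:ℤ) else 0) -
          (if v = y then 1 else 0)) + (m j + m i) * ((if v = x then (1:ℤ) else 0) -
          (if v = y then 1 else 0)) ^ 2) =
      (if v = x then 2 * (m j * sv D c j v - m i * sv D c i v) + (m j + m i) else 0) +
      (if v = y then -(2 * (m j * sv D c j v - m i * sv D c i v)) + (m j + m i) else 0) := by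
    intro v
    by_cases h1 : v = x
    · have h2 : v ≠ y := by rw [h1]; exact hne
      rw [if_pos h1, if_neg h2, if_pos h1, if_neg h2]
      ring
    · by_cases h2 : v = y
      · rw [if_neg h1, if_pos h2, if_neg h1, if_pos h2]
        ring
      · rw [if_neg h1, if_neg h2, if_neg h1, if_neg h2]
        ring
  rw [Finset.sum_congr rfl fun v _ => hexp2 v, Finset.sum_add_distrib,
    Finset.sum_ite_eq' univ x, Finset.sum_ite_eq' univ y]
  simp only [Finset.mem_univ, if_true]
  ring

/-- at a maximum of the energy -/
theorem exists_max_energy (D : V → V → Prop) (hD : ∀ x, ¬ D x x) {k : ℕ} (hk : 0 < k)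
    (m : Fin k → ℤ) :
    ∃ c : V → V → Fin k, ∀ x y, D x y → ∀ j, j ≠ c x y →
      (m j * sv D c j x - m (c x y) * sv D c (c x y) x) + (m j + m (c x y)) ≤
        (m j * sv D c j y - m (c x y) * sv D c (c x y) y) := by
  classical
  have : Nonempty (Fin k) := ⟨⟨0, hk⟩⟩
  obtain ⟨c, hc⟩ := Finite.exists_max (energy D m : (V → V → Fin k) → ℤ)
  refine ⟨c, fun x y hxy j hj => ?_⟩
  have hne : x ≠ y := by
    rintro rfl
    exact hD x hxy
  have h1 := hc (recol c x y j)
  rw [energy_recol D m c hne hxy j hj] at h1
  linarith

/-- **Energy theorem.** If `δ(y) - δ(x) ≤ 2k - 3` for all arcs `xy`, where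
`δ = outdegree - indegree`, then `k` colours suffice. -/
theorem exists_colouring_of_imbalance (D : V → V → Prop) (hD : ∀ x, ¬ D x x) {k : ℕ} (hk : 2 ≤ k)
    (h : ∀ x y, D x y → ((outDeg D y : ℤ) - inDeg D y) - ((outDeg D x : ℤ) - inDeg D x) ≤
      2 * k - 3) :
    ∃ c : V → V → Fin k, IsWLIColouring D c := by
  classical
  obtain ⟨c, hc⟩ := exists_max_energy D hD (by omega : 0 < k) (fun _ : Fin k => (1 : ℤ))
  refine ⟨c, ?_⟩
  rintro i x y ⟨hxy, hi⟩ heq
  simp only [Prod.mk.injEq] at heq
  have hs : sv D c i x = sv D c i y := by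
    rw [sv_eq, sv_eq, heq.1, heq.2]
  have h1 : ∀ j, j ≠ i → sv D c j x + 2 ≤ sv D c j y := by
    intro j hj
    have := hc x y hxy j (by rw [hi]; exact hj)
    simp only [hi, one_mul] at this
    linarith
  have h2 := h x y hxy
  rw [← sum_sv D c x, ← sum_sv D c y, ← Finset.sum_sub_distrib,
    ← Finset.add_sum_erase univ _ (Finset.mem_univ i)] at h2
  have h3 : ∑ j ∈ univ.erase i, (2 : ℤ) ≤ ∑ j ∈ univ.erase i, (sv D c j y - sv D c j x) := by
    refine Finset.sum_le_sum fun j hj => ?_
    have := h1 j (Finset.ne_of_mem_erase hj)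
    linarith
  rw [Finset.sum_const, Finset.card_erase_of_mem (Finset.mem_univ i), Finset.card_univ,
    Fintype.card_fin, nsmul_eq_mul] at h3
  have h4 : ((k - 1 : ℕ) : ℤ) = (k : ℤ) - 1 := by
    rw [Nat.cast_sub (by omega)]
    simp
  rw [h4] at h3
  rw [hs] at h2
  linarith

end Pool.Agent.H35.Lir
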