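import Pool.Agent.H35.Lir.Half

/-!
# Degree constrained factors of bipartite graphs with two windows

For every vertex `v` two windows `{a, a+1}` and `{b, b+1}` are given, one below and one above half of
the degree (and not too far away from it).  Then some subgraph has all its degrees in the windows.
-/

namespace Pool.Agent.H35.Lir.Fac

open Finset

variable {X Y : Type} [Fintype X] [Fintype Y] [DecidableEq X] [DecidableEq Y]

/-- the windows `{a, a+1}`, `{b, b+1}` are admissible for a vertex of degree `d` -/
def Adm (d a b : ℕ) : Prop := 2 * a ≤ d ∧ d ≤ 2 * b + 1 ∧ b ≤ 2 * a + 3 ∧ 2 * b ≤ d + a + 1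

/-- a degree strictly between the windows -/
def Bad (a b n : ℕ) : Prop := a + 1 < n ∧ n < b

instance (a b n : ℕ) : Decidable (Bad a b n) := by unfold Bad; infer_instance

/-- all degrees are in the box -/
def Box (a b : X → ℕ) (a' b' : Y → ℕ) (H : Finset (X × Y)) : Prop :=
  (∀ x, a x ≤ dL H x ∧ dL H x ≤ b x + 1) ∧ ∀ y, a' y ≤ dR H y ∧ dR H y ≤ b' y + 1

/-- number of bad vertices -/
def nb (a b : X → ℕ) (a' b' : Y → ℕ) (H : Finset (X × Y)) : ℕ :=
  (univ.filter fun x => Bad (a x) (b x) (dL H x)).card +
    (univ.filter fun y => Bad (a' y) (b' y) (dR H y)).card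

lemma nb_le {a b : X → ℕ} {a' b' : Y → ℕ} {H H' : Finset (X × Y)}
    (h1 : ∀ x, Bad (a x) (b x) (dL H' x) → Bad (a x) (b x) (dL H x))
    (h2 : ∀ y, Bad (a' y) (b' y) (dR H' y) → Bad (a' y) (b' y) (dR H y)) :
    nb a b a' b' H' ≤ nb a b a' b' H := by
  unfold nb
  refine add_le_add (card_le_card ?_) (card_le_card ?_)
  · intro x hx
    simp only [mem_filter, mem_univ, true_and] at hx ⊢
    exact h1 x hx
  · intro x hx
    simp only [mem_filter, mem_univ, true_and] at hx ⊢
    exact h2 x hx

lemma nb_lt {a b : X → ℕ} {a' b' : Y → ℕ} {H H' : Finset (X × Y)} {v : X}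
    (h1 : ∀ x, x ≠ v → Bad (a x) (b x) (dL H' x) → Bad (a x) (b x) (dL H x))
    (h2 : ∀ y, Bad (a' y) (b' y) (dR H' y) → Bad (a' y) (b' y) (dR H y))
    (h3 : Bad (a v) (b v) (dL H v)) (h4 : ¬ Bad (a v) (b v) (dL H' v)) :
    nb a b a' b' H' < nb a b a' b' H := by
  unfold nb
  refine add_lt_add_of_lt_of_le (card_lt_card ?_) (card_le_card ?_)
  · rw [ssubset_iff_of_subset]
    · refine ⟨v, by simpa using h3, by simpa using h4⟩
    · intro x hx
      simp only [mem_filter, mem_univ, true_and] at hx ⊢
      by_cases hxv : x = v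
      · subst hxv; exact absurd hx h4
      · exact h1 x hxv hx
  · intro x hx
    simp only [mem_filter, mem_univ, true_and] at hx ⊢
    exact h2 x hx

lemma no_bad_left_aux {E H : Finset (X × Y)} (hHE : H ⊆ E) {a b : X → ℕ} {a' b' : Y → ℕ}
    (hX : ∀ x, Adm (dL E x) (a x) (b x)) (hY : ∀ y, Adm (dR E y) (a' y) (b' y))
    (hbox : Box a b a' b' H)
    (hmin : ∀ H' ⊆ E, Box a b a' b' H' → nb a b a' b' H ≤ nb a b a' b' H') {v : X}
    (hbad : Bad (a v) (b v) (dL H v))
    (hmin2 : ∀ H' ⊆ E, Box a b a' b' H' → nb a b a' b' H' ≤ nb a b a' b' H →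
      Bad (a v) (b v) (dL H' v) → dL H v ≤ dL H' v) : False := by
  classical
  -- improvements are impossible
  have imp1 : ∀ H' ⊆ E, Box a b a' b' H' →
      (∀ x, x ≠ v → Bad (a x) (b x) (dL H' x) → Bad (a x) (b x) (dL H x)) →
      (∀ y, Bad (a' y) (b' y) (dR H' y) → Bad (a' y) (b' y) (dR H y)) →
      (dL H' v < dL H v ∨ ¬ Bad (a v) (b v) (dL H' v)) → False := by
    intro H' h1 h2 h3 h4 h5
    by_cases hv : Bad (a v) (b v) (dL H' v)
    · have h6 := hmin2 H' h1 h2 (nb_le (fun x hx => by
        by_cases hxv : x = v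
        · subst hxv; exact hbad
        · exact h3 x hxv hx) h4) hv
      rcases h5 with h5 | h5
      · omega
      · exact h5 hv
    · have := nb_lt h3 h4 hbad hv
      exact absurd (hmin H' h1 h2) (by omega)
  obtain ⟨hboxX, hboxY⟩ := hbox
  obtain ⟨hb1, hb2⟩ := hbad
  obtain ⟨S, R, hv, hSR, hRS, hS, hR⟩ := reach E H hHE v
  -- blockers on the left
  have hS1 : ∀ x ∈ S, x ≠ v →
      (dL H x = b x + 1 ∨ (dL H x = a x + 1 ∧ a x + 2 < b x)) ∧ ¬ Bad (a x) (b x) (dL H x) := by
    intro x hx hxv
    by_contra hcon
    obtain ⟨H', y0, h1, -, -, -, h2, h3, -⟩ := hS x hx hxv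
    have hx1 := h2 x
    simp only [hxv, if_false, if_true, add_zero] at hx1
    have hv1 := h2 v
    simp only [if_true, show ¬ v = x from fun h => hxv h.symm, if_false, add_zero] at hv1
    have hcon' : Bad (a x) (b x) (dL H x) ∨ (dL H x ≤ b x ∧ ¬ (dL H x = a x + 1 ∧ a x + 2 < b x)) := by
      by_cases hbx : Bad (a x) (b x) (dL H x)
      · exact Or.inl hbx
      · right
        have h4 := (hboxX x).2
        simp only [hbx, not_false_eq_true, and_true, not_or] at hcon
        omega
    refine imp1 H' h1 ⟨fun z => ?_, fun y => ?_⟩ (fun z hz hbz => ?_) (fun y hy => ?_) (Or.inl ?_)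
    · by_cases hzv : z = v
      · subst hzv; omega
      · by_cases hzx : z = x
        · subst hzx
          have := hboxX z
          unfold Bad at hcon'
          omega
        · have := h2 z
          simp only [hzv, hzx, if_false, add_zero] at this
          rw [this]; exact hboxX z
    · rw [h3 y]; exact hboxY y
    · by_cases hzx : z = x
      · subst hzx
        have := hboxX z
        unfold Bad at hcon' hbz ⊢
        omega
      · have := h2 z
        simp only [hz, hzx, if_false, add_zero] at this
        rwa [this] at hbz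
    · rwa [h3 y] at hy
    · omega
  -- blockers on the right
  have hR1 : ∀ y ∈ R, (dR H y = a' y ∨ (dR H y = b' y ∧ a' y + 2 < b' y)) ∧
      ¬ Bad (a' y) (b' y) (dR H y) := by
    intro y hy
    by_contra hcon
    obtain ⟨H', x0, h1, -, -, h2, h3, -⟩ := hR y hy
    have hy1 := h3 y
    simp only [if_true] at hy1
    have hv1 := h2 v
    simp only [if_true] at hv1
    have hcon' : Bad (a' y) (b' y) (dR H y) ∨
        (a' y < dR H y ∧ ¬ (dR H y = b' y ∧ a' y + 2 < b' y)) := by
      by_cases hbx : Bad (a' y) (b' y) (dR H y)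
      · exact Or.inl hbx
      · right
        have h4 := (hboxY y).1
        simp only [hbx, not_false_eq_true, and_true, not_or] at hcon
        omega
    refine imp1 H' h1 ⟨fun z => ?_, fun w => ?_⟩ (fun z hz hbz => ?_) (fun w hw => ?_) (Or.inl ?_)
    · by_cases hzv : z = v
      · subst hzv; omega
      · have := h2 z
        simp only [hzv, if_false, add_zero] at this
        rw [this]; exact hboxX z
    · by_cases hwy : w = y
      · subst hwy
        have := hboxY w
        unfold Bad at hcon'
        omega
      · have := h3 w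
        simp only [hwy, if_false, add_zero] at this
        rw [this]; exact hboxY w
    · have := h2 z
      simp only [hz, if_false, add_zero] at this
      rwa [this] at hbz
    · by_cases hwy : w = y
      · subst hwy
        have := hboxY w
        unfold Bad at hcon' hw ⊢
        omega
      · have := h3 w
        simp only [hwy, if_false, add_zero] at this
        rwa [this] at hw
    · omega
  -- jumps of `v`
  have J2 : (R.filter fun y => (v, y) ∈ E ∧ (v, y) ∉ H).card < b v - dL H v := by
    by_contra hcon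
    push Not at hcon
    obtain ⟨T, hT1, hT2⟩ := exists_subset_card_eq hcon
    have hTm : ∀ y ∈ T, y ∈ R ∧ (v, y) ∈ E ∧ (v, y) ∉ H := fun y hy => by
      simpa using hT1 hy
    have hTH : ∀ y ∈ T, (v, y) ∉ H := fun y hy => (hTm y hy).2.2
    have hdv : dL (addStar H v T) v = b v := by
      rw [dL_addStar hTH]; simp only [if_true]; omega
    refine imp1 (addStar H v T) ?_ ⟨fun z => ?_, fun w => ?_⟩ (fun z hz hbz => ?_)
      (fun w hw => ?_) (Or.inr ?_)
    · rintro ⟨x, y⟩ hxy
      rcases mem_addStar.1 hxy with h | ⟨rfl, hy⟩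
      · exact hHE h
      · exact (hTm y hy).2.1
    · by_cases hzv : z = v
      · subst hzv; rw [hdv]; have := hX z; unfold Adm at this; omega
      · rw [dL_addStar hTH]; simp only [hzv, if_false, add_zero]; exact hboxX z
    · rw [dR_addStar hTH]
      by_cases hw : w ∈ T
      · have e1 := hR1 w (hTm w hw).1
        have e2 := hboxY w
        have e3 := hY w
        unfold Adm at e3
        simp only [hw, if_true]
        omega
      · simp only [hw, if_false, add_zero]; exact hboxY w
    · rw [dL_addStar hTH] at hbz; simpa only [hz, if_false, add_zero] using hbz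
    · rw [dR_addStar hTH] at hw
      by_cases hwT : w ∈ T
      · have e1 := hR1 w (hTm w hwT).1
        simp only [hwT, if_true] at hw
        unfold Bad at hw e1 ⊢
        omega
      · simpa only [hwT, if_false, add_zero] using hw
    · rw [hdv]; unfold Bad; omega
  -- jumps of the left blockers
  have J1 : ∀ x ∈ S, x ≠ v → dL H x = a x + 1 → a x + 2 < b x →
      (R.filter fun y => (x, y) ∈ E ∧ (x, y) ∉ H).card < b x - a x - 1 := by
    intro x hx hxv hxa hab
    by_contra hcon
    push Not at hcon
    obtain ⟨H', y0, h1, hy0R, hy0E, hy0H, h2, h3, h4⟩ := hS x hx hxv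
    have hcard : b x - a x - 2 ≤ ((R.filter fun y => (x, y) ∈ E ∧ (x, y) ∉ H).erase y0).card := by
      rw [card_erase_of_mem (by simp [hy0R, hy0E, hy0H])]; omega
    obtain ⟨T, hT1, hT2⟩ := exists_subset_card_eq hcard
    have hTm : ∀ y ∈ T, y ≠ y0 ∧ y ∈ R ∧ (x, y) ∈ E ∧ (x, y) ∉ H := fun y hy => by
      have := hT1 hy
      simp only [mem_erase, mem_filter] at this
      exact ⟨this.1, this.2.1, this.2.2.1, this.2.2.2⟩
    have hTH : ∀ y ∈ T, (x, y) ∉ H' := fun y hy h => by
      rcases (h4 y).1 h with h | h
      · exact (hTm y hy).2.2.2 h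
      · exact (hTm y hy).1 h
    have hx1 := h2 x
    simp only [hxv, if_false, if_true, add_zero] at hx1
    have hv1 := h2 v
    simp only [if_true, show ¬ v = x from fun h => hxv h.symm, if_false, add_zero] at hv1
    have hdx : dL (addStar H' x T) x = b x := by
      rw [dL_addStar hTH]; simp only [if_true]; omega
    have hdv : dL (addStar H' x T) v = dL H v - 1 := by
      rw [dL_addStar hTH]
      simp only [show ¬ v = x from fun h => hxv h.symm, if_false]
      omega
    have hdz : ∀ z, z ≠ v → z ≠ x → dL (addStar H' x T) z = dL H z := by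
      intro z hzv hzx
      rw [dL_addStar hTH]
      have := h2 z
      simp only [hzv, hzx, if_false, add_zero] at this ⊢
      exact this
    refine imp1 (addStar H' x T) ?_ ⟨fun z => ?_, fun w => ?_⟩ (fun z hz hbz => ?_)
      (fun w hw => ?_) (Or.inl ?_)
    · rintro ⟨p, y⟩ hxy
      rcases mem_addStar.1 hxy with h | ⟨rfl, hy⟩
      · exact h1 h
      · exact (hTm y hy).2.2.1
    · by_cases hzv : z = v
      · subst hzv; rw [hdv]; omega
      · by_cases hzx : z = x
        · subst hzx; rw [hdx]; have := hX z; unfold Adm at this; omega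
        · rw [hdz z hzv hzx]; exact hboxX z
    · rw [dR_addStar hTH, h3]
      by_cases hw : w ∈ T
      · have e1 := hR1 w (hTm w hw).2.1
        have e2 := hboxY w
        have e3 := hY w
        unfold Adm at e3
        simp only [hw, if_true]
        omega
      · simp only [hw, if_false, add_zero]; exact hboxY w
    · by_cases hzx : z = x
      · subst hzx; rw [hdx] at hbz; unfold Bad at hbz; omega
      · rwa [hdz z hz hzx] at hbz
    · rw [dR_addStar hTH, h3] at hw
      by_cases hwT : w ∈ T
      · have e1 := hR1 w (hTm w hwT).2.1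
        simp only [hwT, if_true] at hw
        unfold Bad at hw e1 ⊢
        omega
      · simpa only [hwT, if_false, add_zero] using hw
    · rw [hdv]; omega
  -- jumps of the right blockers
  have J3 : ∀ y ∈ R, dR H y = b' y → a' y + 2 < b' y →
      (S.filter fun x => (x, y) ∈ H).card ≤ b' y - a' y - 1 := by
    intro y hy hyb hab
    by_contra hcon
    push Not at hcon
    obtain ⟨H', x0, h1, hx0S, hx0H, h2, h3, h4⟩ := hR y hy
    have hcard : b' y - a' y - 2 ≤ (((S.filter fun x => (x, y) ∈ H).erase x0).erase v).card := by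
      have e1 := pred_card_le_card_erase (s := (S.filter fun x => (x, y) ∈ H).erase x0) (a := v)
      have e2 := card_erase_of_mem (s := S.filter fun x => (x, y) ∈ H) (a := x0)
        (by simp [hx0S, hx0H])
      omega
    obtain ⟨T, hT1, hT2⟩ := exists_subset_card_eq hcard
    have hTm : ∀ x ∈ T, x ≠ v ∧ x ≠ x0 ∧ x ∈ S ∧ (x, y) ∈ H := fun x hx => by
      have := hT1 hx
      simp only [mem_erase, mem_filter] at this
      exact ⟨this.1, this.2.1, this.2.2.1, this.2.2.2⟩
    have hTH : ∀ x ∈ T, (x, y) ∈ H' := fun x hx => (h4 x).2 ⟨(hTm x hx).2.2.2, (hTm x hx).2.1⟩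
    have hvT : v ∉ T := fun h => (hTm v h).1 rfl
    have hy1 := h3 y
    simp only [if_true] at hy1
    have hv1 := h2 v
    simp only [if_true] at hv1
    have hdy : dR (delStar H' y T) y = a' y + 1 := by
      have := dR_delStar hTH y
      simp only [if_true] at this
      omega
    have hdv : dL (delStar H' y T) v = dL H v - 1 := by
      have := dL_delStar hTH v
      simp only [hvT, if_false, add_zero] at this
      omega
    have hdw : ∀ w, w ≠ y → dR (delStar H' y T) w = dR H w := by
      intro w hwy
      have e1 := dR_delStar hTH w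
      have e2 := h3 w
      simp only [hwy, if_false, add_zero] at e1 e2
      omega
    refine imp1 (delStar H' y T) ?_ ⟨fun z => ?_, fun w => ?_⟩ (fun z hz hbz => ?_)
      (fun w hw => ?_) (Or.inl ?_)
    · exact sdiff_subset.trans h1
    · by_cases hzv : z = v
      · subst hzv; rw [hdv]; omega
      · have e1 := dL_delStar hTH z
        have e2 := h2 z
        simp only [hzv, if_false, add_zero] at e2
        by_cases hzT : z ∈ T
        · simp only [hzT, if_true] at e1
          have e3 := hS1 z (hTm z hzT).2.2.1 hzv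
          have e4 := hboxX z
          have e5 := hX z
          unfold Adm at e5
          unfold Bad at e3
          omega
        · simp only [hzT, if_false, add_zero] at e1
          rw [e1, e2]; exact hboxX z
    · by_cases hwy : w = y
      · subst hwy; rw [hdy]; have := hY w; unfold Adm at this; omega
      · rw [hdw w hwy]; exact hboxY w
    · have e1 := dL_delStar hTH z
      have e2 := h2 z
      simp only [hz, if_false, add_zero] at e2
      by_cases hzT : z ∈ T
      · simp only [hzT, if_true] at e1
        have e3 := hS1 z (hTm z hzT).2.2.1 hz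
        unfold Bad at e3 hbz ⊢
        omega
      · simp only [hzT, if_false, add_zero] at e1
        rwa [e1, e2] at hbz
    · by_cases hwy : w = y
      · subst hwy; rw [hdy] at hw; unfold Bad at hw; omega
      · rwa [hdw w hwy] at hw
    · rw [hdv]; omega
  refine count_contra hSR hRS hv ?_ ?_ ?_
  · intro x hx
    by_cases hxv : x = v
    · subst hxv
      have := hX x
      unfold Adm at this
      omega
    have e0 := hX x
    unfold Adm at e0
    rcases (hS1 x hx hxv).1 with h | ⟨h, h'⟩
    · have e1 := card_filter_le_left (E := E) (H := H) R x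
      have e2 := card_sdiff_left hHE x
      omega
    · have e1 := J1 x hx hxv h h'
      omega
  · have := hX v
    unfold Adm at this
    omega
  · intro y hy
    have e0 := hY y
    unfold Adm at e0
    have e2 := card_sdiff_right hHE y
    rcases (hR1 y hy).1 with h | ⟨h, h'⟩
    · have e1 := card_filter_le_right (H := H) S y
      omega
    · have e1 := J3 y hy h h'
      omega

lemma no_bad_left {E H : Finset (X × Y)} (hHE : H ⊆ E) {a b : X → ℕ} {a' b' : Y → ℕ}
    (hX : ∀ x, Adm (dL E x) (a x) (b x)) (hY : ∀ y, Adm (dR E y) (a' y) (b' y))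
    (hbox : Box a b a' b' H)
    (hmin : ∀ H' ⊆ E, Box a b a' b' H' → nb a b a' b' H ≤ nb a b a' b' H') (v : X) :
    ¬ Bad (a v) (b v) (dL H v) := by
  classical
  intro hbad
  let P : Finset (X × Y) → Prop := fun H' => Box a b a' b' H' ∧
    nb a b a' b' H' ≤ nb a b a' b' H ∧ Bad (a v) (b v) (dL H' v)
  obtain ⟨K, hK, hKmin⟩ := exists_min_image (E.powerset.filter P) (fun K => dL K v)
    ⟨H, by simp only [mem_filter, mem_powerset]; exact ⟨hHE, hbox, le_rfl, hbad⟩⟩
  simp only [mem_filter, mem_powerset] at hK
  obtain ⟨hKE, hK1, hK2, hK3⟩ := hK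
  refine no_bad_left_aux hKE hX hY hK1 (fun H' h h' => hK2.trans (hmin H' h h')) hK3 ?_
  intro H' h h1 h2 h3
  exact hKmin H' (by simp only [mem_filter, mem_powerset]; exact ⟨h, h1, h2.trans hK2, h3⟩)

lemma box_sw {a b : X → ℕ} {a' b' : Y → ℕ} {H : Finset (X × Y)} :
    Box a' b' a b (sw H) ↔ Box a b a' b' H := by
  unfold Box
  simp only [dL_sw, dR_sw]
  tauto

lemma nb_sw {a b : X → ℕ} {a' b' : Y → ℕ} {H : Finset (X × Y)} :
    nb a' b' a b (sw H) = nb a b a' b' H := by
  unfold nb
  simp only [dL_sw, dR_sw]
  omega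

/-- **Bipartite factors with two windows.** -/
theorem exists_factor (E : Finset (X × Y)) (a b : X → ℕ) (a' b' : Y → ℕ)
    (hX : ∀ x, Adm (dL E x) (a x) (b x)) (hY : ∀ y, Adm (dR E y) (a' y) (b' y)) :
    ∃ H ⊆ E,
      (∀ x, dL H x = a x ∨ dL H x = a x + 1 ∨ dL H x = b x ∨ dL H x = b x + 1) ∧
      ∀ y, dR H y = a' y ∨ dR H y = a' y + 1 ∨ dR H y = b' y ∨ dR H y = b' y + 1 := by
  classical
  obtain ⟨H0, hH0, h0X, h0Y⟩ := exists_half E
  have hbox0 : Box a b a' b' H0 := by
    refine ⟨fun x => ?_, fun y => ?_⟩
    · have e1 := hX x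
      have e2 := h0X x
      unfold Adm at e1
      omega
    · have e1 := hY y
      have e2 := h0Y y
      unfold Adm at e1
      omega
  obtain ⟨H, hH, hmin⟩ := exists_min_image (E.powerset.filter fun H => Box a b a' b' H)
    (fun H => nb a b a' b' H)
    ⟨H0, by simp only [mem_filter, mem_powerset]; exact ⟨hH0, hbox0⟩⟩
  simp only [mem_filter, mem_powerset] at hH
  obtain ⟨hHE, hbox⟩ := hH
  have hmin' : ∀ H' ⊆ E, Box a b a' b' H' → nb a b a' b' H ≤ nb a b a' b' H' :=
    fun H' h h' => hmin H' (by simp only [mem_filter, mem_powerset]; exact ⟨h, h'⟩)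
  have hL := no_bad_left hHE hX hY hbox hmin'
  have hR := no_bad_left (sw_subset hHE) (a := a') (b := b') (a' := a) (b' := b)
    (fun y => by rw [dL_sw]; exact hY y) (fun x => by rw [dR_sw]; exact hX x)
    (box_sw.2 hbox) (fun H' h h' => by
      rw [nb_sw, ← sw_sw H', nb_sw]
      refine hmin' _ ?_ ?_
      · have := sw_subset h
        rwa [sw_sw] at this
      · rw [← box_sw, sw_sw]; exact h')
  refine ⟨H, hHE, fun x => ?_, fun y => ?_⟩
  · have e1 := hL x
    have e2 := hbox.1 x
    have e3 := hX x
    unfold Bad at e1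
    unfold Adm at e3
    omega
  · have e1 := hR y
    rw [dL_sw] at e1
    have e2 := hbox.2 y
    have e3 := hY y
    unfold Bad at e1
    unfold Adm at e3
    omega

end Pool.Agent.H35.Lir.Fac
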