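import Pool.Agent.H35.Lir.Weighted

/-!
The weighted energy theorem relative to a set `L` of vertices all of whose arcs are coloured by
types: a vertex `x ∈ L` has no entering arc of colour `σ x` and no leaving arc of colour `τ x`.
-/

namespace Pool.Agent.H35.Lir

variable {V : Type}

/-- arcs leaving a vertex without entering arcs of their colour are never bad -/
theorem good_of_csource [Finite V] {D : V → V → Prop} {k : ℕ} {c : V → V → Fin k} {x y : V}
    (hxy : D x y) (hx : ∀ u, D u x → c u x ≠ c x y) :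
    (outDeg (fun a b => D a b ∧ c a b = c x y) x,
          inDeg (fun a b => D a b ∧ c a b = c x y) x) ≠
        (outDeg (fun a b => D a b ∧ c a b = c x y) y,
          inDeg (fun a b => D a b ∧ c a b = c x y) y) := by
  intro heq
  simp only [Prod.mk.injEq] at heq
  have h1 : inDeg (fun a b => D a b ∧ c a b = c x y) x = 0 := by
    rw [inDeg, Set.ncard_eq_zero (Set.toFinite _), Set.eq_empty_iff_forall_notMem]
    intro u hu
    exact hx u hu.1 hu.2
  have h2 : inDeg (fun a b => D a b ∧ c a b = c x y) y ≠ 0 := by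
    intro h
    rw [inDeg, Set.ncard_eq_zero (Set.toFinite _), Set.eq_empty_iff_forall_notMem] at h
    exact h x ⟨hxy, rfl⟩
  omega

/-- arcs entering a vertex without leaving arcs of their colour are never bad -/
theorem good_of_csink [Finite V] {D : V → V → Prop} {k : ℕ} {c : V → V → Fin k} {x y : V}
    (hxy : D x y) (hy : ∀ u, D y u → c y u ≠ c x y) :
    (outDeg (fun a b => D a b ∧ c a b = c x y) x,
          inDeg (fun a b => D a b ∧ c a b = c x y) x) ≠
        (outDeg (fun a b => D a b ∧ c a b = c x y) y,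
          inDeg (fun a b => D a b ∧ c a b = c x y) y) := by
  intro heq
  simp only [Prod.mk.injEq] at heq
  have h1 : outDeg (fun a b => D a b ∧ c a b = c x y) y = 0 := by
    rw [outDeg, Set.ncard_eq_zero (Set.toFinite _), Set.eq_empty_iff_forall_notMem]
    intro u hu
    exact hy u hu.1 hu.2
  have h2 : outDeg (fun a b => D a b ∧ c a b = c x y) x ≠ 0 := by
    intro h
    rw [outDeg, Set.ncard_eq_zero (Set.toFinite _), Set.eq_empty_iff_forall_notMem] at h
    exact h y ⟨hxy, rfl⟩
  omega

open Classical in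
/-- **Weighted energy theorem with a typed set `L`.** -/
theorem exists_colouring_frame [Finite V] (D : V → V → Prop) (hD : ∀ x, ¬ D x x) {k : ℕ}
    (hk : 1 ≤ k) {t : ℝ} (ht0 : 0 ≤ t) (ht1 : t ≤ 1) (L : Set V) (σ τ : V → Fin k)
    (hστ : ∀ x ∈ L, σ x ≠ τ x)
    (hL : ∀ x ∈ L, ∀ y ∈ L, D x y → (σ x, τ x) ≠ (σ y, τ y))
    (h : ∀ x y, x ∉ L → y ∉ L → D x y → inDeg D x ≠ 0 → outDeg D y ≠ 0 →
      t * ((outDeg D y : ℝ) - outDeg D x) + (1 - t) * ((inDeg D x : ℝ) - inDeg D y) <
        (k : ℝ) - 1) :
    ∃ c : V → V → Fin k, IsWLIColouring D c := by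
  have := Fintype.ofFinite V
  set c₀ : V → V → Fin k := fun x y =>
    if x ∈ L then (if y ∈ L then (if σ x ≠ σ y then σ x else τ y) else σ x)
    else if y ∈ L then τ y else ⟨0, hk⟩ with hc₀
  set M : V → V → Prop := fun x y => D x y ∧ x ∉ L ∧ y ∉ L ∧ inDeg D x ≠ 0 ∧ outDeg D y ≠ 0
    with hM
  obtain ⟨c, hc0, hc⟩ := exists_colouring_weighted_rel' D hD M (fun x y h => h.1) hk ht0 ht1
    (fun x y hxy => h x y hxy.2.1 hxy.2.2.1 hxy.1 hxy.2.2.2.1 hxy.2.2.2.2) c₀
  refine ⟨c, ?_⟩
  -- no entering arc of colour `σ`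
  have hsrc : ∀ x ∈ L, ∀ u, D u x → c u x ≠ σ x := by
    intro x hx u hux
    rw [hc0 u x (fun h => h.2.2.1 hx)]
    simp only [hc₀, if_pos hx]
    by_cases hu : u ∈ L
    · rw [if_pos hu]
      by_cases hs : σ u ≠ σ x
      · rw [if_pos hs]; exact hs
      · rw [if_neg hs]; exact (hστ x hx).symm
    · rw [if_neg hu]; exact (hστ x hx).symm
  -- no leaving arc of colour `τ`
  have hsnk : ∀ x ∈ L, ∀ u, D x u → c x u ≠ τ x := by
    intro x hx u hxu
    rw [hc0 x u (fun h => h.2.1 hx)]
    simp only [hc₀, if_pos hx]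
    by_cases hu : u ∈ L
    · rw [if_pos hu]
      by_cases hs : σ x ≠ σ u
      · rw [if_pos hs]; exact hστ x hx
      · rw [if_neg hs]
        intro h2
        have h3 : σ x = σ u := not_not.1 hs
        exact hL x hx u hu hxu (Prod.ext h3 h2.symm)
    · rw [if_neg hu]; exact hστ x hx
  rintro i x y ⟨hxy, rfl⟩
  by_cases hx : x ∈ L
  · by_cases hcx : c x y = σ x
    · exact good_of_csource hxy (fun u hu => by rw [hcx]; exact hsrc x hx u hu)
    · -- then `y ∈ L` and `c x y = τ y`
      have h1 := hc0 x y (fun h => h.2.1 hx)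
      simp only [hc₀, if_pos hx] at h1
      by_cases hy : y ∈ L
      · rw [if_pos hy] at h1
        by_cases hs : σ x ≠ σ y
        · rw [if_pos hs] at h1; exact absurd h1 hcx
        · rw [if_neg hs] at h1
          exact good_of_csink hxy (fun u hu => by rw [h1]; exact hsnk y hy u hu)
      · rw [if_neg hy] at h1; exact absurd h1 hcx
  · by_cases hy : y ∈ L
    · have h1 := hc0 x y (fun h => h.2.2.1 hy)
      simp only [hc₀, if_neg hx, if_pos hy] at h1
      exact good_of_csink hxy (fun u hu => by rw [h1]; exact hsnk y hy u hu)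
    · by_cases hs : inDeg D x = 0
      · refine good_of_csource hxy (fun u hu => ?_)
        rw [inDeg, Set.ncard_eq_zero (Set.toFinite _), Set.eq_empty_iff_forall_notMem] at hs
        exact absurd hu (hs u)
      · by_cases ht : outDeg D y = 0
        · refine good_of_csink hxy (fun u hu => ?_)
          rw [outDeg, Set.ncard_eq_zero (Set.toFinite _), Set.eq_empty_iff_forall_notMem] at ht
          exact absurd hu (ht u)
        · exact hc x y ⟨hxy, hx, hy, hs, ht⟩

/-- outdegrees at most two -/
theorem exists_two_of_outDeg [Finite V] (D : V → V → Prop) (hD : ∀ x, ¬ D x x)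
    (h : ∀ x, outDeg D x ≤ 2) : ∃ c : V → V → Fin 2, IsWLIColouring D c := by
  have hpos : ∀ x y, D x y → 1 ≤ outDeg D x := by
    intro x y hxy
    rw [Nat.one_le_iff_ne_zero, outDeg, Ne, Set.ncard_eq_zero (Set.toFinite _)]
    intro h
    rw [Set.eq_empty_iff_forall_notMem] at h
    exact h y hxy
  refine exists_colouring_frame D hD (by norm_num) (t := 1) (by norm_num) le_rfl
    {x | ∃ y, D x y ∧ outDeg D x < outDeg D y} (fun _ => 0) (fun _ => 1)
    (fun _ _ => by decide) ?_ ?_
  · rintro x ⟨z, hxz, hz⟩ y ⟨w, hyw, hw⟩ hxy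
    exfalso
    have h1 := hpos x z hxz
    have h2 := hpos y w hyw
    have h3 := h z
    have h4 := h w
    have hx : outDeg D x = 1 := by omega
    have hy : outDeg D y = 1 := by omega
    have h5 : y = z := by
      obtain ⟨a, ha⟩ := Set.ncard_eq_one.1 hx
      have e1 : y ∈ {w | D x w} := hxy
      have e2 : z ∈ {w | D x w} := hxz
      rw [ha] at e1 e2
      exact e1.trans e2.symm
    subst h5
    omega
  · intro x y hx hy hxy _ _
    have h1 : outDeg D y ≤ outDeg D x := by
      by_contra hlt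
      exact hx ⟨y, hxy, by omega⟩
    have h2 : (outDeg D y : ℝ) ≤ outDeg D x := by exact_mod_cast h1
    norm_num
    linarith

end Pool.Agent.H35.Lir
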