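import Pool.Agent.H35.Lir.Conds
import Pool.Agent.H35.Lir.Resolve
import Pool.Agent.H35.Lir.Frame

/-!
Three colours for digraphs with an absorbing set: the vertices outside the set are ordered such that
each one has the fewest inneighbours among the earlier ones.
-/

namespace Pool.Agent.H35.Lir

open Finset

theorem pattern_val {α : Type*} [DecidableEq α] {S : Finset α} {s : α → ℕ} (h : Pattern S s)
    {w : α} (hw : w ∈ S) : #S ≤ s w ∧ s w ≤ 2 * #S := by
  rcases h with ⟨p, hp, h1, h2⟩ | ⟨h3, p, hp, q, hq, r, hr, -, -, -, h4, h⟩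
  · by_cases e : w = p
    · subst e; omega
    · have := h2 w hw e; omega
  · by_cases e1 : w = p
    · subst e1; omega
    by_cases e2 : w = q
    · subst e2; omega
    by_cases e3 : w = r
    · subst e3; omega
    have := h4 w hw e1 e2 e3; omega

theorem no_pattern {α : Type*} [DecidableEq α] {O S : Finset α} {s s' : α → ℕ} {f : ℕ}
    (hp : Pattern O s) (hOS : O ⊆ S) (hf : 1 ≤ f)
    (hs : ∀ w ∈ O, s' w + f = s w ∨ 2 * #S < s' w) : ¬ Pattern S s' := by
  intro hS
  have hcard : #O ≤ #S := card_le_card hOS
  have key : ∀ w ∈ O, s' w + f = s w ∧ #S ≤ s' w := by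
    intro w hw
    have h1 := pattern_val hS (hOS hw)
    rcases hs w hw with h | h
    · exact ⟨h, h1.1⟩
    · omega
  have hne : ∀ w ∈ O, s w ≠ #O := by
    intro w hw h
    have := key w hw
    omega
  rcases hp with ⟨p, hp, h1, h2⟩ | ⟨h3, p, hp, q, hq, r, hr, hpq, hpr, hqr, h4, h5⟩
  · have hO : ∀ w ∈ O, w = p := by
      intro w hw
      by_contra e
      exact hne w hw (h2 w hw e)
    have hO1 : #O = 1 := by
      rw [Finset.card_eq_one]
      exact ⟨p, Finset.eq_singleton_iff_unique_mem.2 ⟨hp, hO⟩⟩
    have k := key p hp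
    have hS1 : #S = 1 := by omega
    rcases hS with ⟨p', hp', h1', h2'⟩ | ⟨h3, -⟩
    · have e : p' = p := Finset.card_le_one.1 hS1.le p' hp' p (hOS hp)
      subst e
      omega
    · omega
  · have hO : ∀ w ∈ O, w = p ∨ w = q ∨ w = r := by
      intro w hw
      by_contra hcon
      push Not at hcon
      exact hne w hw (h4 w hw hcon.1 hcon.2.1 hcon.2.2)
    have hO3 : #O = 3 := by
      have : O = {p, q, r} := by
        ext w
        simp only [Finset.mem_insert, Finset.mem_singleton]
        constructor
        · exact hO w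
        · rintro (e | e | e) <;> rw [e] <;> assumption
      rw [this]
      rw [Finset.card_insert_of_notMem, Finset.card_insert_of_notMem, Finset.card_singleton]
      · simpa using hqr
      · simp only [Finset.mem_insert, Finset.mem_singleton]
        rintro (e | e)
        · exact hpq e
        · exact hpr e
    have kp := key p hp
    have kq := key q hq
    have kr := key r hr
    have hS3 : #S = 3 := by omega
    have hSO : O = S := Finset.eq_of_subset_of_card_le hOS (by omega)
    rcases hS with ⟨p', hp', h1', h2'⟩ | ⟨-, p', hp', q', hq', r', hr', hpq', -, -, -, h5'⟩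
    · rw [← hSO] at hp'
      rcases hO p' hp' with e | e | e <;> rw [e] at h1' <;> omega
    · rw [← hSO] at hp' hq'
      rcases hO p' hp' with e | e | e <;> rcases hO q' hq' with e' | e' | e' <;>
        rw [e, e'] at h5' <;>
        first
        | (exact hpq' (e.trans e'.symm))
        | omega

/-- data of a vertex: time, labels, arcs in the colours `0`, `1`, arcs in colour `0` -/
structure Rc (V : Type) where
  r : ℕ
  a : ℕ
  b : ℕ
  E : Finset V
  T : Finset V

variable {V : Type} [Fintype V]

open Classical in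
/-- number of inneighbours in class `2` -/
noncomputable def offs (D : V → V → Prop) (cl : V → Option (Fin 3)) (v : V) : ℕ :=
  #({q | cl q = some 2 ∧ D q v} : Finset V)

open Classical in
/-- vertices outside the classes which are not sinks -/
noncomputable def wset (D : V → V → Prop) (cl : V → Option (Fin 3)) : Finset V :=
  {v | cl v = none ∧ outDeg D v ≠ 0}

open Classical in
/-- outneighbours which are sinks or in class `2` -/
noncomputable def flx (D : V → V → Prop) (cl : V → Option (Fin 3)) (v : V) : Finset V :=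
  {q | D v q ∧ (outDeg D q = 0 ∨ cl q = some 2)}

open Classical in
/-- vertices of `N` which come before `v` and satisfy `R` -/
noncomputable def earlier (g : V → Rc V) (N : Finset V) (v : V) (R : V → Prop) : Finset V :=
  N.filter fun w => (g w).r < (g v).r ∧ R w

/-- the label of `v` is good -/
structure LabOK (D : V → V → Prop) (cl : V → Option (Fin 3)) (B : Finset V) (g : V → Rc V)
    (v : V) (x : Rc V) : Prop where
  te : x.T ⊆ x.E
  el : ∀ w ∈ x.E, D v w ∧ (w ∈ B ∨ w ∈ flx D cl v ∨ (cl w = some 1 ∧ w ∈ x.T) ∨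
    (cl w = some 0 ∧ w ∉ x.T))
  be : B ⊆ x.E
  fe : flx D cl v ⊆ x.E
  a : x.a = #x.T
  b : x.b + #x.T = #x.E
  good : inDeg D v = 0 ∨ ∀ w ∈ B, (w ∈ x.T → (g w).a ≠ x.a) ∧ (w ∉ x.T → (g w).b ≠ x.b)

open Classical in
/-- the invariant -/
structure Inv (D : V → V → Prop) (cl : V → Option (Fin 3)) (T P : Finset V) (g : V → Rc V) :
    Prop where
  pt : P ⊆ T
  tw : T ⊆ wset D cl
  rl : ∀ v ∈ T, (g v).r < #T
  ri : ∀ u ∈ T, ∀ v ∈ T, (g u).r = (g v).r → u = v
  lv : ∀ u ∈ T \ P, ∀ v ∈ T \ P, (g u).r < (g v).r → D u v →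
    #(earlier g (T \ P) u fun w => D w u) + offs D cl u <
      #(earlier g (T \ P) v fun w => D w v) + offs D cl v
  fu : ∀ u ∈ T \ P, ∀ x ∈ wset D cl \ T,
    #(earlier g (T \ P) u fun w => D w u) + offs D cl u ≤
      #((T \ P).filter fun w => D w x) + offs D cl x ∧
    (D u x → #(earlier g (T \ P) u fun w => D w u) + offs D cl u <
      #((T \ P).filter fun w => D w x) + offs D cl x)
  lab : ∀ v ∈ T \ P, LabOK D cl (earlier g (T \ P) v fun w => D v w) g v (g v)
  pc : ∀ p ∈ P, Unabsorbed D cl p ∧
    Pattern (earlier g (T \ P) p fun w => D p w) (fun w => (g w).a + (g w).b)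

end Pool.Agent.H35.Lir
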