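import Pool.Agent.H35.Lir.FewestStep

/-!
The colouring for digraphs with an absorbing set.
-/

namespace Pool.Agent.H35.Lir

open Finset

variable {V : Type} [Fintype V]

/-- data of a stuck vertex: is it pure, labels, arcs in colour `0` -/
structure Pl (V : Type) where
  u : Bool
  a : ℕ
  b : ℕ
  T : Finset V

open Classical in
/-- pure outneighbours -/
noncomputable def pureSet (D : V → V → Prop) (P : Finset V) (F : V → Pl V) (v : V) : Finset V :=
  {w | D v w ∧ w ∈ P ∧ (F w).u = true}

open Classical in
/-- the other outneighbours -/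
noncomputable def freeSet (D : V → V → Prop) (P : Finset V) (F : V → Pl V) (v : V) : Finset V :=
  {w | D v w ∧ (w ∈ P → (F w).u = false)}

open Classical in
/-- label in colour 0 -/
noncomputable def la (P : Finset V) (g : V → Rc V) (F : V → Pl V) (w : V) : ℕ :=
  if w ∈ P then (F w).a else (g w).a

open Classical in
/-- label in colour 1 -/
noncomputable def lb (P : Finset V) (g : V → Rc V) (F : V → Pl V) (w : V) : ℕ :=
  if w ∈ P then (F w).b else (g w).b

/-- the local condition -/
def PQ (D : V → V → Prop) (P : Finset V) (g : V → Rc V) (v : V) (x : Pl V) (F : V → Pl V) :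
    Prop :=
  v ∈ P → (x.u = true ∧ ∀ w, D v w → w ∈ P → (F w).u = false) ∨
    (x.u = false ∧ x.T ⊆ freeSet D P F v ∧ x.a = #x.T ∧
      x.b + #x.T = #(pureSet D P F v) + #(freeSet D P F v) ∧
      ∀ w ∈ freeSet D P F v, (w ∈ x.T → la P g F w ≠ x.a) ∧ (w ∉ x.T → lb P g F w ≠ x.b))

open Classical in
theorem exists_pl {D : V → V → Prop} {cl : V → Option (Fin 3)} {P : Finset V} {g : V → Rc V}
    (h : Inv D cl (wset D cl) P g)
    (hac : ∀ x, ¬ Relation.TransGen
      (fun a b => D a b ∧ Unabsorbed D cl a ∧ Unabsorbed D cl b) x x) :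
    ∃ F : V → Pl V, ∀ v, PQ D P g v (F v) F := by
  obtain ⟨ρ, hρ⟩ := exists_rank _ hac
  have hρP : ∀ v ∈ P, ∀ w ∈ P, D v w → ρ w < ρ v :=
    fun v hv w hw hD => hρ v w ⟨hD, (h.pc v hv).1, (h.pc w hw).1⟩
  refine exists_rec ρ (PQ D P g) ?_ (fun _ => ⟨false, 0, 0, ∅⟩) ?_
  · intro v x F F' hF hq hv
    have hFw : ∀ w, D v w → w ∈ P → F w = F' w := fun w hw hwP => hF w (hρP v hv w hwP hw)
    have e1 : pureSet D P F v = pureSet D P F' v := by
      unfold pureSet
      apply Finset.filter_congr
      intro w _
      constructor
      · rintro ⟨a1, a2, a3⟩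
        exact ⟨a1, a2, by rw [← hFw w a1 a2]; exact a3⟩
      · rintro ⟨a1, a2, a3⟩
        exact ⟨a1, a2, by rw [hFw w a1 a2]; exact a3⟩
    have e2 : freeSet D P F v = freeSet D P F' v := by
      unfold freeSet
      apply Finset.filter_congr
      intro w _
      constructor
      · rintro ⟨a1, a2⟩
        exact ⟨a1, fun hw => by rw [← hFw w a1 hw]; exact a2 hw⟩
      · rintro ⟨a1, a2⟩
        exact ⟨a1, fun hw => by rw [hFw w a1 hw]; exact a2 hw⟩
    have e3 : ∀ w ∈ freeSet D P F' v, la P g F w = la P g F' w ∧ lb P g F w = lb P g F' w := by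
      intro w hw
      have hDw : D v w := by
        unfold freeSet at hw
        simp only [Finset.mem_filter, Finset.mem_univ, true_and] at hw
        exact hw.1
      unfold la lb
      by_cases hwP : w ∈ P
      · rw [if_pos hwP, if_pos hwP, if_pos hwP, if_pos hwP, hFw w hDw hwP]
        exact ⟨rfl, rfl⟩
      · rw [if_neg hwP, if_neg hwP, if_neg hwP, if_neg hwP]
        exact ⟨rfl, rfl⟩
    rcases hq hv with ⟨a1, a2⟩ | ⟨a1, a2, a3, a4, a5⟩
    · exact Or.inl ⟨a1, fun w hw hwP => by rw [← hFw w hw hwP]; exact a2 w hw hwP⟩
    · right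
      rw [e1, e2] at a4
      rw [e2] at a2 a5
      refine ⟨a1, a2, a3, a4, fun w hw => ?_⟩
      rw [← (e3 w hw).1, ← (e3 w hw).2]
      exact a5 w hw
  · intro v F _
    by_cases hv : v ∈ P
    swap
    · exact ⟨⟨false, 0, 0, ∅⟩, fun h => absurd h hv⟩
    obtain ⟨f, hf⟩ : ∃ f, f = #(pureSet D P F v) := ⟨_, rfl⟩
    obtain ⟨S, hS⟩ : ∃ S, S = freeSet D P F v := ⟨_, rfl⟩
    have hSmem : ∀ w, w ∈ S ↔ D v w ∧ (w ∈ P → (F w).u = false) := by
      intro w; rw [hS]; unfold freeSet; simp
    obtain ⟨m, hm⟩ : ∃ m, m = 2 * #S + 1 := ⟨_, rfl⟩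
    by_cases hpat : Pattern S
        (fun w => la P g F w + (if f ≤ lb P g F w then lb P g F w - f else m))
    · -- pure
      have hf0 : f = 0 := by
        by_contra hne
        refine no_pattern (f := f) (h.pc v hv).2 ?_ (by omega) ?_ hpat
        · intro w hw
          unfold earlier at hw
          rw [Finset.mem_filter, Finset.mem_sdiff] at hw
          rw [hSmem]
          exact ⟨hw.2.2, fun hwP => absurd hwP hw.1.2⟩
        · intro w hw
          unfold earlier at hw
          rw [Finset.mem_filter, Finset.mem_sdiff] at hw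
          have hwP := hw.1.2
          unfold la lb
          simp only [if_neg hwP]
          by_cases hfb : f ≤ (g w).b
          · left
            rw [if_pos hfb]
            omega
          · right
            rw [if_neg hfb]
            omega
      refine ⟨⟨true, 0, 0, ∅⟩, fun _ => Or.inl ⟨rfl, fun w hw hwP => ?_⟩⟩
      by_contra hcon
      have hmem : w ∈ pureSet D P F v := by
        unfold pureSet
        simp only [Finset.mem_filter, Finset.mem_univ, true_and]
        exact ⟨hw, hwP, by simpa using hcon⟩
      rw [hf, Finset.card_eq_zero] at hf0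
      rw [hf0] at hmem
      exact absurd hmem (Finset.notMem_empty _)
    · obtain ⟨T', hT', -, h1, h2⟩ := local_split S S (Finset.Subset.refl _)
        (fun w => la P g F w) (fun w => if f ≤ lb P g F w then lb P g F w - f else m) ∅
        (Or.inr (Or.inr ⟨rfl, hpat⟩))
      have hcs := Finset.card_sdiff_add_card_eq_card hT'
      refine ⟨⟨false, #T', f + #(S \ T'), T'⟩, fun _ => Or.inr ⟨rfl, ?_, rfl, ?_, ?_⟩⟩
      · rw [← hS]; exact hT'
      · rw [← hS, ← hf]
        change f + #(S \ T') + #T' = f + #S
        omega
      · rw [← hS]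
        intro w hw
        refine ⟨fun hwT => h1 w hw hwT, fun hwT he => ?_⟩
        apply h2 w hw hwT
        have hle : #(S \ T') ≤ #S := Finset.card_le_card Finset.sdiff_subset
        change lb P g F w = f + #(S \ T') at he
        change (if f ≤ lb P g F w then lb P g F w - f else m) = #(S \ T')
        rw [if_pos (by omega)]
        omega

open Classical in
theorem exists_three_absorbing (D : V → V → Prop) (hD : ∀ x, ¬ D x x)
    (cl : V → Option (Fin 3)) (hcl : Absorbing D cl) :
    ∃ c : V → V → Fin 3, IsWLIColouring D c := by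
  obtain ⟨hF, hzero, hac⟩ := hcl
  obtain ⟨P, g, h⟩ := exists_inv D cl
  obtain ⟨F, hPQ⟩ := exists_pl h hac
  have hWmem : ∀ w, w ∈ wset D cl ↔ cl w = none ∧ outDeg D w ≠ 0 := by
    intro w; unfold wset; simp
  have hfmem : ∀ v w, w ∈ flx D cl v ↔ D v w ∧ (outDeg D w = 0 ∨ cl w = some 2) := by
    intro v w; unfold flx; simp
  have hout : ∀ {x y}, D x y → outDeg D x ≠ 0 := by
    intro x y hxy h0
    rw [outDeg, Set.ncard_eq_zero (Set.toFinite _), Set.eq_empty_iff_forall_notMem] at h0
    exact h0 y hxy
  have hPW : ∀ x ∈ P, cl x = none := fun x hx => ((hWmem x).1 (h.pt hx)).1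
  have hkind : ∀ x, cl x = none → outDeg D x ≠ 0 → x ∈ P ∨ x ∈ wset D cl \ P := by
    intro x h1 h2
    by_cases hx : x ∈ P
    · exact Or.inl hx
    · exact Or.inr (Finset.mem_sdiff.2 ⟨(hWmem x).2 ⟨h1, h2⟩, hx⟩)
  -- the colouring
  obtain ⟨C, hC⟩ : ∃ C : V → V → Fin 3, ∀ x y, C x y =
      match cl x with
      | some i => i
      | none => if x ∈ P then (if (F x).u = true then 0 else if y ∈ (F x).T then 0 else 1)
          else (if y ∈ (g x).E then (if y ∈ (g x).T then 0 else 1) else 2) := ⟨_, fun _ _ => rfl⟩
  have cF : ∀ x y i, cl x = some i → C x y = i := by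
    intro x y i hx
    rw [hC, hx]
  have cPu : ∀ x y, x ∈ P → (F x).u = true → C x y = 0 := by
    intro x y hx hu
    rw [hC, hPW x hx]
    simp only [if_pos hx, if_pos hu]
  have cPn : ∀ x y, x ∈ P → (F x).u = false → C x y = if y ∈ (F x).T then 0 else 1 := by
    intro x y hx hu
    rw [hC, hPW x hx]
    simp only [if_pos hx, hu]
    simp
  have cN : ∀ x y, x ∈ wset D cl \ P →
      C x y = if y ∈ (g x).E then (if y ∈ (g x).T then 0 else 1) else 2 := by
    intro x y hx
    rw [Finset.mem_sdiff] at hx
    rw [hC, ((hWmem x).1 hx.1).1]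
    simp only [if_neg hx.2]
  have cP2 : ∀ x y, x ∈ P → C x y ≠ 2 := by
    intro x y hx
    rcases hu : (F x).u with _ | _
    · rw [cPn x y hx hu]
      split_ifs <;> decide
    · rw [cPu x y hx hu]
      decide
  have hun : ∀ x ∈ P, Unabsorbed D cl x := fun x hx => (h.pc x hx).1
  have hrl : ∀ x ∈ wset D cl \ P, x ∈ wset D cl := fun x hx => (Finset.mem_sdiff.1 hx).1
  -- membership in `E`
  have hE : ∀ x ∈ wset D cl \ P, ∀ y, y ∈ (g x).E → D x y ∧
      ((y ∈ wset D cl \ P ∧ (g y).r < (g x).r) ∨ outDeg D y = 0 ∨ cl y = some 2 ∨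
        (cl y = some 1 ∧ y ∈ (g x).T) ∨ (cl y = some 0 ∧ y ∉ (g x).T)) := by
    intro x hx y hy
    obtain ⟨h1, h2⟩ := (h.lab x hx).el y hy
    refine ⟨h1, ?_⟩
    rcases h2 with h2 | h2 | h2 | h2
    · left
      unfold earlier at h2
      rw [Finset.mem_filter] at h2
      exact ⟨h2.1, h2.2.1⟩
    · rcases ((hfmem x y).1 h2).2 with h3 | h3
      · exact Or.inr (Or.inl h3)
      · exact Or.inr (Or.inr (Or.inl h3))
    · exact Or.inr (Or.inr (Or.inr (Or.inl h2)))
    · exact Or.inr (Or.inr (Or.inr (Or.inr h2)))
  have hEf : ∀ x ∈ wset D cl \ P, ∀ y, D x y → (outDeg D y = 0 ∨ cl y = some 2) →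
      y ∈ (g x).E := fun x hx y hxy hy => (h.lab x hx).fe ((hfmem x y).2 ⟨hxy, hy⟩)
  have hEN : ∀ x ∈ wset D cl \ P, ∀ y ∈ wset D cl \ P, D x y →
      (y ∈ (g x).E ↔ (g y).r < (g x).r) := by
    intro x hx y hy hxy
    constructor
    · intro hyE
      have h0 := (hWmem y).1 (hrl y hy)
      obtain ⟨-, h1 | h1 | h1 | h1 | h1⟩ := hE x hx y hyE
      · exact h1.2
      · exact absurd h1 h0.2
      · rw [h0.1] at h1; exact absurd h1 (by simp)
      · rw [h0.1] at h1; exact absurd h1.1 (by simp)
      · rw [h0.1] at h1; exact absurd h1.1 (by simp)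
    · intro hr
      apply (h.lab x hx).be
      unfold earlier
      rw [Finset.mem_filter]
      exact ⟨hy, hr, hxy⟩
  -- outdegrees of the labels
  have oN0 : ∀ x ∈ wset D cl \ P, outDeg (fun a b => D a b ∧ C a b = 0) x = (g x).a := by
    intro x hx
    rw [(h.lab x hx).a]
    unfold outDeg
    rw [ncard_filter]
    congr 1
    ext w
    simp only [Finset.mem_filter, Finset.mem_univ, true_and]
    rw [cN x w hx]
    constructor
    · rintro ⟨h1, h2⟩
      by_contra hT
      by_cases hwE : w ∈ (g x).E
      · rw [if_pos hwE, if_neg hT] at h2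
        exact absurd h2 (by decide)
      · rw [if_neg hwE] at h2
        exact absurd h2 (by decide)
    · intro hT
      have hwE := (h.lab x hx).te hT
      rw [if_pos hwE, if_pos hT]
      exact ⟨(hE x hx w hwE).1, rfl⟩
  have oN1 : ∀ x ∈ wset D cl \ P, outDeg (fun a b => D a b ∧ C a b = 1) x = (g x).b := by
    intro x hx
    have hb := (h.lab x hx).b
    have hcs := Finset.card_sdiff_add_card_eq_card (h.lab x hx).te
    have : outDeg (fun a b => D a b ∧ C a b = 1) x = #((g x).E \ (g x).T) := by
      unfold outDeg
      rw [ncard_filter]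
      congr 1
      ext w
      simp only [Finset.mem_filter, Finset.mem_univ, true_and, Finset.mem_sdiff]
      rw [cN x w hx]
      constructor
      · rintro ⟨h1, h2⟩
        by_cases hwE : w ∈ (g x).E
        · refine ⟨hwE, fun hT => ?_⟩
          rw [if_pos hwE, if_pos hT] at h2
          exact absurd h2 (by decide)
        · rw [if_neg hwE] at h2
          exact absurd h2 (by decide)
      · rintro ⟨hwE, hT⟩
        rw [if_pos hwE, if_neg hT]
        exact ⟨(hE x hx w hwE).1, rfl⟩
    rw [this]
    omega
  have hfr : ∀ x w, w ∈ freeSet D P F x ↔ D x w ∧ (w ∈ P → (F w).u = false) := by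
    intro x w; unfold freeSet; simp
  have hpu : ∀ x w, w ∈ pureSet D P F x ↔ D x w ∧ w ∈ P ∧ (F w).u = true := by
    intro x w; unfold pureSet; simp
  have hnp : ∀ x ∈ P, (F x).u = false → (F x).T ⊆ freeSet D P F x ∧ (F x).a = #(F x).T ∧
      (F x).b + #(F x).T = #(pureSet D P F x) + #(freeSet D P F x) ∧
      ∀ w ∈ freeSet D P F x, (w ∈ (F x).T → la P g F w ≠ (F x).a) ∧
        (w ∉ (F x).T → lb P g F w ≠ (F x).b) := by
    intro x hx hu
    rcases hPQ x hx with h1 | h1
    · rw [hu] at h1
      exact absurd h1.1 (by simp)
    · exact h1.2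
  have oP0 : ∀ x ∈ P, (F x).u = false →
      outDeg (fun a b => D a b ∧ C a b = 0) x = (F x).a := by
    intro x hx hu
    obtain ⟨h1, h2, -, -⟩ := hnp x hx hu
    rw [h2]
    unfold outDeg
    rw [ncard_filter]
    congr 1
    ext w
    simp only [Finset.mem_filter, Finset.mem_univ, true_and]
    rw [cPn x w hx hu]
    constructor
    · rintro ⟨-, h4⟩
      by_contra hT
      rw [if_neg hT] at h4
      exact absurd h4 (by decide)
    · intro hT
      rw [if_pos hT]
      exact ⟨((hfr x w).1 (h1 hT)).1, rfl⟩
  have oP1 : ∀ x ∈ P, (F x).u = false →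
      outDeg (fun a b => D a b ∧ C a b = 1) x = (F x).b := by
    intro x hx hu
    obtain ⟨h1, -, h3, -⟩ := hnp x hx hu
    have hcs := Finset.card_sdiff_add_card_eq_card h1
    have hdis : Disjoint (pureSet D P F x) (freeSet D P F x \ (F x).T) := by
      rw [Finset.disjoint_left]
      intro w hw1 hw2
      have e1 := (hpu x w).1 hw1
      have e2 := (hfr x w).1 (Finset.mem_sdiff.1 hw2).1
      rw [e2.2 e1.2.1] at e1
      exact absurd e1.2.2 (by simp)
    have : outDeg (fun a b => D a b ∧ C a b = 1) x =
        #(pureSet D P F x ∪ (freeSet D P F x \ (F x).T)) := by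
      unfold outDeg
      rw [ncard_filter]
      congr 1
      ext w
      simp only [Finset.mem_filter, Finset.mem_univ, true_and, Finset.mem_union,
        Finset.mem_sdiff]
      rw [cPn x w hx hu]
      constructor
      · rintro ⟨h4, h5⟩
        have hT : w ∉ (F x).T := by
          intro hT
          rw [if_pos hT] at h5
          exact absurd h5 (by decide)
        by_cases hw : w ∈ P ∧ (F w).u = true
        · exact Or.inl ((hpu x w).2 ⟨h4, hw⟩)
        · right
          refine ⟨(hfr x w).2 ⟨h4, fun hwP => ?_⟩, hT⟩
          by_contra hcon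
          exact hw ⟨hwP, by simpa using hcon⟩
      · rintro (h4 | ⟨h4, hT⟩)
        · have e1 := (hpu x w).1 h4
          have hT : w ∉ (F x).T := by
            intro hT
            have e2 := (hfr x w).1 (h1 hT)
            rw [e2.2 e1.2.1] at e1
            exact absurd e1.2.2 (by simp)
          rw [if_neg hT]
          exact ⟨e1.1, rfl⟩
        · rw [if_neg hT]
          exact ⟨((hfr x w).1 h4).1, rfl⟩
    rw [this, Finset.card_union_of_disjoint hdis]
    omega
  have oL0 : ∀ w ∈ wset D cl, (w ∈ P → (F w).u = false) →
      outDeg (fun a b => D a b ∧ C a b = 0) w = la P g F w := by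
    intro w hw hu
    unfold la
    by_cases hwP : w ∈ P
    · rw [if_pos hwP]
      exact oP0 w hwP (hu hwP)
    · rw [if_neg hwP]
      exact oN0 w (Finset.mem_sdiff.2 ⟨hw, hwP⟩)
  have oL1 : ∀ w ∈ wset D cl, (w ∈ P → (F w).u = false) →
      outDeg (fun a b => D a b ∧ C a b = 1) w = lb P g F w := by
    intro w hw hu
    unfold lb
    by_cases hwP : w ∈ P
    · rw [if_pos hwP]
      exact oP1 w hwP (hu hwP)
    · rw [if_neg hwP]
      exact oN1 w (Finset.mem_sdiff.2 ⟨hw, hwP⟩)
  -- indegrees in colour `2`
  have i2 : ∀ v ∈ wset D cl \ P, inDeg (fun a b => D a b ∧ C a b = 2) v =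
      #(earlier g (wset D cl \ P) v fun w => D w v) + offs D cl v := by
    intro v hv
    have h0 := (hWmem v).1 (hrl v hv)
    unfold inDeg offs
    rw [ncard_filter, ← Finset.card_union_of_disjoint]
    · congr 1
      ext u
      unfold earlier
      simp only [Finset.mem_filter, Finset.mem_univ, true_and, Finset.mem_union]
      constructor
      · rintro ⟨h1, h2⟩
        rcases hcu : cl u with _ | j
        · left
          rcases hkind u hcu (hout h1) with hu | hu
          · exact absurd h2 (cP2 u v hu)
          · refine ⟨hu, ?_, h1⟩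
            rw [cN u v hu] at h2
            have hnE : v ∉ (g u).E := by
              intro hE'
              rw [if_pos hE'] at h2
              split_ifs at h2 <;> exact absurd h2 (by decide)
            rw [hEN u hu v hv h1] at hnE
            have hne : (g u).r ≠ (g v).r := by
              intro he
              have := h.ri u (hrl u hu) v (hrl v hv) he
              rw [this] at h1
              exact hD v h1
            omega
        · right
          rw [cF u v j hcu] at h2
          exact ⟨by rw [h2], h1⟩
      · rintro (⟨h1, h2, h3⟩ | ⟨h1, h2⟩)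
        · refine ⟨h3, ?_⟩
          rw [cN u v h1, if_neg]
          rw [hEN u h1 v hv h3]
          omega
        · exact ⟨h2, cF u v 2 h1⟩
    · rw [Finset.disjoint_left]
      intro u h1 h2
      unfold earlier at h1
      rw [Finset.mem_filter] at h1
      simp only [Finset.mem_filter, Finset.mem_univ, true_and] at h2
      have := ((hWmem u).1 (hrl u h1.1)).1
      rw [this] at h2
      exact absurd h2.1 (by simp)
  refine ⟨C, ?_⟩
  rintro i x y ⟨hxy, rfl⟩
  rcases hcx : cl x with _ | i
  swap
  · -- `x` in a class
    refine good_of_csource hxy fun u hu => ?_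
    rw [cF x y i hcx]
    rcases hcu : cl u with _ | j
    · rcases hkind u hcu (hout hu) with hu' | hu'
      · have := ((hun u hu').2.2.2 x hu).1
        rw [hcx] at this
        exact absurd this (by simp)
      · rw [cN u x hu']
        by_cases hxE : x ∈ (g u).E
        · rw [if_pos hxE]
          obtain ⟨-, h1 | h1 | h1 | h1 | h1⟩ := hE u hu' x hxE
          · have := ((hWmem x).1 (hrl x h1.1)).1
            rw [hcx] at this
            exact absurd this (by simp)
          · exact absurd h1 (hout hxy)
          · rw [hcx] at h1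
            have hi : i = 2 := by simpa using h1
            rw [hi]
            split_ifs <;> decide
          · rw [hcx] at h1
            have hi : i = 1 := by simpa using h1.1
            rw [if_pos h1.2, hi]
            decide
          · rw [hcx] at h1
            have hi : i = 0 := by simpa using h1.1
            rw [if_neg h1.2, hi]
            decide
        · rw [if_neg hxE]
          intro he
          exact hxE (hEf u hu' x hu (Or.inr (by rw [hcx, he])))
    · rw [cF u x j hcu]
      rintro rfl
      exact hF u x j hu hcu hcx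
  by_cases hy0 : outDeg D y = 0
  · refine good_of_csink hxy fun u hu => ?_
    exact absurd hy0 (hout hu)
  rcases hkind x hcx (hout hxy) with hx | hx
  · -- `x` stuck
    have hux := hun x hx
    have hyW : y ∈ wset D cl := (hWmem y).2 (hux.2.2.2 y hxy)
    rcases hu : (F x).u with _ | _
    · -- not pure
      obtain ⟨h1, h2, h3, h4⟩ := hnp x hx hu
      by_cases hyp : y ∈ P ∧ (F y).u = true
      · have hT : y ∉ (F x).T := by
          intro hT
          have e := ((hfr x y).1 (h1 hT)).2 hyp.1
          rw [hyp.2] at e
          exact absurd e (by simp)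
        have hc : C x y = 1 := by rw [cPn x y hx hu, if_neg hT]
        refine good_of_csink hxy fun u _ => ?_
        rw [hc, cPu y u hyp.1 hyp.2]
        decide
      · have hyu : y ∈ P → (F y).u = false := by
          intro hyP
          by_contra hcon
          exact hyp ⟨hyP, by simpa using hcon⟩
        have h5 := h4 y ((hfr x y).2 ⟨hxy, hyu⟩)
        have hcc := cPn x y hx hu
        by_cases hT : y ∈ (F x).T
        · rw [if_pos hT] at hcc
          rw [hcc]
          intro heq
          simp only [Prod.mk.injEq] at heq
          rw [oP0 x hx hu, oL0 y hyW hyu] at heq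
          exact h5.1 hT heq.1.symm
        · rw [if_neg hT] at hcc
          rw [hcc]
          intro heq
          simp only [Prod.mk.injEq] at heq
          rw [oP1 x hx hu, oL1 y hyW hyu] at heq
          exact h5.2 hT heq.1.symm
    · -- pure
      refine good_of_csource hxy fun w hw => ?_
      rw [cPu x y hx hu]
      rcases hcw : cl w with _ | j
      · rcases hkind w hcw (hout hw) with hw' | hw'
        · rcases huw : (F w).u with _ | _
          · obtain ⟨h1, -, -, -⟩ := hnp w hw' huw
            rw [cPn w x hw' huw, if_neg]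
            · decide
            · intro hT
              have e := ((hfr w x).1 (h1 hT)).2 hx
              rw [hu] at e
              exact absurd e (by simp)
          · rcases hPQ w hw' with h1 | h1
            · have := h1.2 x hw hx
              rw [hu] at this
              exact absurd this (by simp)
            · rw [huw] at h1
              exact absurd h1.1 (by simp)
        · rw [cN w x hw', if_neg]
          · decide
          · intro hxE
            obtain ⟨-, h1 | h1 | h1 | h1 | h1⟩ := hE w hw' x hxE
            · exact (Finset.mem_sdiff.1 h1.1).2 hx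
            · exact hout hxy h1
            · rw [hcx] at h1; exact absurd h1 (by simp)
            · rw [hcx] at h1; exact absurd h1.1 (by simp)
            · rw [hcx] at h1; exact absurd h1.1 (by simp)
      · rw [cF w x j hcw]
        rintro rfl
        exact hzero w x hw hcw hux
  · -- `x` not stuck
    have hcc := cN x y hx
    by_cases hyE : y ∈ (g x).E
    · rw [if_pos hyE] at hcc
      obtain ⟨-, h1 | h1 | h1 | h1 | h1⟩ := hE x hx y hyE
      · -- backward arc
        have hyB : y ∈ earlier g (wset D cl \ P) x fun w => D x w := by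
          unfold earlier
          rw [Finset.mem_filter]
          exact ⟨h1.1, h1.2, hxy⟩
        rcases (h.lab x hx).good with hs | hs
        · refine good_of_csource hxy fun u hu => ?_
          exfalso
          rw [inDeg, Set.ncard_eq_zero (Set.toFinite _), Set.eq_empty_iff_forall_notMem] at hs
          exact hs u hu
        · have h5 := hs y hyB
          by_cases hT : y ∈ (g x).T
          · rw [if_pos hT] at hcc
            rw [hcc]
            intro heq
            simp only [Prod.mk.injEq] at heq
            rw [oN0 x hx, oN0 y h1.1] at heq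
            exact h5.1 hT heq.1.symm
          · rw [if_neg hT] at hcc
            rw [hcc]
            intro heq
            simp only [Prod.mk.injEq] at heq
            rw [oN1 x hx, oN1 y h1.1] at heq
            exact h5.2 hT heq.1.symm
      · exact absurd h1 hy0
      · refine good_of_csink hxy fun u _ => ?_
        rw [cF y u 2 h1, hcc]
        split_ifs <;> decide
      · refine good_of_csink hxy fun u _ => ?_
        rw [cF y u 1 h1.1, hcc, if_pos h1.2]
        decide
      · refine good_of_csink hxy fun u _ => ?_
        rw [cF y u 0 h1.1, hcc, if_neg h1.2]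
        decide
    · rw [if_neg hyE] at hcc
      rcases hcy : cl y with _ | j
      · rcases hkind y hcy hy0 with hy | hy
        · refine good_of_csink hxy fun u _ => ?_
          rw [hcc]
          exact cP2 y u hy
        · -- forward arc
          have hlt : (g x).r < (g y).r := by
            have h1 : ¬ (g y).r < (g x).r := fun h1 => hyE ((hEN x hx y hy hxy).2 h1)
            have hne : (g x).r ≠ (g y).r := by
              intro he
              have := h.ri x (hrl x hx) y (hrl y hy) he
              rw [this] at hxy
              exact hD y hxy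
            omega
          have h1 := h.lv x hx y hy hlt hxy
          rw [hcc]
          intro heq
          simp only [Prod.mk.injEq] at heq
          rw [i2 x hx, i2 y hy] at heq
          omega
      · refine good_of_csink hxy fun u _ => ?_
        rw [cF y u j hcy, hcc]
        rintro rfl
        exact hyE (hEf x hx y hxy (Or.inr hcy))

end Pool.Agent.H35.Lir
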