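import Pool.Agent.H35.Lir.Fewest

/-!
The steps of the construction.
-/

namespace Pool.Agent.H35.Lir

open Finset

theorem pattern_congr {α : Type*} {S : Finset α} {s s' : α → ℕ} (h : Pattern S s)
    (he : ∀ w ∈ S, s' w = s w) : Pattern S s' := by
  rcases h with ⟨p, hp, h1, h2⟩ | ⟨h3, p, hp, q, hq, r, hr, a1, a2, a3, h4, h5⟩
  · exact Or.inl ⟨p, hp, by rw [he p hp, h1], fun w hw hne => by rw [he w hw, h2 w hw hne]⟩
  · refine Or.inr ⟨h3, p, hp, q, hq, r, hr, a1, a2, a3,
      fun w hw b1 b2 b3 => by rw [he w hw, h4 w hw b1 b2 b3], ?_⟩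
    rw [he p hp, he q hq, he r hr]
    exact h5

variable {V : Type}

open Classical in
theorem earlier_insert {g g' : V → Rc V} {N : Finset V} {v0 v : V} (R : V → Prop)
    (hN : ∀ w ∈ N, g' w = g w) (hv : g' v = g v) (hr : (g v).r ≤ (g' v0).r) :
    earlier g' (insert v0 N) v R = earlier g N v R := by
  unfold earlier
  ext w
  simp only [Finset.mem_filter, Finset.mem_insert]
  constructor
  · rintro ⟨e | h, h1, h2⟩
    · rw [e, hv] at h1
      omega
    · rw [hN w h, hv] at h1
      exact ⟨h, h1, h2⟩
  · rintro ⟨h, h1, h2⟩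
    rw [hN w h, hv]
    exact ⟨Or.inr h, h1, h2⟩

open Classical in
theorem earlier_same {g g' : V → Rc V} {N : Finset V} {v : V} (R : V → Prop)
    (hN : ∀ w ∈ N, g' w = g w) (hv : g' v = g v) :
    earlier g' N v R = earlier g N v R := by
  unfold earlier
  apply Finset.filter_congr
  intro w hw
  rw [hN w hw, hv]

open Classical in
theorem earlier_new {g' : V → Rc V} {N : Finset V} {v0 : V} (R : V → Prop)
    (hN : ∀ w ∈ N, (g' w).r < (g' v0).r) :
    earlier g' (insert v0 N) v0 R = N.filter R := by
  unfold earlier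
  ext w
  simp only [Finset.mem_filter, Finset.mem_insert]
  constructor
  · rintro ⟨e | h, h1, h2⟩
    · rw [e] at h1
      omega
    · exact ⟨h, h2⟩
  · rintro ⟨h, h2⟩
    exact ⟨Or.inr h, hN w h, h2⟩

open Classical in
theorem earlier_new' {g' : V → Rc V} {N : Finset V} {v0 : V} (R : V → Prop)
    (hN : ∀ w ∈ N, (g' w).r < (g' v0).r) :
    earlier g' N v0 R = N.filter R := by
  unfold earlier
  apply Finset.filter_congr
  intro w hw
  simp [hN w hw]

theorem LabOK.congr [Fintype V] {D : V → V → Prop} {cl : V → Option (Fin 3)} {B : Finset V} {g g' : V → Rc V}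
    {v : V} {x : Rc V} (h : LabOK D cl B g v x) (hg : ∀ w ∈ B, g' w = g w) :
    LabOK D cl B g' v x := by
  obtain ⟨h1, h2, h3, h4, h5, h6, h7⟩ := h
  refine ⟨h1, h2, h3, h4, h5, h6, ?_⟩
  rcases h7 with h | h
  · exact Or.inl h
  · right
    intro w hw
    rw [hg w hw]
    exact h w hw

variable [Fintype V]

open Classical in
theorem inv_addN {D : V → V → Prop} {cl : V → Option (Fin 3)} {T P : Finset V} {g : V → Rc V}
    (h : Inv D cl T P g) {v0 : V} (hv0 : v0 ∈ wset D cl \ T)
    (hmin : ∀ x ∈ wset D cl \ T, #((T \ P).filter fun w => D w v0) + offs D cl v0 ≤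
      #((T \ P).filter fun w => D w x) + offs D cl x)
    {x : Rc V} (hxr : x.r = #T) (hlab : LabOK D cl ((T \ P).filter fun w => D v0 w) g v0 x) :
    Inv D cl (insert v0 T) P (Function.update g v0 x) := by
  obtain ⟨g', hg'⟩ : ∃ g', g' = Function.update g v0 x := ⟨_, rfl⟩
  rw [← hg']
  rw [Finset.mem_sdiff] at hv0
  have hnew : g' v0 = x := by rw [hg', Function.update_self]
  have hold : ∀ w ∈ T, g' w = g w := by
    intro w hw
    rw [hg', Function.update_of_ne]
    rintro rfl
    exact hv0.2 hw
  have hv0P : v0 ∉ P := fun hp => hv0.2 (h.pt hp)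
  have hset : insert v0 T \ P = insert v0 (T \ P) := by
    rw [Finset.insert_sdiff_of_notMem _ hv0P]
  have holdN : ∀ w ∈ T \ P, g' w = g w := fun w hw => hold w (Finset.mem_sdiff.1 hw).1
  have hr0 : (g' v0).r = #T := by rw [hnew, hxr]
  have hNr : ∀ w ∈ T \ P, (g' w).r < (g' v0).r := by
    intro w hw
    rw [holdN w hw, hr0]
    exact h.rl w (Finset.mem_sdiff.1 hw).1
  have eold : ∀ v ∈ T, ∀ R : V → Prop,
      earlier g' (insert v0 (T \ P)) v R = earlier g (T \ P) v R := by
    intro v hv R
    exact earlier_insert R holdN (hold v hv) (by rw [hr0]; exact (h.rl v hv).le)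
  have enew : ∀ R : V → Prop, earlier g' (insert v0 (T \ P)) v0 R = (T \ P).filter R :=
    fun R => earlier_new R hNr
  have hcard : #(insert v0 T) = #T + 1 := Finset.card_insert_of_notMem hv0.2
  have hfil : ∀ y, #((insert v0 (T \ P)).filter fun w => D w y) =
      #((T \ P).filter fun w => D w y) + if D v0 y then 1 else 0 := by
    intro y
    rw [Finset.filter_insert]
    split_ifs with hd
    · rw [Finset.card_insert_of_notMem]
      intro hm
      exact hv0.2 (Finset.mem_sdiff.1 (Finset.mem_filter.1 hm).1).1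
    · rfl
  refine ⟨?_, ?_, ?_, ?_, ?_, ?_, ?_, ?_⟩
  · exact fun p hp => Finset.mem_insert_of_mem (h.pt hp)
  · intro v hv
    rcases Finset.mem_insert.1 hv with e | hv
    · rw [e]; exact hv0.1
    · exact h.tw hv
  · intro v hv
    rw [hcard]
    rcases Finset.mem_insert.1 hv with e | hv
    · rw [e, hr0]; omega
    · rw [hold v hv]
      have := h.rl v hv
      omega
  · intro u hu v hv he
    rcases Finset.mem_insert.1 hu with e | hu
    · rcases Finset.mem_insert.1 hv with e' | hv
      · rw [e, e']
      · rw [e, hr0, hold v hv] at he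
        have := h.rl v hv
        omega
    · rcases Finset.mem_insert.1 hv with e' | hv
      · rw [e', hr0, hold u hu] at he
        have := h.rl u hu
        omega
      · rw [hold u hu, hold v hv] at he
        exact h.ri u hu v hv he
  · rw [hset]
    intro u hu v hv hlt hD
    rcases Finset.mem_insert.1 hu with e | hu
    · rcases Finset.mem_insert.1 hv with e' | hv
      · rw [e, e'] at hlt
        omega
      · rw [e] at hlt
        have := hNr v hv
        omega
    · have huT := (Finset.mem_sdiff.1 hu).1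
      rw [eold u huT]
      rcases Finset.mem_insert.1 hv with e' | hv
      · rw [e', enew]
        rw [e'] at hD
        exact (h.fu u hu v0 (Finset.mem_sdiff.2 hv0)).2 hD
      · rw [eold v (Finset.mem_sdiff.1 hv).1]
        rw [holdN u hu, holdN v hv] at hlt
        exact h.lv u hu v hv hlt hD
  · rw [hset]
    intro u hu y hy
    have hyW : y ∈ wset D cl \ T := by
      rw [Finset.mem_sdiff] at hy ⊢
      exact ⟨hy.1, fun hc => hy.2 (Finset.mem_insert_of_mem hc)⟩
    rw [hfil y]
    rcases Finset.mem_insert.1 hu with e | hu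
    · rw [e, enew]
      have h1 := hmin y hyW
      constructor
      · omega
      · intro hD
        rw [if_pos hD]
        omega
    · rw [eold u (Finset.mem_sdiff.1 hu).1]
      obtain ⟨h1, h2⟩ := h.fu u hu y hyW
      constructor
      · omega
      · intro hD
        have := h2 hD
        omega
  · rw [hset]
    intro v hv
    rcases Finset.mem_insert.1 hv with e | hv
    · rw [e, enew, hnew]
      refine hlab.congr fun w hw => ?_
      exact holdN w (Finset.mem_filter.1 hw).1
    · have hvT := (Finset.mem_sdiff.1 hv).1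
      rw [eold v hvT, hold v hvT]
      refine (h.lab v hv).congr fun w hw => ?_
      exact holdN w (Finset.mem_filter.1 hw).1
  · rw [hset]
    intro p hp
    obtain ⟨h1, h2⟩ := h.pc p hp
    refine ⟨h1, ?_⟩
    rw [eold p (h.pt hp)]
    refine pattern_congr h2 fun w hw => ?_
    rw [holdN w (Finset.mem_filter.1 hw).1]

open Classical in
theorem inv_addP {D : V → V → Prop} {cl : V → Option (Fin 3)} {T P : Finset V} {g : V → Rc V}
    (h : Inv D cl T P g) {v0 : V} (hv0 : v0 ∈ wset D cl \ T)
    {x : Rc V} (hxr : x.r = #T) (hun : Unabsorbed D cl v0)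
    (hpat : Pattern ((T \ P).filter fun w => D v0 w) (fun w => (g w).a + (g w).b)) :
    Inv D cl (insert v0 T) (insert v0 P) (Function.update g v0 x) := by
  obtain ⟨g', hg'⟩ : ∃ g', g' = Function.update g v0 x := ⟨_, rfl⟩
  rw [← hg']
  rw [Finset.mem_sdiff] at hv0
  have hnew : g' v0 = x := by rw [hg', Function.update_self]
  have hold : ∀ w ∈ T, g' w = g w := by
    intro w hw
    rw [hg', Function.update_of_ne]
    rintro rfl
    exact hv0.2 hw
  have hset : insert v0 T \ insert v0 P = T \ P := by
    ext w
    simp only [Finset.mem_sdiff, Finset.mem_insert, not_or]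
    constructor
    · rintro ⟨e | h1, h2, h3⟩
      · exact absurd e h2
      · exact ⟨h1, h3⟩
    · rintro ⟨h1, h2⟩
      refine ⟨Or.inr h1, fun e => ?_, h2⟩
      rw [e] at h1
      exact hv0.2 h1
  have holdN : ∀ w ∈ T \ P, g' w = g w := fun w hw => hold w (Finset.mem_sdiff.1 hw).1
  have hr0 : (g' v0).r = #T := by rw [hnew, hxr]
  have hNr : ∀ w ∈ T \ P, (g' w).r < (g' v0).r := by
    intro w hw
    rw [holdN w hw, hr0]
    exact h.rl w (Finset.mem_sdiff.1 hw).1
  have eold : ∀ v ∈ T, ∀ R : V → Prop, earlier g' (T \ P) v R = earlier g (T \ P) v R :=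
    fun v hv R => earlier_same R holdN (hold v hv)
  have enew : ∀ R : V → Prop, earlier g' (T \ P) v0 R = (T \ P).filter R :=
    fun R => earlier_new' R hNr
  have hcard : #(insert v0 T) = #T + 1 := Finset.card_insert_of_notMem hv0.2
  refine ⟨?_, ?_, ?_, ?_, ?_, ?_, ?_, ?_⟩
  · exact Finset.insert_subset_insert _ h.pt
  · intro v hv
    rcases Finset.mem_insert.1 hv with e | hv
    · rw [e]; exact hv0.1
    · exact h.tw hv
  · intro v hv
    rw [hcard]
    rcases Finset.mem_insert.1 hv with e | hv
    · rw [e, hr0]; omega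
    · rw [hold v hv]
      have := h.rl v hv
      omega
  · intro u hu v hv he
    rcases Finset.mem_insert.1 hu with e | hu
    · rcases Finset.mem_insert.1 hv with e' | hv
      · rw [e, e']
      · rw [e, hr0, hold v hv] at he
        have := h.rl v hv
        omega
    · rcases Finset.mem_insert.1 hv with e' | hv
      · rw [e', hr0, hold u hu] at he
        have := h.rl u hu
        omega
      · rw [hold u hu, hold v hv] at he
        exact h.ri u hu v hv he
  · rw [hset]
    intro u hu v hv hlt hD
    rw [eold u (Finset.mem_sdiff.1 hu).1, eold v (Finset.mem_sdiff.1 hv).1]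
    rw [holdN u hu, holdN v hv] at hlt
    exact h.lv u hu v hv hlt hD
  · rw [hset]
    intro u hu y hy
    rw [eold u (Finset.mem_sdiff.1 hu).1]
    refine h.fu u hu y ?_
    rw [Finset.mem_sdiff] at hy ⊢
    exact ⟨hy.1, fun hc => hy.2 (Finset.mem_insert_of_mem hc)⟩
  · rw [hset]
    intro v hv
    have hvT := (Finset.mem_sdiff.1 hv).1
    rw [eold v hvT, hold v hvT]
    refine (h.lab v hv).congr fun w hw => ?_
    exact holdN w (Finset.mem_filter.1 hw).1
  · rw [hset]
    intro p hp
    rcases Finset.mem_insert.1 hp with e | hp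
    · rw [e, enew]
      refine ⟨hun, pattern_congr hpat fun w hw => ?_⟩
      rw [holdN w (Finset.mem_filter.1 hw).1]
    · obtain ⟨h1, h2⟩ := h.pc p hp
      refine ⟨h1, ?_⟩
      rw [eold p (h.pt hp)]
      refine pattern_congr h2 fun w hw => ?_
      rw [holdN w (Finset.mem_filter.1 hw).1]

open Classical in
/-- the label of a new vertex, or the reason why there is none -/
theorem exists_label {D : V → V → Prop} {cl : V → Option (Fin 3)}
    {N : Finset V} (hN : N ⊆ wset D cl) (g : V → Rc V) {v0 : V} (hv0 : v0 ∈ wset D cl) (k : ℕ) :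
    (∃ x : Rc V, x.r = k ∧ LabOK D cl (N.filter fun w => D v0 w) g v0 x) ∨
    (Unabsorbed D cl v0 ∧
      Pattern (N.filter fun w => D v0 w) (fun w => (g w).a + (g w).b)) := by
  set B : Finset V := N.filter fun w => D v0 w with hB
  have hBmem : ∀ w, w ∈ B ↔ w ∈ N ∧ D v0 w := by
    intro w; rw [hB, Finset.mem_filter]
  have hFmem : ∀ w, w ∈ flx D cl v0 ↔ D v0 w ∧ (outDeg D w = 0 ∨ cl w = some 2) := by
    intro w; unfold flx; simp
  have hWmem : ∀ w, w ∈ wset D cl ↔ cl w = none ∧ outDeg D w ≠ 0 := by
    intro w; unfold wset; simp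
  have hdis : ∀ w ∈ B, w ∉ flx D cl v0 := by
    intro w hw hf
    have h1 := (hWmem w).1 (hN ((hBmem w).1 hw).1)
    rcases ((hFmem w).1 hf).2 with h | h
    · exact h1.2 h
    · rw [h1.1] at h
      exact absurd h (by simp)
  obtain ⟨h0cl, h0out⟩ := (hWmem v0).1 hv0
  -- a regular label
  have reg : ∀ T' ⊆ B ∪ flx D cl v0, (inDeg D v0 = 0 ∨ ∀ w ∈ B, (w ∈ T' → (g w).a ≠ #T') ∧
      (w ∉ T' → (g w).b ≠ #((B ∪ flx D cl v0) \ T'))) →
      ∃ x : Rc V, x.r = k ∧ LabOK D cl B g v0 x := by
    intro T' hT' hgood
    refine ⟨⟨k, #T', #((B ∪ flx D cl v0) \ T'), B ∪ flx D cl v0, T'⟩, rfl, hT', ?_,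
      Finset.subset_union_left, Finset.subset_union_right, rfl, ?_, hgood⟩
    · intro w hw
      rcases Finset.mem_union.1 hw with h | h
      · exact ⟨((hBmem w).1 h).2, Or.inl h⟩
      · exact ⟨((hFmem w).1 h).1, Or.inr (Or.inl h)⟩
    · exact Finset.card_sdiff_add_card_eq_card hT'
  by_cases hsrc : inDeg D v0 = 0
  · exact Or.inl (reg ∅ (Finset.empty_subset _) (Or.inl hsrc))
  by_cases hfl : (flx D cl v0).Nonempty
  · left
    obtain ⟨q, hq⟩ := hfl
    have hlt : #B < #(B ∪ flx D cl v0) := by
      apply Finset.card_lt_card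
      rw [Finset.ssubset_iff_of_subset Finset.subset_union_left]
      exact ⟨q, Finset.mem_union_right _ hq, fun h => hdis q h hq⟩
    obtain ⟨T', hT', -, h1, h2⟩ := local_split (B ∪ flx D cl v0) B Finset.subset_union_left
      (fun w => (g w).a) (fun w => (g w).b) ∅ (Or.inl (by simpa using hlt))
    exact reg T' hT' (Or.inr fun w hw => ⟨h1 w hw, h2 w hw⟩)
  rw [Finset.not_nonempty_iff_eq_empty] at hfl
  by_cases hpat : Pattern B (fun w => (g w).a + (g w).b)
  swap
  · left
    obtain ⟨T', hT', -, h1, h2⟩ := local_split B B (Finset.Subset.refl _)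
      (fun w => (g w).a) (fun w => (g w).b) ∅ (Or.inr (Or.inr ⟨rfl, hpat⟩))
    refine reg T' (by rw [hfl, Finset.union_empty]; exact hT') (Or.inr fun w hw => ⟨h1 w hw, ?_⟩)
    rw [hfl, Finset.union_empty]
    exact h2 w hw
  -- a special arc
  by_cases hq : ∃ q, D v0 q ∧ cl q ≠ none
  · left
    obtain ⟨q, hq, hclq⟩ := hq
    have hqf : q ∉ flx D cl v0 := by rw [hfl]; exact Finset.notMem_empty _
    have hqB : q ∉ B := by
      intro h
      exact hclq ((hWmem q).1 (hN ((hBmem q).1 h).1)).1
    have hcard : #(insert q B) = #B + 1 := Finset.card_insert_of_notMem hqB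
    obtain ⟨m, hm⟩ : ∃ m, m = 2 * #B + 1 := ⟨_, rfl⟩
    have hcl : cl q = some 1 ∨ cl q = some 0 := by
      rcases hc : cl q with _ | i
      · exact absurd hc hclq
      · have hi : ∀ i : Fin 3, i = 0 ∨ i = 1 ∨ i = 2 := by decide
        rcases hi i with e | e | e
        · right; rw [e]
        · left; rw [e]
        · exfalso
          apply hqf
          rw [hFmem]
          exact ⟨hq, Or.inr (by rw [hc, e])⟩
    rcases hcl with hc | hc
    · -- special arc in colour 0
      have hnp : ¬ Pattern B (fun w => (if 1 ≤ (g w).a then (g w).a - 1 else m) + (g w).b) := by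
        refine no_pattern (f := 1) hpat (Finset.Subset.refl _) le_rfl fun w hw => ?_
        by_cases h : 1 ≤ (g w).a
        · left
          simp only [if_pos h]
          omega
        · right
          simp only [if_neg h]
          omega
      obtain ⟨T', hT', -, h1, h2⟩ := local_split B B (Finset.Subset.refl _)
        (fun w => if 1 ≤ (g w).a then (g w).a - 1 else m) (fun w => (g w).b) ∅
        (Or.inr (Or.inr ⟨rfl, hnp⟩))
      have hqT : q ∉ T' := fun h => hqB (hT' h)
      have hcT : #(insert q T') = #T' + 1 := Finset.card_insert_of_notMem hqT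
      have hcs := Finset.card_sdiff_add_card_eq_card hT'
      refine ⟨⟨k, #T' + 1, #(B \ T'), insert q B, insert q T'⟩, rfl,
        Finset.insert_subset_insert _ hT', ?_, Finset.subset_insert _ _, ?_, ?_, ?_, ?_⟩
      · intro w hw
        rcases Finset.mem_insert.1 hw with e | h
        · rw [e]
          exact ⟨hq, Or.inr (Or.inr (Or.inl ⟨hc, Finset.mem_insert_self _ _⟩))⟩
        · exact ⟨((hBmem w).1 h).2, Or.inl h⟩
      · rw [hfl]; exact Finset.empty_subset _
      · simp only [hcT]
      · simp only [hcT, hcard]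
        omega
      · right
        intro w hw
        have hwq : w ≠ q := by
          rintro rfl
          exact hqB hw
        constructor
        · intro hwT
          have hwT' : w ∈ T' := by
            rcases Finset.mem_insert.1 hwT with e | h
            · exact absurd e hwq
            · exact h
          have := h1 w hw hwT'
          intro he
          apply this
          simp only at he
          rw [if_pos (by omega)]
          omega
        · intro hwT
          exact h2 w hw fun h => hwT (Finset.mem_insert_of_mem h)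
    · -- special arc in colour 1
      have hnp : ¬ Pattern B (fun w => (g w).a + (if 1 ≤ (g w).b then (g w).b - 1 else m)) := by
        refine no_pattern (f := 1) hpat (Finset.Subset.refl _) le_rfl fun w hw => ?_
        by_cases h : 1 ≤ (g w).b
        · left
          simp only [if_pos h]
          omega
        · right
          simp only [if_neg h]
          omega
      obtain ⟨T', hT', -, h1, h2⟩ := local_split B B (Finset.Subset.refl _)
        (fun w => (g w).a) (fun w => if 1 ≤ (g w).b then (g w).b - 1 else m) ∅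
        (Or.inr (Or.inr ⟨rfl, hnp⟩))
      have hqT : q ∉ T' := fun h => hqB (hT' h)
      have hcs := Finset.card_sdiff_add_card_eq_card hT'
      refine ⟨⟨k, #T', #(B \ T') + 1, insert q B, T'⟩, rfl,
        hT'.trans (Finset.subset_insert _ _), ?_, Finset.subset_insert _ _, ?_, rfl, ?_, ?_⟩
      · intro w hw
        rcases Finset.mem_insert.1 hw with e | h
        · rw [e]
          exact ⟨hq, Or.inr (Or.inr (Or.inr ⟨hc, hqT⟩))⟩
        · exact ⟨((hBmem w).1 h).2, Or.inl h⟩
      · rw [hfl]; exact Finset.empty_subset _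
      · simp only [hcard]
        omega
      · right
        intro w hw
        constructor
        · intro hwT
          exact h1 w hw hwT
        · intro hwT he
          apply h2 w hw hwT
          simp only at he
          rw [if_pos (by omega)]
          omega
  · right
    push Not at hq
    refine ⟨⟨h0cl, hsrc, h0out, fun y hy => ⟨hq y hy, fun h0 => ?_⟩⟩, hpat⟩
    have : y ∈ flx D cl v0 := by
      rw [hFmem]
      exact ⟨hy, Or.inl h0⟩
    rw [hfl] at this
    exact absurd this (Finset.notMem_empty _)

open Classical in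
theorem exists_inv (D : V → V → Prop) (cl : V → Option (Fin 3)) :
    ∃ (P : Finset V) (g : V → Rc V), Inv D cl (wset D cl) P g := by
  have main : ∀ n, n ≤ #(wset D cl) → ∃ (T P : Finset V) (g : V → Rc V),
      Inv D cl T P g ∧ #T = n := by
    intro n
    induction n with
    | zero =>
      intro _
      refine ⟨∅, ∅, fun _ => ⟨0, 0, 0, ∅, ∅⟩, ⟨by simp, by simp, by simp, by simp, by simp,
        by simp, by simp, by simp⟩, rfl⟩
    | succ n ih =>
      intro hn
      obtain ⟨T, P, g, h, hT⟩ := ih (by omega)
      have hne : (wset D cl \ T).Nonempty := by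
        rw [Finset.sdiff_nonempty]
        intro hsub
        have := Finset.card_le_card hsub
        omega
      obtain ⟨v0, hv0, hmin⟩ := Finset.exists_min_image (wset D cl \ T)
        (fun x => #((T \ P).filter fun w => D w x) + offs D cl x) hne
      have hv0' := Finset.mem_sdiff.1 hv0
      have hNW : T \ P ⊆ wset D cl := fun w hw => h.tw (Finset.mem_sdiff.1 hw).1
      have hcard : #(insert v0 T) = n + 1 := by
        rw [Finset.card_insert_of_notMem hv0'.2, hT]
      rcases exists_label hNW g hv0'.1 #T with ⟨x, hxr, hx⟩ | ⟨h1, h2⟩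
      · exact ⟨_, _, _, inv_addN h hv0 hmin hxr hx, hcard⟩
      · exact ⟨_, _, _, inv_addP h hv0 (x := ⟨#T, 0, 0, ∅, ∅⟩) rfl h1 h2, hcard⟩
  obtain ⟨T, P, g, h, hT⟩ := main _ le_rfl
  have : T = wset D cl := Finset.eq_of_subset_of_card_le h.tw hT.ge
  rw [this] at h
  exact ⟨P, g, h⟩

end Pool.Agent.H35.Lir
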