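import Pool.Agent.H35.Lir.Energy

namespace Pool.Agent.H35.Lir

open Finset

/-- Two-colour lemma for one vertex. -/
theorem two_col {α : Type*} [DecidableEq α] (S : Finset α) (β γ : α → ℕ)
    (h0 : ∃ y ∈ S, β y = 0 ∨ γ y = 0) :
    ∃ T ⊆ S, (∀ y ∈ T, β y ≠ #T) ∧ ∀ y ∈ S \ T, γ y ≠ #(S \ T) := by
  by_contra hcon
  set p := #S with hp
  obtain ⟨y0, hy0S, hy0⟩ := h0
  have hppos : 0 < p := Finset.card_pos.2 ⟨y0, hy0S⟩
  have hbad : ∀ a ≤ p, ¬ (Disjoint (S.filter fun y => β y = a) (S.filter fun y => γ y = p - a) ∧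
      #(S.filter fun y => β y = a) ≤ p - a ∧ #(S.filter fun y => γ y = p - a) ≤ a) := by
    rintro a ha ⟨hdis, hb, hr⟩
    apply hcon
    have hsub : (S.filter fun y => γ y = p - a) ⊆ S \ (S.filter fun y => β y = a) := by
      intro y hy
      rw [Finset.mem_sdiff]
      refine ⟨(Finset.mem_filter.1 hy).1, fun hy' => ?_⟩
      exact Finset.disjoint_left.1 hdis hy' hy
    have hcard : a ≤ #(S \ (S.filter fun y => β y = a)) := by
      rw [Finset.card_sdiff_of_subset (Finset.filter_subset _ _)]
      omega
    obtain ⟨T, hT1, hT2, hT3⟩ := Finset.exists_subsuperset_card_eq hsub hr hcard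
    refine ⟨T, hT2.trans Finset.sdiff_subset, ?_, ?_⟩
    · intro y hy hβ
      have h1 := hT2 hy
      rw [Finset.mem_sdiff] at h1
      exact h1.2 (Finset.mem_filter.2 ⟨h1.1, by rw [hβ, hT3]⟩)
    · intro y hy hγ
      rw [Finset.mem_sdiff] at hy
      apply hy.2
      apply hT1
      rw [Finset.mem_filter]
      refine ⟨hy.1, ?_⟩
      rw [hγ, Finset.card_sdiff_of_subset (hT2.trans Finset.sdiff_subset), hT3]
  -- extreme values
  obtain ⟨y1, hy1S, hy1⟩ : ∃ y ∈ S, β y = p := by
    by_contra hno
    push Not at hno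
    have hE : (S.filter fun y => β y = p) = ∅ := by
      rw [Finset.filter_eq_empty_iff]
      exact fun y hy => hno y hy
    apply hbad p le_rfl
    rw [hE]
    refine ⟨Finset.disjoint_empty_left _, by simp, ?_⟩
    exact Finset.card_le_card (Finset.filter_subset _ _)
  obtain ⟨y2, hy2S, hy2⟩ : ∃ y ∈ S, γ y = p := by
    by_contra hno
    push Not at hno
    have hE : (S.filter fun y => γ y = p - 0) = ∅ := by
      rw [Finset.filter_eq_empty_iff]
      exact fun y hy => by simpa using hno y hy
    apply hbad 0 (Nat.zero_le _)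
    rw [hE]
    refine ⟨Finset.disjoint_empty_right _, ?_, by simp⟩
    exact Finset.card_le_card (Finset.filter_subset _ _)
  have htwo : ∀ a ∈ Finset.Ico 1 p,
      2 ≤ #(S.filter fun y => β y = a) + #(S.filter fun y => γ y = p - a) := by
    intro a ha
    rw [Finset.mem_Ico] at ha
    by_contra hlt
    push Not at hlt
    apply hbad a (by omega)
    refine ⟨?_, by omega, by omega⟩
    rw [Finset.disjoint_left]
    intro y h1 h2
    have h3 : 1 ≤ #(S.filter fun y => β y = a) := Finset.card_pos.2 ⟨y, h1⟩
    have h4 : 1 ≤ #(S.filter fun y => γ y = p - a) := Finset.card_pos.2 ⟨y, h2⟩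
    omega
  have hsum := Finset.sum_le_sum htwo
  rw [Finset.sum_const, Nat.card_Ico, smul_eq_mul, Finset.sum_add_distrib] at hsum
  have hB : ∑ a ∈ Finset.Ico 1 p, #(S.filter fun y => β y = a) =
      #(S.filter fun y => β y ∈ Finset.Ico 1 p) := by
    rw [Finset.card_eq_sum_card_fiberwise (f := β) (t := Finset.Ico 1 p)
      (s := S.filter fun y => β y ∈ Finset.Ico 1 p)]
    · refine Finset.sum_congr rfl fun a ha => ?_
      rw [Finset.filter_filter]
      congr 1
      ext y
      simp only [Finset.mem_filter]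
      constructor
      · rintro ⟨h1, h2⟩
        exact ⟨h1, by rw [h2]; exact ha, h2⟩
      · rintro ⟨h1, _, h2⟩
        exact ⟨h1, h2⟩
    · intro y hy
      exact (Finset.mem_filter.1 hy).2
  have hG : ∑ a ∈ Finset.Ico 1 p, #(S.filter fun y => γ y = p - a) =
      #(S.filter fun y => γ y ∈ Finset.Ico 1 p) := by
    rw [Finset.card_eq_sum_card_fiberwise (f := fun y => p - γ y) (t := Finset.Ico 1 p)
      (s := S.filter fun y => γ y ∈ Finset.Ico 1 p)]
    · refine Finset.sum_congr rfl fun a ha => ?_
      rw [Finset.filter_filter]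
      congr 1
      ext y
      simp only [Finset.mem_filter, Finset.mem_Ico] at ha ⊢
      constructor
      · rintro ⟨h1, h2⟩
        exact ⟨h1, by omega, by omega⟩
      · rintro ⟨h1, h2, h3⟩
        exact ⟨h1, by omega⟩
    · intro y hy
      have := (Finset.mem_filter.1 hy).2
      simp only [Finset.mem_Ico, Finset.coe_Ico, Set.mem_Ico] at this ⊢
      omega
  rw [hB, hG] at hsum
  have hB1 : #(S.filter fun y => β y ∈ Finset.Ico 1 p) ≤ p - 1 := by
    have : (S.filter fun y => β y ∈ Finset.Ico 1 p) ⊆ S.erase y1 := by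
      intro y hy
      rw [Finset.mem_filter] at hy
      refine Finset.mem_erase.2 ⟨?_, hy.1⟩
      rintro rfl
      rw [hy1] at hy
      simp at hy
    have := Finset.card_le_card this
    rwa [Finset.card_erase_of_mem hy1S] at this
  have hG1 : #(S.filter fun y => γ y ∈ Finset.Ico 1 p) ≤ p - 1 := by
    have : (S.filter fun y => γ y ∈ Finset.Ico 1 p) ⊆ S.erase y2 := by
      intro y hy
      rw [Finset.mem_filter] at hy
      refine Finset.mem_erase.2 ⟨?_, hy.1⟩
      rintro rfl
      rw [hy2] at hy
      simp at hy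
    have := Finset.card_le_card this
    rwa [Finset.card_erase_of_mem hy2S] at this
  rcases hy0 with hb0 | hg0
  · have hne : y0 ≠ y1 := by
      rintro rfl
      omega
    have h2 : #(S.filter fun y => β y ∈ Finset.Ico 1 p) ≤ p - 2 := by
      have : (S.filter fun y => β y ∈ Finset.Ico 1 p) ⊆ (S.erase y1).erase y0 := by
        intro y hy
        rw [Finset.mem_filter] at hy
        refine Finset.mem_erase.2 ⟨?_, Finset.mem_erase.2 ⟨?_, hy.1⟩⟩
        · rintro rfl
          rw [hb0] at hy
          simp at hy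
        · rintro rfl
          rw [hy1] at hy
          simp at hy
      have := Finset.card_le_card this
      rw [Finset.card_erase_of_mem (Finset.mem_erase.2 ⟨hne, hy0S⟩),
        Finset.card_erase_of_mem hy1S] at this
      omega
    have h3 : 2 ≤ p := by
      have : #({y0, y1} : Finset α) ≤ #S := by
        apply Finset.card_le_card
        intro y hy
        simp only [Finset.mem_insert, Finset.mem_singleton] at hy
        rcases hy with rfl | rfl <;> assumption
      rwa [Finset.card_pair hne] at this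
    omega
  · have hne : y0 ≠ y2 := by
      rintro rfl
      omega
    have h2 : #(S.filter fun y => γ y ∈ Finset.Ico 1 p) ≤ p - 2 := by
      have : (S.filter fun y => γ y ∈ Finset.Ico 1 p) ⊆ (S.erase y2).erase y0 := by
        intro y hy
        rw [Finset.mem_filter] at hy
        refine Finset.mem_erase.2 ⟨?_, Finset.mem_erase.2 ⟨?_, hy.1⟩⟩
        · rintro rfl
          rw [hg0] at hy
          simp at hy
        · rintro rfl
          rw [hy2] at hy
          simp at hy
      have := Finset.card_le_card this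
      rw [Finset.card_erase_of_mem (Finset.mem_erase.2 ⟨hne, hy0S⟩),
        Finset.card_erase_of_mem hy2S] at this
      omega
    have h3 : 2 ≤ p := by
      have : #({y0, y2} : Finset α) ≤ #S := by
        apply Finset.card_le_card
        intro y hy
        simp only [Finset.mem_insert, Finset.mem_singleton] at hy
        rcases hy with rfl | rfl <;> assumption
      rwa [Finset.card_pair hne] at this
    omega

/-- Three-colour lemma for one vertex, using at most two colours. -/
theorem three_local {α : Type*} [DecidableEq α] (S : Finset α) (w : α → Fin 3 → ℕ)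
    (h : ∀ y ∈ S, ∃ i, w y i = 0) :
    ∃ f : α → Fin 3, (∃ i, ∀ y ∈ S, f y ≠ i) ∧
      ∀ y ∈ S, w y (f y) ≠ #(S.filter fun z => f z = f y) := by
  by_cases h2 : ∀ y ∈ S, w y 2 = 0
  · refine ⟨fun _ => 2, ⟨0, fun y _ => show (2 : Fin 3) ≠ 0 by decide⟩, fun y hy => ?_⟩
    rw [h2 y hy]
    simp only [Finset.filter_true]
    exact (Finset.card_pos.2 ⟨y, hy⟩).ne
  · push Not at h2
    obtain ⟨y0, hy0, hw⟩ := h2
    have h01 : w y0 0 = 0 ∨ w y0 1 = 0 := by
      obtain ⟨i, hi⟩ := h y0 hy0
      fin_cases i
      · exact Or.inl hi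
      · exact Or.inr hi
      · exact absurd hi hw
    obtain ⟨T, hTS, hT1, hT2⟩ := two_col S (fun y => w y 0) (fun y => w y 1) ⟨y0, hy0, h01⟩
    obtain ⟨f, hf⟩ : ∃ f : α → Fin 3, f = fun y => if y ∈ T then 0 else 1 := ⟨_, rfl⟩
    have hf0 : ∀ y ∈ T, f y = 0 := fun y hy => by rw [hf]; simp [hy]
    have hf1 : ∀ y, y ∉ T → f y = 1 := fun y hy => by rw [hf]; simp [hy]
    refine ⟨f, ⟨2, fun y _ => ?_⟩, fun y hy => ?_⟩
    · by_cases hyT : y ∈ T
      · rw [hf0 y hyT]; decide
      · rw [hf1 y hyT]; decide
    · by_cases hyT : y ∈ T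
      · have e := hf0 y hyT
        have : #(S.filter fun z => f z = f y) = #T := by
          congr 1
          ext z
          rw [Finset.mem_filter, e]
          by_cases hz : z ∈ T
          · simp [hz, hTS hz, hf0 z hz]
          · simp [hz, hf1 z hz]
        rw [this, e]
        exact hT1 y hyT
      · have e := hf1 y hyT
        have : #(S.filter fun z => f z = f y) = #(S \ T) := by
          congr 1
          ext z
          rw [Finset.mem_filter, Finset.mem_sdiff, e]
          by_cases hz : z ∈ T
          · simp [hz, hf0 z hz]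
          · simp [hz, hf1 z hz]
        rw [this, e]
        exact hT2 y (Finset.mem_sdiff.2 ⟨hy, hyT⟩)

variable {V : Type} [Fintype V]

open Classical in
/-- the number of arcs of `B` of colour `i` leaving `x` -/
noncomputable def cnt (B : V → V → Prop) (c : V → V → Fin 3) (x : V) (i : Fin 3) : ℕ :=
  #{z | B x z ∧ c x z = i}

open Classical in
theorem acyclic_step (B : V → V → Prop) (ρ : V → ℕ) (hρ : ∀ x y, B x y → ρ y < ρ x) (n : ℕ) :
    ∃ c : V → V → Fin 3, ∀ x, ρ x < n → (∃ i, ∀ y, B x y → c x y ≠ i) ∧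
      ∀ y, B x y → cnt B c y (c x y) ≠ cnt B c x (c x y) := by
  induction n with
  | zero => exact ⟨fun _ _ => 0, fun x hx => absurd hx (Nat.not_lt_zero _)⟩
  | succ n ih =>
    obtain ⟨c, hc⟩ := ih
    have hloc : ∀ x, ρ x = n → ∃ f : V → Fin 3, (∃ i, ∀ y, B x y → f y ≠ i) ∧
        ∀ y, B x y → cnt B c y (f y) ≠ #{z | B x z ∧ f z = f y} := by
      intro x hx
      obtain ⟨f, ⟨i, hi⟩, hf⟩ := three_local ({z | B x z} : Finset V) (fun y i => cnt B c y i) (by
        intro y hy
        rw [Finset.mem_filter] at hy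
        obtain ⟨⟨i, hi⟩, _⟩ := hc y (hx ▸ hρ x y hy.2)
        refine ⟨i, ?_⟩
        unfold cnt
        rw [Finset.card_eq_zero, Finset.filter_eq_empty_iff]
        rintro z _ ⟨h1, h2⟩
        exact hi z h1 h2)
      refine ⟨f, ⟨i, fun y hy => hi y (by simp [hy])⟩, fun y hy => ?_⟩
      have := hf y (by simp [hy])
      rw [Finset.filter_filter] at this
      exact this
    choose! f hf1 hf2 using hloc
    refine ⟨fun x => if ρ x = n then f x else c x, fun x hx => ?_⟩
    have hcnt : ∀ y, ρ y < n → ∀ i,
        cnt B (fun x => if ρ x = n then f x else c x) y i = cnt B c y i := by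
      intro y hy i
      unfold cnt
      simp only [hy.ne, if_false]
    rcases Nat.lt_succ_iff_lt_or_eq.1 hx with hlt | heq
    · simp only [hlt.ne, if_false]
      refine ⟨(hc x hlt).1, fun y hy => ?_⟩
      rw [hcnt y ((hρ x y hy).trans hlt), hcnt x hlt]
      exact (hc x hlt).2 y hy
    · simp only [heq, if_true]
      refine ⟨hf1 x heq, fun y hy => ?_⟩
      rw [hcnt y (heq ▸ hρ x y hy)]
      have := hf2 x heq y hy
      unfold cnt at this ⊢
      simp only [heq, if_true]
      exact this

/-- **Every digraph has a weak locally irregular arc colouring with four colours.** -/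
theorem exists_four (D : V → V → Prop) (hD : ∀ x, ¬ D x x) :
    ∃ c : V → V → Fin 4, IsWLIColouring D c := by
  classical
  obtain ⟨c, hc⟩ := exists_max_energy D hD (by norm_num : 0 < 2)
    (fun i : Fin 2 => if i = 0 then (1 : ℤ) else 0)
  have hred : ∀ x y, D x y → c x y = 0 → sv D c 0 y < sv D c 0 x := by
    intro x y hxy h0
    have := hc x y hxy 1 (by rw [h0]; decide)
    rw [h0] at this
    simp at this
    linarith
  have hblue : ∀ x y, D x y → c x y ≠ 0 → sv D c 0 x < sv D c 0 y := by
    intro x y hxy h0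
    have h1 : c x y = 1 := by
      have := (c x y).2
      apply Fin.ext
      have : (c x y).val ≠ 0 := fun h => h0 (Fin.ext h)
      simp
      omega
    have := hc x y hxy 0 (by rw [h1]; decide)
    rw [h1] at this
    simp at this
    linarith
  set B : V → V → Prop := fun x y => D x y ∧ c x y ≠ 0 with hB
  set M : ℤ := ∑ v, |sv D c 0 v| with hM
  have hMle : ∀ v, sv D c 0 v ≤ M := fun v =>
    (le_abs_self _).trans (Finset.single_le_sum (f := fun v => |sv D c 0 v|)
      (fun _ _ => abs_nonneg _) (Finset.mem_univ v))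
  set ρ : V → ℕ := fun v => (M - sv D c 0 v).toNat with hρdef
  have hρ : ∀ x y, B x y → ρ y < ρ x := by
    rintro x y ⟨hxy, h0⟩
    have h1 := hblue x y hxy h0
    have h2 := hMle x
    have h3 := hMle y
    simp only [hρdef]
    omega
  obtain ⟨c3, hc3⟩ := acyclic_step B ρ hρ ((∑ v, ρ v) + 1)
  have hρle : ∀ v, ρ v < (∑ v, ρ v) + 1 := fun v =>
    Nat.lt_succ_of_le (Finset.single_le_sum (f := ρ) (fun _ _ => Nat.zero_le _)
      (Finset.mem_univ v))
  refine ⟨fun x y => if c x y = 0 then 0 else (c3 x y).succ, ?_⟩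
  intro i
  rcases Fin.eq_zero_or_eq_succ i with rfl | ⟨i, rfl⟩
  · have hrel : (fun x y => D x y ∧ (if c x y = 0 then (0 : Fin 4) else (c3 x y).succ) = 0) =
        fun x y => D x y ∧ c x y = 0 := by
      funext x y
      by_cases h : c x y = 0
      · simp [h]
      · simp [h, Fin.succ_ne_zero]
    rw [hrel]
    rintro x y ⟨hxy, h0⟩ heq
    simp only [Prod.mk.injEq] at heq
    have h1 := hred x y hxy h0
    rw [sv_eq, sv_eq, heq.1, heq.2] at h1
    exact lt_irrefl _ h1
  · have hrel : (fun x y => D x y ∧ (if c x y = 0 then (0 : Fin 4) else (c3 x y).succ) =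
        i.succ) = fun x y => B x y ∧ c3 x y = i := by
      funext x y
      by_cases h : c x y = 0
      · simp [hB, h, (Fin.succ_ne_zero i).symm]
      · simp [hB, h]
    rw [hrel]
    rintro x y ⟨hxy, h0⟩ heq
    simp only [Prod.mk.injEq] at heq
    have h1 := (hc3 x (hρle x)).2 y hxy
    rw [h0] at h1
    apply h1
    have h2 : ∀ v, outDeg (fun x y => B x y ∧ c3 x y = i) v = cnt B c3 v i := by
      intro v
      unfold outDeg cnt
      rw [Set.ncard_eq_toFinset_card']
      congr 1
      ext w
      simp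
    rw [← h2, ← h2]
    exact heq.1.symm

end Pool.Agent.H35.Lir
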