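import Pool.Agent.H35.Lir.Split

/-!
Greedy colouring of the arcs leaving the vertices, in a prescribed order.
-/

namespace Pool.Agent.H35.Lir

open Finset

variable {V : Type} [Fintype V]

open Classical in
/-- the number of arcs of colour `i` leaving `x` -/
noncomputable def cnt2 (D : V → V → Prop) (c : V → V → Fin 2) (x : V) (i : Fin 2) : ℕ :=
  #{z | D x z ∧ c x z = i}

open Classical in
theorem cnt2_add (D : V → V → Prop) (c : V → V → Fin 2) (x : V) :
    cnt2 D c x 0 + cnt2 D c x 1 = outDeg D x := by
  have h : outDeg D x = #{z | D x z} := by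
    unfold outDeg
    rw [Set.ncard_eq_toFinset_card']
    congr 1
    ext w
    simp
  rw [h]
  unfold cnt2
  rw [← Finset.card_union_of_disjoint]
  · congr 1
    ext z
    simp only [Finset.mem_union, Finset.mem_filter, Finset.mem_univ, true_and]
    constructor
    · rintro (h | h) <;> exact h.1
    · intro h
      have h01 : c x z = 0 ∨ c x z = 1 := by
        rcases Fin.exists_fin_two.1 ⟨c x z, rfl⟩ with h | h
        · exact Or.inl h
        · exact Or.inr h
      rcases h01 with h0 | h0
      · exact Or.inl ⟨h, h0⟩
      · exact Or.inr ⟨h, h0⟩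
  · rw [Finset.disjoint_left]
    intro z h1 h2
    simp only [Finset.mem_filter, Finset.mem_univ, true_and] at h1 h2
    rw [h1.2] at h2
    exact absurd h2.2 (by decide)

theorem outDeg_cnt2 (D : V → V → Prop) (c : V → V → Fin 2) (x : V) (i : Fin 2) :
    outDeg (fun a b => D a b ∧ c a b = i) x = cnt2 D c x i := by
  classical
  unfold outDeg cnt2
  rw [Set.ncard_eq_toFinset_card']
  congr 1
  ext w
  simp

theorem fin2 (i : Fin 2) : i = 0 ∨ i = 1 := by
  fin_cases i
  · exact Or.inl rfl
  · exact Or.inr rfl

open Classical in
/-- **Greedy colouring in a prescribed order.** The vertices `v` with `τ v = 0` have the colours of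
their outgoing arcs prescribed; the other vertices choose the colours of their outgoing arcs in the
order of `τ`. -/
theorem greedy_out (D T : V → V → Prop) (hTD : ∀ x y, T x y → D x y) (τ : V → ℕ)
    (hτ : ∀ x y, T x y → τ x ≠ τ y) (c₀ : V → V → Fin 2)
    (h : ∀ v, 0 < τ v →
      (#{x | T x v ∧ τ x < τ v} + #{w | T v w ∧ τ w < τ v} < #{w | D v w}) ∨
      ((∀ w, T v w → ¬ τ w < τ v) ∧ #{x | T x v ∧ τ x < τ v} ≤ #{w | D v w}) ∨
      ((∀ x, T x v → ¬ τ x < τ v) ∧
        ¬ Pattern ({w | D v w} : Finset V) (fun w => outDeg D w))) :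
    ∃ c : V → V → Fin 2, (∀ x y, τ x = 0 → c x y = c₀ x y) ∧
      ∀ x y, T x y → cnt2 D c x (c x y) ≠ cnt2 D c y (c x y) := by
  have main : ∀ n : ℕ, ∃ c : V → V → Fin 2, (∀ x y, τ x = 0 → c x y = c₀ x y) ∧
      ∀ x y, T x y → τ x ≤ n → τ y ≤ n → cnt2 D c x (c x y) ≠ cnt2 D c y (c x y) := by
    intro n
    induction n with
    | zero =>
      refine ⟨c₀, fun _ _ _ => rfl, fun x y hxy h1 h2 => ?_⟩
      exact absurd (by omega : τ x = τ y) (hτ x y hxy)
    | succ n ih =>
      obtain ⟨c, hc0, hc⟩ := ih
      have hloc : ∀ v, τ v = n + 1 → ∃ U : Finset V, U ⊆ ({w | D v w} : Finset V) ∧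
          (∀ x, T x v → τ x ≤ n → (c x v = 0 → cnt2 D c x 0 ≠ #U) ∧
            (c x v = 1 → cnt2 D c x 1 ≠ #(({w | D v w} : Finset V) \ U))) ∧
          (∀ w, T v w → τ w ≤ n → (w ∈ U → cnt2 D c w 0 ≠ #U) ∧
            (w ∉ U → cnt2 D c w 1 ≠ #(({w | D v w} : Finset V) \ U))) := by
        intro v hv
        obtain ⟨S, hS⟩ : ∃ S : Finset V, S = ({w | D v w} : Finset V) := ⟨_, rfl⟩
        obtain ⟨S', hS'⟩ : ∃ S' : Finset V, S' = ({w | T v w ∧ τ w < τ v} : Finset V) :=
          ⟨_, rfl⟩
        obtain ⟨F', hF'⟩ : ∃ F' : Finset V, F' = ({x | T x v ∧ τ x < τ v} : Finset V) :=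
          ⟨_, rfl⟩
        have hS'S : S' ⊆ S := by
          intro w hw
          rw [hS', Finset.mem_filter] at hw
          rw [hS, Finset.mem_filter]
          exact ⟨Finset.mem_univ _, hTD _ _ hw.2.1⟩
        obtain ⟨Z, hZ⟩ : ∃ Z : Finset ℕ, Z = F'.image (fun x =>
          if c x v = 0 then cnt2 D c x 0 else #S - cnt2 D c x 1) := ⟨_, rfl⟩
        have hZF : #Z ≤ #F' := by rw [hZ]; exact Finset.card_image_le
        have hcond := h v (by omega)
        rw [← hS, ← hS', ← hF'] at hcond
        obtain ⟨U, hUS, hUZ, hU1, hU2⟩ := local_split S S' hS'S (fun w => cnt2 D c w 0)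
          (fun w => cnt2 D c w 1) Z (by
            rcases hcond with h1 | ⟨h1, h2⟩ | ⟨h1, h2⟩
            · left; omega
            · right; left
              refine ⟨?_, by omega⟩
              rw [Finset.eq_empty_iff_forall_notMem]
              intro w hw
              rw [hS', Finset.mem_filter] at hw
              exact h1 w hw.2.1 hw.2.2
            · right; right
              refine ⟨?_, ?_⟩
              · rw [hZ, Finset.image_eq_empty, Finset.eq_empty_iff_forall_notMem]
                intro x hx
                rw [hF', Finset.mem_filter] at hx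
                exact h1 x hx.2.1 hx.2.2
              · have : (fun w => cnt2 D c w 0 + cnt2 D c w 1) = fun w => outDeg D w := by
                  funext w
                  exact cnt2_add D c w
                rw [this]
                exact h2)
        rw [← hS]
        refine ⟨U, hUS, ?_, ?_⟩
        · intro x hx hxn
          have hxF : x ∈ F' := by
            rw [hF', Finset.mem_filter]
            exact ⟨Finset.mem_univ _, hx, by omega⟩
          refine ⟨fun h0 heq => hUZ ?_, fun h1 heq => hUZ ?_⟩
          · rw [hZ, Finset.mem_image]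
            exact ⟨x, hxF, by rw [if_pos h0, heq]⟩
          · rw [hZ, Finset.mem_image]
            refine ⟨x, hxF, ?_⟩
            rw [if_neg (by rw [h1]; decide), heq, Finset.card_sdiff_of_subset hUS]
            have := Finset.card_le_card hUS
            omega
        · intro w hw hwn
          have hwS' : w ∈ S' := by
            rw [hS', Finset.mem_filter]
            exact ⟨Finset.mem_univ _, hw, by omega⟩
          exact ⟨fun h1 => hU1 w hwS' h1, fun h1 => hU2 w hwS' h1⟩
      choose! U hU1 hU2 hU3 using hloc
      obtain ⟨c', hc'⟩ : ∃ c' : V → V → Fin 2, c' = fun x y =>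
        if τ x = n + 1 then (if y ∈ U x then 0 else 1) else c x y := ⟨_, rfl⟩
      have hold : ∀ x y, τ x ≤ n → c' x y = c x y := by
        intro x y hx
        rw [hc']
        simp only
        rw [if_neg (by omega)]
      have hcnt : ∀ x i, τ x ≤ n → cnt2 D c' x i = cnt2 D c x i := by
        intro x i hx
        unfold cnt2
        congr 1
        ext z
        simp only [Finset.mem_filter, Finset.mem_univ, true_and]
        rw [hold x z hx]
      have hnew0 : ∀ x, τ x = n + 1 → cnt2 D c' x 0 = #(U x) := by
        intro x hx
        unfold cnt2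
        congr 1
        ext z
        simp only [Finset.mem_filter, Finset.mem_univ, true_and]
        rw [hc']
        simp only
        rw [if_pos hx]
        constructor
        · rintro ⟨h1, h2⟩
          by_contra h3
          rw [if_neg h3] at h2
          exact absurd h2 (by decide)
        · intro h1
          have := hU1 x hx h1
          rw [Finset.mem_filter] at this
          exact ⟨this.2, if_pos h1⟩
      have hnew1 : ∀ x, τ x = n + 1 →
          cnt2 D c' x 1 = #(({w | D x w} : Finset V) \ U x) := by
        intro x hx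
        unfold cnt2
        congr 1
        ext z
        simp only [Finset.mem_filter, Finset.mem_univ, true_and, Finset.mem_sdiff]
        rw [hc']
        simp only
        rw [if_pos hx]
        constructor
        · rintro ⟨h1, h2⟩
          refine ⟨h1, fun h3 => ?_⟩
          rw [if_pos h3] at h2
          exact absurd h2 (by decide)
        · rintro ⟨h1, h2⟩
          exact ⟨h1, if_neg h2⟩
      refine ⟨c', fun x y hx => ?_, fun x y hxy hx hy => ?_⟩
      · rw [hold x y (by omega)]
        exact hc0 x y hx
      · rcases Nat.lt_or_ge n (τ x) with hx1 | hx1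
        · have hx2 : τ x = n + 1 := by omega
          have hy2 : τ y ≤ n := by
            have := hτ x y hxy
            omega
          have h3 := hU3 x hx2 y hxy hy2
          by_cases hyU : y ∈ U x
          · have hcol : c' x y = 0 := by
              rw [hc']; simp only; rw [if_pos hx2, if_pos hyU]
            rw [hcol, hnew0 x hx2, hcnt y 0 hy2]
            exact (h3.1 hyU).symm
          · have hcol : c' x y = 1 := by
              rw [hc']; simp only; rw [if_pos hx2, if_neg hyU]
            rw [hcol, hnew1 x hx2, hcnt y 1 hy2]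
            exact (h3.2 hyU).symm
        · rcases Nat.lt_or_ge n (τ y) with hy1 | hy1
          · have hy2 : τ y = n + 1 := by omega
            have h3 := hU2 y hy2 x hxy hx1
            rw [hold x y hx1]
            rcases fin2 (c x y) with h0 | h0
            · rw [h0, hcnt x 0 hx1, hnew0 y hy2]
              exact h3.1 h0
            · rw [h0, hcnt x 1 hx1, hnew1 y hy2]
              exact h3.2 h0
          · rw [hold x y hx1, hcnt x _ hx1, hcnt y _ hy1]
            exact hc x y hxy hx1 hy1
  obtain ⟨c, hc0, hc⟩ := main (∑ v, τ v)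
  refine ⟨c, hc0, fun x y hxy => hc x y hxy ?_ ?_⟩
  · exact Finset.single_le_sum (f := τ) (fun _ _ => Nat.zero_le _) (Finset.mem_univ x)
  · exact Finset.single_le_sum (f := τ) (fun _ _ => Nat.zero_le _) (Finset.mem_univ y)

end Pool.Agent.H35.Lir
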