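import Pool.Agent.H35.Lir.Reach

/-!
# Halving a bipartite graph
-/

namespace Pool.Agent.H35.Lir.Fac

open Finset

variable {X Y : Type} [Fintype X] [Fintype Y] [DecidableEq X] [DecidableEq Y]

/-- The double counting which ends all arguments by alternating reachability. -/
lemma count_contra {E H : Finset (X × Y)} {S : Finset X} {R : Finset Y}
    (hSR : ∀ x ∈ S, ∀ y, (x, y) ∈ H → y ∈ R)
    (hRS : ∀ y ∈ R, ∀ x, (x, y) ∈ E → (x, y) ∉ H → x ∈ S) {v : X} (hv : v ∈ S)
    (h1 : ∀ x ∈ S, (R.filter fun y => (x, y) ∈ E ∧ (x, y) ∉ H).card ≤ dL H x)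
    (h1v : (R.filter fun y => (v, y) ∈ E ∧ (v, y) ∉ H).card < dL H v)
    (h2 : ∀ y ∈ R, (S.filter fun x => (x, y) ∈ H).card
      ≤ (univ.filter fun x => (x, y) ∈ E ∧ (x, y) ∉ H).card) : False := by
  have e1 : ∑ x ∈ S, (R.filter fun y => (x, y) ∈ E ∧ (x, y) ∉ H).card
      = ∑ y ∈ R, (S.filter fun x => (x, y) ∈ E ∧ (x, y) ∉ H).card :=
    sum_card_bipartiteAbove_eq_sum_card_bipartiteBelow (s := S) (t := R)
      (fun x y => (x, y) ∈ E ∧ (x, y) ∉ H)
  have e2 : ∑ x ∈ S, (R.filter fun y => (x, y) ∈ H).card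
      = ∑ y ∈ R, (S.filter fun x => (x, y) ∈ H).card :=
    sum_card_bipartiteAbove_eq_sum_card_bipartiteBelow (s := S) (t := R) (fun x y => (x, y) ∈ H)
  have e3 : ∀ y ∈ R, (S.filter fun x => (x, y) ∈ E ∧ (x, y) ∉ H).card
      = (univ.filter fun x => (x, y) ∈ E ∧ (x, y) ∉ H).card := by
    intro y hy
    congr 1
    ext x
    simp only [mem_filter, mem_univ, true_and, and_iff_right_iff_imp]
    exact fun h => hRS y hy x h.1 h.2
  have e4 : ∀ x ∈ S, (R.filter fun y => (x, y) ∈ H).card = dL H x := by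
    intro x hx
    unfold dL
    congr 1
    ext y
    simp only [mem_filter, mem_univ, true_and, and_iff_right_iff_imp]
    exact fun h => hSR x hx y h
  have e5 : ∑ x ∈ S, (R.filter fun y => (x, y) ∈ E ∧ (x, y) ∉ H).card < ∑ x ∈ S, dL H x :=
    sum_lt_sum h1 ⟨v, hv, h1v⟩
  rw [e1, sum_congr rfl e3, ← sum_congr rfl e4, e2] at e5
  exact absurd (sum_le_sum h2) (not_le.2 e5)

omit [Fintype X] in
lemma card_sdiff_left {E H : Finset (X × Y)} (hHE : H ⊆ E) (x : X) :
    (univ.filter fun y => (x, y) ∈ E ∧ (x, y) ∉ H).card + dL H x = dL E x := by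
  unfold dL
  rw [← card_union_of_disjoint]
  · congr 1
    ext y
    simp only [mem_union, mem_filter, mem_univ, true_and]
    constructor
    · rintro (h | h)
      · exact h.1
      · exact hHE h
    · intro h
      by_cases h' : (x, y) ∈ H
      · exact Or.inr h'
      · exact Or.inl ⟨h, h'⟩
  · rw [disjoint_left]
    intro y hy hy'
    simp only [mem_filter, mem_univ, true_and] at hy hy'
    exact hy.2 hy'

omit [Fintype Y] in
lemma card_sdiff_right {E H : Finset (X × Y)} (hHE : H ⊆ E) (y : Y) :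
    (univ.filter fun x => (x, y) ∈ E ∧ (x, y) ∉ H).card + dR H y = dR E y := by
  unfold dR
  rw [← card_union_of_disjoint]
  · congr 1
    ext x
    simp only [mem_union, mem_filter, mem_univ, true_and]
    constructor
    · rintro (h | h)
      · exact h.1
      · exact hHE h
    · intro h
      by_cases h' : (x, y) ∈ H
      · exact Or.inr h'
      · exact Or.inl ⟨h, h'⟩
  · rw [disjoint_left]
    intro x hx hx'
    simp only [mem_filter, mem_univ, true_and] at hx hx'
    exact hx.2 hx'

omit [Fintype X] in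
lemma card_filter_le_left {E H : Finset (X × Y)} (R : Finset Y) (x : X) :
    (R.filter fun y => (x, y) ∈ E ∧ (x, y) ∉ H).card
      ≤ (univ.filter fun y => (x, y) ∈ E ∧ (x, y) ∉ H).card :=
  card_le_card (filter_subset_filter _ (subset_univ _))

omit [Fintype Y] in
lemma card_filter_le_right {H : Finset (X × Y)} (S : Finset X) (y : Y) :
    (S.filter fun x => (x, y) ∈ H).card ≤ dR H y :=
  card_le_card (filter_subset_filter _ (subset_univ _))

/-- swapping the two sides -/
def sw (H : Finset (X × Y)) : Finset (Y × X) := H.image Prod.swap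

omit [Fintype X] [Fintype Y] in
lemma mem_sw {H : Finset (X × Y)} {x : X} {y : Y} : (y, x) ∈ sw H ↔ (x, y) ∈ H := by
  unfold sw; simp

omit [Fintype Y] in
lemma dL_sw (H : Finset (X × Y)) (y : Y) : dL (sw H) y = dR H y := by
  unfold dL dR; simp only [mem_sw]

omit [Fintype X] in
lemma dR_sw (H : Finset (X × Y)) (x : X) : dR (sw H) x = dL H x := by
  unfold dL dR; simp only [mem_sw]

omit [Fintype X] [Fintype Y] in
lemma sw_sw (H : Finset (X × Y)) : sw (sw H) = H := by
  ext ⟨x, y⟩; simp only [mem_sw]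

omit [Fintype X] [Fintype Y] in
lemma sw_subset {H E : Finset (X × Y)} (h : H ⊆ E) : sw H ⊆ sw E := by
  rintro ⟨y, x⟩ hyx
  rw [mem_sw] at hyx ⊢
  exact h hyx

/-- the imbalance potential -/
def pot (E H : Finset (X × Y)) : ℤ :=
  ∑ x, (2 * (dL H x : ℤ) - dL E x) ^ 2 + ∑ y, (2 * (dR H y : ℤ) - dR E y) ^ 2

lemma pot_sw (E H : Finset (X × Y)) : pot (sw E) (sw H) = pot E H := by
  unfold pot
  simp only [dL_sw, dR_sw]
  ring

omit [Fintype X] in
lemma dL_compl {E H : Finset (X × Y)} (hHE : H ⊆ E) (x : X) :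
    dL (E \ H) x + dL H x = dL E x := by
  rw [← card_sdiff_left hHE x]
  unfold dL
  simp only [mem_sdiff]

omit [Fintype Y] in
lemma dR_compl {E H : Finset (X × Y)} (hHE : H ⊆ E) (y : Y) :
    dR (E \ H) y + dR H y = dR E y := by
  rw [← card_sdiff_right hHE y]
  unfold dR
  simp only [mem_sdiff]

lemma pot_compl {E H : Finset (X × Y)} (hHE : H ⊆ E) : pot E (E \ H) = pot E H := by
  unfold pot
  congr 1
  · refine sum_congr rfl fun x _ => ?_
    have : (dL (E \ H) x : ℤ) + dL H x = dL E x := by exact_mod_cast dL_compl hHE x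
    have h2 : (dL (E \ H) x : ℤ) = dL E x - dL H x := by omega
    rw [h2]; ring
  · refine sum_congr rfl fun y _ => ?_
    have : (dR (E \ H) y : ℤ) + dR H y = dR E y := by exact_mod_cast dR_compl hHE y
    have h2 : (dR (E \ H) y : ℤ) = dR E y - dR H y := by omega
    rw [h2]; ring

/-- an optimal subgraph has no left vertex of large excess -/
lemma half_left {E H : Finset (X × Y)} (hHE : H ⊆ E) (hmin : ∀ H' ⊆ E, pot E H ≤ pot E H') (v : X) :
    2 * dL H v ≤ dL E v + 1 := by
  by_contra hcon
  push Not at hcon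
  obtain ⟨S, R, hv, hSR, hRS, hS, hR⟩ := reach E H hHE v
  -- vertices of `S` have excess
  have hS' : ∀ x ∈ S, dL E x ≤ 2 * dL H x := by
    intro x hx
    by_cases hxv : x = v
    · subst hxv; omega
    obtain ⟨H', y0, h1, -, -, -, h2, h3, -⟩ := hS x hx hxv
    have hp := hmin H' h1
    unfold pot at hp
    simp only [h3] at hp
    have hp' : ∑ z, (2 * (dL H z : ℤ) - dL E z) ^ 2 ≤ ∑ z, (2 * (dL H' z : ℤ) - dL E z) ^ 2 := by
      linarith
    have hz : ∀ z, (2 * (dL H' z : ℤ) - dL E z) ^ 2 = (2 * (dL H z : ℤ) - dL E z) ^ 2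
        + (if z = v then -4 * (2 * (dL H v : ℤ) - dL E v) + 4 else 0)
        + (if z = x then 4 * (2 * (dL H x : ℤ) - dL E x) + 4 else 0) := by
      intro z
      have e := h2 z
      by_cases hzv : z = v
      · subst hzv
        have hzx : ¬ z = x := fun h => hxv h.symm
        simp only [if_true, hzx, if_false, add_zero] at e ⊢
        have : (dL H' z : ℤ) = dL H z - 1 := by omega
        rw [this]; ring
      · by_cases hzx : z = x
        · subst hzx
          simp only [if_true, hzv, if_false, add_zero] at e ⊢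
          have : (dL H' z : ℤ) = dL H z + 1 := by omega
          rw [this]; ring
        · simp only [hzv, hzx, if_false, add_zero] at e ⊢
          rw [e]
    rw [sum_congr rfl fun z _ => hz z, sum_add_distrib, sum_add_distrib] at hp'
    simp only [sum_ite_eq', mem_univ, if_true] at hp'
    omega
  have hR' : ∀ y ∈ R, 2 * dR H y ≤ dR E y := by
    intro y hy
    obtain ⟨H', x0, h1, -, -, h2, h3, -⟩ := hR y hy
    have hp := hmin H' h1
    unfold pot at hp
    have hz : ∀ z, (2 * (dL H' z : ℤ) - dL E z) ^ 2 = (2 * (dL H z : ℤ) - dL E z) ^ 2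
        + (if z = v then -4 * (2 * (dL H v : ℤ) - dL E v) + 4 else 0) := by
      intro z
      have e := h2 z
      by_cases hzv : z = v
      · subst hzv
        simp only [if_true] at e ⊢
        have : (dL H' z : ℤ) = dL H z - 1 := by omega
        rw [this]; ring
      · simp only [hzv, if_false, add_zero] at e ⊢
        rw [e]
    have hw : ∀ w, (2 * (dR H' w : ℤ) - dR E w) ^ 2 = (2 * (dR H w : ℤ) - dR E w) ^ 2
        + (if w = y then -4 * (2 * (dR H y : ℤ) - dR E y) + 4 else 0) := by
      intro w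
      have e := h3 w
      by_cases hwy : w = y
      · subst hwy
        simp only [if_true] at e ⊢
        have : (dR H' w : ℤ) = dR H w - 1 := by omega
        rw [this]; ring
      · simp only [hwy, if_false, add_zero] at e ⊢
        rw [e]
    rw [sum_congr rfl fun z _ => hz z, sum_add_distrib,
      sum_congr rfl fun w _ => hw w, sum_add_distrib] at hp
    simp only [sum_ite_eq', mem_univ, if_true] at hp
    omega
  refine count_contra hSR hRS hv ?_ ?_ ?_
  · intro x hx
    have e1 := card_filter_le_left (E := E) (H := H) R x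
    have e2 := card_sdiff_left hHE x
    have e3 := hS' x hx
    omega
  · have e1 := card_filter_le_left (E := E) (H := H) R v
    have e2 := card_sdiff_left hHE v
    omega
  · intro y hy
    have e1 := card_filter_le_right (H := H) S y
    have e2 := card_sdiff_right hHE y
    have e3 := hR' y hy
    omega

/-- **Halving**: every bipartite graph has a subgraph with half of the degree at every vertex. -/
theorem exists_half (E : Finset (X × Y)) : ∃ H ⊆ E,
    (∀ x, 2 * dL H x ≤ dL E x + 1 ∧ dL E x ≤ 2 * dL H x + 1) ∧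
    ∀ y, 2 * dR H y ≤ dR E y + 1 ∧ dR E y ≤ 2 * dR H y + 1 := by
  obtain ⟨H, hH, hmin⟩ := exists_min_image E.powerset (fun H => pot E H) ⟨∅, by simp⟩
  rw [mem_powerset] at hH
  have hmin' : ∀ H' ⊆ E, pot E H ≤ pot E H' := fun H' h => hmin H' (mem_powerset.2 h)
  have hminc : ∀ H' ⊆ E, pot E (E \ H) ≤ pot E H' := by
    intro H' h
    rw [pot_compl hH]
    exact hmin' H' h
  have hsw : ∀ {K : Finset (X × Y)}, (∀ H' ⊆ E, pot E K ≤ pot E H') →
      ∀ H' ⊆ sw E, pot (sw E) (sw K) ≤ pot (sw E) H' := by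
    intro K hK H' h
    rw [pot_sw, ← sw_sw H', pot_sw]
    exact hK _ (by simpa [sw_sw] using sw_subset h)
  refine ⟨H, hH, fun x => ⟨half_left hH hmin' x, ?_⟩, fun y => ⟨?_, ?_⟩⟩
  · have h1 := half_left sdiff_subset hminc x
    have h2 := dL_compl hH x
    omega
  · have h1 := half_left (sw_subset hH) (hsw hmin') y
    rwa [dL_sw, dL_sw] at h1
  · have h1 := half_left (sw_subset (sdiff_subset (s := E) (t := H))) (hsw hminc) y
    rw [dL_sw, dL_sw] at h1
    have h2 := dR_compl hH y
    omega

end Pool.Agent.H35.Lir.Fac
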