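import Pool.Agent.H35.Lir.Parts
import Pool.Agent.H35.Lir.Dead

/-!
Labels of the vertices of an acyclic digraph.
-/

namespace Pool.Agent.H35.Lir

open Finset

variable {V : Type}

/-- `u` is exceptional: its outdegree `d` is at least `3`, and the outdegrees of its outneighbours
are `2d-1` (twice), `2d-2` or `d-1` (once), and `d` or `d/2` (all the others). -/
def Exceptional (D : V → V → Prop) (u : V) : Prop :=
  3 ≤ outDeg D u ∧ ∃ p q r, D u p ∧ D u q ∧ D u r ∧ p ≠ q ∧ p ≠ r ∧ q ≠ r ∧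
    outDeg D p = 2 * outDeg D u - 1 ∧ outDeg D q = 2 * outDeg D u - 1 ∧
    (outDeg D r = 2 * outDeg D u - 2 ∨ outDeg D r = outDeg D u - 1) ∧
    ∀ w, D u w → w ≠ p → w ≠ q → w ≠ r →
      outDeg D w = outDeg D u ∨ 2 * outDeg D w = outDeg D u

/-- `u`, of outdegree `d`, is critical with partner `w`: there is an arc `uw`, the outdegree of `w`
is `2d`, and each other outneighbour of `u` has outdegree `d`, `d/2`, `2d-2` or `d-1` (the last two
only if `d ≥ 3`). -/
def CriticalPair (D : V → V → Prop) (u w : V) : Prop :=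
  D u w ∧ outDeg D w = 2 * outDeg D u ∧ ∀ x, D u x → x ≠ w →
    outDeg D x = outDeg D u ∨ 2 * outDeg D x = outDeg D u ∨
      (3 ≤ outDeg D u ∧ (outDeg D x = 2 * outDeg D u - 2 ∨ outDeg D x = outDeg D u - 1))

/-- recursive choice along a rank function -/
theorem exists_rec {W : Type*} [Fintype V] (ρ : V → ℕ) (Q : V → W → (V → W) → Prop)
    (hQ : ∀ v x g g', (∀ w, ρ w < ρ v → g w = g' w) → Q v x g → Q v x g') (F₀ : V → W)
    (hex : ∀ v g, (∀ w, ρ w < ρ v → Q w (g w) g) → ∃ x, Q v x g) :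
    ∃ F : V → W, ∀ v, Q v (F v) F := by
  classical
  have main : ∀ n : ℕ, ∃ F : V → W, ∀ v, ρ v < n → Q v (F v) F := by
    intro n
    induction n with
    | zero => exact ⟨F₀, fun v hv => absurd hv (Nat.not_lt_zero _)⟩
    | succ n ih =>
      obtain ⟨F, hF⟩ := ih
      have h1 : ∀ v, ∃ x, ρ v = n → Q v x F := by
        intro v
        by_cases hv : ρ v = n
        · obtain ⟨x, hx⟩ := hex v F (fun w hw => hF w (by omega))
          exact ⟨x, fun _ => hx⟩
        · exact ⟨F₀ v, fun h => absurd h hv⟩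
      choose x hx using h1
      refine ⟨fun v => if ρ v = n then x v else F v, fun v hv => ?_⟩
      have hag : ∀ w, ρ w < ρ v → F w = (if ρ w = n then x w else F w) := by
        intro w hw
        rw [if_neg (by omega)]
      apply hQ v _ F _ hag
      by_cases h : ρ v = n
      · simp only [h, if_true]
        exact hx v h
      · simp only [h, if_false]
        exact hF v (by omega)
  obtain ⟨F, hF⟩ := main ((∑ v, ρ v) + 1)
  refine ⟨F, fun v => hF v ?_⟩
  exact Nat.lt_succ_of_le (Finset.single_le_sum (f := ρ) (fun _ _ => Nat.zero_le _)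
    (Finset.mem_univ v))

/-- data chosen at a vertex -/
structure Dat (V : Type) where
  a : ℕ
  b : ℕ
  k : ℕ
  T : Finset V
  p : V

/-- labels of all vertices -/
structure Lab (D : V → V → Prop) [Fintype V] where
  A : V → ℕ
  B : V → ℕ
  k : V → ℕ
  T : V → Finset V
  p : V → V
  hk : ∀ v, k v = 0 ∨ k v = 1 ∨ k v = 2
  hsrc : ∀ v, inDeg D v = 0 → k v = 0
  hreal : ∀ v, inDeg D v ≠ 0 → k v = 0 → (∀ w ∈ T v, D v w) ∧ A v = #(T v) ∧
    A v + B v = outDeg D v ∧ (∀ w, D v w → w ∈ T v → A w ≠ A v) ∧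
    ∀ w, D v w → w ∉ T v → B w ≠ B v
  hone : ∀ v, k v = 1 → A v = outDeg D v ∧ B v = outDeg D v ∧ D v (p v) ∧
    A (p v) = outDeg D v ∧ B (p v) = outDeg D v ∧
    ∀ w, D v w → w ≠ p v → (A w < outDeg D v ∧ B w < outDeg D v) ∧
      (A w + B w = outDeg D v ∨ (3 ≤ outDeg D v ∧ A w + B w = 2 * outDeg D v - 2))
  htwo : ∀ v, k v = 2 → A v = outDeg D v ∧ B v = outDeg D v ∧ inDeg D v ≤ 1 ∧
    ∀ w, D v w → A w < outDeg D v ∨ B w < outDeg D v

theorem exists_lab [Fintype V] (D : V → V → Prop) (hac : ∀ x, ¬ Relation.TransGen D x x)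
    (h2 : ∀ u, 2 ≤ inDeg D u → ¬ Exceptional D u) : Nonempty (Lab D) := by
  classical
  obtain ⟨ρ, hρ⟩ := exists_rank D hac
  obtain ⟨S, hS⟩ : ∃ S : V → Finset V, ∀ v, S v = ({w | D v w} : Finset V) :=
    ⟨_, fun _ => rfl⟩
  have memS : ∀ v w, w ∈ S v ↔ D v w := by
    intro v w; rw [hS]; simp
  have hcard : ∀ v, #(S v) = outDeg D v := by
    intro v; rw [hS]; exact outDeg_card D v
  obtain ⟨F, hF⟩ := exists_rec ρ (fun v (x : Dat V) g =>
    (inDeg D v = 0 ∧ x.k = 0) ∨
    (x.k = 0 ∧ x.T ⊆ S v ∧ x.a = #x.T ∧ x.b = #(S v \ x.T) ∧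
      (∀ w ∈ S v, w ∈ x.T → (g w).a ≠ #x.T) ∧ ∀ w ∈ S v, w ∉ x.T → (g w).b ≠ #(S v \ x.T)) ∨
    (x.k = 1 ∧ x.a = #(S v) ∧ x.b = #(S v) ∧ inDeg D v ≠ 0 ∧
      ∃ _ : x.p ∈ S v, (g x.p).a = #(S v) ∧ (g x.p).b = #(S v) ∧
      ∀ w ∈ S v, w ≠ x.p → ((g w).a < #(S v) ∧ (g w).b < #(S v)) ∧
        ((g w).a + (g w).b = #(S v) ∨ (3 ≤ #(S v) ∧ (g w).a + (g w).b = 2 * #(S v) - 2))) ∨
    (x.k = 2 ∧ x.a = #(S v) ∧ x.b = #(S v) ∧ inDeg D v ≠ 0 ∧ inDeg D v ≤ 1 ∧
      ∀ w ∈ S v, (g w).a < #(S v) ∨ (g w).b < #(S v)))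
    (by
      intro v x g g' hg hx
      have hgS : ∀ w ∈ S v, g w = g' w := fun w hw => hg w (hρ v w ((memS v w).1 hw))
      rcases hx with h | ⟨h1, h2, h3, h4, h5, h6⟩ | ⟨h1, h2, h3, h4, h5, h6, h7, h8⟩ |
        ⟨h1, h2, h3, h4, h5, h6⟩
      · exact Or.inl h
      · refine Or.inr (Or.inl ⟨h1, h2, h3, h4, fun w hw hwT => ?_, fun w hw hwT => ?_⟩)
        · rw [← hgS w hw]; exact h5 w hw hwT
        · rw [← hgS w hw]; exact h6 w hw hwT
      · refine Or.inr (Or.inr (Or.inl ⟨h1, h2, h3, h4, h5, ?_, ?_, fun w hw hne => ?_⟩))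
        · rw [← hgS _ h5]; exact h6
        · rw [← hgS _ h5]; exact h7
        · rw [← hgS w hw]; exact h8 w hw hne
      · refine Or.inr (Or.inr (Or.inr ⟨h1, h2, h3, h4, h5, fun w hw => ?_⟩))
        rw [← hgS w hw]; exact h6 w hw)
    (fun v => ⟨0, 0, 0, ∅, v⟩)
    (by
      intro v g hg
      by_cases hsrc : inDeg D v = 0
      · exact ⟨⟨0, 0, 0, ∅, v⟩, Or.inl ⟨hsrc, rfl⟩⟩
      -- sums of the labels of the outneighbours
      have hlab : ∀ w ∈ S v, (g w).a + (g w).b = outDeg D w ∨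
          ((g w).a = outDeg D w ∧ (g w).b = outDeg D w) := by
        intro w hw
        have hvw := (memS v w).1 hw
        rcases hg w (hρ v w hvw) with h | h | h | h
        · exfalso
          have := h.1
          rw [inDeg, Set.ncard_eq_zero (Set.toFinite _), Set.eq_empty_iff_forall_notMem] at this
          exact this v hvw
        · left
          obtain ⟨-, h2, h3, h4, -⟩ := h
          rw [h3, h4, Finset.card_sdiff_of_subset h2, ← hcard]
          have := Finset.card_le_card h2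
          omega
        · right
          rw [← hcard]
          exact ⟨h.2.1, h.2.2.1⟩
        · right
          rw [← hcard]
          exact ⟨h.2.1, h.2.2.1⟩
      rcases split_or_dead (S v) (fun w => (g w).a) (fun w => (g w).b) with
        ⟨T, hTS, h1, h2⟩ | ⟨hpos, hdead⟩
      · exact ⟨⟨#T, #(S v \ T), 0, T, v⟩, Or.inr (Or.inl ⟨rfl, hTS, rfl, rfl, h1, h2⟩)⟩
      · rcases dead_structure (S v) (fun w => (g w).a) (fun w => (g w).b) hpos hdead with
          ⟨p, hp, h1, h2, h3⟩ | ⟨h3, p, hp, q, hq, r, hr, hpq, hpr, hqr, h4, h5, h6, h7, h8, h9⟩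
        · exact ⟨⟨#(S v), #(S v), 1, ∅, p⟩,
            Or.inr (Or.inr (Or.inl ⟨rfl, rfl, rfl, hsrc, hp, h1, h2, h3⟩))⟩
        · by_cases hone : inDeg D v ≤ 1
          · exact ⟨⟨#(S v), #(S v), 2, ∅, v⟩,
              Or.inr (Or.inr (Or.inr ⟨rfl, rfl, rfl, hsrc, hone, h9⟩))⟩
          · exfalso
            apply h2 v (by omega)
            rw [hcard] at h3 h4 h5 h6 h7 h8
            refine ⟨h3, p, q, r, (memS v p).1 hp, (memS v q).1 hq, (memS v r).1 hr, hpq, hpr, hqr,
              ?_, ?_, ?_, ?_⟩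
            · rcases hlab p hp with h | ⟨h, h'⟩ <;> omega
            · rcases hlab q hq with h | ⟨h, h'⟩ <;> omega
            · rcases hlab r hr with h | ⟨h, h'⟩ <;> omega
            · intro w hw hwp hwq hwr
              have h10 := h8 w ((memS v w).2 hw) hwp hwq hwr
              rcases hlab w ((memS v w).2 hw) with h | ⟨h, h'⟩ <;> omega)
  refine ⟨⟨fun v => (F v).a, fun v => (F v).b, fun v => (F v).k, fun v => (F v).T,
    fun v => (F v).p, ?_, ?_, ?_, ?_, ?_⟩⟩
  · intro v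
    rcases hF v with h | h | h | h
    · exact Or.inl h.2
    · exact Or.inl h.1
    · exact Or.inr (Or.inl h.1)
    · exact Or.inr (Or.inr h.1)
  · intro v hv
    rcases hF v with h | h | h | h
    · exact h.2
    · exact h.1
    · exact absurd hv h.2.2.2.1
    · exact absurd hv h.2.2.2.1
  · intro v hv hk
    rcases hF v with h | h | h | h
    · exact absurd h.1 hv
    · obtain ⟨h1, h2, h3, h4, h5, h6⟩ := h
      refine ⟨fun w hw => (memS v w).1 (h2 hw), h3, ?_, ?_, ?_⟩
      · show (F v).a + (F v).b = _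
        rw [h3, h4, Finset.card_sdiff_of_subset h2, ← hcard]
        have := Finset.card_le_card h2
        omega
      · intro w hw hwT
        show (F w).a ≠ (F v).a
        rw [h3]
        exact h5 w ((memS v w).2 hw) hwT
      · intro w hw hwT
        show (F w).b ≠ (F v).b
        rw [h4]
        exact h6 w ((memS v w).2 hw) hwT
    · have := h.1
      omega
    · have := h.1
      omega
  · intro v hk
    rcases hF v with h | h | h | h
    · have := h.2
      omega
    · have := h.1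
      omega
    · obtain ⟨h1, h2, h3, h4, h5, h6, h7, h8⟩ := h
      rw [hcard] at h2 h3 h6 h7 h8
      exact ⟨h2, h3, (memS v _).1 h5, h6, h7, fun w hw hne => h8 w ((memS v w).2 hw) hne⟩
    · have := h.1
      omega
  · intro v hk
    rcases hF v with h | h | h | h
    · have := h.2
      omega
    · have := h.1
      omega
    · have := h.1
      omega
    · obtain ⟨h1, h2, h3, h4, h5, h6⟩ := h
      rw [hcard] at h2 h3 h6
      exact ⟨h2, h3, h5, fun w hw => h6 w ((memS v w).2 hw)⟩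

end Pool.Agent.H35.Lir
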