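import Pool.Agent.H35.Lir.Conds
import Pool.Agent.H35.Lir.Choice
import Pool.Agent.H35.Lir.Defs

/-!
# Two colours for digraphs with large degrees
-/

namespace Pool.Agent.H35.Lir

open Finset Fac

variable {V : Type}

section

variable [Fintype V]

open Classical in
lemma outDeg_eq (A : V → V → Prop) (v : V) : outDeg A v = (univ.filter fun w => A v w).card := by
  unfold outDeg
  rw [Set.ncard_eq_toFinset_card']
  congr 1
  ext w
  simp

open Classical in
lemma inDeg_eq (A : V → V → Prop) (v : V) : inDeg A v = (univ.filter fun w => A w v).card := by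
  unfold inDeg
  rw [Set.ncard_eq_toFinset_card']
  congr 1
  ext w
  simp

lemma outDeg_pos_of {A : V → V → Prop} {x y : V} (h : A x y) : outDeg A x ≠ 0 := by
  classical
  rw [outDeg_eq]
  exact (card_pos.2 ⟨y, by simpa using h⟩).ne'

lemma inDeg_pos_of {A : V → V → Prop} {x y : V} (h : A x y) : inDeg A y ≠ 0 := by
  classical
  rw [inDeg_eq]
  exact (card_pos.2 ⟨x, by simpa using h⟩).ne'

lemma outDeg_zero_of {A : V → V → Prop} {x : V} (h : ∀ y, ¬ A x y) : outDeg A x = 0 := by
  classical
  rw [outDeg_eq, card_eq_zero, filter_eq_empty_iff]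
  intro y _; exact h y

lemma inDeg_zero_of {A : V → V → Prop} {y : V} (h : ∀ x, ¬ A x y) : inDeg A y = 0 := by
  classical
  rw [inDeg_eq, card_eq_zero, filter_eq_empty_iff]
  intro x _; exact h x

lemma not_of_outDeg_zero {A : V → V → Prop} {x : V} (h : outDeg A x = 0) (y : V) : ¬ A x y :=
  fun h' => outDeg_pos_of h' h

lemma not_of_inDeg_zero {A : V → V → Prop} {y : V} (h : inDeg A y = 0) (x : V) : ¬ A x y :=
  fun h' => inDeg_pos_of h' h

lemma outDeg_split {A B C : V → V → Prop} (h : ∀ x y, C x y ↔ A x y ∨ B x y)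
    (hd : ∀ x y, A x y → ¬ B x y) (v : V) : outDeg A v + outDeg B v = outDeg C v := by
  classical
  rw [outDeg_eq, outDeg_eq, outDeg_eq, ← card_union_of_disjoint]
  · congr 1
    ext w
    simp only [mem_union, mem_filter, mem_univ, true_and, h]
  · rw [disjoint_filter]
    intro w _ h1 h2
    exact hd _ _ h1 h2

lemma inDeg_split {A B C : V → V → Prop} (h : ∀ x y, C x y ↔ A x y ∨ B x y)
    (hd : ∀ x y, A x y → ¬ B x y) (v : V) : inDeg A v + inDeg B v = inDeg C v := by
  classical
  rw [inDeg_eq, inDeg_eq, inDeg_eq, ← card_union_of_disjoint]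
  · congr 1
    ext w
    simp only [mem_union, mem_filter, mem_univ, true_and, h]
  · rw [disjoint_filter]
    intro w _ h1 h2
    exact hd _ _ h1 h2

open Classical in
theorem large_aux (D : V → V → Prop) (hD : ∀ x, ¬ D x x) (L : Set V) (τ : V → Bool)
    (hτ : ∀ x ∈ L, ∀ y ∈ L, D x y → τ x ≠ τ y) (hU : ∀ v, v ∉ L → GoodVertex D L v) :
    ∃ c : V → V → Fin 2, IsWLIColouring D c := by
  set E : Finset (V × V) := univ.filter fun p => D p.1 p.2 ∧ p.1 ∉ L ∧ p.2 ∉ L with hE
  have hmE : ∀ x y, (x, y) ∈ E ↔ D x y ∧ x ∉ L ∧ y ∉ L := fun x y => by simp [hE]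
  set S : Finset V := univ.filter fun v => v ∉ L ∧ outDeg D v ≠ 0 ∧ inDeg D v ≠ 0 ∧
    ¬ (outDeg (Outside D L) v = 0 ∧ inDeg (Outside D L) v = 0) with hS
  set f : V → ℕ := fun v => (univ.filter fun w => D v w ∧ w ∈ L ∧ τ w = true).card with hf
  set f' : V → ℕ := fun v => (univ.filter fun u => D u v ∧ u ∈ L ∧ τ u = false).card with hf'
  have hdL : ∀ v, dL E v = outDeg (Outside D L) v := by
    intro v
    rw [outDeg_eq]
    unfold dL
    congr 1
    ext w
    simp only [mem_filter, mem_univ, true_and, hmE]
    rfl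
  have hdR : ∀ v, dR E v = inDeg (Outside D L) v := by
    intro v
    rw [inDeg_eq]
    unfold dR
    congr 1
    ext w
    simp only [mem_filter, mem_univ, true_and, hmE]
    rfl
  have hfo : ∀ v, f v + dL E v ≤ outDeg D v := by
    intro v
    rw [outDeg_eq]
    unfold dL
    simp only [hf]
    rw [← card_union_of_disjoint]
    · refine card_le_card ?_
      intro w hw
      simp only [mem_union, mem_filter, mem_univ, true_and, hmE] at hw ⊢
      rcases hw with hw | hw
      · exact hw.1
      · exact hw.1
    · rw [disjoint_filter]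
      intro w _ h1 h2
      exact ((hmE _ _).1 h2).2.2 h1.2.1
  have hfi : ∀ v, f' v + dR E v ≤ inDeg D v := by
    intro v
    rw [inDeg_eq]
    unfold dR
    simp only [hf']
    rw [← card_union_of_disjoint]
    · refine card_le_card ?_
      intro w hw
      simp only [mem_union, mem_filter, mem_univ, true_and, hmE] at hw ⊢
      rcases hw with hw | hw
      · exact hw.1
      · exact hw.1
    · rw [disjoint_filter]
      intro w _ h1 h2
      exact ((hmE _ _).1 h2).2.1 h1.2.1
  obtain ⟨a, b, a', b', hI1, hI2, hI3⟩ := exists_windows E (fun v h => hD v ((hmE v v).1 h).1)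
    f f' (outDeg D) (inDeg D) S (fun v _ => hfo v) (fun v _ => hfi v) (fun v hv => by
      simp only [hS, mem_filter, mem_univ, true_and] at hv
      obtain ⟨h1, h2, h3, h4⟩ := hv
      rw [hdL, hdR]
      rcases hU v h1 with h | h | h | h | h
      · rcases h with h | h
        · exact absurd h h2
        · exact absurd h h3
      · exact absurd h h4
      · exact Or.inl h
      · exact Or.inr (Or.inl h)
      · exact Or.inr (Or.inr h)) S subset_rfl
  obtain ⟨H, hHE, hHX, hHY⟩ := exists_factor E a b a' b' hI1 hI2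
  set col : V → V → Bool := fun x y =>
    if x ∈ L then !(τ x) else if y ∈ L then τ y else decide ((x, y) ∈ H) with hcol
  have colL : ∀ x y, x ∈ L → col x y = !(τ x) := fun x y hx => by simp [hcol, hx]
  have colR : ∀ x y, D x y → y ∈ L → col x y = τ y := fun x y hxy hy => by
    by_cases hx : x ∈ L
    · rw [colL x y hx]
      have := hτ x hx y hy hxy
      cases h1 : τ x <;> cases h2 : τ y <;> simp_all
    · simp [hcol, hx, hy]
  have colU : ∀ x y, x ∉ L → y ∉ L → col x y = decide ((x, y) ∈ H) := fun x y hx hy => by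
    simp [hcol, hx, hy]
  -- degrees in the colour classes
  let A : Bool → V → V → Prop := fun i x y => D x y ∧ col x y = i
  have hsplit : ∀ x y, D x y ↔ A false x y ∨ A true x y := by
    intro x y
    simp only [A]
    cases h : col x y <;> simp
  have hdisj : ∀ x y, A false x y → ¬ A true x y := by
    intro x y h1 h2
    simp only [A] at h1 h2
    rw [h1.2] at h2
    exact absurd h2.2 (by decide)
  have hsumo : ∀ v, outDeg (A false) v + outDeg (A true) v = outDeg D v :=
    outDeg_split hsplit hdisj
  have hsumi : ∀ v, inDeg (A false) v + inDeg (A true) v = inDeg D v :=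
    inDeg_split hsplit hdisj
  have hout : ∀ v, v ∉ L → outDeg (A true) v = f v + dL H v := by
    intro v hv
    rw [outDeg_eq]
    unfold dL
    simp only [hf]
    rw [← card_union_of_disjoint]
    · congr 1
      ext w
      simp only [A, mem_union, mem_filter, mem_univ, true_and]
      constructor
      · rintro ⟨h1, h2⟩
        by_cases hw : w ∈ L
        · left; rw [colR v w h1 hw] at h2; exact ⟨h1, hw, h2⟩
        · right; rw [colU v w hv hw] at h2; simpa using h2
      · rintro (⟨h1, hw, h2⟩ | h)
        · exact ⟨h1, by rw [colR v w h1 hw]; exact h2⟩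
        · have h' := (hmE v w).1 (hHE h)
          exact ⟨h'.1, by rw [colU v w hv h'.2.2]; simpa using h⟩
    · rw [disjoint_filter]
      intro w _ h1 h2
      exact ((hmE _ _).1 (hHE h2)).2.2 h1.2.1
  have hin : ∀ v, v ∉ L → inDeg (A true) v = f' v + dR H v := by
    intro v hv
    rw [inDeg_eq]
    unfold dR
    simp only [hf']
    rw [← card_union_of_disjoint]
    · congr 1
      ext w
      simp only [A, mem_union, mem_filter, mem_univ, true_and]
      constructor
      · rintro ⟨h1, h2⟩
        by_cases hw : w ∈ L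
        · left; rw [colL w v hw] at h2
          exact ⟨h1, hw, by simpa using h2⟩
        · right; rw [colU w v hw hv] at h2; simpa using h2
      · rintro (⟨h1, hw, h2⟩ | h)
        · exact ⟨h1, by rw [colL w v hw, h2]; rfl⟩
        · have h' := (hmE w v).1 (hHE h)
          exact ⟨h'.1, by rw [colU w v h'.2.1 hv]; simpa using h⟩
    · rw [disjoint_filter]
      intro w _ h1 h2
      exact ((hmE _ _).1 (hHE h2)).2.1 h1.2.1
  have hmem : ∀ v, v ∉ L → outDeg (A true) v ∈ win (f v) (a v) (b v) := by
    intro v hv
    rw [hout v hv, mem_win]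
    have := hHX v
    omega
  have hmem' : ∀ v, v ∉ L → inDeg (A true) v ∈ win (f' v) (a' v) (b' v) := by
    intro v hv
    rw [hin v hv, mem_win]
    have := hHY v
    omega
  have main : ∀ i, WeakLocallyIrregular (A i) := by
    intro i x y hxy heq
    rw [Prod.mk.injEq] at heq
    obtain ⟨heq1, heq2⟩ := heq
    have hDxy : D x y := hxy.1
    have hy1 : inDeg (A i) y ≠ 0 := inDeg_pos_of hxy
    have hx1 : outDeg (A i) x ≠ 0 := outDeg_pos_of hxy
    by_cases hx : x ∈ L
    · have : inDeg (A i) x = 0 := inDeg_zero_of fun u hu => by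
        have e1 := colR u x hu.1 hx
        have e2 := colL x y hx
        rw [hu.2] at e1
        rw [hxy.2] at e2
        rw [e1] at e2
        revert e2
        cases τ x <;> decide
      omega
    by_cases hy : y ∈ L
    · have : outDeg (A i) y = 0 := outDeg_zero_of fun u hu => by
        have e1 := colR x y hDxy hy
        have e2 := colL y u hy
        rw [hu.2] at e2
        rw [hxy.2] at e1
        rw [e1] at e2
        revert e2
        cases τ y <;> decide
      omega
    by_cases hx0 : inDeg D x = 0
    · have : inDeg (A i) x = 0 := inDeg_zero_of fun u hu => not_of_inDeg_zero hx0 u hu.1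
      omega
    by_cases hy0 : outDeg D y = 0
    · have : outDeg (A i) y = 0 := outDeg_zero_of fun u hu => not_of_outDeg_zero hy0 u hu.1
      omega
    have hE' : (x, y) ∈ E := (hmE x y).2 ⟨hDxy, hx, hy⟩
    have hR : Outside D L x y := ⟨hDxy, hx, hy⟩
    have hxS : x ∈ S := by
      simp only [hS, mem_filter, mem_univ, true_and]
      exact ⟨hx, outDeg_pos_of hDxy, hx0, fun h => outDeg_pos_of hR h.1⟩
    have hyS : y ∈ S := by
      simp only [hS, mem_filter, mem_univ, true_and]
      exact ⟨hy, hy0, inDeg_pos_of hDxy, fun h => inDeg_pos_of hR h.2⟩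
    have hC := hI3 x hxS y hyS hE' _ (hmem x hx) _ (hmem' x hx) _ (hmem y hy) _ (hmem' y hy)
    have s1 := hsumo x
    have s2 := hsumo y
    have s3 := hsumi x
    have s4 := hsumi y
    cases i
    · exact hC.2 ⟨by omega, by omega⟩
    · exact hC.1 ⟨heq1, heq2⟩
  refine ⟨fun x y => if col x y = true then 1 else 0, fun i => ?_⟩
  fin_cases i
  · have : (fun x y => D x y ∧ (if col x y = true then (1 : Fin 2) else 0) = (0 : Fin 2)) = A false := by
      funext x y
      simp only [A]
      cases h : col x y <;> simp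
    show WeakLocallyIrregular (fun x y => D x y ∧ (if col x y = true then (1 : Fin 2) else 0) = (0 : Fin 2))
    rw [this]
    exact main false
  · have : (fun x y => D x y ∧ (if col x y = true then (1 : Fin 2) else 0) = (1 : Fin 2)) = A true := by
      funext x y
      simp only [A]
      cases h : col x y <;> simp
    show WeakLocallyIrregular (fun x y => D x y ∧ (if col x y = true then (1 : Fin 2) else 0) = (1 : Fin 2))
    rw [this]
    exact main true

end

/-- **Two colours when all degrees outside a bipartite part are large.** -/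
theorem large [Finite V] (D : V → V → Prop) (hD : ∀ x, ¬ D x x) (L : Set V) (τ : V → Bool)
    (hτ : ∀ x ∈ L, ∀ y ∈ L, D x y → τ x ≠ τ y) (hU : ∀ v, v ∉ L → GoodVertex D L v) :
    (∃ c : V → V → Fin 2, IsWLIColouring D c) ∧ lir D ≤ 2 := by
  have := Fintype.ofFinite V
  have h := large_aux D hD L τ hτ hU
  exact ⟨h, Nat.sInf_le h⟩

theorem large_empty [Finite V] (D : V → V → Prop) (hD : ∀ x, ¬ D x x)
    (h : ∀ v, outDeg D v = 0 ∨ inDeg D v = 0 ∨ (40000 ≤ outDeg D v ∧ 40000 ≤ inDeg D v) ∨
      16000000 ≤ outDeg D v ∨ 16000000 ≤ inDeg D v) :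
    (∃ c : V → V → Fin 2, IsWLIColouring D c) ∧ lir D ≤ 2 := by
  refine large D hD ∅ (fun _ => true) (by simp) fun v _ => ?_
  have e : Outside D ∅ = D := by
    funext x y
    simp [Outside]
  unfold GoodVertex
  rw [e]
  have := h v
  omega

end Pool.Agent.H35.Lir
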