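import Mathlib

/-!
Digraphs with all outdegrees at most three have a good partition into seven classes.
-/

namespace Pool.Agent.H35.Lir

open Finset

open Classical in
/-- number of outneighbours in `S` -/
noncomputable def oIn {V : Type} (E : V → V → Prop) (S : Finset V) (x : V) : ℕ :=
  #(S.filter fun y => E x y)

open Classical in
/-- number of inneighbours in `S` -/
noncomputable def iIn {V : Type} (E : V → V → Prop) (S : Finset V) (x : V) : ℕ :=
  #(S.filter fun y => E y x)

variable {V : Type}

theorem oIn_mono (E : V → V → Prop) {S T : Finset V} (h : S ⊆ T) (x : V) :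
    oIn E S x ≤ oIn E T x := by
  classical
  unfold oIn
  exact Finset.card_le_card (Finset.filter_subset_filter _ h)

theorem sum_oIn_iIn (E : V → V → Prop) (S : Finset V) :
    ∑ x ∈ S, oIn E S x = ∑ x ∈ S, iIn E S x := by
  classical
  unfold oIn iIn
  simp only [Finset.card_filter]
  rw [Finset.sum_comm]

/-- a permutation of the colours fixing `0` and moving two given colours to `5` and `6` -/
theorem exists_perm (p q : Fin 7) (hp : p ≠ 0) (hq : q ≠ 0) (hpq : p ≠ q) :
    ∃ π : Equiv.Perm (Fin 7), π 0 = 0 ∧ π p = 5 ∧ π q = 6 := by
  have h05 : (0 : Fin 7) ≠ 5 := by decide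
  have h06 : (0 : Fin 7) ≠ 6 := by decide
  have h56 : (5 : Fin 7) ≠ 6 := by decide
  have e0 : Equiv.swap p 5 0 = 0 := Equiv.swap_apply_of_ne_of_ne hp.symm h05
  have ep : Equiv.swap p 5 p = 5 := Equiv.swap_apply_left _ _
  have hq1 : Equiv.swap p 5 q ≠ 0 := by
    intro h
    rw [← e0] at h
    exact hq ((Equiv.swap p 5).injective h)
  have hq5 : Equiv.swap p 5 q ≠ 5 := by
    intro h
    exact hpq ((Equiv.swap p 5).injective (h.trans ep.symm)).symm
  refine ⟨Equiv.swap p 5 |>.trans (Equiv.swap (Equiv.swap p 5 q) 6), ?_, ?_, ?_⟩
  · rw [Equiv.trans_apply, e0]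
    exact Equiv.swap_apply_of_ne_of_ne hq1.symm h06
  · rw [Equiv.trans_apply, ep]
    exact Equiv.swap_apply_of_ne_of_ne hq5.symm h56
  · rw [Equiv.trans_apply]
    exact Equiv.swap_apply_left _ _

/-- **Seven classes.** -/
theorem exists_seven (E : V → V → Prop) (hE : ∀ x, ¬ E x x) (S : Finset V)
    (hS : ∀ x ∈ S, oIn E S x ≤ 3) :
    ∃ f : V → Fin 7, (∀ x ∈ S, ∀ y ∈ S, E x y → f x ≠ f y ∧ (f x = 0 → f y ≠ 5 ∧ f y ≠ 6)) ∧
      ∀ x ∈ S, f x = 0 → ∃ F ⊆ S, x ∈ F ∧ ∀ y ∈ F, oIn E F y = 3 ∧ iIn E F y = 3 := by
  classical
  induction S using Finset.strongInduction with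
  | H S ih =>
    by_cases hA : ∃ u ∈ S, oIn E S u + iIn E S u ≤ 5
    · obtain ⟨u, hu, hdeg⟩ := hA
      obtain ⟨f, hf1, hf2⟩ := ih (S.erase u) (Finset.erase_ssubset hu) (by
        intro x hx
        exact (oIn_mono E (Finset.erase_subset _ _) x).trans (hS x (Finset.mem_of_mem_erase hx)))
      -- a free colour
      obtain ⟨N, hN⟩ : ∃ N : Finset V, N = (S.filter fun y => E u y) ∪ S.filter fun y => E y u :=
        ⟨_, rfl⟩
      have hNc : #N ≤ 5 := by
        rw [hN]
        refine (Finset.card_union_le _ _).trans ?_
        exact hdeg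
      have hex : ∃ i : Fin 7, i ∉ insert 0 (N.image f) := by
        by_contra hcon
        push Not at hcon
        have h1 : #(Finset.univ : Finset (Fin 7)) ≤ #(insert (0 : Fin 7) (N.image f)) :=
          Finset.card_le_card fun i _ => hcon i
        have h2 := Finset.card_insert_le (0 : Fin 7) (N.image f)
        have h3 := Finset.card_image_le (s := N) (f := f)
        simp only [Finset.card_univ, Fintype.card_fin] at h1
        omega
      obtain ⟨i, hi⟩ := hex
      rw [Finset.mem_insert, not_or] at hi
      obtain ⟨hi0, hiN⟩ := hi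
      have hNf : ∀ y ∈ N, f y ≠ i := by
        intro y hy h
        exact hiN (Finset.mem_image.2 ⟨y, hy, h⟩)
      refine ⟨Function.update f u i, ?_, ?_⟩
      · intro x hx y hy hxy
        have hne : x ≠ y := by
          rintro rfl
          exact hE x hxy
        by_cases hxu : x = u
        · subst hxu
          rw [Function.update_self, Function.update_of_ne hne.symm]
          refine ⟨fun h => hNf y ?_ h.symm, fun h => absurd h hi0⟩
          rw [hN, Finset.mem_union, Finset.mem_filter]
          exact Or.inl ⟨hy, hxy⟩
        · by_cases hyu : y = u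
          · subst hyu
            rw [Function.update_self, Function.update_of_ne hne]
            refine ⟨hNf x ?_, fun h0 => ?_⟩
            · rw [hN, Finset.mem_union, Finset.mem_filter, Finset.mem_filter]
              exact Or.inr ⟨hx, hxy⟩
            · exfalso
              obtain ⟨F, hF, hxF, hreg⟩ := hf2 x (Finset.mem_erase.2 ⟨hxu, hx⟩) h0
              have h3 := (hreg x hxF).1
              have h4 : oIn E F x < oIn E S x := by
                unfold oIn
                apply Finset.card_lt_card
                rw [Finset.ssubset_iff_of_subset]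
                · refine ⟨y, Finset.mem_filter.2 ⟨hy, hxy⟩, fun h => ?_⟩
                  have := hF (Finset.mem_filter.1 h).1
                  exact (Finset.mem_erase.1 this).1 rfl
                · exact Finset.filter_subset_filter _ (hF.trans (Finset.erase_subset _ _))
              have h5 := hS x hx
              omega
          · rw [Function.update_of_ne hxu, Function.update_of_ne hyu]
            exact hf1 x (Finset.mem_erase.2 ⟨hxu, hx⟩) y (Finset.mem_erase.2 ⟨hyu, hy⟩) hxy
      · intro x hx h0
        by_cases hxu : x = u
        · rw [hxu, Function.update_self] at h0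
          exact absurd h0 hi0
        · rw [Function.update_of_ne hxu] at h0
          obtain ⟨F, hF, h⟩ := hf2 x (Finset.mem_erase.2 ⟨hxu, hx⟩) h0
          exact ⟨F, hF.trans (Finset.erase_subset _ _), h⟩
    · push Not at hA
      -- regular
      have hreg : ∀ x ∈ S, oIn E S x = 3 ∧ iIn E S x = 3 := by
        have h1 := sum_oIn_iIn E S
        have h2 : ∀ x ∈ S, 3 ≤ iIn E S x := by
          intro x hx
          have := hA x hx
          have := hS x hx
          omega
        have h3 : ∑ x ∈ S, oIn E S x ≤ ∑ _x ∈ S, 3 := Finset.sum_le_sum hS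
        have h4 : ∑ _x ∈ S, 3 ≤ ∑ x ∈ S, iIn E S x := Finset.sum_le_sum h2
        have h5 : ∑ x ∈ S, iIn E S x = ∑ _x ∈ S, 3 := by omega
        have h6 : ∑ x ∈ S, oIn E S x = ∑ _x ∈ S, 3 := by omega
        intro x hx
        refine ⟨(Finset.sum_eq_sum_iff_of_le hS).1 h6 x hx, ?_⟩
        exact ((Finset.sum_eq_sum_iff_of_le h2).1 h5.symm x hx).symm
      by_cases hB : ∃ T ⊆ S, T.Nonempty ∧ T ≠ S ∧ ∀ x ∈ T, ∀ y ∈ S \ T, ¬ E x y ∧ ¬ E y x
      · obtain ⟨T, hTS, hTn, hTne, hsep⟩ := hB
        have hT1 : T ⊂ S := Finset.ssubset_iff_subset_ne.2 ⟨hTS, hTne⟩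
        have hT2 : S \ T ⊂ S := by
          rw [Finset.ssubset_iff_of_subset Finset.sdiff_subset]
          obtain ⟨x, hx⟩ := hTn
          exact ⟨x, hTS hx, fun h => (Finset.mem_sdiff.1 h).2 hx⟩
        obtain ⟨f, hf1, hf2⟩ := ih T hT1 fun x hx => (oIn_mono E hTS x).trans (hS x (hTS hx))
        obtain ⟨g, hg1, hg2⟩ := ih (S \ T) hT2 fun x hx =>
          (oIn_mono E Finset.sdiff_subset x).trans (hS x (Finset.mem_sdiff.1 hx).1)
        refine ⟨fun x => if x ∈ T then f x else g x, ?_, ?_⟩
        · intro x hx y hy hxy
          by_cases hxT : x ∈ T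
          · by_cases hyT : y ∈ T
            · simp only [if_pos hxT, if_pos hyT]
              exact hf1 x hxT y hyT hxy
            · exact absurd hxy (hsep x hxT y (Finset.mem_sdiff.2 ⟨hy, hyT⟩)).1
          · by_cases hyT : y ∈ T
            · exact absurd hxy (hsep y hyT x (Finset.mem_sdiff.2 ⟨hx, hxT⟩)).2
            · simp only [if_neg hxT, if_neg hyT]
              exact hg1 x (Finset.mem_sdiff.2 ⟨hx, hxT⟩) y (Finset.mem_sdiff.2 ⟨hy, hyT⟩) hxy
        · intro x hx h0
          by_cases hxT : x ∈ T
          · simp only [if_pos hxT] at h0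
            obtain ⟨F, hF, h⟩ := hf2 x hxT h0
            exact ⟨F, hF.trans hTS, h⟩
          · simp only [if_neg hxT] at h0
            obtain ⟨F, hF, h⟩ := hg2 x (Finset.mem_sdiff.2 ⟨hx, hxT⟩) h0
            exact ⟨F, hF.trans Finset.sdiff_subset, h⟩
      · -- connected
        by_cases hSe : S = ∅
        · subst hSe
          exact ⟨fun _ => 0, by simp, by simp⟩
        obtain ⟨v, hv⟩ := Finset.nonempty_of_ne_empty hSe
        obtain ⟨f, hf1, hf2⟩ := ih (S.erase v) (Finset.erase_ssubset hv) (by
          intro x hx
          exact (oIn_mono E (Finset.erase_subset _ _) x).trans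
            (hS x (Finset.mem_of_mem_erase hx)))
        have hnz : ∀ x ∈ S.erase v, f x ≠ 0 := by
          intro x hx h0
          obtain ⟨F, hF, hxF, hFreg⟩ := hf2 x hx h0
          have hFS : F ⊆ S := hF.trans (Finset.erase_subset _ _)
          apply hB
          refine ⟨F, hFS, ⟨x, hxF⟩, ?_, ?_⟩
          · rintro rfl
            exact (Finset.mem_erase.1 (hF hv)).1 rfl
          · intro a ha b hb
            have hb' := Finset.mem_sdiff.1 hb
            constructor
            · intro hab
              have h4 : oIn E F a < oIn E S a := by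
                unfold oIn
                apply Finset.card_lt_card
                rw [Finset.ssubset_iff_of_subset (Finset.filter_subset_filter _ hFS)]
                exact ⟨b, Finset.mem_filter.2 ⟨hb'.1, hab⟩,
                  fun h => hb'.2 (Finset.mem_filter.1 h).1⟩
              have h5 := (hFreg a ha).1
              have h6 := (hreg a (hFS ha)).1
              omega
            · intro hba
              have h4 : iIn E F a < iIn E S a := by
                unfold iIn
                apply Finset.card_lt_card
                rw [Finset.ssubset_iff_of_subset (Finset.filter_subset_filter _ hFS)]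
                exact ⟨b, Finset.mem_filter.2 ⟨hb'.1, hba⟩,
                  fun h => hb'.2 (Finset.mem_filter.1 h).1⟩
              have h5 := (hFreg a ha).2
              have h6 := (hreg a (hFS ha)).2
              omega
        -- two colours missing at the outneighbours of `v`
        obtain ⟨O, hO⟩ : ∃ O : Finset (Fin 7),
            O = insert 0 ((S.filter fun y => E v y).image f) := ⟨_, rfl⟩
        have hOc : #O ≤ 4 := by
          have h1 := Finset.card_insert_le (0 : Fin 7) ((S.filter fun y => E v y).image f)
          have h2 := Finset.card_image_le (s := S.filter fun y => E v y) (f := f)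
          have h3 := (hreg v hv).1
          unfold oIn at h3
          rw [hO]
          omega
        have hOc2 : 2 < #Oᶜ := by
          rw [Finset.card_compl, Fintype.card_fin]
          omega
        obtain ⟨p, q, -, hp, hq, -, hpq, -, -⟩ := Finset.two_lt_card_iff.1 hOc2
        rw [Finset.mem_compl, hO, Finset.mem_insert, not_or] at hp hq
        obtain ⟨π, hπ0, hπp, hπq⟩ := exists_perm p q hp.1 hq.1 hpq
        refine ⟨fun x => if x = v then 0 else π (f x), ?_, ?_⟩
        · intro x hx y hy hxy
          have hne : x ≠ y := by
            rintro rfl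
            exact hE x hxy
          by_cases hxv : x = v
          · subst hxv
            simp only [if_true, if_neg hne.symm]
            have hy' : f y ∈ (S.filter fun z => E x z).image f :=
              Finset.mem_image.2 ⟨y, Finset.mem_filter.2 ⟨hy, hxy⟩, rfl⟩
            refine ⟨fun h => ?_, fun _ => ⟨fun h => ?_, fun h => ?_⟩⟩
            · rw [← hπ0] at h
              exact hnz y (Finset.mem_erase.2 ⟨hne.symm, hy⟩) (π.injective h).symm
            · rw [← hπp] at h
              rw [π.injective h] at hy'
              exact hp.2 hy'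
            · rw [← hπq] at h
              rw [π.injective h] at hy'
              exact hq.2 hy'
          · have hx' : x ∈ S.erase v := Finset.mem_erase.2 ⟨hxv, hx⟩
            have hπx : π (f x) ≠ 0 := by
              intro h
              rw [← hπ0] at h
              exact hnz x hx' (π.injective h)
            by_cases hyv : y = v
            · subst hyv
              simp only [if_true, if_neg hxv]
              exact ⟨hπx, fun h => absurd h hπx⟩
            · simp only [if_neg hxv, if_neg hyv]
              refine ⟨fun h => ?_, fun h => absurd h hπx⟩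
              exact (hf1 x hx' y (Finset.mem_erase.2 ⟨hyv, hy⟩) hxy).1 (π.injective h)
        · intro x hx h0
          exact ⟨S, subset_rfl, hx, hreg⟩

end Pool.Agent.H35.Lir
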