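import Pool.Agent.H35.Lir.Conds
import Pool.Agent.H35.Lir.Defs
import Pool.Agent.H35.Lir.SevenComb

/-!
Types of vertices for three colours.
-/

namespace Pool.Agent.H35.Lir

open Finset

variable {V : Type}

/-- the types of the seven classes -/
def tp7 : Fin 7 → Fin 3 → Fin 3 :=
  ![![0, 2, 2], ![2, 0, 1], ![1, 0, 2], ![2, 1, 0], ![1, 2, 0], ![0, 2, 1], ![0, 1, 2]]

theorem tp7_arc : ∀ i j : Fin 7, i ≠ j → ¬ (i = 0 ∧ (j = 5 ∨ j = 6)) →
    ∃ c, tp7 i c < tp7 j c := by decide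

theorem tp7_zero : ∀ i : Fin 7, ∃ c, tp7 i c = 0 := by decide

theorem tp7_two : ∀ i : Fin 7, ∃ c, tp7 i c = 2 := by decide

theorem Types.rev {D : V → V → Prop} {L : Set V} {s : V → Fin 3 → Fin 3}
    (h : Types (fun x y => D y x) L s) : Types D L fun x c => Fin.rev (s x c) := by
  refine ⟨fun x hx y hy hxy => ?_, fun x hx => ?_, fun x hx => ?_⟩
  · obtain ⟨c, hc⟩ := h.arc y hy x hx hxy
    exact ⟨c, Fin.rev_lt_rev.2 hc⟩
  · obtain ⟨c, hc⟩ := h.two x hx
    exact ⟨c, by rw [hc]; decide⟩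
  · obtain ⟨c, hc⟩ := h.zero x hx
    exact ⟨c, by rw [hc]; decide⟩

/-- proper colourings with six colours give types -/
theorem types_of_six (D : V → V → Prop) (L : Set V) (f : V → Fin 6)
    (hf : ∀ x ∈ L, ∀ y ∈ L, D x y → f x ≠ f y) :
    Types D L fun x => tp7 (f x).succ := by
  refine ⟨fun x hx y hy hxy => ?_, fun x _ => tp7_zero _, fun x _ => tp7_two _⟩
  apply tp7_arc
  · intro h
    exact hf x hx y hy hxy (Fin.succ_injective _ h)
  · rintro ⟨h, -⟩
    exact Fin.succ_ne_zero _ h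

/-- types exist if all outdegrees in `D[L]` are at most three -/
theorem types_of_outDeg [Finite V] (D : V → V → Prop) (hD : ∀ x, ¬ D x x) (L : Set V)
    (h : ∀ x ∈ L, outDeg (fun a b => D a b ∧ b ∈ L) x ≤ 3) : ∃ s, Types D L s := by
  classical
  have := Fintype.ofFinite V
  obtain ⟨f, hf, -⟩ := exists_seven D hD L.toFinset (by
    intro x hx
    rw [Set.mem_toFinset] at hx
    refine le_trans (le_of_eq ?_) (h x hx)
    unfold oIn outDeg
    rw [Set.ncard_eq_toFinset_card']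
    congr 1
    ext y
    simp only [Finset.mem_filter, Set.mem_toFinset, Set.mem_ofPred_eq]
    exact ⟨fun h => ⟨h.2, h.1⟩, fun h => ⟨h.2, h.1⟩⟩)
  refine ⟨fun x => tp7 (f x), fun x hx y hy hxy => ?_, fun x _ => tp7_zero _,
    fun x _ => tp7_two _⟩
  have h1 := hf x (by simpa using hx) y (by simpa using hy) hxy
  apply tp7_arc _ _ h1.1
  rintro ⟨h2, h3 | h3⟩
  · exact (h1.2 h2).1 h3
  · exact (h1.2 h2).2 h3

/-- types exist if all indegrees in `D[L]` are at most three -/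
theorem types_of_inDeg [Finite V] (D : V → V → Prop) (hD : ∀ x, ¬ D x x) (L : Set V)
    (h : ∀ x ∈ L, inDeg (fun a b => D a b ∧ a ∈ L) x ≤ 3) : ∃ s, Types D L s := by
  obtain ⟨s, hs⟩ := types_of_outDeg (fun x y => D y x) hD L h
  exact ⟨_, hs.rev⟩

end Pool.Agent.H35.Lir
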