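import Pool.Agent.H35.Lir.Large
import Pool.Agent.H35.Lir.Types

/-!
# Three colours for digraphs with large degrees outside a typed set
-/

namespace Pool.Agent.H35.Lir

open Finset Fac

variable {V : Type}

open Classical in
theorem large3_aux [Fintype V] (D : V → V → Prop) (hD : ∀ x, ¬ D x x) (L : Set V)
    (s : V → Fin 3 → Fin 3) (hs : Types D L s) (hU : ∀ v, v ∉ L → GoodVertex D L v) :
    ∃ c : V → V → Fin 3, IsWLIColouring D c := by
  obtain ⟨harc, hzero, htwo⟩ := hs
  have hz' : ∀ x, ∃ c, x ∈ L → s x c = 0 := by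
    intro x
    by_cases hx : x ∈ L
    · obtain ⟨c, hc⟩ := hzero x hx
      exact ⟨c, fun _ => hc⟩
    · exact ⟨0, fun h => absurd h hx⟩
  have ht' : ∀ x, ∃ c, x ∈ L → s x c = 2 := by
    intro x
    by_cases hx : x ∈ L
    · obtain ⟨c, hc⟩ := htwo x hx
      exact ⟨c, fun _ => hc⟩
    · exact ⟨0, fun h => absurd h hx⟩
  have hk' : ∀ x y, ∃ c, x ∈ L → y ∈ L → D x y → s x c < s y c := by
    intro x y
    by_cases h : x ∈ L ∧ y ∈ L ∧ D x y
    · obtain ⟨c, hc⟩ := harc x h.1 y h.2.1 h.2.2
      exact ⟨c, fun _ _ _ => hc⟩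
    · exact ⟨0, fun h1 h2 h3 => absurd ⟨h1, h2, h3⟩ h⟩
  choose z hz using hz'
  choose t ht using ht'
  choose k hk using hk'
  obtain ⟨kc, hkc⟩ : ∃ kc : V → V → Fin 3, ∀ x y, kc x y =
      if x ∈ L then (if y ∈ L then k x y else z x) else t y := ⟨_, fun _ _ => rfl⟩
  have kin : ∀ x ∈ L, ∀ u, D u x → s x (kc u x) ≠ 0 := by
    intro x hx u hux
    rw [hkc]
    by_cases hu : u ∈ L
    · rw [if_pos hu, if_pos hx]
      have := hk u x hu hx hux
      intro h
      rw [h] at this
      exact absurd this (Fin.not_lt_zero _)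
    · rw [if_neg hu, ht x hx]
      decide
  have kout : ∀ x ∈ L, ∀ u, D x u → s x (kc x u) ≠ 2 := by
    intro x hx u hxu
    rw [hkc, if_pos hx]
    by_cases hu : u ∈ L
    · rw [if_pos hu]
      have := hk x u hx hu hxu
      intro h
      rw [h] at this
      have h2 := (s u (k x u)).2
      have h3 : (2 : Fin 3).val < (s u (k x u)).val := this
      have h4 : (2 : Fin 3).val = 2 := rfl
      omega
    · rw [if_neg hu, hz x hx]
      decide
  set E : Finset (V × V) := univ.filter fun p => D p.1 p.2 ∧ p.1 ∉ L ∧ p.2 ∉ L with hE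
  have hmE : ∀ x y, (x, y) ∈ E ↔ D x y ∧ x ∉ L ∧ y ∉ L := fun x y => by simp [hE]
  set S : Finset V := univ.filter fun v => v ∉ L ∧ outDeg D v ≠ 0 ∧ inDeg D v ≠ 0 ∧
    ¬ (outDeg (Outside D L) v = 0 ∧ inDeg (Outside D L) v = 0) with hS
  obtain ⟨f, hf⟩ : ∃ f : Fin 3 → V → ℕ, ∀ i v, f i v =
      (univ.filter fun w => D v w ∧ w ∈ L ∧ kc v w = i).card := ⟨_, fun _ _ => rfl⟩
  obtain ⟨f', hf'⟩ : ∃ f' : Fin 3 → V → ℕ, ∀ i v, f' i v =
      (univ.filter fun u => D u v ∧ u ∈ L ∧ kc u v = i).card := ⟨_, fun _ _ => rfl⟩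
  have hdL : ∀ v, dL E v = outDeg (Outside D L) v := by
    intro v
    rw [outDeg_eq]
    unfold dL
    congr 1
    ext w
    simp only [mem_filter, mem_univ, true_and, hmE]
    rfl
  have hdR : ∀ v, dR E v = inDeg (Outside D L) v := by
    intro v
    rw [inDeg_eq]
    unfold dR
    congr 1
    ext w
    simp only [mem_filter, mem_univ, true_and, hmE]
    rfl
  have hfo : ∀ v, f 1 v + f 0 v + dL E v ≤ outDeg D v := by
    intro v
    rw [outDeg_eq, hf, hf]
    unfold dL
    rw [← card_union_of_disjoint, ← card_union_of_disjoint]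
    · refine card_le_card ?_
      intro w hw
      simp only [mem_union, mem_filter, mem_univ, true_and, hmE] at hw ⊢
      rcases hw with (hw | hw) | hw
      · exact hw.1
      · exact hw.1
      · exact hw.1
    · rw [Finset.disjoint_left]
      intro w h1 h2
      simp only [mem_union, mem_filter, mem_univ, true_and, hmE] at h1 h2
      rcases h1 with h1 | h1
      · exact h2.2.2 h1.2.1
      · exact h2.2.2 h1.2.1
    · rw [disjoint_filter]
      intro w _ h1 h2
      rw [h1.2.2] at h2
      exact absurd h2.2.2 (by decide)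
  have hfi : ∀ v, f' 1 v + f' 0 v + dR E v ≤ inDeg D v := by
    intro v
    rw [inDeg_eq, hf', hf']
    unfold dR
    rw [← card_union_of_disjoint, ← card_union_of_disjoint]
    · refine card_le_card ?_
      intro w hw
      simp only [mem_union, mem_filter, mem_univ, true_and, hmE] at hw ⊢
      rcases hw with (hw | hw) | hw
      · exact hw.1
      · exact hw.1
      · exact hw.1
    · rw [Finset.disjoint_left]
      intro w h1 h2
      simp only [mem_union, mem_filter, mem_univ, true_and, hmE] at h1 h2
      rcases h1 with h1 | h1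
      · exact h2.2.1 h1.2.1
      · exact h2.2.1 h1.2.1
    · rw [disjoint_filter]
      intro w _ h1 h2
      rw [h1.2.2] at h2
      exact absurd h2.2.2 (by decide)
  obtain ⟨a, b, a', b', hI1, hI2, hI3⟩ := exists_windows E (fun v h => hD v ((hmE v v).1 h).1)
    (f 1) (f' 1) (fun v => f 1 v + f 0 v + dL E v) (fun v => f' 1 v + f' 0 v + dR E v) S
    (fun v _ => by show f 1 v + dL E v ≤ f 1 v + f 0 v + dL E v; omega)
    (fun v _ => by show f' 1 v + dR E v ≤ f' 1 v + f' 0 v + dR E v; omega) (fun v hv => by
      simp only [hS, mem_filter, mem_univ, true_and] at hv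
      obtain ⟨h1, h2, h3, h4⟩ := hv
      have e1 := hfo v
      have e2 := hfi v
      rcases hU v h1 with h | h | h | h | h
      · rcases h with h | h
        · exact absurd h h2
        · exact absurd h h3
      · exact absurd h h4
      · left; rw [hdL, hdR]; exact h
      · right; left
        refine ⟨by rw [hdL]; exact h.1, ?_⟩
        show f' 1 v + f' 0 v + dR E v < 40000
        omega
      · right; right
        refine ⟨by rw [hdR]; exact h.1, ?_⟩
        show f 1 v + f 0 v + dL E v < 40000
        omega) S subset_rfl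
  obtain ⟨H, hHE, hHX, hHY⟩ := exists_factor E a b a' b' hI1 hI2
  obtain ⟨col, hcol⟩ : ∃ col : V → V → Fin 3, ∀ x y, col x y =
      if x ∈ L ∨ y ∈ L then kc x y else if (x, y) ∈ H then 1 else 0 := ⟨_, fun _ _ => rfl⟩
  have colL : ∀ x y, x ∈ L ∨ y ∈ L → col x y = kc x y := fun x y h => by rw [hcol, if_pos h]
  have colU : ∀ x y, x ∉ L → y ∉ L → col x y = if (x, y) ∈ H then 1 else 0 := fun x y hx hy => by
    rw [hcol, if_neg (by rintro (h | h); exacts [hx h, hy h])]
  let A : Fin 3 → V → V → Prop := fun i x y => D x y ∧ col x y = i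
  have hout1 : ∀ v, v ∉ L → outDeg (A 1) v = f 1 v + dL H v := by
    intro v hv
    rw [outDeg_eq, hf]
    unfold dL
    rw [← card_union_of_disjoint]
    · congr 1
      ext w
      simp only [A, mem_union, mem_filter, mem_univ, true_and]
      constructor
      · rintro ⟨h1, h2⟩
        by_cases hw : w ∈ L
        · left; rw [colL v w (Or.inr hw)] at h2; exact ⟨h1, hw, h2⟩
        · right
          rw [colU v w hv hw] at h2
          by_contra h3
          rw [if_neg h3] at h2
          exact absurd h2 (by decide)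
      · rintro (⟨h1, hw, h2⟩ | h)
        · exact ⟨h1, by rw [colL v w (Or.inr hw)]; exact h2⟩
        · have h' := (hmE v w).1 (hHE h)
          exact ⟨h'.1, by rw [colU v w hv h'.2.2, if_pos h]⟩
    · rw [disjoint_filter]
      intro w _ h1 h2
      exact ((hmE _ _).1 (hHE h2)).2.2 h1.2.1
  have hin1 : ∀ v, v ∉ L → inDeg (A 1) v = f' 1 v + dR H v := by
    intro v hv
    rw [inDeg_eq, hf']
    unfold dR
    rw [← card_union_of_disjoint]
    · congr 1
      ext w
      simp only [A, mem_union, mem_filter, mem_univ, true_and]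
      constructor
      · rintro ⟨h1, h2⟩
        by_cases hw : w ∈ L
        · left; rw [colL w v (Or.inl hw)] at h2; exact ⟨h1, hw, h2⟩
        · right
          rw [colU w v hw hv] at h2
          by_contra h3
          rw [if_neg h3] at h2
          exact absurd h2 (by decide)
      · rintro (⟨h1, hw, h2⟩ | h)
        · exact ⟨h1, by rw [colL w v (Or.inl hw)]; exact h2⟩
        · have h' := (hmE w v).1 (hHE h)
          exact ⟨h'.1, by rw [colU w v h'.2.1 hv, if_pos h]⟩
    · rw [disjoint_filter]
      intro w _ h1 h2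
      exact ((hmE _ _).1 (hHE h2)).2.1 h1.2.1
  have hout0 : ∀ v, v ∉ L → outDeg (A 0) v + outDeg (A 1) v = f 1 v + f 0 v + dL E v := by
    intro v hv
    have e : outDeg (A 0) v = f 0 v + ((univ.filter fun w => (v, w) ∈ E).filter
        fun w => (v, w) ∉ H).card := by
      rw [outDeg_eq, hf]
      rw [← card_union_of_disjoint]
      · congr 1
        ext w
        simp only [A, mem_union, mem_filter, mem_univ, true_and]
        constructor
        · rintro ⟨h1, h2⟩
          by_cases hw : w ∈ L
          · left; rw [colL v w (Or.inr hw)] at h2; exact ⟨h1, hw, h2⟩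
          · right
            rw [colU v w hv hw] at h2
            refine ⟨(hmE v w).2 ⟨h1, hv, hw⟩, fun h3 => ?_⟩
            rw [if_pos h3] at h2
            exact absurd h2 (by decide)
        · rintro (⟨h1, hw, h2⟩ | ⟨h, h3⟩)
          · exact ⟨h1, by rw [colL v w (Or.inr hw)]; exact h2⟩
          · have h' := (hmE v w).1 h
            exact ⟨h'.1, by rw [colU v w hv h'.2.2, if_neg h3]⟩
      · rw [Finset.disjoint_left]
        intro w h1 h2
        simp only [mem_filter, mem_univ, true_and] at h1 h2
        exact ((hmE _ _).1 h2.1).2.2 h1.2.1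
    have e2 : (univ.filter fun w => (v, w) ∈ E).filter (fun w => (v, w) ∈ H) =
        univ.filter fun w => (v, w) ∈ H := by
      ext w
      simp only [mem_filter, mem_univ, true_and]
      exact ⟨fun h => h.2, fun h => ⟨hHE h, h⟩⟩
    have e3 := Finset.card_filter_add_card_filter_not (s := univ.filter fun w => (v, w) ∈ E)
      (fun w => (v, w) ∈ H)
    rw [e2] at e3
    rw [e, hout1 v hv]
    unfold dL
    omega
  have hin0 : ∀ v, v ∉ L → inDeg (A 0) v + inDeg (A 1) v = f' 1 v + f' 0 v + dR E v := by
    intro v hv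
    have e : inDeg (A 0) v = f' 0 v + ((univ.filter fun w => (w, v) ∈ E).filter
        fun w => (w, v) ∉ H).card := by
      rw [inDeg_eq, hf']
      rw [← card_union_of_disjoint]
      · congr 1
        ext w
        simp only [A, mem_union, mem_filter, mem_univ, true_and]
        constructor
        · rintro ⟨h1, h2⟩
          by_cases hw : w ∈ L
          · left; rw [colL w v (Or.inl hw)] at h2; exact ⟨h1, hw, h2⟩
          · right
            rw [colU w v hw hv] at h2
            refine ⟨(hmE w v).2 ⟨h1, hw, hv⟩, fun h3 => ?_⟩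
            rw [if_pos h3] at h2
            exact absurd h2 (by decide)
        · rintro (⟨h1, hw, h2⟩ | ⟨h, h3⟩)
          · exact ⟨h1, by rw [colL w v (Or.inl hw)]; exact h2⟩
          · have h' := (hmE w v).1 h
            exact ⟨h'.1, by rw [colU w v h'.2.1 hv, if_neg h3]⟩
      · rw [Finset.disjoint_left]
        intro w h1 h2
        simp only [mem_filter, mem_univ, true_and] at h1 h2
        exact ((hmE _ _).1 h2.1).2.1 h1.2.1
    have e2 : (univ.filter fun w => (w, v) ∈ E).filter (fun w => (w, v) ∈ H) =
        univ.filter fun w => (w, v) ∈ H := by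
      ext w
      simp only [mem_filter, mem_univ, true_and]
      exact ⟨fun h => h.2, fun h => ⟨hHE h, h⟩⟩
    have e3 := Finset.card_filter_add_card_filter_not (s := univ.filter fun w => (w, v) ∈ E)
      (fun w => (w, v) ∈ H)
    rw [e2] at e3
    rw [e, hin1 v hv]
    unfold dR
    omega
  have hmem : ∀ v, v ∉ L → outDeg (A 1) v ∈ win (f 1 v) (a v) (b v) := by
    intro v hv
    rw [hout1 v hv, mem_win]
    have := hHX v
    omega
  have hmem' : ∀ v, v ∉ L → inDeg (A 1) v ∈ win (f' 1 v) (a' v) (b' v) := by
    intro v hv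
    rw [hin1 v hv, mem_win]
    have := hHY v
    omega
  have hz3 : ∀ i : Fin 3, i = 0 ∨ i = 1 ∨ i = 2 := by decide
  refine ⟨col, ?_⟩
  show ∀ i, WeakLocallyIrregular (A i)
  intro i x y hxy heq
  rw [Prod.mk.injEq] at heq
  obtain ⟨heq1, heq2⟩ := heq
  have hDxy : D x y := hxy.1
  have hy1 : inDeg (A i) y ≠ 0 := inDeg_pos_of hxy
  have hx1 : outDeg (A i) x ≠ 0 := outDeg_pos_of hxy
  by_cases hLL : x ∈ L ∨ y ∈ L
  · have hcc := colL x y hLL
    have hi : kc x y = i := by rw [← hcc]; exact hxy.2
    by_cases hsx : x ∈ L ∧ s x i = 0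
    · have : inDeg (A i) x = 0 := inDeg_zero_of fun u hu => by
        have e1 := kin x hsx.1 u hu.1
        rw [← colL u x (Or.inr hsx.1), hu.2] at e1
        exact e1 hsx.2
      omega
    · -- `y ∈ L` and `s y i = 2`
      have hy2 : y ∈ L ∧ s y i = 2 := by
        by_cases hx : x ∈ L
        · have h0 : s x i ≠ 0 := fun h => hsx ⟨hx, h⟩
          have h2 : s x i ≠ 2 := by rw [← hi]; exact kout x hx y hDxy
          by_cases hy : y ∈ L
          · refine ⟨hy, ?_⟩
            have e := hkc x y
            rw [if_pos hx, if_pos hy] at e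
            have h3 := hk x y hx hy hDxy
            rw [← e, hi] at h3
            rcases hz3 (s x i) with h | h | h
            · exact absurd h h0
            · rw [h] at h3
              rcases hz3 (s y i) with h' | h' | h'
              · rw [h'] at h3; exact absurd h3 (by decide)
              · rw [h'] at h3; exact absurd h3 (by decide)
              · exact h'
            · exact absurd h h2
          · exfalso
            have e := hkc x y
            rw [if_pos hx, if_neg hy, hi] at e
            rw [e] at h0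
            exact h0 (hz x hx)
        · have hy : y ∈ L := by
            rcases hLL with h | h
            · exact absurd h hx
            · exact h
          refine ⟨hy, ?_⟩
          have e := hkc x y
          rw [if_neg hx, hi] at e
          rw [e]
          exact ht y hy
      have : outDeg (A i) y = 0 := outDeg_zero_of fun u hu => by
        have e1 := kout y hy2.1 u hu.1
        rw [← colL y u (Or.inl hy2.1), hu.2] at e1
        exact e1 hy2.2
      omega
  push Not at hLL
  obtain ⟨hx, hy⟩ := hLL
  by_cases hx0 : inDeg D x = 0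
  · have : inDeg (A i) x = 0 := inDeg_zero_of fun u hu => not_of_inDeg_zero hx0 u hu.1
    omega
  by_cases hy0 : outDeg D y = 0
  · have : outDeg (A i) y = 0 := outDeg_zero_of fun u hu => not_of_outDeg_zero hy0 u hu.1
    omega
  have hE' : (x, y) ∈ E := (hmE x y).2 ⟨hDxy, hx, hy⟩
  have hR : Outside D L x y := ⟨hDxy, hx, hy⟩
  have hxS : x ∈ S := by
    simp only [hS, mem_filter, mem_univ, true_and]
    exact ⟨hx, outDeg_pos_of hDxy, hx0, fun h => outDeg_pos_of hR h.1⟩
  have hyS : y ∈ S := by
    simp only [hS, mem_filter, mem_univ, true_and]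
    exact ⟨hy, hy0, inDeg_pos_of hDxy, fun h => inDeg_pos_of hR h.2⟩
  have hC := hI3 x hxS y hyS hE' _ (hmem x hx) _ (hmem' x hx) _ (hmem y hy) _ (hmem' y hy)
  beta_reduce at hC
  have s1 := hout0 x hx
  have s2 := hout0 y hy
  have s3 := hin0 x hx
  have s4 := hin0 y hy
  rcases hz3 i with h | h | h
  · rw [h] at heq1 heq2
    exact hC.2 ⟨by omega, by omega⟩
  · rw [h] at heq1 heq2
    exact hC.1 ⟨heq1, heq2⟩
  · have e := hxy.2
    rw [colU x y hx hy, h] at e
    split_ifs at e <;> exact absurd e (by decide)

/-- **Three colours when all degrees outside a typed part are large.** -/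
theorem large3 [Finite V] (D : V → V → Prop) (hD : ∀ x, ¬ D x x) (L : Set V)
    (s : V → Fin 3 → Fin 3) (hs : Types D L s) (hU : ∀ v, v ∉ L → GoodVertex D L v) :
    (∃ c : V → V → Fin 3, IsWLIColouring D c) ∧ lir D ≤ 3 := by
  have := Fintype.ofFinite V
  have h := large3_aux D hD L s hs hU
  exact ⟨h, Nat.sInf_le h⟩

end Pool.Agent.H35.Lir
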