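import Pool.Agent.H35.Lir.Weighted

/-!
Lexicographic energy: a splitting of the arcs such that the outdegree in colour `0` strictly
increases along all arcs (of `M`) which do not have colour `0`, and the arcs of colour `0` are good.
-/

namespace Pool.Agent.H35.Lir

open Finset

variable {V : Type} [Fintype V]

/-- outdegree in colour 0 -/
noncomputable def o0 (D : V → V → Prop) (c : V → V → Fin 2) (v : V) : ℕ :=
  outDeg (fun a b => D a b ∧ c a b = 0) v

/-- indegree in colour 0 -/
noncomputable def i0 (D : V → V → Prop) (c : V → V → Fin 2) (v : V) : ℕ :=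
  inDeg (fun a b => D a b ∧ c a b = 0) v

theorem i0_le (D : V → V → Prop) (c : V → V → Fin 2) (v : V) : i0 D c v ≤ Fintype.card V := by
  unfold i0 inDeg
  rw [← Nat.card_eq_fintype_card, ← Set.ncard_univ]
  exact Set.ncard_le_ncard (Set.subset_univ _) (Set.toFinite _)

open Classical in
theorem o0_recol (D : V → V → Prop) (c : V → V → Fin 2) {x y : V} (hxy : D x y) (j : Fin 2)
    (v : V) : (o0 D (recol c x y j) v : ℝ) = o0 D c v +
      ((if (0 : Fin 2) = j then (1 : ℝ) else 0) - (if (0 : Fin 2) = c x y then 1 else 0)) *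
        (if v = x then 1 else 0) := by
  have h := pw_recol 1 0 D c hxy j 0 v
  rw [pw_eq, pw_eq] at h
  unfold o0
  simp only [one_mul, zero_mul, sub_zero, ite_self] at h
  exact h

open Classical in
theorem i0_recol (D : V → V → Prop) (c : V → V → Fin 2) {x y : V} (hxy : D x y) (j : Fin 2)
    (v : V) : (i0 D (recol c x y j) v : ℝ) = i0 D c v +
      ((if (0 : Fin 2) = j then (1 : ℝ) else 0) - (if (0 : Fin 2) = c x y then 1 else 0)) *
        (if v = y then 1 else 0) := by
  have h := pw_recol 0 1 D c hxy j 0 v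
  rw [pw_eq, pw_eq] at h
  unfold i0
  simp only [one_mul, zero_mul, zero_sub, ite_self] at h
  linarith

/-- the weight of a vertex -/
noncomputable def lw (D : V → V → Prop) (c : V → V → Fin 2) (v : V) : ℝ :=
  ((2 : ℝ) ^ (Fintype.card V + 1)) ^ (o0 D c v) * (1 / 2) ^ (i0 D c v)

theorem lw_pos (D : V → V → Prop) (c : V → V → Fin 2) (v : V) : 0 < lw D c v := by
  unfold lw; positivity

theorem exists_max_lex (D : V → V → Prop) (hD : ∀ x, ¬ D x x) (M : V → V → Prop)
    (hM : ∀ x y, M x y → D x y) (c₀ : V → V → Fin 2) :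
    ∃ c : V → V → Fin 2, (∀ x y, ¬ M x y → c x y = c₀ x y) ∧
      (∀ x y, M x y → c x y ≠ 0 → o0 D c x < o0 D c y) ∧
      ∀ x y, M x y → c x y = 0 → ¬ (o0 D c x = o0 D c y ∧ i0 D c x = i0 D c y) := by
  classical
  let T := {c : V → V → Fin 2 // ∀ x y, ¬ M x y → c x y = c₀ x y}
  have : Nonempty T := ⟨⟨c₀, fun _ _ _ => rfl⟩⟩
  obtain ⟨⟨c, hc0⟩, hc⟩ := Finite.exists_max (fun c : T => ∑ v, lw D c.1 v)
  have key : ∀ x y, M x y → ∀ j, (lw D (recol c x y j) x - lw D c x) +
      (lw D (recol c x y j) y - lw D c y) ≤ 0 := by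
    intro x y hxy j
    have hne : x ≠ y := by
      rintro rfl
      exact hD x (hM _ _ hxy)
    have h0 : ∀ a b, ¬ M a b → recol c x y j a b = c₀ a b := by
      intro a b hab
      have : ¬ (a = x ∧ b = y) := by
        rintro ⟨rfl, rfl⟩
        exact hab hxy
      unfold recol
      rw [if_neg this]
      exact hc0 a b hab
    have h1 := hc ⟨recol c x y j, h0⟩
    simp only at h1
    have h2 : ∑ v, (lw D (recol c x y j) v - lw D c v) =
        (lw D (recol c x y j) x - lw D c x) + (lw D (recol c x y j) y - lw D c y) := by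
      apply Fintype.sum_eq_add x y hne
      rintro v ⟨hvx, hvy⟩
      have e1 := o0_recol D c (hM _ _ hxy) j v
      have e2 := i0_recol D c (hM _ _ hxy) j v
      rw [if_neg hvx, mul_zero, add_zero] at e1
      rw [if_neg hvy, mul_zero, add_zero] at e2
      have e1' : o0 D (recol c x y j) v = o0 D c v := by exact_mod_cast e1
      have e2' : i0 D (recol c x y j) v = i0 D c v := by exact_mod_cast e2
      unfold lw
      rw [e1', e2', sub_self]
    rw [← h2, Finset.sum_sub_distrib]
    linarith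
  refine ⟨c, hc0, fun x y hxy hne0 => ?_, fun x y hxy h0 => ?_⟩
  · have hne : x ≠ y := by
      rintro rfl
      exact hD x (hM _ _ hxy)
    have hk := key x y hxy 0
    have hcne : ¬ (0 : Fin 2) = c x y := fun h => hne0 h.symm
    have e1 := o0_recol D c (hM _ _ hxy) 0 x
    have e2 := i0_recol D c (hM _ _ hxy) 0 x
    have e3 := o0_recol D c (hM _ _ hxy) 0 y
    have e4 := i0_recol D c (hM _ _ hxy) 0 y
    rw [if_pos rfl, if_neg hcne] at e1 e2 e3 e4
    rw [if_pos rfl] at e1 e4
    rw [if_neg hne] at e2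
    rw [if_neg hne.symm] at e3
    have e1' : o0 D (recol c x y 0) x = o0 D c x + 1 := by
      have : (o0 D (recol c x y 0) x : ℝ) = ((o0 D c x + 1 : ℕ) : ℝ) := by
        push_cast; linarith
      exact_mod_cast this
    have e2' : i0 D (recol c x y 0) x = i0 D c x := by
      have : (i0 D (recol c x y 0) x : ℝ) = (i0 D c x : ℝ) := by linarith
      exact_mod_cast this
    have e3' : o0 D (recol c x y 0) y = o0 D c y := by
      have : (o0 D (recol c x y 0) y : ℝ) = (o0 D c y : ℝ) := by linarith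
      exact_mod_cast this
    have e4' : i0 D (recol c x y 0) y = i0 D c y + 1 := by
      have : (i0 D (recol c x y 0) y : ℝ) = ((i0 D c y + 1 : ℕ) : ℝ) := by
        push_cast; linarith
      exact_mod_cast this
    by_contra hcon
    push Not at hcon
    have hx := lw_pos D c x
    have hy := lw_pos D c y
    have l1 : lw D (recol c x y 0) x = (2 : ℝ) ^ (Fintype.card V + 1) * lw D c x := by
      unfold lw
      rw [e1', e2', pow_succ]
      ring
    have l2 : lw D (recol c x y 0) y = lw D c y / 2 := by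
      unfold lw
      rw [e3', e4', pow_succ]
      ring
    rw [l1, l2] at hk
    -- bounds
    have hB : (1 : ℝ) ≤ (2 : ℝ) ^ (Fintype.card V + 1) := one_le_pow₀ (by norm_num)
    have b1 : lw D c y ≤ ((2 : ℝ) ^ (Fintype.card V + 1)) ^ (o0 D c x) := by
      unfold lw
      have h1 : ((2 : ℝ) ^ (Fintype.card V + 1)) ^ (o0 D c y) ≤
          ((2 : ℝ) ^ (Fintype.card V + 1)) ^ (o0 D c x) := pow_le_pow_right₀ hB hcon
      have h2 : (1 / 2 : ℝ) ^ (i0 D c y) ≤ 1 := pow_le_one₀ (by norm_num) (by norm_num)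
      calc _ ≤ ((2 : ℝ) ^ (Fintype.card V + 1)) ^ (o0 D c y) * 1 :=
            mul_le_mul_of_nonneg_left h2 (by positivity)
        _ ≤ _ := by rw [mul_one]; exact h1
    have b2 : ((2 : ℝ) ^ (Fintype.card V + 1)) ^ (o0 D c x) ≤
        (2 : ℝ) ^ (Fintype.card V) * lw D c x := by
      unfold lw
      have h1 : (1 / 2 : ℝ) ^ (Fintype.card V) ≤ (1 / 2 : ℝ) ^ (i0 D c x) :=
        pow_le_pow_of_le_one (by norm_num) (by norm_num) (i0_le D c x)
      have h2 : (1 : ℝ) = (2 : ℝ) ^ (Fintype.card V) * (1 / 2 : ℝ) ^ (Fintype.card V) := by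
        rw [← mul_pow]; norm_num
      have h3 : (1 : ℝ) ≤ (2 : ℝ) ^ (Fintype.card V) * (1 / 2 : ℝ) ^ (i0 D c x) := by
        calc (1 : ℝ) = (2 : ℝ) ^ (Fintype.card V) * (1 / 2 : ℝ) ^ (Fintype.card V) := h2
          _ ≤ _ := mul_le_mul_of_nonneg_left h1 (by positivity)
      have h4 : 0 < ((2 : ℝ) ^ (Fintype.card V + 1)) ^ (o0 D c x) := by positivity
      nlinarith
    have b3 : (2 : ℝ) ^ (Fintype.card V + 1) = 2 * (2 : ℝ) ^ (Fintype.card V) := by
      rw [pow_succ]; ring
    have b4 : (1 : ℝ) ≤ (2 : ℝ) ^ (Fintype.card V) := one_le_pow₀ (by norm_num)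
    rw [b3] at hk b1 b2
    nlinarith
  · have hne : x ≠ y := by
      rintro rfl
      exact hD x (hM _ _ hxy)
    have hk := key x y hxy 1
    have hcne : (0 : Fin 2) = c x y := h0.symm
    have h01 : ¬ (0 : Fin 2) = 1 := by decide
    have e1 := o0_recol D c (hM _ _ hxy) 1 x
    have e2 := i0_recol D c (hM _ _ hxy) 1 x
    have e3 := o0_recol D c (hM _ _ hxy) 1 y
    have e4 := i0_recol D c (hM _ _ hxy) 1 y
    rw [if_neg h01, if_pos hcne] at e1 e2 e3 e4
    rw [if_pos rfl] at e1 e4
    rw [if_neg hne] at e2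
    rw [if_neg hne.symm] at e3
    have e1' : o0 D c x = o0 D (recol c x y 1) x + 1 := by
      have : (o0 D c x : ℝ) = ((o0 D (recol c x y 1) x + 1 : ℕ) : ℝ) := by
        push_cast; linarith
      exact_mod_cast this
    have e2' : i0 D (recol c x y 1) x = i0 D c x := by
      have : (i0 D (recol c x y 1) x : ℝ) = (i0 D c x : ℝ) := by linarith
      exact_mod_cast this
    have e3' : o0 D (recol c x y 1) y = o0 D c y := by
      have : (o0 D (recol c x y 1) y : ℝ) = (o0 D c y : ℝ) := by linarith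
      exact_mod_cast this
    have e4' : i0 D c y = i0 D (recol c x y 1) y + 1 := by
      have : (i0 D c y : ℝ) = ((i0 D (recol c x y 1) y + 1 : ℕ) : ℝ) := by
        push_cast; linarith
      exact_mod_cast this
    rintro ⟨ho, hi⟩
    have hx := lw_pos D c x
    have hx' := lw_pos D (recol c x y 1) x
    have heq : lw D c x = lw D c y := by
      unfold lw
      rw [ho, hi]
    have l2 : lw D (recol c x y 1) y = 2 * lw D c y := by
      unfold lw
      rw [e3', e4', pow_succ]
      ring
    rw [l2] at hk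
    linarith

end Pool.Agent.H35.Lir
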