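import Pool.Agent.H35.Lir.Energy

/-!
If `δ = outdegree - indegree` satisfies `δ(y) - δ(x) ≤ 2k - 3` for every arc `xy` of a finite
loopless digraph `D` and `k ≥ 2`, then `k` colours suffice.  With `k = 2` this contains all
Eulerian digraphs (`outdegree = indegree` everywhere).
-/

namespace Pool.Agent.H35.Lir.OldBoundedImbalance

open Pool.Agent.H35.Lir

theorem result {V : Type} [Finite V] (D : V → V → Prop) (hD : ∀ x, ¬ D x x) (k : ℕ) (hk : 2 ≤ k)
    (h : ∀ x y, D x y →
      ((outDeg D y : ℤ) - inDeg D y) - ((outDeg D x : ℤ) - inDeg D x) ≤ 2 * k - 3) :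
    (∃ c : V → V → Fin k, IsWLIColouring D c) ∧ lir D ≤ k := by
  have := Fintype.ofFinite V
  have h := exists_colouring_of_imbalance D hD hk h
  exact ⟨h, Nat.sInf_le h⟩

end Pool.Agent.H35.Lir.OldBoundedImbalance
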