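import Pool.Agent.H35.Lir.Greedy

/-!
Colourings obtained by treating an acyclic part closed under outneighbours and an acyclic part
closed under inneighbours greedily, and the remaining arcs by the weighted potential.
-/

namespace Pool.Agent.H35.Lir

open Finset

variable {V : Type}

/-- `u` is out-critical: with `d` the outdegree of `u`, the outdegrees of its outneighbours are
`d, …, d, 2d`, or (`d ≥ 3`) `d, …, d, 2d-2, 2d-2, 2d`, or `d, …, d, 2d-2, 2d-1, 2d-1`. -/
def OutCritical (D : V → V → Prop) (u : V) : Prop :=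
  (∃ p, D u p ∧ outDeg D p = 2 * outDeg D u ∧ ∀ w, D u w → w ≠ p → outDeg D w = outDeg D u) ∨
  (3 ≤ outDeg D u ∧ ∃ p q r, D u p ∧ D u q ∧ D u r ∧ p ≠ q ∧ p ≠ r ∧ q ≠ r ∧
    (∀ w, D u w → w ≠ p → w ≠ q → w ≠ r → outDeg D w = outDeg D u) ∧
    ((outDeg D p = 2 * outDeg D u ∧ outDeg D q = 2 * outDeg D u - 2 ∧
        outDeg D r = 2 * outDeg D u - 2) ∨
     (outDeg D p = 2 * outDeg D u - 1 ∧ outDeg D q = 2 * outDeg D u - 1 ∧
        outDeg D r = 2 * outDeg D u - 2)))

/-- `v` is in-critical: the same with all arcs reversed. -/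
def InCritical (D : V → V → Prop) (v : V) : Prop := OutCritical (fun x y => D y x) v

theorem ncard_filter [Fintype V] (p : V → Prop) [DecidablePred p] :
    {x | p x}.ncard = #(univ.filter p) := by
  rw [Set.ncard_eq_toFinset_card']
  congr 1
  ext w
  simp

open Classical in
theorem outDeg_card [Fintype V] (D : V → V → Prop) (u : V) :
    #({w | D u w} : Finset V) = outDeg D u := by
  unfold outDeg
  rw [Set.ncard_eq_toFinset_card']
  congr 1
  ext w
  simp

open Classical in
theorem pattern_outCritical [Fintype V] (D : V → V → Prop) (u : V)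
    (h : Pattern ({w | D u w} : Finset V) (fun w => outDeg D w)) : OutCritical D u := by
  unfold Pattern at h
  rw [outDeg_card] at h
  simp only [Finset.mem_filter, Finset.mem_univ, true_and] at h
  rcases h with ⟨p, hp, h1, h2⟩ | ⟨h3, p, hp, q, hq, r, hr, h⟩
  · exact Or.inl ⟨p, hp, h1, h2⟩
  · exact Or.inr ⟨h3, p, q, r, hp, hq, hr, h⟩

/-- `greedy_out` without finsets -/
theorem greedy_out' [Fintype V] (D T : V → V → Prop) (hTD : ∀ x y, T x y → D x y) (τ : V → ℕ)
    (hτ : ∀ x y, T x y → τ x ≠ τ y) (c₀ : V → V → Fin 2)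
    (h : ∀ v, 0 < τ v →
      ({x | T x v ∧ τ x < τ v}.ncard + {w | T v w ∧ τ w < τ v}.ncard < outDeg D v) ∨
      ((∀ w, T v w → ¬ τ w < τ v) ∧ {x | T x v ∧ τ x < τ v}.ncard ≤ outDeg D v) ∨
      ((∀ x, T x v → ¬ τ x < τ v) ∧ ¬ OutCritical D v)) :
    ∃ c : V → V → Fin 2, (∀ x y, τ x = 0 → c x y = c₀ x y) ∧
      ∀ x y, T x y → cnt2 D c x (c x y) ≠ cnt2 D c y (c x y) := by
  classical
  refine greedy_out D T hTD τ hτ c₀ fun v hv => ?_
  rw [← ncard_filter, ← ncard_filter, outDeg_card]
  rcases h v hv with h1 | h1 | h1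
  · exact Or.inl h1
  · exact Or.inr (Or.inl h1)
  · exact Or.inr (Or.inr ⟨h1.1, fun hp => h1.2 (pattern_outCritical D v hp)⟩)

/-- a rank function of an acyclic relation -/
theorem exists_rank [Fintype V] (r : V → V → Prop) (hr : ∀ x, ¬ Relation.TransGen r x x) :
    ∃ ρ : V → ℕ, ∀ x y, r x y → ρ y < ρ x := by
  classical
  refine ⟨fun x => #({z | Relation.TransGen r x z} : Finset V), fun x y hxy => ?_⟩
  apply Finset.card_lt_card
  rw [Finset.ssubset_iff_of_subset]
  · refine ⟨y, ?_, ?_⟩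
    · simp only [Finset.mem_filter, Finset.mem_univ, true_and]
      exact Relation.TransGen.single hxy
    · simp only [Finset.mem_filter, Finset.mem_univ, true_and]
      exact hr y
  · intro z hz
    simp only [Finset.mem_filter, Finset.mem_univ, true_and] at hz ⊢
    exact Relation.TransGen.head hxy hz

theorem acyclic_on [Fintype V] (D : V → V → Prop) (X : Set V)
    (hX : ∀ x ∈ X, ¬ Relation.TransGen D x x) (x : V) :
    ¬ Relation.TransGen (fun a b => a ∈ X ∧ D a b) x x := by
  intro h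
  have h1 : x ∈ X := by
    rcases Relation.TransGen.head'_iff.1 h with ⟨_, h2, _⟩
    exact h2.1
  exact hX x h1 (Relation.TransGen.mono (fun _ _ h => h.2) _ _ h)

/-- The condition on an acyclic part `X` closed under outneighbours. -/
def OutTame (D : V → V → Prop) (X : Set V) : Prop :=
  (∀ x ∈ X, inDeg D x ≠ 0 → ¬ OutCritical D x) ∨
  (∀ x ∈ X, outDeg D x ≠ 0 →
    {z | z ∈ X ∧ D z x ∧ inDeg D z ≠ 0}.ncard ≤ outDeg D x)

/-- The arcs leaving `X` can be coloured such that the outdegrees differ. -/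
theorem exists_outX [Fintype V] (D : V → V → Prop) (X : Set V)
    (hXcl : ∀ x ∈ X, ∀ y, D x y → y ∈ X) (hXac : ∀ x ∈ X, ¬ Relation.TransGen D x x)
    (hXt : OutTame D X) :
    ∃ c : V → V → Fin 2, ∀ x ∈ X, ∀ y, D x y → inDeg D x ≠ 0 → outDeg D y ≠ 0 →
      cnt2 D c x (c x y) ≠ cnt2 D c y (c x y) := by
  classical
  rcases hXt with hc | hf
  · obtain ⟨ρ, hρ⟩ := exists_rank _ (acyclic_on D X hXac)
    obtain ⟨c, -, h⟩ := greedy_out' D
      (fun x y => x ∈ X ∧ D x y ∧ inDeg D x ≠ 0 ∧ outDeg D y ≠ 0) (fun x y h => h.2.1)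
      (fun x => if x ∈ X then ρ x + 1 else 0) (by
        rintro x y ⟨hx, hxy, -, -⟩
        have hy := hXcl x hx y hxy
        have := hρ x y ⟨hx, hxy⟩
        simp only [hx, hy, if_true]
        omega) (fun _ _ => 0) (by
        intro v hv
        have hvX : v ∈ X := by
          by_contra hvX
          simp [hvX] at hv
        by_cases hs : inDeg D v = 0
        · right; left
          refine ⟨fun w hw => absurd hs hw.2.2.1, ?_⟩
          rw [(Set.ncard_eq_zero (Set.toFinite _)).2]
          · exact Nat.zero_le _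
          · rw [Set.eq_empty_iff_forall_notMem]
            rintro x ⟨⟨-, hxv, -, -⟩, -⟩
            rw [inDeg, Set.ncard_eq_zero (Set.toFinite _), Set.eq_empty_iff_forall_notMem] at hs
            exact hs x hxv
        · right; right
          refine ⟨?_, hc v hvX hs⟩
          rintro x ⟨hx, hxv, -, -⟩
          have := hρ x v ⟨hx, hxv⟩
          simp only [hx, hvX, if_true]
          omega)
    exact ⟨c, fun x hx y hxy h1 h2 => h x y ⟨hx, hxy, h1, h2⟩⟩
  · obtain ⟨ρ, hρ⟩ := exists_rank (fun y x => x ∈ X ∧ D x y) (by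
      intro x h
      have h' := (Relation.transGen_swap (r := fun a b => a ∈ X ∧ D a b)).1 h
      exact acyclic_on D X hXac x h')
    obtain ⟨c, -, h⟩ := greedy_out' D
      (fun x y => x ∈ X ∧ D x y ∧ inDeg D x ≠ 0 ∧ outDeg D y ≠ 0) (fun x y h => h.2.1)
      (fun x => if x ∈ X then ρ x + 1 else 0) (by
        rintro x y ⟨hx, hxy, -, -⟩
        have hy := hXcl x hx y hxy
        have := hρ y x ⟨hx, hxy⟩
        simp only [hx, hy, if_true]
        omega) (fun _ _ => 0) (by
        intro v hv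
        have hvX : v ∈ X := by
          by_contra hvX
          simp [hvX] at hv
        right; left
        refine ⟨?_, ?_⟩
        · rintro w ⟨hx, hvw, -, -⟩
          have hw := hXcl v hvX w hvw
          have := hρ w v ⟨hvX, hvw⟩
          simp only [hw, hvX, if_true]
          omega
        · by_cases hs : outDeg D v = 0
          · rw [(Set.ncard_eq_zero (Set.toFinite _)).2]
            · exact Nat.zero_le _
            · rw [Set.eq_empty_iff_forall_notMem]
              rintro x ⟨⟨-, -, -, h⟩, -⟩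
              exact h hs
          · refine le_trans ?_ (hf v hvX hs)
            exact Set.ncard_le_ncard (fun x hx => ⟨hx.1.1, hx.1.2.1, hx.1.2.2.1⟩)
              (Set.toFinite _))
    exact ⟨c, fun x hx y hxy h1 h2 => h x y ⟨hx, hxy, h1, h2⟩⟩

theorem cnt2_congr [Fintype V] {D : V → V → Prop} {c c' : V → V → Fin 2} {x : V}
    (h : ∀ y, D x y → c x y = c' x y) (i : Fin 2) : cnt2 D c x i = cnt2 D c' x i := by
  classical
  unfold cnt2
  congr 1
  ext z
  simp only [Finset.mem_filter, Finset.mem_univ, true_and]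
  constructor
  · rintro ⟨h1, h2⟩
    exact ⟨h1, by rw [← h z h1]; exact h2⟩
  · rintro ⟨h1, h2⟩
    exact ⟨h1, by rw [h z h1]; exact h2⟩

theorem inDeg_cnt2 [Fintype V] (D : V → V → Prop) (c : V → V → Fin 2) (x : V) (i : Fin 2) :
    inDeg (fun a b => D a b ∧ c a b = i) x = cnt2 (fun a b => D b a) (fun a b => c b a) x i :=
  outDeg_cnt2 (fun a b => D b a) (fun a b => c b a) x i

/-- arcs leaving a source are never bad -/
theorem good_of_source [Fintype V] {D : V → V → Prop} {c : V → V → Fin 2} {x y : V}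
    (hxy : D x y) (hx : inDeg D x = 0) :
    (outDeg (fun a b => D a b ∧ c a b = c x y) x,
          inDeg (fun a b => D a b ∧ c a b = c x y) x) ≠
        (outDeg (fun a b => D a b ∧ c a b = c x y) y,
          inDeg (fun a b => D a b ∧ c a b = c x y) y) := by
  intro heq
  simp only [Prod.mk.injEq] at heq
  have h1 : inDeg (fun a b => D a b ∧ c a b = c x y) x = 0 := by
    rw [inDeg, Set.ncard_eq_zero (Set.toFinite _)] at hx ⊢
    rw [Set.eq_empty_iff_forall_notMem] at hx ⊢
    intro u hu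
    exact hx u hu.1
  have h2 : inDeg (fun a b => D a b ∧ c a b = c x y) y ≠ 0 := by
    intro h
    rw [inDeg, Set.ncard_eq_zero (Set.toFinite _), Set.eq_empty_iff_forall_notMem] at h
    exact h x ⟨hxy, rfl⟩
  omega

/-- arcs entering a sink are never bad -/
theorem good_of_sink [Fintype V] {D : V → V → Prop} {c : V → V → Fin 2} {x y : V}
    (hxy : D x y) (hy : outDeg D y = 0) :
    (outDeg (fun a b => D a b ∧ c a b = c x y) x,
          inDeg (fun a b => D a b ∧ c a b = c x y) x) ≠
        (outDeg (fun a b => D a b ∧ c a b = c x y) y,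
          inDeg (fun a b => D a b ∧ c a b = c x y) y) := by
  intro heq
  simp only [Prod.mk.injEq] at heq
  have h1 : outDeg (fun a b => D a b ∧ c a b = c x y) y = 0 := by
    rw [outDeg, Set.ncard_eq_zero (Set.toFinite _)] at hy ⊢
    rw [Set.eq_empty_iff_forall_notMem] at hy ⊢
    intro u hu
    exact hy u hu.1
  have h2 : outDeg (fun a b => D a b ∧ c a b = c x y) x ≠ 0 := by
    intro h
    rw [outDeg, Set.ncard_eq_zero (Set.toFinite _), Set.eq_empty_iff_forall_notMem] at h
    exact h y ⟨hxy, rfl⟩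
  omega

/-- **Acyclic parts and a flat middle part.** -/
theorem parts [Fintype V] (D : V → V → Prop) (hD : ∀ x, ¬ D x x) (X Y : Set V)
    (hXY : Disjoint X Y)
    (hXcl : ∀ x ∈ X, ∀ y, D x y → y ∈ X) (hXac : ∀ x ∈ X, ¬ Relation.TransGen D x x)
    (hXt : OutTame D X)
    (hYcl : ∀ y ∈ Y, ∀ x, D x y → x ∈ Y) (hYac : ∀ y ∈ Y, ¬ Relation.TransGen D y y)
    (hYt : OutTame (fun x y => D y x) Y)
    {t : ℝ} (ht0 : 0 ≤ t) (ht1 : t ≤ 1)
    (h : ∀ x y, D x y → x ∉ X → y ∉ Y → inDeg D x ≠ 0 → outDeg D y ≠ 0 →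
      t * ((outDeg D y : ℝ) - outDeg D x) + (1 - t) * ((inDeg D x : ℝ) - inDeg D y) < 1) :
    ∃ c : V → V → Fin 2, IsWLIColouring D c := by
  classical
  obtain ⟨cX, hcX⟩ := exists_outX D X hXcl hXac hXt
  obtain ⟨cY, hcY⟩ := exists_outX (fun x y => D y x) Y (fun y hy x hxy => hYcl y hy x hxy)
    (fun y hy h => hYac y hy ((Relation.transGen_swap (r := D)).1 h)) hYt
  obtain ⟨c, hc0, hc⟩ := exists_colouring_weighted_rel' D hD
    (fun x y => D x y ∧ x ∉ X ∧ y ∉ Y ∧ inDeg D x ≠ 0 ∧ outDeg D y ≠ 0) (fun _ _ h => h.1)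
    (k := 2) (by norm_num) ht0 ht1 (by
      rintro x y ⟨h1, h2, h3, h4, h5⟩
      have := h x y h1 h2 h3 h4 h5
      norm_num
      exact this)
    (fun x y => if x ∈ X then cX x y else cY y x)
  refine ⟨c, ?_⟩
  rintro i x y ⟨hxy, rfl⟩
  by_cases hx0 : inDeg D x = 0
  · exact good_of_source hxy hx0
  by_cases hy0 : outDeg D y = 0
  · exact good_of_sink hxy hy0
  by_cases hxX : x ∈ X
  · intro heq
    simp only [Prod.mk.injEq] at heq
    have hyX := hXcl x hxX y hxy
    have hcc : ∀ z ∈ X, ∀ w, c z w = cX z w := by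
      intro z hz w
      rw [hc0 z w (fun h => h.2.1 hz), if_pos hz]
    have h1 := hcX x hxX y hxy hx0 hy0
    apply h1
    rw [← hcc x hxX y, ← cnt2_congr (fun w _ => hcc x hxX w), ← cnt2_congr (fun w _ => hcc y hyX w),
      ← outDeg_cnt2, ← outDeg_cnt2]
    exact heq.1
  by_cases hyY : y ∈ Y
  · intro heq
    simp only [Prod.mk.injEq] at heq
    have hxY := hYcl y hyY x hxy
    have hcc : ∀ w ∈ Y, ∀ z, D z w → c z w = cY w z := by
      intro w hw z hzw
      have hzY := hYcl w hw z hzw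
      have hzX : z ∉ X := fun hz => Set.disjoint_left.1 hXY hz hzY
      rw [hc0 z w (fun h => h.2.2.1 hw), if_neg hzX]
    have h1 := hcY y hyY x hxy hy0 hx0
    apply h1
    have e1 : cY y x = c x y := (hcc y hyY x hxy).symm
    have e2 : cnt2 (fun a b => D b a) cY y (c x y) =
        cnt2 (fun a b => D b a) (fun a b => c b a) y (c x y) :=
      cnt2_congr (fun w hw => (hcc y hyY w hw).symm) _
    have e3 : cnt2 (fun a b => D b a) cY x (c x y) =
        cnt2 (fun a b => D b a) (fun a b => c b a) x (c x y) :=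
      cnt2_congr (fun w hw => (hcc x hxY w hw).symm) _
    rw [e1, e2, e3, ← inDeg_cnt2, ← inDeg_cnt2]
    exact heq.2.symm
  · exact hc x y ⟨hxy, hxX, hyY, hx0, hy0⟩

/-- **Two-phase greedy colouring.** -/
theorem two_phase [Fintype V] (D : V → V → Prop) (X : Set V)
    (hac : ∀ x, ¬ Relation.TransGen D x x)
    (hXcl : ∀ x ∈ X, ∀ y, D x y → y ∈ X)
    (hX : ∀ x ∈ X, outDeg D x ≠ 0 → {z | D z x ∧ inDeg D z ≠ 0}.ncard ≤ outDeg D x)
    (hY : ∀ y, y ∉ X → inDeg D y ≠ 0 →
      {w | w ∉ X ∧ D y w ∧ outDeg D w ≠ 0}.ncard ≤ inDeg D y) :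
    ∃ c : V → V → Fin 2, IsWLIColouring D c := by
  classical
  have hYcl : ∀ y, y ∉ X → ∀ x, D x y → x ∉ X := fun y hy x hxy hx => hy (hXcl x hx y hxy)
  obtain ⟨cY, hcY⟩ := exists_outX (fun x y => D y x) Xᶜ (fun y hy x hxy => hYcl y hy x hxy)
    (fun y _ h => hac y ((Relation.transGen_swap (r := D)).1 h)) (Or.inr (by
      intro y hy h0
      exact hY y hy h0))
  obtain ⟨ρ, hρ⟩ := exists_rank (fun y x => D x y) (by
    intro x h
    exact hac x ((Relation.transGen_swap (r := D)).1 h))
  obtain ⟨c, hc0, hc⟩ := greedy_out' D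
    (fun x y => y ∈ X ∧ D x y ∧ inDeg D x ≠ 0 ∧ outDeg D y ≠ 0) (fun x y h => h.2.1)
    (fun x => if x ∈ X then ρ x + 1 else 0) (by
      rintro x y ⟨hy, hxy, -, -⟩
      have := hρ y x hxy
      by_cases hx : x ∈ X
      · simp only [hx, hy, if_true]
        omega
      · simp only [hx, hy, if_true, if_false]
        omega) (fun x y => cY y x) (by
      intro v hv
      have hvX : v ∈ X := by
        by_contra hvX
        simp [hvX] at hv
      right; left
      refine ⟨?_, ?_⟩
      · rintro w ⟨hw, hvw, -, -⟩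
        have := hρ w v hvw
        simp only [hw, hvX, if_true]
        omega
      · by_cases hs : outDeg D v = 0
        · rw [(Set.ncard_eq_zero (Set.toFinite _)).2]
          · exact Nat.zero_le _
          · rw [Set.eq_empty_iff_forall_notMem]
            rintro x ⟨⟨-, -, -, h⟩, -⟩
            exact h hs
        · refine le_trans ?_ (hX v hvX hs)
          exact Set.ncard_le_ncard (fun x hx => ⟨hx.1.2.1, hx.1.2.2.1⟩) (Set.toFinite _))
  refine ⟨c, ?_⟩
  rintro i x y ⟨hxy, rfl⟩
  by_cases hx0 : inDeg D x = 0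
  · exact good_of_source hxy hx0
  by_cases hy0 : outDeg D y = 0
  · exact good_of_sink hxy hy0
  by_cases hyX : y ∈ X
  · intro heq
    simp only [Prod.mk.injEq] at heq
    have h1 := hc x y ⟨hyX, hxy, hx0, hy0⟩
    apply h1
    rw [← outDeg_cnt2, ← outDeg_cnt2]
    exact heq.1
  · intro heq
    simp only [Prod.mk.injEq] at heq
    have hxX := hYcl y hyX x hxy
    have hcc : ∀ w, w ∉ X → ∀ z, D z w → c z w = cY w z := by
      intro w hw z hzw
      exact hc0 z w (if_neg (hYcl w hw z hzw))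
    have h1 := hcY y hyX x hxy hy0 hx0
    apply h1
    have e1 : cY y x = c x y := (hcc y hyX x hxy).symm
    have e2 : cnt2 (fun a b => D b a) cY y (c x y) =
        cnt2 (fun a b => D b a) (fun a b => c b a) y (c x y) :=
      cnt2_congr (fun w hw => (hcc y hyX w hw).symm) _
    have e3 : cnt2 (fun a b => D b a) cY x (c x y) =
        cnt2 (fun a b => D b a) (fun a b => c b a) x (c x y) :=
      cnt2_congr (fun w hw => (hcc x hxX w hw).symm) _
    rw [e1, e2, e3, ← inDeg_cnt2, ← inDeg_cnt2]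
    exact heq.2.symm

end Pool.Agent.H35.Lir
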