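import Mathlib

/-!
# Alternating reachability in bipartite graphs

`E ⊆ X × Y` is the edge set of a bipartite graph, `H ⊆ E` a subgraph.  From a vertex `v` on the left
we walk along edges of `H` to the right and along edges of `E \ H` to the left.  Every vertex that is
reached can absorb a decrease of the `H`-degree of `v`.
-/

namespace Pool.Agent.H35.Lir.Fac

open Finset

variable {X Y : Type} [Fintype X] [Fintype Y] [DecidableEq X] [DecidableEq Y]

/-- degree of a left vertex -/
def dL (H : Finset (X × Y)) (x : X) : ℕ := (univ.filter fun y => (x, y) ∈ H).card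

/-- degree of a right vertex -/
def dR (H : Finset (X × Y)) (y : Y) : ℕ := (univ.filter fun x => (x, y) ∈ H).card

omit [Fintype X] in
lemma dL_congr {H H' : Finset (X × Y)} {x : X} (h : ∀ y, (x, y) ∈ H ↔ (x, y) ∈ H') :
    dL H x = dL H' x := by
  unfold dL; congr 1; ext y; simp [h y]

omit [Fintype Y] in
lemma dR_congr {H H' : Finset (X × Y)} {y : Y} (h : ∀ x, (x, y) ∈ H ↔ (x, y) ∈ H') :
    dR H y = dR H' y := by
  unfold dR; congr 1; ext x; simp [h x]

omit [Fintype X] in
lemma dL_insert {H : Finset (X × Y)} {a : X} {b : Y} (h : (a, b) ∉ H) (z : X) :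
    dL (insert (a, b) H) z = dL H z + if z = a then 1 else 0 := by
  unfold dL
  by_cases hz : z = a
  · subst hz
    have : (univ.filter fun y => (z, y) ∈ insert (z, b) H)
        = insert b (univ.filter fun y => (z, y) ∈ H) := by
      ext y; simp
    rw [this, card_insert_of_notMem (by simpa using h)]; simp
  · simp [hz]

omit [Fintype Y] in
lemma dR_insert {H : Finset (X × Y)} {a : X} {b : Y} (h : (a, b) ∉ H) (w : Y) :
    dR (insert (a, b) H) w = dR H w + if w = b then 1 else 0 := by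
  unfold dR
  by_cases hz : w = b
  · subst hz
    have : (univ.filter fun x => (x, w) ∈ insert (a, w) H)
        = insert a (univ.filter fun x => (x, w) ∈ H) := by
      ext y; simp
    rw [this, card_insert_of_notMem (by simpa using h)]; simp
  · simp [hz]

omit [Fintype X] in
lemma dL_erase {H : Finset (X × Y)} {a : X} {b : Y} (h : (a, b) ∈ H) (z : X) :
    dL (H.erase (a, b)) z + (if z = a then 1 else 0) = dL H z := by
  have := dL_insert (H := H.erase (a, b)) (a := a) (b := b) (by simp) z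
  rw [insert_erase h] at this
  exact this.symm

omit [Fintype Y] in
lemma dR_erase {H : Finset (X × Y)} {a : X} {b : Y} (h : (a, b) ∈ H) (w : Y) :
    dR (H.erase (a, b)) w + (if w = b then 1 else 0) = dR H w := by
  have := dR_insert (H := H.erase (a, b)) (a := a) (b := b) (by simp) w
  rw [insert_erase h] at this
  exact this.symm

/-- add the edges from `x` to `T` -/
def addStar (H : Finset (X × Y)) (x : X) (T : Finset Y) : Finset (X × Y) :=
  H ∪ T.image fun y => (x, y)

/-- remove the edges from `T` to `y` -/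
def delStar (H : Finset (X × Y)) (y : Y) (T : Finset X) : Finset (X × Y) :=
  H \ T.image fun x => (x, y)

omit [Fintype X] [Fintype Y] in
lemma mem_addStar {H : Finset (X × Y)} {x : X} {T : Finset Y} {a : X} {b : Y} :
    (a, b) ∈ addStar H x T ↔ (a, b) ∈ H ∨ (a = x ∧ b ∈ T) := by
  unfold addStar
  simp only [mem_union, mem_image, Prod.mk.injEq]
  constructor
  · rintro (h | ⟨y, hy, rfl, rfl⟩)
    · exact Or.inl h
    · exact Or.inr ⟨rfl, hy⟩
  · rintro (h | ⟨rfl, hb⟩)
    · exact Or.inl h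
    · exact Or.inr ⟨b, hb, rfl, rfl⟩

omit [Fintype X] [Fintype Y] in
lemma mem_delStar {H : Finset (X × Y)} {y : Y} {T : Finset X} {a : X} {b : Y} :
    (a, b) ∈ delStar H y T ↔ (a, b) ∈ H ∧ ¬ (b = y ∧ a ∈ T) := by
  unfold delStar
  simp only [mem_sdiff, mem_image, Prod.mk.injEq, not_exists, not_and]
  constructor
  · rintro ⟨h, h'⟩
    refine ⟨h, ?_⟩
    rintro rfl hb
    exact h' a hb rfl rfl
  · rintro ⟨h, h'⟩
    refine ⟨h, ?_⟩
    rintro x hx rfl rfl
    exact h' rfl hx

omit [Fintype X] in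
lemma dL_addStar {H : Finset (X × Y)} {x : X} {T : Finset Y} (hT : ∀ y ∈ T, (x, y) ∉ H) (z : X) :
    dL (addStar H x T) z = dL H z + if z = x then T.card else 0 := by
  by_cases hz : z = x
  · subst hz
    unfold dL
    have : (univ.filter fun y => (z, y) ∈ addStar H z T) = (univ.filter fun y => (z, y) ∈ H) ∪ T := by
      ext y; simp [mem_addStar]
    rw [this, card_union_of_disjoint]
    · simp
    · rw [disjoint_left]
      intro y hy hyT
      exact hT y hyT (by simpa using hy)
  · simp only [hz, if_false, add_zero]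
    exact dL_congr fun y => by simp [mem_addStar, hz]

omit [Fintype Y] in
lemma dR_addStar {H : Finset (X × Y)} {x : X} {T : Finset Y} (hT : ∀ y ∈ T, (x, y) ∉ H) (w : Y) :
    dR (addStar H x T) w = dR H w + if w ∈ T then 1 else 0 := by
  by_cases hw : w ∈ T
  · unfold dR
    have : (univ.filter fun a => (a, w) ∈ addStar H x T)
        = insert x (univ.filter fun a => (a, w) ∈ H) := by
      ext a; simp only [mem_filter, mem_univ, true_and, mem_addStar, mem_insert, hw, and_true]
      tauto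
    rw [this, card_insert_of_notMem (by simpa using hT w hw)]; simp [hw]
  · simp only [hw, if_false, add_zero]
    exact dR_congr fun y => by simp [mem_addStar, hw]

omit [Fintype Y] in
lemma dR_delStar {H : Finset (X × Y)} {y : Y} {T : Finset X} (hT : ∀ x ∈ T, (x, y) ∈ H) (w : Y) :
    dR (delStar H y T) w + (if w = y then T.card else 0) = dR H w := by
  by_cases hw : w = y
  · subst hw
    unfold dR
    have h1 : (univ.filter fun x => (x, w) ∈ H) = (univ.filter fun x => (x, w) ∈ delStar H w T) ∪ T := by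
      ext x; simp only [mem_filter, mem_univ, true_and, mem_union, mem_delStar]
      constructor
      · intro h
        by_cases hx : x ∈ T
        · exact Or.inr hx
        · exact Or.inl ⟨h, fun h' => hx h'⟩
      · rintro (h | h)
        · exact h.1
        · exact hT x h
    rw [h1, card_union_of_disjoint]
    · simp
    · rw [disjoint_left]
      intro x hx hxT
      simp only [mem_filter, mem_univ, true_and, mem_delStar] at hx
      exact hx.2 hxT
  · simp only [hw, if_false, add_zero]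
    exact dR_congr fun x => by simp [mem_delStar, hw]

omit [Fintype X] in
lemma dL_delStar {H : Finset (X × Y)} {y : Y} {T : Finset X} (hT : ∀ x ∈ T, (x, y) ∈ H) (z : X) :
    dL (delStar H y T) z + (if z ∈ T then 1 else 0) = dL H z := by
  by_cases hz : z ∈ T
  · unfold dL
    have h1 : (univ.filter fun b => (z, b) ∈ H)
        = insert y (univ.filter fun b => (z, b) ∈ delStar H y T) := by
      ext b; simp only [mem_filter, mem_univ, true_and, mem_insert, mem_delStar]
      constructor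
      · intro h
        by_cases hb : b = y
        · exact Or.inl hb
        · exact Or.inr ⟨h, fun h' => hb h'.1⟩
      · rintro (h | h)
        · rw [h]; exact hT z hz
        · exact h.1
    rw [h1, card_insert_of_notMem]
    · simp [hz]
    · simp [mem_delStar, hz]
  · simp only [hz, if_false, add_zero]
    exact dL_congr fun b => by simp [mem_delStar, hz]

/-- the layers of alternating reachability -/
def lay (E H : Finset (X × Y)) (v : X) : ℕ → Finset X × Finset Y
  | 0 => ({v}, ∅)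
  | n + 1 =>
    ((lay E H v n).1 ∪ univ.filter (fun x => ∃ y ∈ (lay E H v n).2 ∪
        univ.filter (fun y => ∃ x ∈ (lay E H v n).1, (x, y) ∈ H), (x, y) ∈ E ∧ (x, y) ∉ H),
      (lay E H v n).2 ∪ univ.filter (fun y => ∃ x ∈ (lay E H v n).1, (x, y) ∈ H))

section layers
variable (E H : Finset (X × Y)) (v : X)

lemma lay_fst_succ (n : ℕ) : (lay E H v (n + 1)).1 = (lay E H v n).1 ∪
    univ.filter (fun x => ∃ y ∈ (lay E H v (n + 1)).2, (x, y) ∈ E ∧ (x, y) ∉ H) := rfl

lemma lay_snd_succ (n : ℕ) : (lay E H v (n + 1)).2 = (lay E H v n).2 ∪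
    univ.filter (fun y => ∃ x ∈ (lay E H v n).1, (x, y) ∈ H) := rfl

lemma fst_mono_succ (n : ℕ) : (lay E H v n).1 ⊆ (lay E H v (n + 1)).1 := by
  rw [lay_fst_succ]; exact subset_union_left

lemma snd_mono_succ (n : ℕ) : (lay E H v n).2 ⊆ (lay E H v (n + 1)).2 := by
  rw [lay_snd_succ]; exact subset_union_left

lemma v_mem (n : ℕ) : v ∈ (lay E H v n).1 := by
  induction n with
  | zero => simp [lay]
  | succ n ih => exact fst_mono_succ E H v n ih

lemma mem_snd_succ {n : ℕ} {x : X} {y : Y} (hx : x ∈ (lay E H v n).1) (h : (x, y) ∈ H) :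
    y ∈ (lay E H v (n + 1)).2 := by
  rw [lay_snd_succ]; simp only [mem_union, mem_filter, mem_univ, true_and]
  exact Or.inr ⟨x, hx, h⟩

lemma mem_fst_of {n : ℕ} {x : X} {y : Y} (hy : y ∈ (lay E H v n).2) (h : (x, y) ∈ E)
    (h' : (x, y) ∉ H) : x ∈ (lay E H v n).1 := by
  cases n with
  | zero => simp [lay] at hy
  | succ n =>
    rw [lay_fst_succ]; simp only [mem_union, mem_filter, mem_univ, true_and]
    exact Or.inr ⟨y, hy, h, h'⟩

/-- a subgraph obtained from `H` by changes inside layer `n` which moves one unit of left degree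
from `v` to `x`. -/
def Mv (n : ℕ) (x : X) (H' : Finset (X × Y)) : Prop :=
  H' ⊆ E ∧ (∀ a b, ¬ (a ∈ (lay E H v n).1 ∧ b ∈ (lay E H v n).2) → ((a, b) ∈ H' ↔ (a, b) ∈ H)) ∧
  (∀ z, dL H' z + (if z = v then 1 else 0) = dL H z + if z = x then 1 else 0) ∧
  ∀ y, dR H' y = dR H y

variable {E H v}

lemma new_right {n : ℕ} (ih : ∀ x ∈ (lay E H v n).1, ∃ H', Mv E H v n x H') {y : Y}
    (hy : y ∈ (lay E H v (n + 1)).2) (hyn : y ∉ (lay E H v n).2) :
    ∃ H' x0, x0 ∈ (lay E H v n).1 ∧ (x0, y) ∈ H ∧ H' ⊆ E ∧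
      (∀ a b, ¬ (a ∈ (lay E H v n).1 ∧ b ∈ (lay E H v (n + 1)).2) → ((a, b) ∈ H' ↔ (a, b) ∈ H)) ∧
      (∀ z, dL H' z + (if z = v then 1 else 0) = dL H z) ∧
      (∀ w, dR H' w + (if w = y then 1 else 0) = dR H w) ∧
      ∀ x, ((x, y) ∈ H' ↔ (x, y) ∈ H ∧ x ≠ x0) := by
  rw [lay_snd_succ] at hy
  simp only [mem_union, mem_filter, mem_univ, true_and] at hy
  obtain ⟨x0, hx0, hx0y⟩ := hy.resolve_left hyn
  obtain ⟨H', h1, h2, h3, h4⟩ := ih x0 hx0
  have hagree : ∀ a, (a, y) ∈ H' ↔ (a, y) ∈ H := fun a => h2 a y (fun h => hyn h.2)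
  have hmem : (x0, y) ∈ H' := (hagree x0).2 hx0y
  refine ⟨H'.erase (x0, y), x0, hx0, hx0y, (erase_subset _ _).trans h1, ?_, ?_, ?_, ?_⟩
  · intro a b hab
    have hab' : ¬ (a ∈ (lay E H v n).1 ∧ b ∈ (lay E H v n).2) :=
      fun h => hab ⟨h.1, snd_mono_succ E H v n h.2⟩
    have hne : (a, b) ≠ (x0, y) := by
      intro h
      rw [Prod.mk.injEq] at h
      obtain ⟨rfl, rfl⟩ := h
      exact hab ⟨hx0, mem_snd_succ E H v hx0 hx0y⟩
    rw [mem_erase]
    simp only [ne_eq, hne, not_false_eq_true, true_and]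
    exact h2 a b hab'
  · intro z
    have e1 := dL_erase hmem z
    have e2 := h3 z
    omega
  · intro w
    have e1 := dR_erase hmem w
    rw [h4 w] at e1
    exact e1
  · intro x
    rw [mem_erase, hagree x]
    simp only [ne_eq, Prod.mk.injEq, and_true]
    tauto

lemma new_left {n : ℕ} (ih : ∀ x ∈ (lay E H v n).1, ∃ H', Mv E H v n x H') {x : X}
    (hx : x ∈ (lay E H v (n + 1)).1) (hxn : x ∉ (lay E H v n).1) :
    ∃ H' y0, y0 ∈ (lay E H v (n + 1)).2 ∧ (x, y0) ∈ E ∧ (x, y0) ∉ H ∧ Mv E H v (n + 1) x H' ∧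
      ∀ y, ((x, y) ∈ H' ↔ (x, y) ∈ H ∨ y = y0) := by
  rw [lay_fst_succ] at hx
  simp only [mem_union, mem_filter, mem_univ, true_and] at hx
  obtain ⟨y, hy, hxyE, hxyH⟩ := hx.resolve_left hxn
  have hyn : y ∉ (lay E H v n).2 := fun h => hxn (mem_fst_of E H v h hxyE hxyH)
  obtain ⟨H', x0, hx0, hx0y, h1, h2, h3, h4, h5⟩ := new_right ih hy hyn
  have hx0x : x ≠ x0 := fun h => hxn (h ▸ hx0)
  have hnot : (x, y) ∉ H' := by
    rw [h5 x]; exact fun h => hxyH h.1
  refine ⟨insert (x, y) H', y, hy, hxyE, hxyH, ⟨?_, ?_, ?_, ?_⟩, ?_⟩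
  · intro p hp
    rcases mem_insert.1 hp with rfl | hp
    · exact hxyE
    · exact h1 hp
  · intro a b hab
    have hab' : ¬ (a ∈ (lay E H v n).1 ∧ b ∈ (lay E H v (n + 1)).2) :=
      fun h => hab ⟨fst_mono_succ E H v n h.1, h.2⟩
    have hne : (a, b) ≠ (x, y) := by
      intro h
      rw [Prod.mk.injEq] at h
      obtain ⟨rfl, rfl⟩ := h
      exact hab ⟨mem_fst_of E H v hy hxyE hxyH, hy⟩
    rw [mem_insert]
    simp only [hne, false_or]
    exact h2 a b hab'
  · intro z
    rw [dL_insert hnot z]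
    have e2 := h3 z
    omega
  · intro w
    rw [dR_insert hnot w]
    exact h4 w
  · intro b
    rw [mem_insert]
    have : (x, b) ∈ H' ↔ (x, b) ∈ H := h2 x b (fun h => hxn h.1)
    rw [this]
    simp only [Prod.mk.injEq, true_and]
    tauto

lemma exists_mv (hHE : H ⊆ E) (n : ℕ) : ∀ x ∈ (lay E H v n).1, ∃ H', Mv E H v n x H' := by
  induction n with
  | zero =>
    intro x hx
    simp only [lay, mem_singleton] at hx
    subst hx
    exact ⟨H, hHE, fun _ _ _ => Iff.rfl, fun _ => rfl, fun _ => rfl⟩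
  | succ n ih =>
    intro x hx
    by_cases hxn : x ∈ (lay E H v n).1
    · obtain ⟨H', h1, h2, h3, h4⟩ := ih x hxn
      exact ⟨H', h1, fun a b hab => h2 a b
        (fun h => hab ⟨fst_mono_succ E H v n h.1, snd_mono_succ E H v n h.2⟩), h3, h4⟩
    · obtain ⟨H', y0, -, -, -, h, -⟩ := new_left ih hx hxn
      exact ⟨H', h⟩

end layers

/-- **Alternating reachability.** -/
theorem reach (E H : Finset (X × Y)) (hHE : H ⊆ E) (v : X) :
    ∃ (S : Finset X) (R : Finset Y), v ∈ S ∧
      (∀ x ∈ S, ∀ y, (x, y) ∈ H → y ∈ R) ∧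
      (∀ y ∈ R, ∀ x, (x, y) ∈ E → (x, y) ∉ H → x ∈ S) ∧
      (∀ x ∈ S, x ≠ v → ∃ H' y0, H' ⊆ E ∧ y0 ∈ R ∧ (x, y0) ∈ E ∧ (x, y0) ∉ H ∧
        (∀ z, dL H' z + (if z = v then 1 else 0) = dL H z + if z = x then 1 else 0) ∧
        (∀ y, dR H' y = dR H y) ∧ ∀ y, ((x, y) ∈ H' ↔ (x, y) ∈ H ∨ y = y0)) ∧
      (∀ y ∈ R, ∃ H' x0, H' ⊆ E ∧ x0 ∈ S ∧ (x0, y) ∈ H ∧
        (∀ z, dL H' z + (if z = v then 1 else 0) = dL H z) ∧
        (∀ w, dR H' w + (if w = y then 1 else 0) = dR H w) ∧
        ∀ x, ((x, y) ∈ H' ↔ (x, y) ∈ H ∧ x ≠ x0)) := by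
  classical
  refine ⟨univ.filter fun x => ∃ n, x ∈ (lay E H v n).1,
    univ.filter fun y => ∃ n, y ∈ (lay E H v n).2, ?_, ?_, ?_, ?_, ?_⟩
  · simp only [mem_filter, mem_univ, true_and]
    exact ⟨0, v_mem E H v 0⟩
  · intro x hx y hxy
    simp only [mem_filter, mem_univ, true_and] at hx ⊢
    obtain ⟨n, hn⟩ := hx
    exact ⟨n + 1, mem_snd_succ E H v hn hxy⟩
  · intro y hy x hxy hxy'
    simp only [mem_filter, mem_univ, true_and] at hy ⊢
    obtain ⟨n, hn⟩ := hy
    exact ⟨n, mem_fst_of E H v hn hxy hxy'⟩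
  · intro x hx hxv
    simp only [mem_filter, mem_univ, true_and] at hx
    have hfind := Nat.find_spec hx
    set m := Nat.find hx with hm
    have hm0 : m ≠ 0 := by
      intro h0
      rw [h0] at hfind
      simp only [lay, mem_singleton] at hfind
      exact hxv hfind
    obtain ⟨n, hn⟩ := Nat.exists_eq_succ_of_ne_zero hm0
    have hxn : x ∉ (lay E H v n).1 := Nat.find_min hx (by omega)
    rw [hn] at hfind
    obtain ⟨H', y0, h1, h2, h3, ⟨h4, h5, h6, h7⟩, h8⟩ :=
      new_left (exists_mv hHE n) hfind hxn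
    refine ⟨H', y0, h4, ?_, h2, h3, h6, h7, h8⟩
    simp only [mem_filter, mem_univ, true_and]
    exact ⟨n + 1, h1⟩
  · intro y hy
    simp only [mem_filter, mem_univ, true_and] at hy
    have hfind := Nat.find_spec hy
    set m := Nat.find hy with hm
    have hm0 : m ≠ 0 := by
      intro h0
      rw [h0] at hfind
      simp [lay] at hfind
    obtain ⟨n, hn⟩ := Nat.exists_eq_succ_of_ne_zero hm0
    have hyn : y ∉ (lay E H v n).2 := Nat.find_min hy (by omega)
    rw [hn] at hfind
    obtain ⟨H', x0, h1, h2, h3, -, h5, h6, h7⟩ := new_right (exists_mv hHE n) hfind hyn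
    refine ⟨H', x0, h3, ?_, h2, h5, h6, h7⟩
    simp only [mem_filter, mem_univ, true_and]
    exact ⟨n, h1⟩

end Pool.Agent.H35.Lir.Fac
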