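import Pool.Agent.H35.Lir.Conds
import Pool.Agent.H35.Lir.Lab
import Pool.Agent.H35.Lir.Frame

/-!
Acyclic digraphs with a set `C` of protected vertices: all arcs entering a protected vertex have
the same colour.
-/

namespace Pool.Agent.H35.Lir

open Finset

variable {V : Type}

/-- `u` is a doubly protected vertex: it is in `C` and has two outneighbours in `C` -/
def Double (D : V → V → Prop) (C : Set V) (u : V) : Prop :=
  u ∈ C ∧ 2 ≤ {w | D u w ∧ w ∈ C}.ncard

/-- data chosen at a vertex -/
structure Rol (V : Type) where
  a : ℕ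
  b : ℕ
  st : ℕ
  T : Finset V

theorem exists_roles [Fintype V] (D : V → V → Prop) (hac : ∀ x, ¬ Relation.TransGen D x x)
    (C : Set V)
    (h1 : ∀ v, v ∉ C → inDeg D v ≠ 0 → ¬ RelPattern D C v ∧
      ∀ u, D v u → Double D C u → inDeg D v < inDeg D u)
    (h2 : ∀ v ∈ C, inDeg D v ≠ 0 → ∀ u u', D v u → D v u' → Double D C u → Double D C u' →
      inDeg D u = inDeg D v → inDeg D u' = inDeg D v → u = u') :
    ∃ c : V → V → Fin 2, IsWLIColouring D c := by
  classical
  obtain ⟨ρ, hρ⟩ := exists_rank D hac
  obtain ⟨S, hS⟩ : ∃ S : V → Finset V, ∀ v, S v = ({w | D v w} : Finset V) :=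
    ⟨_, fun _ => rfl⟩
  have memS : ∀ v w, w ∈ S v ↔ D v w := by
    intro v w; rw [hS]; simp
  have hcard : ∀ v, #(S v) = outDeg D v := by
    intro v; rw [hS]; exact outDeg_card D v
  have hns : ∀ v w, D v w → inDeg D w ≠ 0 := by
    intro v w hvw h
    rw [inDeg, Set.ncard_eq_zero (Set.toFinite _), Set.eq_empty_iff_forall_notMem] at h
    exact h v hvw
  obtain ⟨F, hF⟩ := exists_rec ρ (fun v (x : Rol V) g =>
    (x.T ⊆ S v ∧ x.a = #x.T ∧ x.b = #(S v \ x.T)) ∧
    (∀ w ∈ S v, (g w).st = 1 → w ∈ x.T) ∧ (∀ w ∈ S v, (g w).st = 2 → w ∉ x.T) ∧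
    (inDeg D v = 0 ∨
      (x.st = 0 ∧ v ∉ C ∧
        (∀ w ∈ S v, w ∈ x.T → (g w).a ≠ x.a ∨ ((g w).st = 1 ∧ inDeg D v < inDeg D w)) ∧
        (∀ w ∈ S v, w ∉ x.T → (g w).b ≠ x.b ∨ ((g w).st = 2 ∧ inDeg D v < inDeg D w))) ∨
      (x.st = 1 ∧ v ∈ C ∧
        (∀ w ∈ S v, w ∈ x.T → (g w).st = 1 ∧ ((g w).a ≠ x.a ∨ inDeg D w ≠ inDeg D v)) ∧
        (x.a ≠ 0 → Double D C v)) ∨
      (x.st = 2 ∧ v ∈ C ∧
        (∀ w ∈ S v, w ∉ x.T → (g w).st = 2 ∧ ((g w).b ≠ x.b ∨ inDeg D w ≠ inDeg D v)) ∧
        (x.b ≠ 0 → Double D C v))))
    (by
      intro v x g g' hg ⟨h1, h2, h3, h4⟩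
      have hgS : ∀ w ∈ S v, g w = g' w := fun w hw => hg w (hρ v w ((memS v w).1 hw))
      refine ⟨h1, fun w hw h => h2 w hw (by rw [hgS w hw]; exact h),
        fun w hw h => h3 w hw (by rw [hgS w hw]; exact h), ?_⟩
      rcases h4 with h | ⟨e1, e2, e3, e4⟩ | ⟨e1, e2, e3, e4⟩ | ⟨e1, e2, e3, e4⟩
      · exact Or.inl h
      · refine Or.inr (Or.inl ⟨e1, e2, fun w hw hwT => ?_, fun w hw hwT => ?_⟩)
        · rw [← hgS w hw]; exact e3 w hw hwT
        · rw [← hgS w hw]; exact e4 w hw hwT
      · refine Or.inr (Or.inr (Or.inl ⟨e1, e2, fun w hw hwT => ?_, e4⟩))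
        rw [← hgS w hw]; exact e3 w hw hwT
      · refine Or.inr (Or.inr (Or.inr ⟨e1, e2, fun w hw hwT => ?_, e4⟩))
        rw [← hgS w hw]; exact e3 w hw hwT)
    (fun _ => ⟨0, 0, 0, ∅⟩)
    (by
      intro v g hg
      -- facts about outneighbours
      have hst : ∀ w ∈ S v, ((g w).st = 0 ∧ w ∉ C ∧ (g w).a + (g w).b = outDeg D w) ∨
          ((g w).st = 1 ∧ w ∈ C ∧ ((g w).a ≠ 0 → Double D C w)) ∨
          ((g w).st = 2 ∧ w ∈ C ∧ ((g w).b ≠ 0 → Double D C w)) := by
        intro w hw
        have hvw := (memS v w).1 hw
        obtain ⟨⟨e1, e2, e3⟩, -, -, h4⟩ := hg w (hρ v w hvw)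
        rcases h4 with h | ⟨f1, f2, f3, f4⟩ | ⟨f1, f2, f3, f4⟩ | ⟨f1, f2, f3, f4⟩
        · exact absurd h (hns v w hvw)
        · refine Or.inl ⟨f1, f2, ?_⟩
          have h5 := Finset.card_sdiff_add_card_eq_card e1
          rw [e2, e3, ← hcard w]
          omega
        · exact Or.inr (Or.inl ⟨f1, f2, f4⟩)
        · exact Or.inr (Or.inr ⟨f1, f2, f4⟩)
      obtain ⟨F0, hF0⟩ : ∃ F0 : Finset V, F0 = (S v).filter fun w => (g w).st = 1 := ⟨_, rfl⟩
      obtain ⟨F1, hF1⟩ : ∃ F1 : Finset V, F1 = (S v).filter fun w => (g w).st = 2 := ⟨_, rfl⟩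
      obtain ⟨P, hP⟩ : ∃ P : Finset V, P = (S v).filter fun w => (g w).st = 0 := ⟨_, rfl⟩
      have mF0 : ∀ w, w ∈ F0 ↔ w ∈ S v ∧ (g w).st = 1 := by
        intro w; rw [hF0, Finset.mem_filter]
      have mF1 : ∀ w, w ∈ F1 ↔ w ∈ S v ∧ (g w).st = 2 := by
        intro w; rw [hF1, Finset.mem_filter]
      have mP : ∀ w, w ∈ P ↔ w ∈ S v ∧ (g w).st = 0 := by
        intro w; rw [hP, Finset.mem_filter]
      have mPC : ∀ w, w ∈ P ↔ D v w ∧ w ∉ C := by
        intro w
        rw [mP, memS]
        constructor
        · rintro ⟨e1, e2⟩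
          rcases hst w ((memS v w).2 e1) with h | h | h
          · exact ⟨e1, h.2.1⟩
          · omega
          · omega
        · rintro ⟨e1, e2⟩
          rcases hst w ((memS v w).2 e1) with h | h | h
          · exact ⟨e1, h.1⟩
          · exact absurd h.2.1 e2
          · exact absurd h.2.1 e2
      have hF0S : F0 ⊆ S v := by rw [hF0]; exact Finset.filter_subset _ _
      have hF1S : F1 ⊆ S v := by rw [hF1]; exact Finset.filter_subset _ _
      have hPS : P ⊆ S v := by rw [hP]; exact Finset.filter_subset _ _
      have hcov : ∀ w ∈ S v, w ∈ F0 ∨ w ∈ F1 ∨ w ∈ P := by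
        intro w hw
        rcases hst w hw with h | h | h
        · exact Or.inr (Or.inr ((mP w).2 ⟨hw, h.1⟩))
        · exact Or.inl ((mF0 w).2 ⟨hw, h.1⟩)
        · exact Or.inr (Or.inl ((mF1 w).2 ⟨hw, h.1⟩))
      by_cases hsrc : inDeg D v = 0
      · refine ⟨⟨#F0, #(S v \ F0), 0, F0⟩, ⟨hF0S, rfl, rfl⟩, fun w hw h => (mF0 w).2 ⟨hw, h⟩,
          fun w hw h h' => ?_, Or.inl hsrc⟩
        have := ((mF0 w).1 h').2
        omega
      by_cases hvC : v ∈ C
      · by_cases h0 : F0 = ∅
        · refine ⟨⟨0, #(S v), 1, ∅⟩, ⟨Finset.empty_subset _, by simp, by simp⟩, fun w hw h => ?_,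
            fun w hw h h' => absurd h' (Finset.notMem_empty _),
            Or.inr (Or.inr (Or.inl ⟨rfl, hvC, fun w hw h' => absurd h' (Finset.notMem_empty _),
              fun h => absurd rfl h⟩))⟩
          have : w ∈ F0 := (mF0 w).2 ⟨hw, h⟩
          rw [h0] at this
          exact absurd this (Finset.notMem_empty _)
        by_cases h1' : F1 = ∅
        · refine ⟨⟨#(S v), 0, 2, S v⟩, ⟨subset_rfl, rfl, by simp⟩, fun w hw h => hw,
            fun w hw h h' => ?_,
            Or.inr (Or.inr (Or.inr ⟨rfl, hvC, fun w hw h' => absurd hw h',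
              fun h => absurd rfl h⟩))⟩
          have : w ∈ F1 := (mF1 w).2 ⟨hw, h⟩
          rw [h1'] at this
          exact absurd this (Finset.notMem_empty _)
        -- both nonempty
        have hdbl : Double D C v := by
          refine ⟨hvC, ?_⟩
          obtain ⟨u, hu⟩ := Finset.nonempty_of_ne_empty h0
          obtain ⟨u', hu'⟩ := Finset.nonempty_of_ne_empty h1'
          have hu1 := (mF0 u).1 hu
          have hu1' := (mF1 u').1 hu'
          have hne : u ≠ u' := by
            rintro rfl
            omega
          have huC : u ∈ C := by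
            rcases hst u hu1.1 with h | h | h
            · omega
            · exact h.2.1
            · omega
          have huC' : u' ∈ C := by
            rcases hst u' hu1'.1 with h | h | h
            · omega
            · omega
            · exact h.2.1
          rw [← Set.ncard_pair hne]
          apply Set.ncard_le_ncard _ (Set.toFinite _)
          rintro w (rfl | rfl)
          · exact ⟨(memS v w).1 hu1.1, huC⟩
          · exact ⟨(memS v w).1 hu1'.1, huC'⟩
        by_cases hR : ∀ w ∈ F0, (g w).a ≠ #F0 ∨ inDeg D w ≠ inDeg D v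
        · refine ⟨⟨#F0, #(S v \ F0), 1, F0⟩, ⟨hF0S, rfl, rfl⟩,
            fun w hw h => (mF0 w).2 ⟨hw, h⟩, fun w hw h h' => ?_,
            Or.inr (Or.inr (Or.inl ⟨rfl, hvC, fun w hw h' => ⟨((mF0 w).1 h').2, hR w h'⟩,
              fun _ => hdbl⟩))⟩
          have := ((mF0 w).1 h').2
          omega
        by_cases hB : ∀ w ∈ F1, (g w).b ≠ #F1 ∨ inDeg D w ≠ inDeg D v
        · have hsd : S v \ (S v \ F1) = F1 := Finset.sdiff_sdiff_eq_self hF1S
          refine ⟨⟨#(S v \ F1), #F1, 2, S v \ F1⟩, ⟨Finset.sdiff_subset, rfl, by simp [hsd]⟩,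
            fun w hw h => ?_, fun w hw h h' => ?_,
            Or.inr (Or.inr (Or.inr ⟨rfl, hvC, fun w hw h' => ?_, fun _ => hdbl⟩))⟩
          · rw [Finset.mem_sdiff]
            refine ⟨hw, fun h' => ?_⟩
            have := ((mF1 w).1 h').2
            omega
          · exact (Finset.mem_sdiff.1 h').2 ((mF1 w).2 ⟨hw, h⟩)
          · have hw1 : w ∈ F1 := by
              by_contra h3
              exact h' (Finset.mem_sdiff.2 ⟨hw, h3⟩)
            exact ⟨((mF1 w).1 hw1).2, hB w hw1⟩
        · -- contradiction
          exfalso
          push Not at hR hB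
          obtain ⟨u, hu, hua, huq⟩ := hR
          obtain ⟨u', hu', hub', huq'⟩ := hB
          have hu1 := (mF0 u).1 hu
          have hu1' := (mF1 u').1 hu'
          have hc0 : 0 < #F0 := Finset.card_pos.2 ⟨u, hu⟩
          have hc1 : 0 < #F1 := Finset.card_pos.2 ⟨u', hu'⟩
          have d1 : Double D C u := by
            rcases hst u hu1.1 with h | h | h
            · omega
            · exact h.2.2 (by omega)
            · omega
          have d2 : Double D C u' := by
            rcases hst u' hu1'.1 with h | h | h
            · omega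
            · omega
            · exact h.2.2 (by omega)
          have := h2 v hvC hsrc u u' ((memS v u).1 hu1.1) ((memS v u').1 hu1'.1) d1 d2 huq huq'
          subst this
          omega
      · -- normal vertices
        obtain ⟨hpat, hkill⟩ := h1 v hvC hsrc
        have hncard : {w | D v w ∧ w ∉ C}.ncard = #P := by
          rw [ncard_filter]
          congr 1
          ext w
          rw [mPC]
          simp
        have hsum : #F0 + #F1 + #P = outDeg D v := by
          rw [← hcard v]
          have hd1 : Disjoint F0 F1 := by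
            rw [Finset.disjoint_left]
            intro w e1 e2
            have := ((mF0 w).1 e1).2
            have := ((mF1 w).1 e2).2
            omega
          have hd2 : Disjoint (F0 ∪ F1) P := by
            rw [Finset.disjoint_left]
            intro w e1 e2
            have h3 := ((mP w).1 e2).2
            rcases Finset.mem_union.1 e1 with e | e
            · have := ((mF0 w).1 e).2
              omega
            · have := ((mF1 w).1 e).2
              omega
          rw [← Finset.card_union_of_disjoint hd1, ← Finset.card_union_of_disjoint hd2]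
          congr 1
          ext w
          simp only [Finset.mem_union]
          constructor
          · rintro ((e | e) | e)
            · exact hF0S e
            · exact hF1S e
            · exact hPS e
          · intro e
            rcases hcov w e with e | e | e
            · exact Or.inl (Or.inl e)
            · exact Or.inl (Or.inr e)
            · exact Or.inr e
        set a' : V → ℕ := fun w => if #F0 ≤ (g w).a then (g w).a - #F0 else 2 * #P + 1 with ha'
        set b' : V → ℕ := fun w => if #F1 ≤ (g w).b then (g w).b - #F1 else 2 * #P + 1 with hb'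
        have hval : ∀ w ∈ P, a' w + b' w ≤ 2 * #P →
            outDeg D w = a' w + b' w + #F0 + #F1 := by
          intro w hw hle
          have hw1 := (mP w).1 hw
          have hw2 : (g w).a + (g w).b = outDeg D w := by
            rcases hst w hw1.1 with h | h | h
            · exact h.2.2
            · omega
            · omega
          simp only [ha', hb'] at hle ⊢
          split_ifs at hle ⊢ <;> omega
        have hnp : ¬ Pattern P (fun w => a' w + b' w) := by
          intro hpt
          apply hpat
          unfold Pattern at hpt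
          beta_reduce at hpt
          unfold RelPattern
          rw [hncard]
          rcases hpt with ⟨p, hp, e1, e2⟩ | ⟨h3, p, hp, q, hq, r, hr, n1, n2, n3, e1, e2⟩
          · left
            refine ⟨p, (mPC p).1 hp, ?_, fun w hw hne => ?_⟩
            · have := hval p hp (by omega)
              omega
            · have h4 := e2 w ((mPC w).2 hw) hne
              have := hval w ((mPC w).2 hw) (by omega)
              omega
          · right
            refine ⟨h3, p, q, r, (mPC p).1 hp, (mPC q).1 hq, (mPC r).1 hr, n1, n2, n3,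
              fun w hw m1 m2 m3 => ?_, ?_⟩
            · have h4 := e1 w ((mPC w).2 hw) m1 m2 m3
              have := hval w ((mPC w).2 hw) (by omega)
              omega
            · rcases e2 with ⟨g1, g2, g3⟩ | ⟨g1, g2, g3⟩
              · left
                have k1 := hval p hp (by omega)
                have k2 := hval q hq (by omega)
                have k3 := hval r hr (by omega)
                omega
              · right
                have k1 := hval p hp (by omega)
                have k2 := hval q hq (by omega)
                have k3 := hval r hr (by omega)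
                omega
        obtain ⟨T', hT', -, hT1, hT2⟩ := local_split P P subset_rfl a' b' ∅
          (Or.inr (Or.inr ⟨rfl, hnp⟩))
        have hdj : Disjoint F0 T' := by
          rw [Finset.disjoint_left]
          intro w e1 e2
          have := ((mF0 w).1 e1).2
          have := ((mP w).1 (hT' e2)).2
          omega
        have hdj1 : Disjoint F1 (P \ T') := by
          rw [Finset.disjoint_left]
          intro w e1 e2
          have := ((mF1 w).1 e1).2
          have := ((mP w).1 (Finset.mem_sdiff.1 e2).1).2
          omega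
        have hTc : #(F0 ∪ T') = #F0 + #T' := Finset.card_union_of_disjoint hdj
        have hsd : S v \ (F0 ∪ T') = F1 ∪ (P \ T') := by
          ext w
          simp only [Finset.mem_sdiff, Finset.mem_union, not_or]
          constructor
          · rintro ⟨e1, e2, e3⟩
            rcases hcov w e1 with e | e | e
            · exact absurd e e2
            · exact Or.inl e
            · exact Or.inr ⟨e, e3⟩
          · rintro (e | ⟨e, e3⟩)
            · refine ⟨hF1S e, fun e' => ?_, fun e' => ?_⟩
              · have := ((mF0 w).1 e').2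
                have := ((mF1 w).1 e).2
                omega
              · have := ((mP w).1 (hT' e')).2
                have := ((mF1 w).1 e).2
                omega
            · refine ⟨hPS e, fun e' => ?_, e3⟩
              have := ((mF0 w).1 e').2
              have := ((mP w).1 e).2
              omega
        have hSc : #(S v \ (F0 ∪ T')) = #F1 + #(P \ T') := by
          rw [hsd]; exact Finset.card_union_of_disjoint hdj1
        refine ⟨⟨#(F0 ∪ T'), #(S v \ (F0 ∪ T')), 0, F0 ∪ T'⟩,
          ⟨Finset.union_subset hF0S (hT'.trans hPS), rfl, rfl⟩,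
          fun w hw h => Finset.mem_union_left _ ((mF0 w).2 ⟨hw, h⟩), fun w hw h h' => ?_,
          Or.inr (Or.inl ⟨rfl, hvC, fun w hw h' => ?_, fun w hw h' => ?_⟩)⟩
        · rcases Finset.mem_union.1 h' with e | e
          · have := ((mF0 w).1 e).2
            omega
          · have := ((mP w).1 (hT' e)).2
            omega
        · simp only at h' ⊢
          rcases Finset.mem_union.1 h' with e | e
          · by_cases he : (g w).a = #(F0 ∪ T')
            · right
              have hc0 : 0 < #F0 := Finset.card_pos.2 ⟨w, e⟩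
              refine ⟨((mF0 w).1 e).2, hkill w ((memS v w).1 hw) ?_⟩
              rcases hst w hw with h | h | h
              · have := ((mF0 w).1 e).2
                omega
              · exact h.2.2 (by omega)
              · have := ((mF0 w).1 e).2
                omega
            · exact Or.inl he
          · left
            intro he
            apply hT1 w (hT' e) e
            simp only [ha']
            rw [if_pos (by omega)]
            omega
        · simp only at h' ⊢
          have hw2 : w ∈ F1 ∪ (P \ T') := by
            rw [← hsd]; exact Finset.mem_sdiff.2 ⟨hw, h'⟩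
          rcases Finset.mem_union.1 hw2 with e | e
          · by_cases he : (g w).b = #(S v \ (F0 ∪ T'))
            · right
              have hc0 : 0 < #F1 := Finset.card_pos.2 ⟨w, e⟩
              refine ⟨((mF1 w).1 e).2, hkill w ((memS v w).1 hw) ?_⟩
              rcases hst w hw with h | h | h
              · have := ((mF1 w).1 e).2
                omega
              · have := ((mF1 w).1 e).2
                omega
              · exact h.2.2 (by omega)
            · exact Or.inl he
          · left
            intro he
            apply hT2 w (Finset.mem_sdiff.1 e).1 (Finset.mem_sdiff.1 e).2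
            simp only [hb']
            rw [if_pos (by omega)]
            omega)
  -- the colouring
  set c : V → V → Fin 2 := fun v w => if w ∈ (F v).T then 0 else 1 with hc
  have hc0 : ∀ v w, c v w = 0 ↔ w ∈ (F v).T := by
    intro v w
    simp only [hc]
    split_ifs with h <;> simp [h]
  have hc1 : ∀ v w, c v w = 1 ↔ w ∉ (F v).T := by
    intro v w
    simp only [hc]
    split_ifs with h <;> simp [h]
  have hout0 : ∀ v, outDeg (fun a b => D a b ∧ c a b = 0) v = (F v).a := by
    intro v
    obtain ⟨⟨e1, e2, e3⟩, -⟩ := hF v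
    unfold outDeg
    rw [e2, ncard_filter]
    congr 1
    ext w
    simp only [Finset.mem_filter, Finset.mem_univ, true_and, hc0]
    exact ⟨fun h => h.2, fun h => ⟨(memS v w).1 (e1 h), h⟩⟩
  have hout1 : ∀ v, outDeg (fun a b => D a b ∧ c a b = 1) v = (F v).b := by
    intro v
    obtain ⟨⟨e1, e2, e3⟩, -⟩ := hF v
    unfold outDeg
    rw [e3, ncard_filter]
    congr 1
    ext w
    simp only [Finset.mem_filter, Finset.mem_univ, true_and, hc1, Finset.mem_sdiff, memS]
  have hin_le : ∀ v i, inDeg (fun a b => D a b ∧ c a b = i) v ≤ inDeg D v := by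
    intro v i
    exact Set.ncard_le_ncard (fun u hu => hu.1) (Set.toFinite _)
  have hin1 : ∀ v, (F v).st = 1 → inDeg (fun a b => D a b ∧ c a b = 0) v = inDeg D v := by
    intro v hv
    unfold inDeg
    congr 1
    ext u
    simp only [Set.mem_ofPred_eq, and_iff_left_iff_imp]
    intro huv
    rw [hc0]
    exact (hF u).2.1 v ((memS u v).2 huv) hv
  have hin2 : ∀ v, (F v).st = 2 → inDeg (fun a b => D a b ∧ c a b = 1) v = inDeg D v := by
    intro v hv
    unfold inDeg
    congr 1
    ext u
    simp only [Set.mem_ofPred_eq, and_iff_left_iff_imp]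
    intro huv
    rw [hc1]
    exact (hF u).2.2.1 v ((memS u v).2 huv) hv
  have hz : ∀ i : Fin 2, i = 0 ∨ i = 1 := by decide
  refine ⟨c, ?_⟩
  rintro i x y ⟨hxy, rfl⟩
  have hyS := (memS x y).2 hxy
  obtain ⟨-, -, -, h4⟩ := hF x
  rcases h4 with h | ⟨e1, e2, e3, e4⟩ | ⟨e1, e2, e3, e4⟩ | ⟨e1, e2, e3, e4⟩
  · refine good_of_csource hxy fun u hu => ?_
    exact absurd h (hns u x hu)
  · rcases hz (c x y) with hi | hi
    · rw [hi]
      intro heq
      simp only [Prod.mk.injEq] at heq
      rcases e3 y hyS ((hc0 x y).1 hi) with h | ⟨h5, h6⟩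
      · rw [hout0, hout0] at heq
        exact h heq.1.symm
      · have h7 := hin1 y h5
        have h8 := hin_le x 0
        omega
    · rw [hi]
      intro heq
      simp only [Prod.mk.injEq] at heq
      rcases e4 y hyS ((hc1 x y).1 hi) with h | ⟨h5, h6⟩
      · rw [hout1, hout1] at heq
        exact h heq.1.symm
      · have h7 := hin2 y h5
        have h8 := hin_le x 1
        omega
  · rcases hz (c x y) with hi | hi
    · rw [hi]
      intro heq
      simp only [Prod.mk.injEq] at heq
      obtain ⟨h5, h6⟩ := e3 y hyS ((hc0 x y).1 hi)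
      have h7 := hin1 y h5
      have h8 := hin1 x e1
      rcases h6 with h | h
      · rw [hout0, hout0] at heq
        exact h heq.1.symm
      · omega
    · refine good_of_csource hxy fun u hu => ?_
      rw [hi]
      have h5 : c u x = 0 := (hc0 u x).2 ((hF u).2.1 x ((memS u x).2 hu) e1)
      rw [h5]
      decide
  · rcases hz (c x y) with hi | hi
    · refine good_of_csource hxy fun u hu => ?_
      rw [hi]
      have h5 : c u x = 1 := (hc1 u x).2 ((hF u).2.2.1 x ((memS u x).2 hu) e1)
      rw [h5]
      decide
    · rw [hi]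
      intro heq
      simp only [Prod.mk.injEq] at heq
      obtain ⟨h5, h6⟩ := e3 y hyS ((hc1 x y).1 hi)
      have h7 := hin2 y h5
      have h8 := hin2 x e1
      rcases h6 with h | h
      · rw [hout1, hout1] at heq
        exact h heq.1.symm
      · omega

end Pool.Agent.H35.Lir
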