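import Pool.Agent.H35.Lir.SteepCor
import Pool.Agent.H35.Lir.SevenComb

/-!
Three colours suffice for digraphs with all outdegrees at most six.
-/

namespace Pool.Agent.H35.Lir

open Finset

variable {V : Type}

/-- outdegrees (of vertices which are not sources) at most six -/
theorem exists_three_of_outDeg_six [Fintype V] (D : V → V → Prop) (hD : ∀ x, ¬ D x x)
    (h : ∀ x, inDeg D x ≠ 0 → outDeg D x ≤ 6) : ∃ c : V → V → Fin 3, IsWLIColouring D c := by
  classical
  obtain ⟨S, hS⟩ : ∃ S : Finset V, ∀ x, x ∈ S ↔
      inDeg D x ≠ 0 ∧ ∃ y, D x y ∧ outDeg D x + 2 ≤ outDeg D y :=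
    ⟨Finset.univ.filter fun x => inDeg D x ≠ 0 ∧ ∃ y, D x y ∧ outDeg D x + 2 ≤ outDeg D y,
      fun x => by simp⟩
  have hpos : ∀ u v, D u v → inDeg D v ≠ 0 := by
    intro u v huv h0
    rw [inDeg, Set.ncard_eq_zero (Set.toFinite _), Set.eq_empty_iff_forall_notMem] at h0
    exact h0 u huv
  have hcard : ∀ x ∈ S, oIn D S x ≤ 3 := by
    intro x hx
    obtain ⟨hsrc, z, hxz, hz⟩ := (hS x).1 hx
    have hz6 := h z (hpos x z hxz)
    have hout : #({y | D x y} : Finset V) = outDeg D x := outDeg_card D x
    have h1 : oIn D S x ≤ #({y | D x y} : Finset V) := by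
      unfold oIn
      apply Finset.card_le_card
      intro y hy
      simp only [Finset.mem_filter, Finset.mem_univ, true_and] at hy ⊢
      exact hy.2
    by_cases hzS : z ∈ S
    · obtain ⟨-, w, hzw, hw⟩ := (hS z).1 hzS
      have := h w (hpos z w hzw)
      omega
    · have h2 : oIn D S x < #({y | D x y} : Finset V) := by
        unfold oIn
        apply Finset.card_lt_card
        rw [Finset.ssubset_iff_of_subset]
        · exact ⟨z, by simp [hxz], by simp [hzS]⟩
        · intro y hy
          simp only [Finset.mem_filter, Finset.mem_univ, true_and] at hy ⊢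
          exact hy.2
      omega
  obtain ⟨f, hf, -⟩ := exists_seven D hD S hcard
  refine exists_three_classes D hD (fun x => if x ∈ S then some (f x) else none)
    ⟨fun x y i hxy hx hy => ?_, fun x y hxy hx => ?_, fun x y hxy hx hy hsrc hle => ?_⟩
  · split_ifs at hx hy with h1 h2
    simp only [Option.some.injEq] at hx hy
    exact (hf x h1 y h2 hxy).1 (hx.trans hy.symm)
  · split_ifs at hx with h1
    simp only [Option.some.injEq] at hx
    by_cases h2 : y ∈ S
    · have h3 := (hf x h1 y h2 hxy).2 hx
      rw [if_pos h2]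
      simpa using h3
    · rw [if_neg h2]
      simp
  · exfalso
    split_ifs at hx with h1
    exact h1 ((hS x).2 ⟨hsrc, y, hxy, hle⟩)

end Pool.Agent.H35.Lir
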