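import Pool.Agent.H35.Lir.Weighted

/-!
Splitting the arcs leaving one vertex into two colours.
-/

namespace Pool.Agent.H35.Lir

open Finset

variable {α : Type*} [DecidableEq α]

/-- The exceptional pattern of outdegrees. -/
def Pattern (S : Finset α) (s : α → ℕ) : Prop :=
  (∃ p ∈ S, s p = 2 * #S ∧ ∀ w ∈ S, w ≠ p → s w = #S) ∨
  (3 ≤ #S ∧ ∃ p ∈ S, ∃ q ∈ S, ∃ r ∈ S, p ≠ q ∧ p ≠ r ∧ q ≠ r ∧
    (∀ w ∈ S, w ≠ p → w ≠ q → w ≠ r → s w = #S) ∧
    ((s p = 2 * #S ∧ s q = 2 * #S - 2 ∧ s r = 2 * #S - 2) ∨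
     (s p = 2 * #S - 1 ∧ s q = 2 * #S - 1 ∧ s r = 2 * #S - 2)))

omit [DecidableEq α] in
theorem sum_fiber (S : Finset α) (φ : α → ℕ) (n : ℕ) :
    ∑ j ∈ range (n + 1), #(S.filter fun w => φ w = j) = #(S.filter fun w => φ w ≤ n) := by
  rw [Finset.card_eq_sum_card_fiberwise (f := φ) (t := range (n + 1))
    (s := S.filter fun w => φ w ≤ n)]
  · refine Finset.sum_congr rfl fun a ha => ?_
    rw [Finset.filter_filter]
    congr 1
    ext y
    simp only [Finset.mem_filter, Finset.mem_range] at ha ⊢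
    constructor
    · rintro ⟨h1, h2⟩
      exact ⟨h1, by omega, h2⟩
    · rintro ⟨h1, _, h2⟩
      exact ⟨h1, h2⟩
  · intro y hy
    have := (Finset.mem_filter.1 hy).2
    simp only [Finset.coe_range, Set.mem_Iio]
    omega

omit [DecidableEq α] in
theorem sum_fiber' (S : Finset α) (φ : α → ℕ) (n : ℕ) :
    ∑ j ∈ range (n + 1), #(S.filter fun w => φ w = n - j) = #(S.filter fun w => φ w ≤ n) := by
  rw [← sum_fiber S φ n, ← Finset.sum_range_reflect]
  refine Finset.sum_congr rfl fun j hj => ?_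
  rw [Finset.mem_range] at hj
  have : n - (n + 1 - 1 - j) = j := by omega
  rw [this]

/-- the weight needed to exclude the value `j` -/
def gw (d j : ℕ) : ℕ := if j = 0 ∨ j = d then 1 else 2

theorem sum_gw (d : ℕ) (hd : 0 < d) : ∑ j ∈ range (d + 1), gw d j = 2 * d := by
  obtain ⟨e, rfl⟩ : ∃ e, d = e + 1 := ⟨d - 1, by omega⟩
  rw [Finset.sum_range_succ, Finset.sum_range_succ']
  have h1 : ∑ k ∈ range e, gw (e + 1) (k + 1) = ∑ k ∈ range e, 2 := by
    refine Finset.sum_congr rfl fun k hk => ?_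
    rw [Finset.mem_range] at hk
    unfold gw
    rw [if_neg (by omega)]
  rw [h1]
  simp [gw]
  ring

/-- In a situation in which every number of red arcs is excluded by the outneighbours alone, the
outdegrees form the exceptional pattern. -/
theorem pattern_of_dead (S : Finset α) (a b : α → ℕ) (hd : 0 < #S)
    (hdead : ∀ j ≤ #S, ¬ (Disjoint (S.filter fun w => a w = j) (S.filter fun w => b w = #S - j) ∧
      #(S.filter fun w => a w = j) ≤ #S - j ∧ #(S.filter fun w => b w = #S - j) ≤ j)) :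
    Pattern S (fun w => a w + b w) := by
  obtain ⟨d, hdS⟩ : ∃ d, d = #S := ⟨_, rfl⟩
  rw [← hdS] at hdead hd
  obtain ⟨X, hX⟩ : ∃ X : ℕ → Finset α, ∀ j, X j = S.filter fun w => a w = j := ⟨_, fun _ => rfl⟩
  obtain ⟨Y, hY⟩ : ∃ Y : ℕ → Finset α, ∀ j, Y j = S.filter fun w => b w = d - j :=
    ⟨_, fun _ => rfl⟩
  simp only [← hX, ← hY] at hdead
  have memX : ∀ w j, w ∈ X j ↔ w ∈ S ∧ a w = j := by
    intro w j; rw [hX, Finset.mem_filter]
  have memY : ∀ w j, w ∈ Y j ↔ w ∈ S ∧ b w = d - j := by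
    intro w j; rw [hY, Finset.mem_filter]
  -- each value is excluded in one of three ways
  have hdead' : ∀ j ≤ d, (∃ w, w ∈ X j ∧ w ∈ Y j) ∨ d - j < #(X j) ∨ j < #(Y j) := by
    intro j hj
    have := hdead j hj
    by_contra hcon
    push Not at hcon
    apply this
    refine ⟨?_, hcon.2.1, hcon.2.2⟩
    rw [Finset.disjoint_left]
    exact fun w h1 h2 => hcon.1 w h1 h2
  have hg : ∀ j ∈ range (d + 1), gw d j ≤ #(X j) + #(Y j) := by
    intro j hj
    rw [Finset.mem_range] at hj
    rcases hdead' j (by omega) with ⟨w, h1, h2⟩ | h | h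
    · have := Finset.card_pos.2 ⟨w, h1⟩
      have := Finset.card_pos.2 ⟨w, h2⟩
      unfold gw
      split_ifs <;> omega
    · unfold gw
      split_ifs <;> omega
    · unfold gw
      split_ifs <;> omega
  have hsX : ∑ j ∈ range (d + 1), #(X j) = #(S.filter fun w => a w ≤ d) := by
    rw [← sum_fiber]
    exact Finset.sum_congr rfl fun j _ => by rw [hX]
  have hsY : ∑ j ∈ range (d + 1), #(Y j) = #(S.filter fun w => b w ≤ d) := by
    rw [← sum_fiber']
    exact Finset.sum_congr rfl fun j _ => by rw [hY]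
  have hcX : #(S.filter fun w => a w ≤ d) ≤ d := by
    rw [hdS]; exact Finset.card_le_card (Finset.filter_subset _ _)
  have hcY : #(S.filter fun w => b w ≤ d) ≤ d := by
    rw [hdS]; exact Finset.card_le_card (Finset.filter_subset _ _)
  have hsum := Finset.sum_le_sum hg
  rw [sum_gw d hd, Finset.sum_add_distrib, hsX, hsY] at hsum
  have heq : ∀ j ∈ range (d + 1), gw d j = #(X j) + #(Y j) := by
    rw [← Finset.sum_eq_sum_iff_of_le hg, sum_gw d hd, Finset.sum_add_distrib, hsX, hsY]
    omega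
  have haS : ∀ w ∈ S, a w ≤ d := by
    have : S.filter (fun w => a w ≤ d) = S :=
      Finset.eq_of_subset_of_card_le (Finset.filter_subset _ _) (by rw [← hdS]; omega)
    intro w hw
    rw [← this, Finset.mem_filter] at hw
    exact hw.2
  have hbS : ∀ w ∈ S, b w ≤ d := by
    have : S.filter (fun w => b w ≤ d) = S :=
      Finset.eq_of_subset_of_card_le (Finset.filter_subset _ _) (by rw [← hdS]; omega)
    intro w hw
    rw [← this, Finset.mem_filter] at hw
    exact hw.2
  -- extreme values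
  have h0 := heq 0 (by simp)
  have hdd := heq d (by simp)
  have hg0 : gw d 0 = 1 := by simp [gw]
  have hgd : gw d d = 1 := by simp [gw]
  rw [hg0] at h0
  rw [hgd] at hdd
  have hY0 : #(Y 0) = 1 ∧ #(X 0) = 0 := by
    rcases hdead' 0 (by omega) with ⟨w, h1, h2⟩ | h | h
    · have := Finset.card_pos.2 ⟨w, h1⟩
      have := Finset.card_pos.2 ⟨w, h2⟩
      omega
    · omega
    · omega
  have hXd : #(X d) = 1 ∧ #(Y d) = 0 := by
    rcases hdead' d le_rfl with ⟨w, h1, h2⟩ | h | h
    · have := Finset.card_pos.2 ⟨w, h1⟩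
      have := Finset.card_pos.2 ⟨w, h2⟩
      omega
    · omega
    · omega
  obtain ⟨p, hp⟩ := Finset.card_eq_one.1 hXd.1
  obtain ⟨q, hq⟩ := Finset.card_eq_one.1 hY0.1
  have hX0 := Finset.card_eq_zero.1 hY0.2
  have hYd := Finset.card_eq_zero.1 hXd.2
  have hpm : p ∈ X d := by rw [hp]; simp
  have hqm : q ∈ Y 0 := by rw [hq]; simp
  rw [memX] at hpm
  rw [memY] at hqm
  -- the range of the values
  have hpa : ∀ w ∈ S, w ≠ p → 1 ≤ a w ∧ a w ≤ d - 1 := by
    intro w hw hne
    have h1 := haS w hw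
    have h2 : a w ≠ 0 := by
      intro h
      have : w ∈ X 0 := (memX w 0).2 ⟨hw, h⟩
      rw [hX0] at this
      simp at this
    have h3 : a w ≠ d := by
      intro h
      have : w ∈ X d := (memX w d).2 ⟨hw, h⟩
      rw [hp, Finset.mem_singleton] at this
      exact hne this
    omega
  have hqb : ∀ w ∈ S, w ≠ q → 1 ≤ b w ∧ b w ≤ d - 1 := by
    intro w hw hne
    have h1 := hbS w hw
    have h2 : b w ≠ 0 := by
      intro h
      have : w ∈ Y d := (memY w d).2 ⟨hw, by omega⟩
      rw [hYd] at this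
      simp at this
    have h3 : b w ≠ d := by
      intro h
      have : w ∈ Y 0 := (memY w 0).2 ⟨hw, by omega⟩
      rw [hq, Finset.mem_singleton] at this
      exact hne this
    omega
  -- middle values
  have hmid : ∀ j, 1 ≤ j → j ≤ d - 1 → #(X j) + #(Y j) = 2 := by
    intro j h1 h2
    rw [← heq j (by rw [Finset.mem_range]; omega)]
    unfold gw
    rw [if_neg (by omega)]
  have hmid' : ∀ j, 1 ≤ j → j ≤ d - 1 →
      (∃ w, X j = {w} ∧ Y j = {w}) ∨ (j = d - 1 ∧ #(X j) = 2 ∧ #(Y j) = 0) ∨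
        (j = 1 ∧ #(X j) = 0 ∧ #(Y j) = 2) := by
    intro j h1 h2
    have h3 := hmid j h1 h2
    rcases hdead' j (by omega) with ⟨w, h4, h5⟩ | h | h
    · left
      have h6 := Finset.card_pos.2 ⟨w, h4⟩
      have h7 := Finset.card_pos.2 ⟨w, h5⟩
      obtain ⟨x, hx⟩ := Finset.card_eq_one.1 (by omega : #(X j) = 1)
      obtain ⟨y, hy⟩ := Finset.card_eq_one.1 (by omega : #(Y j) = 1)
      rw [hx, Finset.mem_singleton] at h4
      rw [hy, Finset.mem_singleton] at h5
      exact ⟨w, by rw [hx, h4], by rw [hy, h5]⟩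
    · right; left
      omega
    · right; right
      omega
  -- vertices different from `p`
  have hA : ∀ w ∈ S, w ≠ p → a w + b w = d ∨ (a w = d - 1 ∧ #(X (d - 1)) = 2 ∧
      #(Y (d - 1)) = 0) := by
    intro w hw hne
    obtain ⟨h1, h2⟩ := hpa w hw hne
    have hwX : w ∈ X (a w) := (memX w _).2 ⟨hw, rfl⟩
    rcases hmid' (a w) h1 h2 with ⟨x, hx, hy⟩ | ⟨h3, h4, h5⟩ | ⟨h3, h4, h5⟩
    · left
      have hwx : w = x := by rwa [hx, Finset.mem_singleton] at hwX
      have : w ∈ Y (a w) := by rw [hy, Finset.mem_singleton]; exact hwx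
      have := ((memY w _).1 this).2
      omega
    · right
      rw [← h3]
      exact ⟨rfl, h4, h5⟩
    · exfalso
      have := Finset.card_pos.2 ⟨w, hwX⟩
      omega
  -- vertices different from `q`
  have hB : ∀ w ∈ S, w ≠ q → a w + b w = d ∨ (b w = d - 1 ∧ #(X 1) = 0 ∧ #(Y 1) = 2) := by
    intro w hw hne
    obtain ⟨h1, h2⟩ := hqb w hw hne
    have hwY : w ∈ Y (d - b w) := (memY w _).2 ⟨hw, by omega⟩
    rcases hmid' (d - b w) (by omega) (by omega) with ⟨x, hx, hy⟩ | ⟨h3, h4, h5⟩ | ⟨h3, h4, h5⟩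
    · left
      have hwx : w = x := by rwa [hy, Finset.mem_singleton] at hwY
      have : w ∈ X (d - b w) := by rw [hx, Finset.mem_singleton]; exact hwx
      have := ((memX w _).1 this).2
      omega
    · exfalso
      have := Finset.card_pos.2 ⟨w, hwY⟩
      omega
    · right
      rw [← h3]
      exact ⟨by omega, h4, h5⟩
  by_cases hpq : p = q
  · -- `p = q`
    subst hpq
    by_cases hall : ∀ w ∈ S, w ≠ p → a w + b w = d
    · left
      refine ⟨p, hpm.1, ?_, ?_⟩
      · show a p + b p = 2 * #S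
        rw [← hdS, hpm.2, hqm.2]; omega
      · intro w hw hne
        show a w + b w = #S
        rw [← hdS]; exact hall w hw hne
    · push Not at hall
      obtain ⟨r₁, hr₁, hr₁p, hsum₁⟩ := hall
      obtain ⟨ha₁, hx2, hy0⟩ := (hA r₁ hr₁ hr₁p).resolve_left hsum₁
      obtain ⟨hb₁, hx1, hy1⟩ := (hB r₁ hr₁ hr₁p).resolve_left hsum₁
      have hr₁X : r₁ ∈ X (d - 1) := (memX _ _).2 ⟨hr₁, ha₁⟩
      have hd3 : 3 ≤ d := by
        obtain ⟨h1, h2⟩ := hpa r₁ hr₁ hr₁p
        have : d - 1 ≠ 1 := by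
          intro h
          rw [h] at hx2
          omega
        omega
      obtain ⟨r₂, hr₂X, hr₂₁⟩ : ∃ r ∈ X (d - 1), r ≠ r₁ :=
        Finset.exists_mem_ne (by omega) r₁
      have hr₂ := (memX _ _).1 hr₂X
      have hr₂p : r₂ ≠ p := by
        rintro rfl
        have := hpm.2
        omega
      have hXe : X (d - 1) = {r₁, r₂} := by
        refine (Finset.eq_of_subset_of_card_le ?_ ?_).symm
        · intro w hw
          simp only [Finset.mem_insert, Finset.mem_singleton] at hw
          rcases hw with rfl | rfl <;> assumption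
        · rw [hx2, Finset.card_pair (Ne.symm hr₂₁)]
      have hb₂ : b r₂ = d - 1 := by
        rcases hB r₂ hr₂.1 hr₂p with h | ⟨h, -, -⟩
        · exfalso
          have : r₂ ∈ Y (d - 1) := (memY _ _).2 ⟨hr₂.1, by omega⟩
          have := Finset.card_pos.2 ⟨r₂, this⟩
          omega
        · exact h
      right
      refine ⟨by omega, p, hpm.1, r₁, hr₁, r₂, hr₂.1, Ne.symm hr₁p, Ne.symm hr₂p,
        Ne.symm hr₂₁, ?_, Or.inl ⟨?_, ?_, ?_⟩⟩
      · intro w hw h1 h2 h3
        show a w + b w = #S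
        rw [← hdS]
        rcases hA w hw h1 with h | ⟨h, -, -⟩
        · exact h
        · exfalso
          have : w ∈ X (d - 1) := (memX _ _).2 ⟨hw, h⟩
          rw [hXe] at this
          simp only [Finset.mem_insert, Finset.mem_singleton] at this
          exact this.elim h2 h3
      · show a p + b p = 2 * #S
        rw [← hdS, hpm.2, hqm.2]; omega
      · show a r₁ + b r₁ = 2 * #S - 2
        rw [← hdS]; omega
      · show a r₂ + b r₂ = 2 * #S - 2
        rw [← hdS]; omega
  · -- `p ≠ q`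
    have hqp : q ≠ p := Ne.symm hpq
    have hbp : b p = d - 1 ∧ #(X 1) = 0 ∧ #(Y 1) = 2 := by
      rcases hB p hpm.1 hpq with h | h
      · exfalso
        have := (hqb p hpm.1 hpq).1
        have := hpm.2
        omega
      · exact h
    have haq : a q = d - 1 ∧ #(X (d - 1)) = 2 ∧ #(Y (d - 1)) = 0 := by
      rcases hA q hqm.1 hqp with h | h
      · exfalso
        have := (hpa q hqm.1 hqp).1
        have := hqm.2
        omega
      · exact h
    obtain ⟨hb1, hx1, hy1⟩ := hbp
    obtain ⟨ha1, hx2, hy0⟩ := haq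
    have hd3 : 3 ≤ d := by
      obtain ⟨h1, h2⟩ := hpa q hqm.1 hqp
      have : d - 1 ≠ 1 := by
        intro h
        rw [h] at hx2
        omega
      omega
    have hqX : q ∈ X (d - 1) := (memX _ _).2 ⟨hqm.1, ha1⟩
    obtain ⟨r, hrX, hrq⟩ : ∃ r ∈ X (d - 1), r ≠ q := Finset.exists_mem_ne (by omega) q
    have hr := (memX _ _).1 hrX
    have hrp : r ≠ p := by
      rintro rfl
      have := hpm.2
      omega
    have hXe : X (d - 1) = {q, r} := by
      refine (Finset.eq_of_subset_of_card_le ?_ ?_).symm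
      · intro w hw
        simp only [Finset.mem_insert, Finset.mem_singleton] at hw
        rcases hw with rfl | rfl <;> assumption
      · rw [hx2, Finset.card_pair (Ne.symm hrq)]
    have hbr : b r = d - 1 := by
      rcases hB r hr.1 hrq with h | ⟨h, -, -⟩
      · exfalso
        have : r ∈ Y (d - 1) := (memY _ _).2 ⟨hr.1, by omega⟩
        have := Finset.card_pos.2 ⟨r, this⟩
        omega
      · exact h
    right
    refine ⟨by omega, p, hpm.1, q, hqm.1, r, hr.1, hpq, Ne.symm hrp, Ne.symm hrq, ?_,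
      Or.inr ⟨?_, ?_, ?_⟩⟩
    · intro w hw h1 h2 h3
      show a w + b w = #S
      rw [← hdS]
      rcases hA w hw h1 with h | ⟨h, -, -⟩
      · exact h
      · exfalso
        have : w ∈ X (d - 1) := (memX _ _).2 ⟨hw, h⟩
        rw [hXe] at this
        simp only [Finset.mem_insert, Finset.mem_singleton] at this
        exact this.elim h2 h3
    · show a p + b p = 2 * #S - 1
      rw [← hdS, hpm.2]; omega
    · show a q + b q = 2 * #S - 1
      rw [← hdS, hqm.2]; omega
    · show a r + b r = 2 * #S - 2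
      rw [← hdS]; omega

/-- **Splitting lemma.** -/
theorem local_split (S S' : Finset α) (hS : S' ⊆ S) (a b : α → ℕ) (Z : Finset ℕ)
    (h : #Z + #S' < #S ∨ (S' = ∅ ∧ #Z ≤ #S) ∨ (Z = ∅ ∧ ¬ Pattern S (fun w => a w + b w))) :
    ∃ T ⊆ S, #T ∉ Z ∧ (∀ w ∈ S', w ∈ T → a w ≠ #T) ∧ ∀ w ∈ S', w ∉ T → b w ≠ #(S \ T) := by
  by_contra hcon
  -- every value is excluded
  have hdead : ∀ j ≤ #S, ¬ (j ∉ Z ∧
      Disjoint (S'.filter fun w => a w = j) (S'.filter fun w => b w = #S - j) ∧
      #(S'.filter fun w => a w = j) ≤ #S - j ∧ #(S'.filter fun w => b w = #S - j) ≤ j) := by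
    rintro j hj ⟨hjZ, hdis, hb, hr⟩
    apply hcon
    have hXS : (S'.filter fun w => a w = j) ⊆ S := (Finset.filter_subset _ _).trans hS
    have hsub : (S'.filter fun w => b w = #S - j) ⊆ S \ (S'.filter fun w => a w = j) := by
      intro y hy
      rw [Finset.mem_sdiff]
      refine ⟨hS (Finset.mem_filter.1 hy).1, fun hy' => ?_⟩
      exact Finset.disjoint_left.1 hdis hy' hy
    have hcard : j ≤ #(S \ (S'.filter fun w => a w = j)) := by
      rw [Finset.card_sdiff_of_subset hXS]
      omega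
    obtain ⟨T, hT1, hT2, hT3⟩ := Finset.exists_subsuperset_card_eq hsub hr hcard
    have hTS : T ⊆ S := hT2.trans Finset.sdiff_subset
    refine ⟨T, hTS, by rw [hT3]; exact hjZ, ?_, ?_⟩
    · intro w hw hwT haw
      have h1 := hT2 hwT
      rw [Finset.mem_sdiff] at h1
      exact h1.2 (Finset.mem_filter.2 ⟨hw, by rw [haw, hT3]⟩)
    · intro w hw hwT hbw
      apply hwT
      apply hT1
      rw [Finset.mem_filter]
      refine ⟨hw, ?_⟩
      rw [hbw, Finset.card_sdiff_of_subset hTS, hT3]
  rcases Nat.eq_zero_or_pos #S with hS0 | hSpos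
  · have hSe := Finset.card_eq_zero.1 hS0
    have hS'e : S' = ∅ := by rw [hSe] at hS; exact Finset.subset_empty.1 hS
    have hZ : Z = ∅ := by
      rcases h with h | ⟨_, h⟩ | ⟨h, _⟩
      · omega
      · exact Finset.card_eq_zero.1 (by omega)
      · exact h
    apply hdead 0 (Nat.zero_le _)
    rw [hS'e, hZ]
    simp
  -- the main inequality
  have hg : ∀ j ∈ range (#S + 1), gw #S j ≤ #(S'.filter fun w => a w = j) +
      #(S'.filter fun w => b w = #S - j) + (if j ∈ Z then 2 else 0) := by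
    intro j hj
    rw [Finset.mem_range] at hj
    by_cases hjZ : j ∈ Z
    · rw [if_pos hjZ]
      unfold gw
      split_ifs <;> omega
    · rw [if_neg hjZ]
      by_contra hlt
      push Not at hlt
      apply hdead j (by omega)
      have hle : #(S'.filter fun w => a w = j) + #(S'.filter fun w => b w = #S - j) <
          gw #S j := by omega
      refine ⟨hjZ, ?_, ?_, ?_⟩
      · rw [Finset.disjoint_left]
        intro w h1 h2
        have h3 := Finset.card_pos.2 ⟨w, h1⟩
        have h4 := Finset.card_pos.2 ⟨w, h2⟩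
        unfold gw at hle
        split_ifs at hle <;> omega
      · unfold gw at hle
        split_ifs at hle <;> omega
      · unfold gw at hle
        split_ifs at hle <;> omega
  have hsum := Finset.sum_le_sum hg
  rw [sum_gw _ hSpos, Finset.sum_add_distrib, Finset.sum_add_distrib, sum_fiber,
    sum_fiber'] at hsum
  have hZsum : ∑ j ∈ range (#S + 1), (if j ∈ Z then 2 else 0) ≤ 2 * #Z := by
    rw [← Finset.sum_filter, Finset.sum_const, smul_eq_mul, mul_comm]
    have : #((range (#S + 1)).filter fun j => j ∈ Z) ≤ #Z := by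
      apply Finset.card_le_card
      intro j hj
      exact (Finset.mem_filter.1 hj).2
    omega
  have hc1 : #(S'.filter fun w => a w ≤ #S) ≤ #S' := Finset.card_le_card (Finset.filter_subset _ _)
  have hc2 : #(S'.filter fun w => b w ≤ #S) ≤ #S' := Finset.card_le_card (Finset.filter_subset _ _)
  rcases h with h | ⟨hS'e, hZc⟩ | ⟨hZe, hpat⟩
  · omega
  · have : range (#S + 1) ⊆ Z := by
      intro j hj
      rw [Finset.mem_range] at hj
      by_contra hjZ
      apply hdead j (by omega)
      rw [hS'e]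
      simp [hjZ]
    have := Finset.card_le_card this
    rw [Finset.card_range] at this
    omega
  · apply hpat
    have hSS' : S' = S := by
      apply Finset.eq_of_subset_of_card_le hS
      rw [hZe] at hsum
      simp at hsum
      omega
    subst hSS'
    apply pattern_of_dead S' a b hSpos
    intro j hj hh
    exact hdead j hj ⟨by rw [hZe]; simp, hh⟩

end Pool.Agent.H35.Lir
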