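import Pool.Agent.H35.Lir.Typed
import Pool.Agent.H35.Lir.Lex
import Pool.Agent.H35.Lir.Kernel

/-!
Three colours for digraphs with a partition into at most seven independent classes, the first of
which absorbs all steep vertices outside the classes, and the rest.
-/

namespace Pool.Agent.H35.Lir

open Finset

variable {V : Type}

/-- source colour of a class -/
def sCol : Fin 7 → Fin 3 := ![0, 1, 1, 2, 2, 0, 0]

/-- sink colour of a class -/
def tCol : Fin 7 → Fin 3 := ![1, 0, 2, 0, 1, 1, 2]

/-- colour of the arcs from class `i` to class `j` -/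
def kap (i j : Fin 7) : Fin 3 :=
  if sCol i ≠ sCol j then sCol i else if j = 0 then (if i = 5 then 2 else 1) else tCol j

theorem s_ne_t : ∀ i : Fin 7, sCol i ≠ tCol i := by decide

theorem kap_src : ∀ i j : Fin 7, kap i j ≠ sCol j := by decide

theorem kap_good : ∀ i j : Fin 7, i ≠ j → ¬ (i = 0 ∧ (j = 5 ∨ j = 6)) →
    kap i j = sCol i ∨ (j ≠ 0 ∧ kap i j = tCol j) ∨ (j = 0 ∧ kap i j ≠ 0) := by decide

theorem kap_snk : ∀ i j : Fin 7, i ≠ 0 → i ≠ j → kap i j ≠ tCol i := by decide

theorem kap_zero : ∀ j : Fin 7, j ≠ 0 → j ≠ 5 → j ≠ 6 → kap 0 j = 0 := by decide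

/-- colours of the arcs meeting a class -/
def kc (cls : V → Option (Fin 7)) (x y : V) : Fin 3 :=
  match cls x, cls y with
  | some i, some j => kap i j
  | some i, none => sCol i
  | none, some j => tCol j
  | none, none => 1

theorem kc_ss {cls : V → Option (Fin 7)} {x y : V} {i j : Fin 7} (hx : cls x = some i)
    (hy : cls y = some j) : kc cls x y = kap i j := by
  simp only [kc, hx, hy]

theorem kc_sn {cls : V → Option (Fin 7)} {x y : V} {i : Fin 7} (hx : cls x = some i)
    (hy : cls y = none) : kc cls x y = sCol i := by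
  simp only [kc, hx, hy]

theorem kc_ns {cls : V → Option (Fin 7)} {x y : V} {j : Fin 7} (hx : cls x = none)
    (hy : cls y = some j) : kc cls x y = tCol j := by
  simp only [kc, hx, hy]

theorem kc_nn {cls : V → Option (Fin 7)} {x y : V} (hx : cls x = none)
    (hy : cls y = none) : kc cls x y = 1 := by
  simp only [kc, hx, hy]

/-- `cls` is a good partition of the vertices into classes `0, …, 6` and free vertices (`none`):
the classes are independent, no arc leads from class `0` to class `5` or `6`, and every free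
vertex `x` which is not a source and has a free outneighbour of outdegree at least
`outDeg D x + 2` has an outneighbour in class `0` or a free outneighbour of outdegree `0`. -/
structure GoodClasses (D : V → V → Prop) (cls : V → Option (Fin 7)) : Prop where
  ind : ∀ x y i, D x y → cls x = some i → cls y ≠ some i
  no0 : ∀ x y, D x y → cls x = some 0 → cls y ≠ some 5 ∧ cls y ≠ some 6
  absorb : ∀ x y, D x y → cls x = none → cls y = none → inDeg D x ≠ 0 →
    outDeg D x + 2 ≤ outDeg D y →
      ∃ z, D x z ∧ (cls z = some 0 ∨ (cls z = none ∧ outDeg D z = 0))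

theorem exists_three_classes [Fintype V] (D : V → V → Prop) (hD : ∀ x, ¬ D x x)
    (cls : V → Option (Fin 7)) (hcls : GoodClasses D cls) :
    ∃ c : V → V → Fin 3, IsWLIColouring D c := by
  classical
  obtain ⟨hind, hno0, habs⟩ := hcls
  set M : V → V → Prop := fun x y => D x y ∧ cls x = none ∧ cls y = none ∧ outDeg D y ≠ 0
    with hM
  obtain ⟨Zp, hZp⟩ : ∃ Zp : V → Prop, ∀ z, Zp z ↔
      (cls z = some 0 ∨ (cls z = none ∧ outDeg D z = 0)) := ⟨_, fun _ => Iff.rfl⟩
  have hZM : ∀ x z, Zp z → ¬ M x z := by
    rintro x z hz ⟨-, -, h1, h2⟩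
    rcases (hZp z).1 hz with h | h
    · rw [h] at h1; simp at h1
    · exact h2 h.2
  have hZj : ∀ z j, Zp z → cls z = some j → j = 0 := by
    intro z j hz hj
    rcases (hZp z).1 hz with h | h
    · rw [h] at hj
      simpa using hj.symm
    · rw [h.1] at hj; simp at hj
  obtain ⟨c, hc0, hblue, hred⟩ := exists_max_lex D hD M (fun x y h => h.1)
    (fun x y => if kc cls x y = 0 then 0 else 1)
  set B : V → V → Prop := fun x y => M x y ∧ c x y ≠ 0 with hB
  set ρ : V → ℕ := fun v => (∑ u, o0 D c u) - o0 D c v with hρdef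
  have hole : ∀ v, o0 D c v ≤ ∑ u, o0 D c u := fun v =>
    Finset.single_le_sum (f := o0 D c) (fun _ _ => Nat.zero_le _) (Finset.mem_univ v)
  have hρ : ∀ x y, B x y → ρ y < ρ x := by
    rintro x y ⟨hxy, h0⟩
    have h1 := hblue x y hxy h0
    have h2 := hole x
    have h3 := hole y
    simp only [hρdef]
    omega
  -- the sets
  obtain ⟨P, hP⟩ : ∃ P : V → Finset V, ∀ v, P v = ({w | B v w} : Finset V) :=
    ⟨_, fun _ => rfl⟩
  obtain ⟨S, hS⟩ : ∃ S : V → Finset V, ∀ v,
      S v = ({w | B v w ∨ (D v w ∧ Zp w)} : Finset V) := ⟨_, fun _ => rfl⟩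
  obtain ⟨Q, hQ⟩ : ∃ Q : V → Fin 3 → Finset V, ∀ v q,
      Q v q = ({w | D v w ∧ ∃ j, cls w = some j ∧ j ≠ 0 ∧ tCol j = q} : Finset V) :=
    ⟨_, fun _ _ => rfl⟩
  have memP : ∀ v w, w ∈ P v ↔ B v w := by
    intro v w; rw [hP]; simp
  have memS : ∀ v w, w ∈ S v ↔ B v w ∨ (D v w ∧ Zp w) := by
    intro v w; rw [hS]; simp
  have memQ : ∀ v q w, w ∈ Q v q ↔ D v w ∧ ∃ j, cls w = some j ∧ j ≠ 0 ∧ tCol j = q := by
    intro v q w; rw [hQ]; simp
  have hPS : ∀ v, P v ⊆ S v := by
    intro v w hw
    rw [memS]
    exact Or.inl ((memP v w).1 hw)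
  have hz2 : ∀ i : Fin 2, i = 0 ∨ i = 1 := by decide
  have hz3 : ∀ i : Fin 3, i = 0 ∨ i = 1 ∨ i = 2 := by decide
  -- number of arcs leaving a free vertex
  have hsum : ∀ v, cls v = none → o0 D c v + (#(Q v 1) + #(Q v 2) + #(S v)) = outDeg D v := by
    intro v hv
    have e0 : o0 D c v = #({w | D v w ∧ c v w = 0} : Finset V) := by
      unfold o0 outDeg
      rw [ncard_filter]
    have d1 : Disjoint (Q v 1) (Q v 2) := by
      rw [Finset.disjoint_left]
      intro w h1 h2
      rw [memQ] at h1 h2
      obtain ⟨-, j, hj, -, hj2⟩ := h1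
      obtain ⟨-, l, hl, -, hl2⟩ := h2
      rw [hj] at hl
      simp only [Option.some.injEq] at hl
      rw [hl, hl2] at hj2
      exact absurd hj2 (by decide)
    have d2 : Disjoint (Q v 1 ∪ Q v 2) (S v) := by
      rw [Finset.disjoint_left]
      intro w h1 h2
      have h3 : ∃ j : Fin 7, cls w = some j ∧ j ≠ 0 := by
        rcases Finset.mem_union.1 h1 with h | h
        · obtain ⟨-, j, hj, hj0, -⟩ := (memQ v _ w).1 h
          exact ⟨j, hj, hj0⟩
        · obtain ⟨-, j, hj, hj0, -⟩ := (memQ v _ w).1 h
          exact ⟨j, hj, hj0⟩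
      obtain ⟨j, hj, hj0⟩ := h3
      rcases (memS v w).1 h2 with h | h
      · have := h.1.2.2.1
        rw [hj] at this; simp at this
      · exact hj0 (hZj w j h.2 hj)
    have d3 : Disjoint ({w | D v w ∧ c v w = 0} : Finset V) (Q v 1 ∪ Q v 2 ∪ S v) := by
      rw [Finset.disjoint_left]
      intro w h1 h2
      simp only [Finset.mem_filter, Finset.mem_univ, true_and] at h1
      have hcl : ∀ j : Fin 7, cls w = some j → tCol j ≠ 0 → False := by
        intro j hj hj2
        have h3 := hc0 v w (by rintro ⟨-, -, h, -⟩; rw [hj] at h; simp at h)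
        rw [kc_ns hv hj, if_neg hj2, h1.2] at h3
        exact absurd h3 (by decide)
      rcases Finset.mem_union.1 h2 with h | h
      · rcases Finset.mem_union.1 h with h | h
        · obtain ⟨-, j, hj, -, hj2⟩ := (memQ v _ w).1 h
          exact hcl j hj (by rw [hj2]; decide)
        · obtain ⟨-, j, hj, -, hj2⟩ := (memQ v _ w).1 h
          exact hcl j hj (by rw [hj2]; decide)
      · rcases (memS v w).1 h with h | h
        · exact h.2 h1.2
        · rcases (hZp w).1 h.2 with h' | h'
          · exact hcl 0 h' (by decide)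
          · have h3 := hc0 v w (hZM v w h.2)
            rw [kc_nn hv h'.1, if_neg (by decide), h1.2] at h3
            exact absurd h3 (by decide)
    rw [e0, ← outDeg_card, ← Finset.card_union_of_disjoint d1, ← Finset.card_union_of_disjoint d2,
      ← Finset.card_union_of_disjoint d3]
    congr 1
    ext w
    simp only [Finset.mem_union, Finset.mem_filter, Finset.mem_univ, true_and]
    constructor
    · rintro (h | ((h | h) | h))
      · exact h.1
      · exact ((memQ v _ w).1 h).1
      · exact ((memQ v _ w).1 h).1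
      · rcases (memS v w).1 h with h | h
        · exact h.1.1
        · exact h.1
    · intro hvw
      rcases hw : cls w with _ | j
      · rcases hz2 (c v w) with h | h
        · exact Or.inl ⟨hvw, h⟩
        · right; right
          by_cases h0 : outDeg D w = 0
          · exact (memS v w).2 (Or.inr ⟨hvw, (hZp w).2 (Or.inr ⟨hw, h0⟩)⟩)
          · exact (memS v w).2 (Or.inl ⟨⟨hvw, hv, hw, h0⟩, by rw [h]; decide⟩)
      · by_cases hj : j = 0
        · right; right
          rw [hj] at hw
          exact (memS v w).2 (Or.inr ⟨hvw, (hZp w).2 (Or.inl hw)⟩)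
        · rcases hz3 (tCol j) with h | h | h
          · left
            refine ⟨hvw, ?_⟩
            rw [hc0 v w (by rintro ⟨-, -, h, -⟩; rw [hw] at h; simp at h), kc_ns hv hw, if_pos h]
          · right; left; left
            exact (memQ v 1 w).2 ⟨hvw, j, hw, hj, h⟩
          · right; left; right
            exact (memQ v 2 w).2 ⟨hvw, j, hw, hj, h⟩
  obtain ⟨f1, hf1⟩ : ∃ f1 : V → ℕ, ∀ v, f1 v = #(Q v 1) := ⟨_, fun _ => rfl⟩
  obtain ⟨f2, hf2⟩ : ∃ f2 : V → ℕ, ∀ v, f2 v = #(Q v 2) := ⟨_, fun _ => rfl⟩
  obtain ⟨F, hF⟩ := exists_rec ρ (fun v (x : Lbl V) g =>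
    (x.T ⊆ S v ∧ x.a = f1 v + #x.T ∧ x.b = f2 v + #(S v \ x.T)) ∧
    (inDeg D v = 0 ∨ ((∀ w ∈ P v, w ∈ x.T → (g w).a ≠ x.a) ∧
      ∀ w ∈ P v, w ∉ x.T → (g w).b ≠ x.b)))
    (by
      intro v x g g' hg ⟨h1, h2⟩
      have hgP : ∀ w ∈ P v, g w = g' w := fun w hw => hg w (hρ v w ((memP v w).1 hw))
      refine ⟨h1, ?_⟩
      rcases h2 with h | ⟨e1, e2⟩
      · exact Or.inl h
      · refine Or.inr ⟨fun w hw hwT => ?_, fun w hw hwT => ?_⟩
        · rw [← hgP w hw]; exact e1 w hw hwT
        · rw [← hgP w hw]; exact e2 w hw hwT)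
    (fun _ => ⟨0, 0, ∅⟩)
    (by
      intro v g hg
      by_cases hemp : inDeg D v = 0 ∨ P v = ∅
      · refine ⟨⟨f1 v + #(∅ : Finset V), f2 v + #(S v \ ∅), ∅⟩,
          ⟨Finset.empty_subset _, rfl, rfl⟩, ?_⟩
        rcases hemp with h | h
        · exact Or.inl h
        · right
          rw [h]
          exact ⟨fun w hw => absurd hw (Finset.notMem_empty _),
            fun w hw => absurd hw (Finset.notMem_empty _)⟩
      push Not at hemp
      obtain ⟨hsrc, hne⟩ := hemp
      obtain ⟨w0, hw0⟩ := hne
      have hv : cls v = none := ((memP v w0).1 hw0).1.2.1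
      obtain ⟨m, hm⟩ : ∃ m, m = 2 * #(S v) + 1 := ⟨_, rfl⟩
      have hpre : #(∅ : Finset ℕ) + #(P v) < #(S v) ∨ (P v = ∅ ∧ #(∅ : Finset ℕ) ≤ #(S v)) ∨
          ((∅ : Finset ℕ) = ∅ ∧ ¬ Pattern (S v)
            (fun w => (if f1 v ≤ (g w).a then (g w).a - f1 v else m) +
              (if f2 v ≤ (g w).b then (g w).b - f2 v else m))) := by
        by_cases hz : ∃ z, D v z ∧ Zp z
        · left
          obtain ⟨z, hvz, hz⟩ := hz
          have hlt : #(P v) < #(S v) := by
            apply Finset.card_lt_card
            rw [Finset.ssubset_iff_of_subset (hPS v)]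
            refine ⟨z, (memS v z).2 (Or.inr ⟨hvz, hz⟩), fun h => ?_⟩
            exact hZM v z hz ((memP v z).1 h).1
          simpa using hlt
        · right; right
          refine ⟨rfl, fun hp => ?_⟩
          obtain ⟨u, hu, hu1, hu2⟩ := pattern_big hp
          have huB : B v u := by
            rcases (memS v u).1 hu with h | h
            · exact h
            · exact absurd ⟨u, h⟩ hz
          have huc := huB.1.2.2.1
          obtain ⟨⟨e1, e2, e3⟩, -⟩ := hg u (hρ v u huB)
          have h5 := Finset.card_sdiff_add_card_eq_card e1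
          have h6 := hsum u huc
          have h7 := hsum v hv
          have h8 := hblue v u huB.1 huB.2
          rw [← hf1, ← hf2] at h6 h7
          have h9 : f1 v ≤ (g u).a := by
            by_contra h
            rw [if_neg h] at hu2
            omega
          have h10 : f2 v ≤ (g u).b := by
            by_contra h
            rw [if_neg h] at hu2
            omega
          rw [if_pos h9, if_pos h10] at hu1
          obtain ⟨z, hvz, hz'⟩ := habs v u huB.1.1 hv huc hsrc (by omega)
          exact hz ⟨z, hvz, (hZp z).2 hz'⟩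
      obtain ⟨T', hT', -, hT1, hT2⟩ := local_split (S v) (P v) (hPS v)
        (fun w => if f1 v ≤ (g w).a then (g w).a - f1 v else m)
        (fun w => if f2 v ≤ (g w).b then (g w).b - f2 v else m) ∅ hpre
      have hTc := Finset.card_le_card hT'
      have hTc2 : #(S v \ T') ≤ #(S v) := Finset.card_le_card Finset.sdiff_subset
      refine ⟨⟨f1 v + #T', f2 v + #(S v \ T'), T'⟩, ⟨hT', rfl, rfl⟩,
        Or.inr ⟨fun w hw hwT he => ?_, fun w hw hwT he => ?_⟩⟩
      · apply hT1 w hw hwT
        simp only at he
        rw [if_pos (by omega)]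
        omega
      · apply hT2 w hw hwT
        simp only at he
        rw [if_pos (by omega)]
        omega)
  -- the colouring
  obtain ⟨C, hC⟩ : ∃ C : V → V → Fin 3, ∀ x y, C x y =
      if B x y ∨ (cls x = none ∧ Zp y) then (if y ∈ (F x).T then 1 else 2)
      else if M x y then 0 else kc cls x y := ⟨_, fun _ _ => rfl⟩
  have hCs : ∀ x y i, cls x = some i → C x y = kc cls x y := by
    intro x y i hx
    rw [hC, if_neg, if_neg]
    · rintro ⟨-, h, -⟩
      rw [hx] at h; simp at h
    · rintro (⟨⟨-, h, -⟩, -⟩ | ⟨h, -⟩) <;> rw [hx] at h <;> simp at h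
  have hCn : ∀ x y j, cls x = none → cls y = some j → j ≠ 0 → C x y = tCol j := by
    intro x y j hx hy hj
    rw [hC, if_neg, if_neg]
    · exact kc_ns hx hy
    · rintro ⟨-, -, h, -⟩
      rw [hy] at h; simp at h
    · rintro (⟨⟨-, -, h, -⟩, -⟩ | ⟨-, h⟩)
      · rw [hy] at h; simp at h
      · exact hj (hZj y j h hy)
  have hCT : ∀ x y, B x y ∨ (cls x = none ∧ Zp y) →
      C x y = if y ∈ (F x).T then 1 else 2 := by
    intro x y h
    rw [hC, if_pos h]
  have hCR : ∀ x y, M x y → ¬ B x y → C x y = 0 := by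
    intro x y h h'
    rw [hC, if_neg, if_pos h]
    rintro (h2 | ⟨-, h2⟩)
    · exact h' h2
    · exact hZM x y h2 h
  have hne12 : ∀ (x y : V), (if y ∈ (F x).T then (1 : Fin 3) else 2) ≠ 0 := by
    intro x y
    split_ifs <;> decide
  have h0iff : ∀ x y, D x y → (C x y = 0 ↔ c x y = 0) := by
    intro x y hxy
    by_cases h1 : B x y
    · rw [hCT x y (Or.inl h1)]
      exact ⟨fun h => absurd h (hne12 x y), fun h => absurd h h1.2⟩
    by_cases h2 : cls x = none ∧ Zp y
    · rw [hCT x y (Or.inr h2), hc0 x y (hZM x y h2.2)]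
      refine ⟨fun h => absurd h (hne12 x y), fun h => ?_⟩
      rcases (hZp y).1 h2.2 with h3 | h3
      · rw [kc_ns h2.1 h3] at h
        exact absurd h (by decide)
      · rw [kc_nn h2.1 h3.1] at h
        exact absurd h (by decide)
    by_cases h3 : M x y
    · rw [hCR x y h3 h1]
      refine ⟨fun _ => ?_, fun _ => rfl⟩
      by_contra h4
      exact h1 ⟨h3, h4⟩
    · rw [hC, if_neg (by rintro (h | h); exacts [h1 h, h2 h]), if_neg h3, hc0 x y h3]
      by_cases h4 : kc cls x y = 0
      · simp [h4]
      · simp [h4]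
  have hsrc : ∀ x i, cls x = some i → ∀ u, D u x → C u x ≠ sCol i := by
    intro x i hx u hux
    rcases hu : cls u with _ | l
    · by_cases hi : i = 0
      · rw [hi] at hx ⊢
        rw [hCT u x (Or.inr ⟨hu, (hZp x).2 (Or.inl hx)⟩)]
        exact hne12 u x
      · rw [hCn u x i hu hx hi]
        exact (s_ne_t i).symm
    · rw [hCs u x l hu, kc_ss hu hx]
      exact kap_src l i
  have hzero : ∀ y u, cls y = some 0 → D y u → C y u = 0 := by
    intro y u hy hyu
    rw [hCs y u 0 hy]
    rcases hu : cls u with _ | l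
    · rw [kc_sn hy hu]; decide
    · rw [kc_ss hy hu]
      apply kap_zero
      · rintro rfl
        exact hind y u 0 hyu hy hu
      · rintro rfl
        exact (hno0 y u hyu hy).1 hu
      · rintro rfl
        exact (hno0 y u hyu hy).2 hu
  have hsnk : ∀ y j, cls y = some j → j ≠ 0 → ∀ u, D y u → C y u ≠ tCol j := by
    intro y j hy hj u hyu
    rw [hCs y u j hy]
    rcases hu : cls u with _ | l
    · rw [kc_sn hy hu]; exact s_ne_t j
    · rw [kc_ss hy hu]
      apply kap_snk j l hj
      rintro rfl
      exact hind y u j hyu hy hu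
  -- degrees of the labels
  have hdegT : ∀ (v : V) (q : Fin 3) (Y : Finset V), cls v = none → Y ⊆ S v → q ≠ 0 →
      (∀ w ∈ S v, (C v w = q ↔ w ∈ Y)) →
      outDeg (fun a b => D a b ∧ C a b = q) v = #(Q v q) + #Y := by
    intro v q Y hv hY hq hYS
    unfold outDeg
    rw [ncard_filter, ← Finset.card_union_of_disjoint]
    · congr 1
      ext w
      simp only [Finset.mem_union, Finset.mem_filter, Finset.mem_univ, true_and]
      constructor
      · rintro ⟨h1, h2⟩
        rcases hw : cls w with _ | l
        · right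
          by_cases hBw : B v w
          · exact (hYS w ((memS v w).2 (Or.inl hBw))).1 h2
          · by_cases hw0 : outDeg D w = 0
            · exact (hYS w ((memS v w).2
                (Or.inr ⟨h1, (hZp w).2 (Or.inr ⟨hw, hw0⟩)⟩))).1 h2
            · rw [hCR v w ⟨h1, hv, hw, hw0⟩ hBw] at h2
              exact absurd h2.symm hq
        · by_cases hl : l = 0
          · rw [hl] at hw
            right
            exact (hYS w ((memS v w).2 (Or.inr ⟨h1, (hZp w).2 (Or.inl hw)⟩))).1 h2
          · left
            rw [hCn v w l hv hw hl] at h2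
            exact (memQ v q w).2 ⟨h1, l, hw, hl, h2⟩
      · rintro (h1 | h1)
        · obtain ⟨h2, j, hj, hj0, hjq⟩ := (memQ v q w).1 h1
          exact ⟨h2, by rw [hCn v w j hv hj hj0, hjq]⟩
        · have h3 := (memS v w).1 (hY h1)
          refine ⟨?_, (hYS w (hY h1)).2 h1⟩
          rcases h3 with h3 | h3
          · exact h3.1.1
          · exact h3.1
    · rw [Finset.disjoint_left]
      intro w h1 h2
      obtain ⟨-, j, hj, hj0, -⟩ := (memQ v q w).1 h1
      rcases (memS v w).1 (hY h2) with h3 | h3
      · have := h3.1.2.2.1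
        rw [hj] at this; simp at this
      · exact hj0 (hZj w j h3.2 hj)
  have hcS : ∀ v w, cls v = none → w ∈ S v → C v w = if w ∈ (F v).T then 1 else 2 := by
    intro v w hv hw
    rcases (memS v w).1 hw with h | h
    · exact hCT v w (Or.inl h)
    · exact hCT v w (Or.inr ⟨hv, h.2⟩)
  have hout1 : ∀ v, cls v = none → outDeg (fun a b => D a b ∧ C a b = 1) v = (F v).a := by
    intro v hv
    obtain ⟨⟨e1, e2, e3⟩, -⟩ := hF v
    rw [e2, hf1]
    refine hdegT v 1 (F v).T hv e1 (by decide) fun w hw => ?_
    rw [hcS v w hv hw]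
    split_ifs with h
    · simp [h]
    · simp [h]
  have hout2 : ∀ v, cls v = none → outDeg (fun a b => D a b ∧ C a b = 2) v = (F v).b := by
    intro v hv
    obtain ⟨⟨e1, e2, e3⟩, -⟩ := hF v
    rw [e3, hf2]
    refine hdegT v 2 (S v \ (F v).T) hv Finset.sdiff_subset (by decide) fun w hw => ?_
    rw [hcS v w hv hw]
    split_ifs with h
    · simp [h]
    · simp [h, hw]
  have hrel0 : (fun a b => D a b ∧ C a b = 0) = fun a b => D a b ∧ c a b = 0 := by
    funext a b
    apply propext
    constructor
    · rintro ⟨h1, h2⟩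
      exact ⟨h1, (h0iff a b h1).1 h2⟩
    · rintro ⟨h1, h2⟩
      exact ⟨h1, (h0iff a b h1).2 h2⟩
  refine ⟨C, ?_⟩
  rintro i x y ⟨hxy, rfl⟩
  rcases hx : cls x with _ | k
  · rcases hy : cls y with _ | j
    · -- both free
      by_cases hy0 : outDeg D y = 0
      · refine good_of_csink hxy fun u hu => ?_
        exfalso
        rw [outDeg, Set.ncard_eq_zero (Set.toFinite _), Set.eq_empty_iff_forall_notMem] at hy0
        exact hy0 u hu
      have hMxy : M x y := ⟨hxy, hx, hy, hy0⟩
      by_cases hBxy : B x y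
      · obtain ⟨-, h | ⟨h1, h2⟩⟩ := hF x
        · refine good_of_csource hxy fun u hu => ?_
          exfalso
          rw [inDeg, Set.ncard_eq_zero (Set.toFinite _), Set.eq_empty_iff_forall_notMem] at h
          exact h u hu
        · have hyP := (memP x y).2 hBxy
          have hcc := hCT x y (Or.inl hBxy)
          by_cases hT : y ∈ (F x).T
          · rw [if_pos hT] at hcc
            rw [hcc]
            intro heq
            simp only [Prod.mk.injEq] at heq
            rw [hout1 x hx, hout1 y hy] at heq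
            exact h1 y hyP hT heq.1.symm
          · rw [if_neg hT] at hcc
            rw [hcc]
            intro heq
            simp only [Prod.mk.injEq] at heq
            rw [hout2 x hx, hout2 y hy] at heq
            exact h2 y hyP hT heq.1.symm
      · have hcc := hCR x y hMxy hBxy
        have hc00 := (h0iff x y hxy).1 hcc
        rw [hcc, hrel0]
        intro heq
        simp only [Prod.mk.injEq] at heq
        exact hred x y hMxy hc00 heq
    · by_cases hj : j = 0
      · rw [hj] at hy
        refine good_of_csink hxy fun u hu => ?_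
        rw [hzero y u hy hu, hCT x y (Or.inr ⟨hx, (hZp y).2 (Or.inl hy)⟩)]
        exact (hne12 x y).symm
      · refine good_of_csink hxy fun u hu => ?_
        rw [hCn x y j hx hy hj]
        exact hsnk y j hy hj u hu
  · by_cases hcx : C x y = sCol k
    · refine good_of_csource hxy fun u hu => ?_
      rw [hcx]
      exact hsrc x k hx u hu
    · have h1 := hCs x y k hx
      rcases hy : cls y with _ | j
      · rw [kc_sn hx hy] at h1
        exact absurd h1 hcx
      · rw [kc_ss hx hy] at h1
        have hkj : k ≠ j := by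
          rintro rfl
          exact hind x y k hxy hx hy
        have hk56 : ¬ (k = 0 ∧ (j = 5 ∨ j = 6)) := by
          rintro ⟨rfl, rfl | rfl⟩
          · exact (hno0 x y hxy hx).1 hy
          · exact (hno0 x y hxy hx).2 hy
        rcases kap_good k j hkj hk56 with h | ⟨hj, h⟩ | ⟨hj, h⟩
        · exact absurd (h1.trans h) hcx
        · refine good_of_csink hxy fun u hu => ?_
          rw [h1, h]
          exact hsnk y j hy hj u hu
        · refine good_of_csink hxy fun u hu => ?_
          rw [h1, hzero y u (by rw [← hj]; exact hy) hu]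
          exact h.symm

end Pool.Agent.H35.Lir
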