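import Pool.Agent.H35.Lir.Conds
import Pool.Agent.H35.Lir.Roles
import Pool.Agent.H35.Lir.Resolve

/-!
Digraphs with a partition into two classes of protected vertices (all arcs entering a vertex of
class `i` get colour `i`) and a set of free vertices inducing an acyclic digraph.
-/

namespace Pool.Agent.H35.Lir

open Finset

variable {V : Type}

/-- data chosen at a vertex -/
structure Lbl (V : Type) where
  a : ℕ
  b : ℕ
  T : Finset V

theorem exists_typed [Fintype V] (D : V → V → Prop) (t : V → Option (Fin 2))
    (ht : GoodTyping D t) : ∃ c : V → V → Fin 2, IsWLIColouring D c := by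
  classical
  obtain ⟨hac, ha, hb, hpt⟩ := ht
  obtain ⟨ρ, hρ⟩ := exists_rank (fun a b => D a b ∧ t a = none ∧ t b = none) hac
  obtain ⟨P, hP⟩ : ∃ P : V → Finset V, ∀ v, P v = ({w | D v w ∧ t w = none} : Finset V) :=
    ⟨_, fun _ => rfl⟩
  have memP : ∀ v w, w ∈ P v ↔ D v w ∧ t w = none := by
    intro v w; rw [hP]; simp
  have htn : ∀ v, typeDeg D t v none = #(P v) := by
    intro v
    rw [hP, typeDeg, ncard_filter]
  have hti : ∀ v i, typeDeg D t v (some i) = #({w | D v w ∧ t w = some i} : Finset V) := by
    intro v i
    rw [typeDeg, ncard_filter]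
  have hz : ∀ i : Fin 2, i = 0 ∨ i = 1 := by decide
  have hsum : ∀ v, typeDeg D t v (some 0) + typeDeg D t v (some 1) + #(P v) = outDeg D v := by
    intro v
    rw [← outDeg_card, hti, hti, hP]
    rw [← Finset.card_union_of_disjoint, ← Finset.card_union_of_disjoint]
    · congr 1
      ext w
      simp only [Finset.mem_union, Finset.mem_filter, Finset.mem_univ, true_and]
      constructor
      · rintro ((h | h) | h) <;> exact h.1
      · intro h
        rcases h0 : t w with _ | i
        · exact Or.inr ⟨h, rfl⟩
        · rcases hz i with rfl | rfl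
          · exact Or.inl (Or.inl ⟨h, rfl⟩)
          · exact Or.inl (Or.inr ⟨h, rfl⟩)
    · rw [Finset.disjoint_left]
      intro w e1 e2
      simp only [Finset.mem_union, Finset.mem_filter, Finset.mem_univ, true_and] at e1 e2
      rcases e1 with e | e
      · rw [e2.2] at e; simp at e
      · rw [e2.2] at e; simp at e
    · rw [Finset.disjoint_left]
      intro w e1 e2
      simp only [Finset.mem_filter, Finset.mem_univ, true_and] at e1 e2
      rw [e2.2] at e1; simp at e1
  obtain ⟨F, hF⟩ := exists_rec ρ (fun v (x : Lbl V) g => t v = none →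
    (x.T ⊆ P v ∧ x.a = typeDeg D t v (some 0) + #x.T ∧
      x.b = typeDeg D t v (some 1) + #(P v \ x.T)) ∧
    (inDeg D v = 0 ∨ ((∀ w ∈ P v, w ∈ x.T → (g w).a ≠ x.a) ∧
      ∀ w ∈ P v, w ∉ x.T → (g w).b ≠ x.b)))
    (by
      intro v x g g' hg h0 hv
      obtain ⟨h1, h2⟩ := h0 hv
      have hgP : ∀ w ∈ P v, g w = g' w := fun w hw =>
        hg w (hρ v w ⟨((memP v w).1 hw).1, hv, ((memP v w).1 hw).2⟩)
      refine ⟨h1, ?_⟩
      rcases h2 with h | ⟨e1, e2⟩
      · exact Or.inl h
      · refine Or.inr ⟨fun w hw hwT => ?_, fun w hw hwT => ?_⟩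
        · rw [← hgP w hw]; exact e1 w hw hwT
        · rw [← hgP w hw]; exact e2 w hw hwT)
    (fun _ => ⟨0, 0, ∅⟩)
    (by
      intro v g hg
      by_cases hv : t v = none
      swap
      · exact ⟨⟨0, 0, ∅⟩, fun h => absurd h hv⟩
      by_cases hsrc : inDeg D v = 0
      · exact ⟨⟨typeDeg D t v (some 0) + #(∅ : Finset V),
          typeDeg D t v (some 1) + #(P v \ ∅), ∅⟩,
          fun _ => ⟨⟨Finset.empty_subset _, rfl, rfl⟩, Or.inl hsrc⟩⟩
      have hst : ∀ w ∈ P v, (g w).a + (g w).b = outDeg D w := by
        intro w hw
        have hvw := (memP v w).1 hw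
        obtain ⟨⟨e1, e2, e3⟩, -⟩ := hg w (hρ v w ⟨hvw.1, hv, hvw.2⟩) hvw.2
        have h5 := Finset.card_sdiff_add_card_eq_card e1
        rw [e2, e3, ← hsum w]
        omega
      obtain ⟨f0, hf0⟩ : ∃ f0, f0 = typeDeg D t v (some 0) := ⟨_, rfl⟩
      obtain ⟨f1, hf1⟩ : ∃ f1, f1 = typeDeg D t v (some 1) := ⟨_, rfl⟩
      have hN : outDeg D v = f0 + f1 + #(P v) := by
        rw [hf0, hf1]; exact (hsum v).symm
      have hncard : {w | D v w ∧ w ∉ {w | t w ≠ none}}.ncard = #(P v) := by
        rw [hP, ← ncard_filter]
        congr 1
        ext w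
        simp
      have mPC : ∀ w, w ∈ P v ↔ D v w ∧ w ∉ {w | t w ≠ none} := by
        intro w
        rw [memP]
        simp
      set a' : V → ℕ := fun w => if f0 ≤ (g w).a then (g w).a - f0 else 2 * #(P v) + 1 with ha'
      set b' : V → ℕ := fun w => if f1 ≤ (g w).b then (g w).b - f1 else 2 * #(P v) + 1 with hb'
      have hval : ∀ w ∈ P v, a' w + b' w ≤ 2 * #(P v) →
          outDeg D w = a' w + b' w + f0 + f1 := by
        intro w hw hle
        have hw2 := hst w hw
        simp only [ha', hb'] at hle ⊢
        split_ifs at hle ⊢ <;> omega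
      have hnp : ¬ Pattern (P v) (fun w => a' w + b' w) := by
        intro hp
        apply hpt v hv hsrc
        unfold Pattern at hp
        beta_reduce at hp
        unfold RelPattern
        rw [hncard]
        rcases hp with ⟨p, hp, e1, e2⟩ | ⟨h3, p, hp, q, hq, r, hr, n1, n2, n3, e1, e2⟩
        · left
          refine ⟨p, (mPC p).1 hp, ?_, fun w hw hne => ?_⟩
          · have := hval p hp (by omega)
            omega
          · have h4 := e2 w ((mPC w).2 hw) hne
            have := hval w ((mPC w).2 hw) (by omega)
            omega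
        · right
          refine ⟨h3, p, q, r, (mPC p).1 hp, (mPC q).1 hq, (mPC r).1 hr, n1, n2, n3,
            fun w hw m1 m2 m3 => ?_, ?_⟩
          · have h4 := e1 w ((mPC w).2 hw) m1 m2 m3
            have := hval w ((mPC w).2 hw) (by omega)
            omega
          · rcases e2 with ⟨g1, g2, g3⟩ | ⟨g1, g2, g3⟩
            · left
              have k1 := hval p hp (by omega)
              have k2 := hval q hq (by omega)
              have k3 := hval r hr (by omega)
              omega
            · right
              have k1 := hval p hp (by omega)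
              have k2 := hval q hq (by omega)
              have k3 := hval r hr (by omega)
              omega
      obtain ⟨T', hT', -, hT1, hT2⟩ := local_split (P v) (P v) subset_rfl a' b' ∅
        (Or.inr (Or.inr ⟨rfl, hnp⟩))
      refine ⟨⟨f0 + #T', f1 + #(P v \ T'), T'⟩, fun _ => ⟨⟨hT', by rw [hf0], by rw [hf1]⟩,
        Or.inr ⟨fun w hw hwT he => ?_, fun w hw hwT he => ?_⟩⟩⟩
      · apply hT1 w hw hwT
        simp only at he
        simp only [ha']
        rw [if_pos (by omega)]
        omega
      · apply hT2 w hw hwT
        simp only at he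
        simp only [hb']
        rw [if_pos (by omega)]
        omega)
  -- the colouring
  set c : V → V → Fin 2 := fun v w =>
    match t w, t v with
    | some i, _ => i
    | none, some j => fl j
    | none, none => if w ∈ (F v).T then 0 else 1 with hc
  have cw : ∀ v w i, t w = some i → c v w = i := by
    intro v w i h
    simp only [hc, h]
  have cv : ∀ v w j, t w = none → t v = some j → c v w = fl j := by
    intro v w j h h'
    simp only [hc, h, h']
  have cn : ∀ v w, t w = none → t v = none → c v w = if w ∈ (F v).T then 0 else 1 := by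
    intro v w h h'
    simp only [hc, h, h']
  have hfl : ∀ j : Fin 2, fl j ≠ j := by decide
  have hin_le : ∀ v i, inDeg (fun a b => D a b ∧ c a b = i) v ≤ inDeg D v := by
    intro v i
    exact Set.ncard_le_ncard (fun u hu => hu.1) (Set.toFinite _)
  have hin_eq : ∀ v i, t v = some i → inDeg (fun a b => D a b ∧ c a b = i) v = inDeg D v := by
    intro v i hv
    unfold inDeg
    congr 1
    ext u
    simp only [Set.mem_ofPred_eq, and_iff_left_iff_imp]
    intro _
    exact cw u v i hv
  have hout_typed : ∀ v i, t v = some i →
      outDeg (fun a b => D a b ∧ c a b = i) v = typeDeg D t v (some i) := by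
    intro v i hv
    unfold outDeg typeDeg
    congr 1
    ext w
    simp only [Set.mem_ofPred_eq, and_congr_right_iff]
    intro hvw
    rcases hw : t w with _ | j
    · rw [cv v w i hw hv]
      simp [hfl i]
    · rw [cw v w j hw]
      simp
  have hout0 : ∀ v, t v = none → outDeg (fun a b => D a b ∧ c a b = 0) v = (F v).a := by
    intro v hv
    obtain ⟨⟨e1, e2, e3⟩, -⟩ := hF v hv
    rw [e2, hti]
    unfold outDeg
    rw [ncard_filter, ← Finset.card_union_of_disjoint]
    · congr 1
      ext w
      simp only [Finset.mem_union, Finset.mem_filter, Finset.mem_univ, true_and]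
      constructor
      · rintro ⟨h1, h2⟩
        rcases hw : t w with _ | j
        · right
          rw [cn v w hw hv] at h2
          by_contra h3
          rw [if_neg h3] at h2
          exact absurd h2 (by decide)
        · left
          rw [cw v w j hw] at h2
          exact ⟨h1, by rw [h2]⟩
      · rintro (⟨h1, h2⟩ | h1)
        · exact ⟨h1, cw v w 0 h2⟩
        · have h3 := (memP v w).1 (e1 h1)
          refine ⟨h3.1, ?_⟩
          rw [cn v w h3.2 hv, if_pos h1]
    · rw [Finset.disjoint_left]
      intro w h1 h2
      simp only [Finset.mem_filter, Finset.mem_univ, true_and] at h1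
      have h3 := ((memP v w).1 (e1 h2)).2
      rw [h3] at h1
      simp at h1
  have hout1 : ∀ v, t v = none → outDeg (fun a b => D a b ∧ c a b = 1) v = (F v).b := by
    intro v hv
    obtain ⟨⟨e1, e2, e3⟩, -⟩ := hF v hv
    rw [e3, hti]
    unfold outDeg
    rw [ncard_filter, ← Finset.card_union_of_disjoint]
    · congr 1
      ext w
      simp only [Finset.mem_union, Finset.mem_filter, Finset.mem_univ, true_and,
        Finset.mem_sdiff]
      constructor
      · rintro ⟨h1, h2⟩
        rcases hw : t w with _ | j
        · right
          refine ⟨(memP v w).2 ⟨h1, hw⟩, fun h3 => ?_⟩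
          rw [cn v w hw hv, if_pos h3] at h2
          exact absurd h2 (by decide)
        · left
          rw [cw v w j hw] at h2
          exact ⟨h1, by rw [h2]⟩
      · rintro (⟨h1, h2⟩ | ⟨h1, h4⟩)
        · exact ⟨h1, cw v w 1 h2⟩
        · have h3 := (memP v w).1 h1
          refine ⟨h3.1, ?_⟩
          rw [cn v w h3.2 hv, if_neg h4]
    · rw [Finset.disjoint_left]
      intro w h1 h2
      simp only [Finset.mem_filter, Finset.mem_univ, true_and] at h1
      have h3 := ((memP v w).1 (Finset.mem_sdiff.1 h2).1).2
      rw [h3] at h1
      simp at h1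
  have hrange : ∀ v i, t v = none →
      typeDeg D t v (some i) ≤ outDeg (fun a b => D a b ∧ c a b = i) v ∧
      outDeg (fun a b => D a b ∧ c a b = i) v ≤
        typeDeg D t v (some i) + typeDeg D t v none := by
    intro v i hv
    obtain ⟨⟨e1, e2, e3⟩, -⟩ := hF v hv
    have h5 := Finset.card_sdiff_add_card_eq_card e1
    rcases hz i with rfl | rfl
    · rw [hout0 v hv, e2, htn]
      omega
    · rw [hout1 v hv, e3, htn]
      omega
  refine ⟨c, ?_⟩
  rintro i x y ⟨hxy, rfl⟩
  rcases hy : t y with _ | j
  · rcases hx : t x with _ | k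
    · -- both free
      have hyP := (memP x y).2 ⟨hxy, hy⟩
      obtain ⟨-, h | ⟨h1, h2⟩⟩ := hF x hx
      · refine good_of_csource hxy fun u hu => ?_
        have h3 : inDeg D x ≠ 0 := by
          intro h4
          rw [inDeg, Set.ncard_eq_zero (Set.toFinite _), Set.eq_empty_iff_forall_notMem] at h4
          exact h4 u hu
        exact absurd h h3
      · have hcc := cn x y hy hx
        by_cases hT : y ∈ (F x).T
        · rw [if_pos hT] at hcc
          rw [hcc]
          intro heq
          simp only [Prod.mk.injEq] at heq
          rw [hout0 x hx, hout0 y hy] at heq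
          exact h1 y hyP hT heq.1.symm
        · rw [if_neg hT] at hcc
          rw [hcc]
          intro heq
          simp only [Prod.mk.injEq] at heq
          rw [hout1 x hx, hout1 y hy] at heq
          exact h2 y hyP hT heq.1.symm
    · refine good_of_csource hxy fun u hu => ?_
      rw [cw u x k hx, cv x y k hy hx]
      exact (hfl k).symm
  · rcases hx : t x with _ | k
    · have hcc := cw x y j hy
      rw [hcc]
      intro heq
      simp only [Prod.mk.injEq] at heq
      have h1 := hin_eq y j hy
      have h2 := hin_le x j
      have h3 := hout_typed y j hy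
      have h4 := hrange x j hx
      have h5 : 0 < outDeg (fun a b => D a b ∧ c a b = j) x := by
        unfold outDeg
        rw [Set.ncard_pos (Set.toFinite _)]
        exact ⟨y, hxy, hcc⟩
      by_cases hsrc : inDeg D x = 0
      · have h6 : inDeg D y ≠ 0 := by
          intro h4
          rw [inDeg, Set.ncard_eq_zero (Set.toFinite _), Set.eq_empty_iff_forall_notMem] at h4
          exact h4 x hxy
        omega
      · rcases hb x y j hx hsrc hxy hy with h | h | h | h <;> omega
    · by_cases hjk : k = j
      · subst hjk
        have hcc := cw x y k hy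
        rw [hcc]
        intro heq
        simp only [Prod.mk.injEq] at heq
        have h1 := hin_eq y k hy
        have h2 := hin_eq x k hx
        have h3 := hout_typed y k hy
        have h4 := hout_typed x k hx
        rcases ha x y k hxy hx hy with h | h <;> omega
      · refine good_of_csource hxy fun u hu => ?_
        rw [cw u x k hx, cw x y j hy]
        exact hjk

end Pool.Agent.H35.Lir
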