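import Pool.Agent.H35.Lir.Conds
import Pool.Agent.H35.Lir.Typed
import Pool.Agent.H35.Lir.Lex
import Pool.Agent.H35.Lir.Kernel
import Pool.Agent.H35.Lir.Types

/-!
Three colours for digraphs with a typed set `L` and a set of free vertices, in which the steep free
vertices have a flexible outneighbour.
-/

namespace Pool.Agent.H35.Lir

open Finset

variable {V : Type}

theorem exists_three_types [Fintype V] (D : V → V → Prop) (hD : ∀ x, ¬ D x x)
    (L : Set V) (s : V → Fin 3 → Fin 3) (hs : Types D L s)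
    (habs : ∀ x y, D x y → x ∉ L → y ∉ L → inDeg D x ≠ 0 → outDeg D x + 2 ≤ outDeg D y →
      ∃ z, D x z ∧ Flex D L s z) :
    ∃ c : V → V → Fin 3, IsWLIColouring D c := by
  classical
  obtain ⟨harc, hzero, htwo⟩ := hs
  have hz2 : ∀ i : Fin 2, i = 0 ∨ i = 1 := by decide
  have hz3 : ∀ i : Fin 3, i = 0 ∨ i = 1 ∨ i = 2 := by decide
  have hz' : ∀ x, ∃ c, x ∈ L → s x c = 0 := by
    intro x
    by_cases hx : x ∈ L
    · obtain ⟨c, hc⟩ := hzero x hx
      exact ⟨c, fun _ => hc⟩
    · exact ⟨0, fun h => absurd h hx⟩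
  have ht' : ∀ x, ∃ c, x ∈ L → s x c = 2 := by
    intro x
    by_cases hx : x ∈ L
    · obtain ⟨c, hc⟩ := htwo x hx
      exact ⟨c, fun _ => hc⟩
    · exact ⟨0, fun h => absurd h hx⟩
  have hk' : ∀ x y, ∃ c, x ∈ L → y ∈ L → D x y → s x c < s y c := by
    intro x y
    by_cases h : x ∈ L ∧ y ∈ L ∧ D x y
    · obtain ⟨c, hc⟩ := harc x h.1 y h.2.1 h.2.2
      exact ⟨c, fun _ _ _ => hc⟩
    · exact ⟨0, fun h1 h2 h3 => absurd ⟨h1, h2, h3⟩ h⟩
  choose z hz using hz'
  choose t ht using ht'
  choose k hk using hk'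
  obtain ⟨kc, hkc⟩ : ∃ kc : V → V → Fin 3, ∀ x y, kc x y =
      if x ∈ L then (if y ∈ L then k x y else z x) else (if y ∈ L then t y else 1) :=
    ⟨_, fun _ _ => rfl⟩
  obtain ⟨Zp, hZp⟩ : ∃ Zp : V → Prop, ∀ z, Zp z ↔ Flex D L s z := ⟨_, fun _ => Iff.rfl⟩
  -- a flexible vertex of `L` has type `(0, 2, 2)`
  have hZ0 : ∀ y, y ∈ L → Zp y → s y 0 = 0 := by
    intro y hy hZ
    rcases (hZp y).1 hZ with ⟨-, h1, h2⟩ | ⟨h, -⟩
    · obtain ⟨c, hc⟩ := hzero y hy
      rcases hz3 c with h | h | h
      · rw [h] at hc; exact hc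
      · rw [h, h1] at hc; exact absurd hc (by decide)
      · rw [h, h2] at hc; exact absurd hc (by decide)
    · exact absurd hy h
  have hkcZ : ∀ x y, x ∉ L → Zp y → kc x y ≠ 0 := by
    intro x y hx hZ
    rw [hkc, if_neg hx]
    by_cases hy : y ∈ L
    · rw [if_pos hy]
      intro h
      have h1 := ht y hy
      rw [h, hZ0 y hy hZ] at h1
      exact absurd h1 (by decide)
    · rw [if_neg hy]
      decide
  set M : V → V → Prop := fun x y => D x y ∧ x ∉ L ∧ y ∉ L ∧ outDeg D y ≠ 0 with hM
  have hZM : ∀ x z, Zp z → ¬ M x z := by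
    rintro x z hz ⟨-, -, h1, h2⟩
    rcases (hZp z).1 hz with h | h
    · exact h1 h.1
    · exact h2 h.2
  obtain ⟨c, hc0, hblue, hred⟩ := exists_max_lex D hD M (fun x y h => h.1)
    (fun x y => if kc x y = 0 then 0 else 1)
  set B : V → V → Prop := fun x y => M x y ∧ c x y ≠ 0 with hB
  set ρ : V → ℕ := fun v => (∑ u, o0 D c u) - o0 D c v with hρdef
  have hole : ∀ v, o0 D c v ≤ ∑ u, o0 D c u := fun v =>
    Finset.single_le_sum (f := o0 D c) (fun _ _ => Nat.zero_le _) (Finset.mem_univ v)
  have hρ : ∀ x y, B x y → ρ y < ρ x := by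
    rintro x y ⟨hxy, h0⟩
    have h1 := hblue x y hxy h0
    have h2 := hole x
    have h3 := hole y
    simp only [hρdef]
    omega
  -- the sets
  obtain ⟨P, hP⟩ : ∃ P : V → Finset V, ∀ v, P v = ({w | B v w} : Finset V) :=
    ⟨_, fun _ => rfl⟩
  obtain ⟨S, hS⟩ : ∃ S : V → Finset V, ∀ v,
      S v = ({w | B v w ∨ (D v w ∧ Zp w)} : Finset V) := ⟨_, fun _ => rfl⟩
  obtain ⟨Q, hQ⟩ : ∃ Q : V → Fin 3 → Finset V, ∀ v q,
      Q v q = ({w | D v w ∧ w ∈ L ∧ ¬ Zp w ∧ t w = q} : Finset V) :=
    ⟨_, fun _ _ => rfl⟩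
  have memP : ∀ v w, w ∈ P v ↔ B v w := by
    intro v w; rw [hP]; simp
  have memS : ∀ v w, w ∈ S v ↔ B v w ∨ (D v w ∧ Zp w) := by
    intro v w; rw [hS]; simp
  have memQ : ∀ v q w, w ∈ Q v q ↔ D v w ∧ w ∈ L ∧ ¬ Zp w ∧ t w = q := by
    intro v q w; rw [hQ]; simp
  have hPS : ∀ v, P v ⊆ S v := by
    intro v w hw
    rw [memS]
    exact Or.inl ((memP v w).1 hw)
  have hQS : ∀ v q w, w ∈ Q v q → w ∉ S v := by
    intro v q w h1 h2
    obtain ⟨-, hL, hZ, -⟩ := (memQ v q w).1 h1
    rcases (memS v w).1 h2 with h | h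
    · exact h.1.2.2.1 hL
    · exact hZ h.2
  have hkcQ : ∀ v w, v ∉ L → w ∈ L → kc v w = t w := by
    intro v w hv hw
    rw [hkc, if_neg hv, if_pos hw]
  have hnM : ∀ v w, w ∈ L → ¬ M v w := fun v w hw h => h.2.2.1 hw
  -- number of arcs leaving a free vertex
  have hsum : ∀ v, v ∉ L → o0 D c v + (#(Q v 1) + #(Q v 2) + #(S v)) = outDeg D v := by
    intro v hv
    have e0 : o0 D c v = #({w | D v w ∧ c v w = 0} : Finset V) := by
      unfold o0 outDeg
      rw [ncard_filter]
    have d1 : Disjoint (Q v 1) (Q v 2) := by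
      rw [Finset.disjoint_left]
      intro w h1 h2
      have e1 := ((memQ v 1 w).1 h1).2.2.2
      have e2 := ((memQ v 2 w).1 h2).2.2.2
      rw [e1] at e2
      exact absurd e2 (by decide)
    have d2 : Disjoint (Q v 1 ∪ Q v 2) (S v) := by
      rw [Finset.disjoint_left]
      intro w h1 h2
      rcases Finset.mem_union.1 h1 with h | h
      · exact hQS v _ w h h2
      · exact hQS v _ w h h2
    have hcne : ∀ w, w ∈ Q v 1 ∪ Q v 2 ∪ S v → c v w ≠ 0 := by
      intro w hw
      have hq : ∀ q, q ≠ 0 → w ∈ Q v q → c v w ≠ 0 := by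
        intro q hq0 h
        obtain ⟨h1, h2, h3, h4⟩ := (memQ v q w).1 h
        rw [hc0 v w (hnM v w h2), hkcQ v w hv h2, h4, if_neg hq0]
        decide
      rcases Finset.mem_union.1 hw with h | h
      · rcases Finset.mem_union.1 h with h | h
        · exact hq 1 (by decide) h
        · exact hq 2 (by decide) h
      · rcases (memS v w).1 h with h | h
        · exact h.2
        · rw [hc0 v w (hZM v w h.2), if_neg (hkcZ v w hv h.2)]
          decide
    have d3 : Disjoint ({w | D v w ∧ c v w = 0} : Finset V) (Q v 1 ∪ Q v 2 ∪ S v) := by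
      rw [Finset.disjoint_left]
      intro w h1 h2
      simp only [Finset.mem_filter, Finset.mem_univ, true_and] at h1
      exact hcne w h2 h1.2
    rw [e0, ← outDeg_card, ← Finset.card_union_of_disjoint d1, ← Finset.card_union_of_disjoint d2,
      ← Finset.card_union_of_disjoint d3]
    congr 1
    ext w
    simp only [Finset.mem_union, Finset.mem_filter, Finset.mem_univ, true_and]
    constructor
    · rintro (h | ((h | h) | h))
      · exact h.1
      · exact ((memQ v _ w).1 h).1
      · exact ((memQ v _ w).1 h).1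
      · rcases (memS v w).1 h with h | h
        · exact h.1.1
        · exact h.1
    · intro hvw
      by_cases hZ : Zp w
      · right; right
        exact (memS v w).2 (Or.inr ⟨hvw, hZ⟩)
      by_cases hw : w ∈ L
      · rcases hz3 (t w) with h | h | h
        · left
          refine ⟨hvw, ?_⟩
          rw [hc0 v w (hnM v w hw), hkcQ v w hv hw, if_pos h]
        · right; left; left
          exact (memQ v 1 w).2 ⟨hvw, hw, hZ, h⟩
        · right; left; right
          exact (memQ v 2 w).2 ⟨hvw, hw, hZ, h⟩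
      · rcases hz2 (c v w) with h | h
        · exact Or.inl ⟨hvw, h⟩
        · right; right
          have h0 : outDeg D w ≠ 0 := fun h0 => hZ ((hZp w).2 (Or.inr ⟨hw, h0⟩))
          exact (memS v w).2 (Or.inl ⟨⟨hvw, hv, hw, h0⟩, by rw [h]; decide⟩)
  obtain ⟨f1, hf1⟩ : ∃ f1 : V → ℕ, ∀ v, f1 v = #(Q v 1) := ⟨_, fun _ => rfl⟩
  obtain ⟨f2, hf2⟩ : ∃ f2 : V → ℕ, ∀ v, f2 v = #(Q v 2) := ⟨_, fun _ => rfl⟩
  obtain ⟨F, hF⟩ := exists_rec ρ (fun v (x : Lbl V) g =>
    (x.T ⊆ S v ∧ x.a = f1 v + #x.T ∧ x.b = f2 v + #(S v \ x.T)) ∧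
    (inDeg D v = 0 ∨ ((∀ w ∈ P v, w ∈ x.T → (g w).a ≠ x.a) ∧
      ∀ w ∈ P v, w ∉ x.T → (g w).b ≠ x.b)))
    (by
      intro v x g g' hg ⟨h1, h2⟩
      have hgP : ∀ w ∈ P v, g w = g' w := fun w hw => hg w (hρ v w ((memP v w).1 hw))
      refine ⟨h1, ?_⟩
      rcases h2 with h | ⟨e1, e2⟩
      · exact Or.inl h
      · refine Or.inr ⟨fun w hw hwT => ?_, fun w hw hwT => ?_⟩
        · rw [← hgP w hw]; exact e1 w hw hwT
        · rw [← hgP w hw]; exact e2 w hw hwT)
    (fun _ => ⟨0, 0, ∅⟩)
    (by
      intro v g hg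
      by_cases hemp : inDeg D v = 0 ∨ P v = ∅
      · refine ⟨⟨f1 v + #(∅ : Finset V), f2 v + #(S v \ ∅), ∅⟩,
          ⟨Finset.empty_subset _, rfl, rfl⟩, ?_⟩
        rcases hemp with h | h
        · exact Or.inl h
        · right
          rw [h]
          exact ⟨fun w hw => absurd hw (Finset.notMem_empty _),
            fun w hw => absurd hw (Finset.notMem_empty _)⟩
      push Not at hemp
      obtain ⟨hsrc, hne⟩ := hemp
      obtain ⟨w0, hw0⟩ := hne
      have hv : v ∉ L := ((memP v w0).1 hw0).1.2.1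
      obtain ⟨m, hm⟩ : ∃ m, m = 2 * #(S v) + 1 := ⟨_, rfl⟩
      have hpre : #(∅ : Finset ℕ) + #(P v) < #(S v) ∨ (P v = ∅ ∧ #(∅ : Finset ℕ) ≤ #(S v)) ∨
          ((∅ : Finset ℕ) = ∅ ∧ ¬ Pattern (S v)
            (fun w => (if f1 v ≤ (g w).a then (g w).a - f1 v else m) +
              (if f2 v ≤ (g w).b then (g w).b - f2 v else m))) := by
        by_cases hz : ∃ z, D v z ∧ Zp z
        · left
          obtain ⟨z, hvz, hz⟩ := hz
          have hlt : #(P v) < #(S v) := by
            apply Finset.card_lt_card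
            rw [Finset.ssubset_iff_of_subset (hPS v)]
            refine ⟨z, (memS v z).2 (Or.inr ⟨hvz, hz⟩), fun h => ?_⟩
            exact hZM v z hz ((memP v z).1 h).1
          simpa using hlt
        · right; right
          refine ⟨rfl, fun hp => ?_⟩
          obtain ⟨u, hu, hu1, hu2⟩ := pattern_big hp
          have huB : B v u := by
            rcases (memS v u).1 hu with h | h
            · exact h
            · exact absurd ⟨u, h⟩ hz
          have huc := huB.1.2.2.1
          obtain ⟨⟨e1, e2, e3⟩, -⟩ := hg u (hρ v u huB)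
          have h5 := Finset.card_sdiff_add_card_eq_card e1
          have h6 := hsum u huc
          have h7 := hsum v hv
          have h8 := hblue v u huB.1 huB.2
          rw [← hf1, ← hf2] at h6 h7
          have h9 : f1 v ≤ (g u).a := by
            by_contra h
            rw [if_neg h] at hu2
            omega
          have h10 : f2 v ≤ (g u).b := by
            by_contra h
            rw [if_neg h] at hu2
            omega
          rw [if_pos h9, if_pos h10] at hu1
          obtain ⟨z, hvz, hz'⟩ := habs v u huB.1.1 hv huc hsrc (by omega)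
          exact hz ⟨z, hvz, (hZp z).2 hz'⟩
      obtain ⟨T', hT', -, hT1, hT2⟩ := local_split (S v) (P v) (hPS v)
        (fun w => if f1 v ≤ (g w).a then (g w).a - f1 v else m)
        (fun w => if f2 v ≤ (g w).b then (g w).b - f2 v else m) ∅ hpre
      have hTc := Finset.card_le_card hT'
      have hTc2 : #(S v \ T') ≤ #(S v) := Finset.card_le_card Finset.sdiff_subset
      refine ⟨⟨f1 v + #T', f2 v + #(S v \ T'), T'⟩, ⟨hT', rfl, rfl⟩,
        Or.inr ⟨fun w hw hwT he => ?_, fun w hw hwT he => ?_⟩⟩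
      · apply hT1 w hw hwT
        simp only at he
        rw [if_pos (by omega)]
        omega
      · apply hT2 w hw hwT
        simp only at he
        rw [if_pos (by omega)]
        omega)
  -- the colouring
  obtain ⟨C, hC⟩ : ∃ C : V → V → Fin 3, ∀ x y, C x y =
      if B x y ∨ (x ∉ L ∧ Zp y) then (if y ∈ (F x).T then 1 else 2)
      else if M x y then 0 else kc x y := ⟨_, fun _ _ => rfl⟩
  have hCs : ∀ x y, x ∈ L → C x y = kc x y := by
    intro x y hx
    rw [hC, if_neg, if_neg]
    · rintro ⟨-, h, -⟩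
      exact h hx
    · rintro (⟨⟨-, h, -⟩, -⟩ | ⟨h, -⟩) <;> exact h hx
  have hCn : ∀ x y, x ∉ L → y ∈ L → ¬ Zp y → C x y = t y := by
    intro x y hx hy hZ
    rw [hC, if_neg, if_neg (hnM x y hy)]
    · exact hkcQ x y hx hy
    · rintro (⟨h, -⟩ | ⟨-, h⟩)
      · exact hnM x y hy h
      · exact hZ h
  have hCT : ∀ x y, B x y ∨ (x ∉ L ∧ Zp y) →
      C x y = if y ∈ (F x).T then 1 else 2 := by
    intro x y h
    rw [hC, if_pos h]
  have hCR : ∀ x y, M x y → ¬ B x y → C x y = 0 := by
    intro x y h h'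
    rw [hC, if_neg, if_pos h]
    rintro (h2 | ⟨-, h2⟩)
    · exact h' h2
    · exact hZM x y h2 h
  have hne12 : ∀ (x y : V), (if y ∈ (F x).T then (1 : Fin 3) else 2) ≠ 0 := by
    intro x y
    split_ifs <;> decide
  have h0iff : ∀ x y, D x y → (C x y = 0 ↔ c x y = 0) := by
    intro x y hxy
    by_cases h1 : B x y
    · rw [hCT x y (Or.inl h1)]
      exact ⟨fun h => absurd h (hne12 x y), fun h => absurd h h1.2⟩
    by_cases h2 : x ∉ L ∧ Zp y
    · rw [hCT x y (Or.inr h2), hc0 x y (hZM x y h2.2), if_neg (hkcZ x y h2.1 h2.2)]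
      exact ⟨fun h => absurd h (hne12 x y), fun h => absurd h (by decide)⟩
    by_cases h3 : M x y
    · rw [hCR x y h3 h1]
      refine ⟨fun _ => ?_, fun _ => rfl⟩
      by_contra h4
      exact h1 ⟨h3, h4⟩
    · rw [hC, if_neg (by rintro (h | h); exacts [h1 h, h2 h]), if_neg h3, hc0 x y h3]
      by_cases h4 : kc x y = 0
      · simp [h4]
      · simp [h4]
  -- colours of the arcs entering and leaving `L`
  have hCZ : ∀ x y, x ∉ L → y ∈ L → s y (C x y) = 2 := by
    intro x y hx hy
    by_cases hZ : Zp y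
    · rw [hCT x y (Or.inr ⟨hx, hZ⟩)]
      rcases (hZp y).1 hZ with ⟨-, h1, h2⟩ | ⟨h, -⟩
      · split_ifs
        · exact h1
        · exact h2
      · exact absurd hy h
    · rw [hCn x y hx hy hZ]
      exact ht y hy
  have kin : ∀ x ∈ L, ∀ u, D u x → s x (C u x) ≠ 0 := by
    intro x hx u hux
    by_cases hu : u ∈ L
    · rw [hCs u x hu, hkc, if_pos hu, if_pos hx]
      have := hk u x hu hx hux
      intro h
      rw [h] at this
      exact absurd this (Fin.not_lt_zero _)
    · rw [hCZ u x hu hx]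
      decide
  have kout : ∀ x ∈ L, ∀ u, D x u → s x (C x u) ≠ 2 := by
    intro x hx u hxu
    rw [hCs x u hx, hkc, if_pos hx]
    by_cases hu : u ∈ L
    · rw [if_pos hu]
      have := hk x u hx hu hxu
      intro h
      rw [h] at this
      have h2 := (s u (k x u)).2
      have h3 : (2 : Fin 3).val < (s u (k x u)).val := this
      have h4 : (2 : Fin 3).val = 2 := rfl
      omega
    · rw [if_neg hu, hz x hx]
      decide
  -- degrees of the labels
  have hdegT : ∀ (v : V) (q : Fin 3) (Y : Finset V), v ∉ L → Y ⊆ S v → q ≠ 0 →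
      (∀ w ∈ S v, (C v w = q ↔ w ∈ Y)) →
      outDeg (fun a b => D a b ∧ C a b = q) v = #(Q v q) + #Y := by
    intro v q Y hv hY hq hYS
    unfold outDeg
    rw [ncard_filter, ← Finset.card_union_of_disjoint]
    · congr 1
      ext w
      simp only [Finset.mem_union, Finset.mem_filter, Finset.mem_univ, true_and]
      constructor
      · rintro ⟨h1, h2⟩
        by_cases hZ : Zp w
        · right
          exact (hYS w ((memS v w).2 (Or.inr ⟨h1, hZ⟩))).1 h2
        by_cases hw : w ∈ L
        · left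
          rw [hCn v w hv hw hZ] at h2
          exact (memQ v q w).2 ⟨h1, hw, hZ, h2⟩
        · right
          by_cases hBw : B v w
          · exact (hYS w ((memS v w).2 (Or.inl hBw))).1 h2
          · have hw0 : outDeg D w ≠ 0 := fun h0 => hZ ((hZp w).2 (Or.inr ⟨hw, h0⟩))
            rw [hCR v w ⟨h1, hv, hw, hw0⟩ hBw] at h2
            exact absurd h2.symm hq
      · rintro (h1 | h1)
        · obtain ⟨h2, h3, h4, h5⟩ := (memQ v q w).1 h1
          exact ⟨h2, by rw [hCn v w hv h3 h4, h5]⟩
        · have h3 := (memS v w).1 (hY h1)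
          refine ⟨?_, (hYS w (hY h1)).2 h1⟩
          rcases h3 with h3 | h3
          · exact h3.1.1
          · exact h3.1
    · rw [Finset.disjoint_left]
      intro w h1 h2
      exact hQS v q w h1 (hY h2)
  have hcS : ∀ v w, v ∉ L → w ∈ S v → C v w = if w ∈ (F v).T then 1 else 2 := by
    intro v w hv hw
    rcases (memS v w).1 hw with h | h
    · exact hCT v w (Or.inl h)
    · exact hCT v w (Or.inr ⟨hv, h.2⟩)
  have hout1 : ∀ v, v ∉ L → outDeg (fun a b => D a b ∧ C a b = 1) v = (F v).a := by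
    intro v hv
    obtain ⟨⟨e1, e2, e3⟩, -⟩ := hF v
    rw [e2, hf1]
    refine hdegT v 1 (F v).T hv e1 (by decide) fun w hw => ?_
    rw [hcS v w hv hw]
    split_ifs with h
    · simp [h]
    · simp [h]
  have hout2 : ∀ v, v ∉ L → outDeg (fun a b => D a b ∧ C a b = 2) v = (F v).b := by
    intro v hv
    obtain ⟨⟨e1, e2, e3⟩, -⟩ := hF v
    rw [e3, hf2]
    refine hdegT v 2 (S v \ (F v).T) hv Finset.sdiff_subset (by decide) fun w hw => ?_
    rw [hcS v w hv hw]
    split_ifs with h
    · simp [h]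
    · simp [h, hw]
  have hrel0 : (fun a b => D a b ∧ C a b = 0) = fun a b => D a b ∧ c a b = 0 := by
    funext a b
    apply propext
    constructor
    · rintro ⟨h1, h2⟩
      exact ⟨h1, (h0iff a b h1).1 h2⟩
    · rintro ⟨h1, h2⟩
      exact ⟨h1, (h0iff a b h1).2 h2⟩
  refine ⟨C, ?_⟩
  rintro i x y ⟨hxy, rfl⟩
  by_cases hLL : x ∈ L ∨ y ∈ L
  · by_cases hsx : x ∈ L ∧ s x (C x y) = 0
    · refine good_of_csource hxy fun u hu h => ?_
      have := kin x hsx.1 u hu
      rw [h] at this
      exact this hsx.2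
    · have hy2 : y ∈ L ∧ s y (C x y) = 2 := by
        by_cases hx : x ∈ L
        · have h0 : s x (C x y) ≠ 0 := fun h => hsx ⟨hx, h⟩
          have h2 := kout x hx y hxy
          have e := hCs x y hx
          rw [hkc, if_pos hx] at e
          by_cases hy : y ∈ L
          · refine ⟨hy, ?_⟩
            rw [if_pos hy] at e
            have h3 := hk x y hx hy hxy
            rw [← e] at h3
            rcases hz3 (s x (C x y)) with h | h | h
            · exact absurd h h0
            · rw [h] at h3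
              rcases hz3 (s y (C x y)) with h' | h' | h'
              · rw [h'] at h3; exact absurd h3 (by decide)
              · rw [h'] at h3; exact absurd h3 (by decide)
              · exact h'
            · exact absurd h h2
          · exfalso
            rw [if_neg hy] at e
            rw [e] at h0
            exact h0 (hz x hx)
        · have hy : y ∈ L := by
            rcases hLL with h | h
            · exact absurd h hx
            · exact h
          exact ⟨hy, hCZ x y hx hy⟩
      refine good_of_csink hxy fun u hu h => ?_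
      have := kout y hy2.1 u hu
      rw [h] at this
      exact this hy2.2
  push Not at hLL
  obtain ⟨hx, hy⟩ := hLL
  by_cases hy0 : outDeg D y = 0
  · refine good_of_csink hxy fun u hu => ?_
    exfalso
    rw [outDeg, Set.ncard_eq_zero (Set.toFinite _), Set.eq_empty_iff_forall_notMem] at hy0
    exact hy0 u hu
  have hMxy : M x y := ⟨hxy, hx, hy, hy0⟩
  by_cases hBxy : B x y
  · obtain ⟨-, h | ⟨h1, h2⟩⟩ := hF x
    · refine good_of_csource hxy fun u hu => ?_
      exfalso
      rw [inDeg, Set.ncard_eq_zero (Set.toFinite _), Set.eq_empty_iff_forall_notMem] at h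
      exact h u hu
    · have hyP := (memP x y).2 hBxy
      have hcc := hCT x y (Or.inl hBxy)
      by_cases hT : y ∈ (F x).T
      · rw [if_pos hT] at hcc
        rw [hcc]
        intro heq
        simp only [Prod.mk.injEq] at heq
        rw [hout1 x hx, hout1 y hy] at heq
        exact h1 y hyP hT heq.1.symm
      · rw [if_neg hT] at hcc
        rw [hcc]
        intro heq
        simp only [Prod.mk.injEq] at heq
        rw [hout2 x hx, hout2 y hy] at heq
        exact h2 y hyP hT heq.1.symm
  · have hcc := hCR x y hMxy hBxy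
    have hc00 := (h0iff x y hxy).1 hcc
    rw [hcc, hrel0]
    intro heq
    simp only [Prod.mk.injEq] at heq
    exact hred x y hMxy hc00 heq

end Pool.Agent.H35.Lir
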