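import Pool.Agent.H35.Lir.Conds
import Pool.Agent.H35.Lir.Steep

/-!
Three colours for digraphs whose steep vertices are the union of a set with four-colourable
skeleton and a set inducing a digraph without odd directed cycles.
-/

namespace Pool.Agent.H35.Lir

open Finset

variable {V : Type}

open Classical in
theorem exists_three_steep [Fintype V] (D : V → V → Prop) (hD : ∀ x, ¬ D x x) (W : Set V)
    (φ : V → Fin 4) (hφ : ∀ x ∈ W, ∀ y ∈ W, D x y → φ x ≠ φ y)
    (hodd : ∀ x n, Odd n → ¬ Walk (fun a b => D a b ∧ (Steep D a ∧ a ∉ W) ∧ (Steep D b ∧ b ∉ W))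
      n x x) :
    ∃ c : V → V → Fin 3, IsWLIColouring D c := by
  obtain ⟨K, hKX, hind, habs⟩ := exists_kernel _ hodd
    ({x | Steep D x ∧ x ∉ W} : Finset V)
  have hKs : ∀ x ∈ K, Steep D x ∧ x ∉ W := by
    intro x hx
    have := hKX hx
    simpa using this
  have hKD : ∀ x ∈ K, ∀ y ∈ K, ¬ D x y := by
    intro x hx y hy hxy
    exact hind x hx y hy ⟨hxy, hKs x hx, hKs y hy⟩
  set cls : V → Option (Fin 7) := fun x =>
    if x ∈ K then some 0 else if x ∈ W ∧ outDeg D x ≠ 0 then
      some ⟨(φ x).val + 1, by have := (φ x).2; omega⟩ else none with hcls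
  have c0 : ∀ x, cls x = some 0 → x ∈ K := by
    intro x hx
    by_contra h
    simp only [hcls, if_neg h] at hx
    split_ifs at hx with h2
    simp only [Option.some.injEq] at hx
    have := congrArg Fin.val hx
    simp at this
  have cK : ∀ x, x ∈ K → cls x = some 0 := by
    intro x hx
    simp only [hcls, if_pos hx]
  have cj : ∀ x j, cls x = some j → j ≠ 0 → x ∈ W ∧ j.val = (φ x).val + 1 := by
    intro x j hx hj
    have h : x ∉ K := by
      intro h
      rw [cK x h] at hx
      simp only [Option.some.injEq] at hx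
      exact hj hx.symm
    simp only [hcls, if_neg h] at hx
    split_ifs at hx with h2
    simp only [Option.some.injEq] at hx
    exact ⟨h2.1, by rw [← hx]⟩
  have cn : ∀ x, cls x = none → x ∉ K ∧ (x ∉ W ∨ outDeg D x = 0) := by
    intro x hx
    simp only [hcls] at hx
    split_ifs at hx with h1 h2
    refine ⟨h1, ?_⟩
    by_contra h3
    push Not at h3
    exact h2 h3
  refine exists_three_classes D hD cls ⟨fun x y i hxy hx hy => ?_, fun x y hxy hx => ?_,
    fun x y hxy hx hy hsrc hle => ?_⟩
  · by_cases hi : i = 0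
    · rw [hi] at hx hy
      exact hKD x (c0 x hx) y (c0 y hy) hxy
    · obtain ⟨h1, h2⟩ := cj x i hx hi
      obtain ⟨h3, h4⟩ := cj y i hy hi
      exact hφ x h1 y h3 hxy (Fin.ext (by omega))
  · constructor
    · intro hy
      obtain ⟨-, h⟩ := cj y 5 hy (by decide)
      have h2 := (φ y).2
      have h3 : ((5 : Fin 7) : ℕ) = 5 := rfl
      omega
    · intro hy
      obtain ⟨-, h⟩ := cj y 6 hy (by decide)
      have h2 := (φ y).2
      have h3 : ((6 : Fin 7) : ℕ) = 6 := rfl
      omega
  · obtain ⟨hxK, hxW⟩ := cn x hx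
    have hx0 : outDeg D x ≠ 0 := by
      intro h
      rw [outDeg, Set.ncard_eq_zero (Set.toFinite _), Set.eq_empty_iff_forall_notMem] at h
      exact h y hxy
    have hxW' : x ∉ W := by
      rcases hxW with h | h
      · exact h
      · exact absurd h hx0
    by_cases hs : ∃ z, D x z ∧ outDeg D z = 0
    · obtain ⟨z, hxz, hz⟩ := hs
      refine ⟨z, hxz, Or.inr ⟨?_, hz⟩⟩
      have hzK : z ∉ K := by
        intro h
        obtain ⟨u, hu, hu2⟩ := (hKs z h).1.2.2
        rw [outDeg, Set.ncard_eq_zero (Set.toFinite _), Set.eq_empty_iff_forall_notMem] at hz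
        exact hz u hu
      simp only [hcls, if_neg hzK]
      rw [if_neg]
      exact fun h => h.2 hz
    · push Not at hs
      obtain ⟨z, hzK, hxz⟩ := habs x (by
        simp only [Finset.mem_filter, Finset.mem_univ, true_and]
        exact ⟨⟨hsrc, hs, y, hxy, hle⟩, hxW'⟩) hxK
      exact ⟨z, hxz.1, Or.inl (cK z hzK)⟩

end Pool.Agent.H35.Lir
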