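import Pool.Agent.H35.Lir.Steep4
import Pool.Agent.H35.Lir.SteepCor

/-!
Three colours for digraphs whose steep vertices induce a digraph with outdegrees (or indegrees) at
most three.
-/

namespace Pool.Agent.H35.Lir

open Finset

variable {V : Type}

theorem three_of_steep_types [Fintype V] (D : V → V → Prop) (hD : ∀ x, ¬ D x x)
    (h : ∃ s, Types D {x | Steep D x} s) : ∃ c : V → V → Fin 3, IsWLIColouring D c := by
  obtain ⟨s, hs⟩ := h
  refine exists_three_types D hD {x | Steep D x} s hs fun x y hxy hx hy hsrc hle => ?_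
  have hx' : ¬ Steep D x := hx
  by_contra hcon
  apply hx'
  refine ⟨hsrc, fun z hxz hz => ?_, y, hxy, hle⟩
  apply hcon
  refine ⟨z, hxz, Or.inr ⟨?_, hz⟩⟩
  rintro ⟨-, -, w, hw, -⟩
  rw [outDeg, Set.ncard_eq_zero (Set.toFinite _), Set.eq_empty_iff_forall_notMem] at hz
  exact hz w hw

/-- the steep vertices induce a digraph with outdegrees at most three -/
theorem three_of_steep_out [Fintype V] (D : V → V → Prop) (hD : ∀ x, ¬ D x x)
    (h : ∀ x, Steep D x → outDeg (fun a b => D a b ∧ Steep D b) x ≤ 3) :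
    ∃ c : V → V → Fin 3, IsWLIColouring D c :=
  three_of_steep_types D hD (types_of_outDeg D hD _ h)

/-- the steep vertices induce a digraph with indegrees at most three -/
theorem three_of_steep_in [Fintype V] (D : V → V → Prop) (hD : ∀ x, ¬ D x x)
    (h : ∀ x, Steep D x → inDeg (fun a b => D a b ∧ Steep D a) x ≤ 3) :
    ∃ c : V → V → Fin 3, IsWLIColouring D c :=
  three_of_steep_types D hD (types_of_inDeg D hD _ h)

/-- a kernel -/
theorem three_of_kernel [Fintype V] (D : V → V → Prop) (hD : ∀ x, ¬ D x x) (K : Set V)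
    (hind : ∀ x ∈ K, ∀ y ∈ K, ¬ D x y) (habs : ∀ x, x ∉ K → ∃ y ∈ K, D x y) :
    ∃ c : V → V → Fin 3, IsWLIColouring D c := by
  refine exists_three_types D hD K (fun _ => ![0, 2, 2])
    ⟨fun x hx y hy hxy => absurd hxy (hind x hx y hy), fun _ _ => ⟨0, rfl⟩, fun _ _ => ⟨1, rfl⟩⟩
    fun x y _ hx _ _ _ => ?_
  obtain ⟨z, hz, hxz⟩ := habs x hx
  exact ⟨z, hxz, Or.inl ⟨hz, rfl, rfl⟩⟩

/-- outdegrees (of vertices which are not sources) at most six -/
theorem three_of_outDeg_six [Fintype V] (D : V → V → Prop) (hD : ∀ x, ¬ D x x)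
    (h : ∀ x, inDeg D x ≠ 0 → outDeg D x ≤ 6) : ∃ c : V → V → Fin 3, IsWLIColouring D c := by
  refine three_of_steep_out D hD fun x hx => ?_
  have hpos : ∀ u v, D u v → inDeg D v ≠ 0 := by
    intro u v huv h0
    rw [inDeg, Set.ncard_eq_zero (Set.toFinite _), Set.eq_empty_iff_forall_notMem] at h0
    exact h0 u huv
  obtain ⟨hsrc, -, z, hxz, hz⟩ := hx
  have hz6 := h z (hpos x z hxz)
  have hle : outDeg (fun a b => D a b ∧ Steep D b) x ≤ outDeg D x :=
    Set.ncard_le_ncard (fun y hy => hy.1) (Set.toFinite _)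
  by_cases h3 : outDeg D x ≤ 3
  · omega
  have hzS : ¬ Steep D z := by
    rintro ⟨-, -, w, hzw, hw⟩
    have := h w (hpos z w hzw)
    omega
  have hlt : outDeg (fun a b => D a b ∧ Steep D b) x < outDeg D x := by
    apply Set.ncard_lt_ncard _ (Set.toFinite _)
    refine ⟨fun y hy => hy.1, fun hsub => ?_⟩
    exact hzS (hsub hxz).2
  omega

end Pool.Agent.H35.Lir
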