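import Pool.Agent.H35.Lir.ToggleMCol
import Pool.Agent.H35.Lir.FewestCol

/-!
Corollaries: absorbing sets with three-colourable skeleton, semicomplete digraphs.
-/

namespace Pool.Agent.H35.Lir

open Finset

variable {V : Type} [Fintype V]

open Classical in
theorem three_of_absorbing (D : V → V → Prop) (hD : ∀ x, ¬ D x x) (F : Set V) (φ : V → Fin 3)
    (h1 : ∀ x ∈ F, ∀ y ∈ F, D x y → φ x ≠ φ y)
    (h2 : ∀ x, x ∉ F → inDeg D x ≠ 0 → outDeg D x ≠ 0 → ∃ y, D x y ∧ (y ∈ F ∨ outDeg D y = 0)) :
    ∃ c : V → V → Fin 3, IsWLIColouring D c := by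
  have hun : ∀ x, ¬ Unabsorbed D (fun x => if x ∈ F then some (φ x) else none) x := by
    rintro x ⟨h3, h4, h5, h6⟩
    have hx : x ∉ F := by
      intro hx
      simp only [if_pos hx] at h3
      exact absurd h3 (by simp)
    obtain ⟨y, hxy, hy⟩ := h2 x hx h4 h5
    obtain ⟨h7, h8⟩ := h6 y hxy
    rcases hy with hy | hy
    · simp only [if_pos hy] at h7
      exact absurd h7 (by simp)
    · exact h8 hy
  refine exists_three_absorbing D hD (fun x => if x ∈ F then some (φ x) else none) ⟨?_, ?_, ?_⟩
  · intro x y i hxy hx hy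
    by_cases hxF : x ∈ F
    · by_cases hyF : y ∈ F
      · simp only [if_pos hxF] at hx
        simp only [if_pos hyF] at hy
        exact h1 x hxF y hyF hxy (Option.some.inj (hx.trans hy.symm))
      · simp only [if_neg hyF] at hy
        exact absurd hy (by simp)
    · simp only [if_neg hxF] at hx
      exact absurd hx (by simp)
  · intro x y _ _
    exact hun y
  · intro x hx
    rcases Relation.TransGen.head'_iff.1 hx with ⟨b, hb, -⟩
    exact hun x hb.2.1

open Classical in
theorem semicomplete_set (D : V → V → Prop) (hD : ∀ x, ¬ D x x)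
    (hsc : ∀ x y, x ≠ y → D x y ∨ D y x) :
    ∀ (n : ℕ) (U : Finset V), #U = n → ∃ P ⊆ U, (∀ v ∈ U, v ∉ P → ∃ p ∈ P, D p v) ∧
      ∀ x ∈ P, ∀ y ∈ P, D x y → #(P.filter fun p => D p x) ≠ #(P.filter fun p => D p y) := by
  intro n
  induction n using Nat.strong_induction_on with
  | _ n ih =>
    intro U hU
    rcases U.eq_empty_or_nonempty with hU0 | ⟨x, hx⟩
    · exact ⟨∅, Finset.empty_subset _, by simp [hU0], by simp⟩
    · obtain ⟨U', hU'⟩ : ∃ U', U' = U.filter (fun v => v ≠ x ∧ ¬ D x v) := ⟨_, rfl⟩
      have hsub : U' ⊆ U := by rw [hU']; exact Finset.filter_subset _ _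
      have hxU' : x ∉ U' := by
        rw [hU', Finset.mem_filter]
        rintro ⟨-, h, -⟩
        exact h rfl
      have hlt : #U' < n := by
        rw [← hU]
        exact Finset.card_lt_card ⟨hsub, fun h => hxU' (h hx)⟩
      obtain ⟨P, hPU, hdom, hirr⟩ := ih _ hlt U' rfl
      have hxP : x ∉ P := fun h => hxU' (hPU h)
      have hP : ∀ p ∈ P, p ≠ x ∧ ¬ D x p := by
        intro p hp
        have := hPU hp
        rw [hU', Finset.mem_filter] at this
        exact this.2
      have ex : (insert x P).filter (fun p => D p x) = P := by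
        ext p
        rw [Finset.mem_filter, Finset.mem_insert]
        constructor
        · rintro ⟨rfl | hp, h⟩
          · exact absurd h (hD _)
          · exact hp
        · intro hp
          obtain ⟨h1, h2⟩ := hP p hp
          exact ⟨Or.inr hp, (hsc x p (Ne.symm h1)).resolve_left h2⟩
      have ep : ∀ q ∈ P, (insert x P).filter (fun p => D p q) = P.filter (fun p => D p q) := by
        intro q hq
        rw [Finset.filter_insert, if_neg (hP q hq).2]
      have el : ∀ q ∈ P, #(P.filter (fun p => D p q)) < #P := by
        intro q hq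
        apply Finset.card_lt_card
        refine ⟨Finset.filter_subset _ _, fun h => ?_⟩
        have := h hq
        rw [Finset.mem_filter] at this
        exact hD q this.2
      refine ⟨insert x P, Finset.insert_subset hx (hPU.trans hsub), ?_, ?_⟩
      · intro v hv hvP
        rw [Finset.mem_insert] at hvP
        push Not at hvP
        by_cases h : D x v
        · exact ⟨x, Finset.mem_insert_self _ _, h⟩
        · have hvU : v ∈ U' := by
            rw [hU', Finset.mem_filter]
            exact ⟨hv, hvP.1, h⟩
          obtain ⟨p, hp, hpv⟩ := hdom v hvU hvP.2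
          exact ⟨p, Finset.mem_insert_of_mem hp, hpv⟩
      · intro a ha b hb hab
        rcases Finset.mem_insert.1 ha with ea | ha' <;> rcases Finset.mem_insert.1 hb with eb | hb'
        · rw [ea, eb] at hab
          exact absurd hab (hD x)
        · rw [ea] at hab
          exact absurd hab (hP b hb').2
        · rw [eb, ex, ep a ha']
          exact ne_of_lt (el a ha')
        · rw [ep a ha', ep b hb']
          exact hirr a ha' b hb' hab

open Classical in
theorem three_of_semicomplete (D : V → V → Prop) (hD : ∀ x, ¬ D x x)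
    (hsc : ∀ x y, x ≠ y → D x y ∨ D y x) : ∃ c : V → V → Fin 3, IsWLIColouring D c := by
  obtain ⟨P, -, hdom, hirr⟩ := semicomplete_set D hD hsc _ Finset.univ rfl
  have hin : ∀ x, inDeg (fun a b => D a b ∧ (if a ∈ P then some (0 : Fin 2) else none) ≠ none) x =
      #(P.filter fun p => D p x) := by
    intro x
    rw [inDeg, ← Set.ncard_coe_finset]
    congr 1
    ext w
    simp only [Finset.coe_filter]
    constructor
    · rintro ⟨h1, h2⟩
      by_cases hw : w ∈ P
      · exact ⟨hw, h1⟩
      · rw [if_neg hw] at h2
        exact absurd rfl h2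
    · rintro ⟨h1, h2⟩
      refine ⟨h2, ?_⟩
      rw [if_pos h1]
      simp
  have hmem : ∀ x i, (if x ∈ P then some (0 : Fin 2) else none) = some i → x ∈ P := by
    intro x i h
    by_contra hx
    rw [if_neg hx] at h
    exact absurd h (by simp)
  refine exists_three_domAbs D hD (fun x => if x ∈ P then some 0 else none) ∅ ∅
    ⟨?_, fun q hq => absurd hq (Set.notMem_empty q), fun q hq => absurd hq (Set.notMem_empty q),
      fun q hq => absurd hq (Set.notMem_empty q), fun q hq => absurd hq (Set.notMem_empty q), ?_⟩
  · intro v hv _ _ _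
    left
    have hvP : v ∉ P := by
      intro h
      simp only [if_pos h] at hv
      exact absurd hv (by simp)
    obtain ⟨p, hp, hpv⟩ := hdom v (Finset.mem_univ v) hvP
    refine ⟨p, hpv, ?_, Set.notMem_empty p⟩
    simp only [if_pos hp]
    simp
  · intro x y i hxy hx hy _
    rw [hin, hin]
    exact hirr x (hmem x i hx) y (hmem y i hy) hxy

end Pool.Agent.H35.Lir
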