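import Pool.Agent.H35.Lir.Conds
import Pool.Agent.H35.Lir.Lab

/-!
Tools for digraphs with a dominating set: an order in which each vertex has the fewest inneighbours
among the earlier ones, and labels with at most one conflict at each vertex.
-/

namespace Pool.Agent.H35.Lir.TM

open Finset

theorem sum_fiber_le {α : Type*} [DecidableEq α] (S : Finset α) (f : α → ℕ) (n : ℕ) :
    ∑ j ∈ range (n + 1), #(S.filter fun w => f w = j) ≤ #(S.filter fun w => f w ≤ n) := by
  rw [← Finset.card_biUnion]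
  · apply Finset.card_le_card
    intro w hw
    simp only [Finset.mem_biUnion, Finset.mem_filter, Finset.mem_range] at hw ⊢
    obtain ⟨j, hj, h, h'⟩ := hw
    exact ⟨h, by omega⟩
  · intro i _ j _ hij
    rw [Function.onFun, Finset.disjoint_left]
    intro w hi hj
    rw [Finset.mem_filter] at hi hj
    exact hij (hi.2.symm.trans hj.2)

theorem sum_fiber_le' {α : Type*} [DecidableEq α] (S : Finset α) (f : α → ℕ) (n : ℕ) :
    ∑ j ∈ range (n + 1), #(S.filter fun w => f w = n - j) ≤ #(S.filter fun w => f w ≤ n) := by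
  rw [← Finset.card_biUnion]
  · apply Finset.card_le_card
    intro w hw
    simp only [Finset.mem_biUnion, Finset.mem_filter, Finset.mem_range] at hw ⊢
    obtain ⟨j, hj, h, h'⟩ := hw
    exact ⟨h, by omega⟩
  · intro i hi' j hj' hij
    rw [Function.onFun, Finset.disjoint_left]
    intro w hi hj
    rw [Finset.mem_filter] at hi hj
    have h1 := Finset.mem_range.1 (Finset.mem_coe.1 hi')
    have h2 := Finset.mem_range.1 (Finset.mem_coe.1 hj')
    omega

/-- In a dead situation there is exactly one vertex with first value `#S`, and exactly one with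
second value `#S`. -/
theorem dead_unique {α : Type*} [DecidableEq α] (S : Finset α) (a b : α → ℕ) (hd : 0 < #S)
    (hdead : ∀ j ≤ #S, ¬ (Disjoint (S.filter fun w => a w = j) (S.filter fun w => b w = #S - j) ∧
      #(S.filter fun w => a w = j) ≤ #S - j ∧ #(S.filter fun w => b w = #S - j) ≤ j)) :
    #(S.filter fun w => a w = #S) = 1 ∧ #(S.filter fun w => b w = #S) = 1 ∧
      ∀ w ∈ S, a w ≠ 0 ∧ a w ≤ #S ∧ b w ≤ #S := by
  obtain ⟨n, hn⟩ : ∃ n, #S = n + 1 := ⟨#S - 1, by omega⟩
  rw [hn] at hdead ⊢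
  have hA := sum_fiber_le S a (n + 1)
  have hB := sum_fiber_le' S b (n + 1)
  have hA' := Finset.card_filter_le S (fun w => a w ≤ n + 1)
  have hB' := Finset.card_filter_le S (fun w => b w ≤ n + 1)
  rw [hn] at hA' hB'
  have low : ∀ j ≤ n + 1, 1 ≤ #(S.filter fun w => a w = j) ∨
      1 ≤ #(S.filter fun w => b w = n + 1 - j) := by
    intro j hj
    by_contra hcon
    push Not at hcon
    apply hdead j hj
    refine ⟨?_, by omega, by omega⟩
    rw [Finset.card_eq_zero.1 (by omega : #(S.filter fun w => a w = j) = 0)]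
    exact Finset.disjoint_empty_left _
  have mid : ∀ j, 1 ≤ j → j ≤ n → 2 ≤ #(S.filter fun w => a w = j) +
      #(S.filter fun w => b w = n + 1 - j) := by
    intro j h1 h2
    by_contra hcon
    apply hdead j (by omega)
    refine ⟨?_, by omega, by omega⟩
    by_contra hnd
    rw [Finset.not_disjoint_iff] at hnd
    obtain ⟨w, hw1, hw2⟩ := hnd
    have := Finset.card_pos.2 ⟨w, hw1⟩
    have := Finset.card_pos.2 ⟨w, hw2⟩
    omega
  have h0 : 1 ≤ #(S.filter fun w => b w = n + 1 - 0) := by
    by_contra hcon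
    apply hdead 0 (by omega)
    have e : #(S.filter fun w => b w = n + 1 - 0) = 0 := by omega
    refine ⟨?_, ?_, by omega⟩
    · rw [Finset.card_eq_zero.1 e]
      exact Finset.disjoint_empty_right _
    · have := Finset.card_filter_le S (fun w => a w = 0)
      omega
  have h1 : 1 ≤ #(S.filter fun w => a w = n + 1) := by
    by_contra hcon
    apply hdead (n + 1) le_rfl
    have e : #(S.filter fun w => a w = n + 1) = 0 := by omega
    refine ⟨?_, by omega, ?_⟩
    · rw [Finset.card_eq_zero.1 e]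
      exact Finset.disjoint_empty_left _
    · have := Finset.card_filter_le S (fun w => b w = n + 1 - (n + 1))
      omega
  have hsum : ∑ j ∈ range (n + 1 + 1), (#(S.filter fun w => a w = j) +
      #(S.filter fun w => b w = n + 1 - j)) ≤ #(S.filter fun w => a w ≤ n + 1) +
      #(S.filter fun w => b w ≤ n + 1) := by
    rw [Finset.sum_add_distrib]
    omega
  rw [Finset.sum_range_succ, Finset.sum_range_succ'] at hsum
  have hmid : 2 * n ≤ ∑ j ∈ range n, (#(S.filter fun w => a w = j + 1) +
      #(S.filter fun w => b w = n + 1 - (j + 1))) := by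
    have : ∑ _j ∈ range n, 2 ≤ ∑ j ∈ range n, (#(S.filter fun w => a w = j + 1) +
      #(S.filter fun w => b w = n + 1 - (j + 1))) := by
      apply Finset.sum_le_sum
      intro j hj
      have := Finset.mem_range.1 hj
      exact mid (j + 1) (by omega) (by omega)
    rw [Finset.sum_const, Finset.card_range, smul_eq_mul] at this
    omega
  have e0 : n + 1 - 0 = n + 1 := rfl
  rw [e0] at h0 hsum
  refine ⟨by omega, by omega, fun w hw => ⟨fun h => ?_, ?_, ?_⟩⟩
  · have : 0 < #(S.filter fun w => a w = 0) := Finset.card_pos.2 ⟨w, mem_filter.2 ⟨hw, h⟩⟩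
    omega
  · by_contra hcon
    have : #(S.filter fun w => a w ≤ n + 1) < #S := by
      apply Finset.card_lt_card
      exact ⟨Finset.filter_subset _ _, fun h => hcon (mem_filter.1 (h hw)).2⟩
    omega
  · by_contra hcon
    have : #(S.filter fun w => b w ≤ n + 1) < #S := by
      apply Finset.card_lt_card
      exact ⟨Finset.filter_subset _ _, fun h => hcon (mem_filter.1 (h hw)).2⟩
    omega

variable {V : Type} [Fintype V]

open Classical in
/-- the fewest-in order -/
theorem exists_order (D : V → V → Prop) (N Q : Finset V) (hQN : Q ⊆ N)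
    (hQ : ∀ x ∈ Q, ∀ y ∈ Q, ¬ D x y) :
    ∃ r : V → ℕ, (∀ u ∈ N, ∀ v ∈ N, r u = r v → u = v) ∧
      (∀ q ∈ Q, ∀ v ∈ N, v ∉ Q → r q < r v) ∧
      ∀ u ∈ N, ∀ v ∈ N, r u < r v → D u v →
        #(N.filter fun w => r w < r u ∧ D w u) < #(N.filter fun w => r w < r v ∧ D w v) := by
  have main : ∀ n, #Q ≤ n → n ≤ #N → ∃ T ⊆ N, #T = n ∧ ∃ r : V → ℕ, (∀ v ∈ T, r v < #T) ∧
      (Q ⊆ T ∧ ∀ q ∈ Q, ∀ v ∈ T, v ∉ Q → r q < r v) ∧
      (∀ u ∈ T, ∀ v ∈ T, r u = r v → u = v) ∧
      (∀ u ∈ T, ∀ v ∈ T, r u < r v → D u v →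
        #(T.filter fun w => r w < r u ∧ D w u) < #(T.filter fun w => r w < r v ∧ D w v)) ∧
      ∀ u ∈ T, ∀ x ∈ N \ T, #(T.filter fun w => r w < r u ∧ D w u) ≤ #(T.filter fun w => D w x) ∧
        (D u x → #(T.filter fun w => r w < r u ∧ D w u) < #(T.filter fun w => D w x)) := by
    intro n hn0
    induction n, hn0 using Nat.le_induction with
    | base =>
      intro _
      obtain ⟨r, hr⟩ : ∃ r : V → ℕ, ∀ v (hv : v ∈ Q), r v = (Q.equivFin ⟨v, hv⟩).val :=
        ⟨fun v => if hv : v ∈ Q then (Q.equivFin ⟨v, hv⟩).val else 0, fun v hv => dif_pos hv⟩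
      have hz : ∀ u ∈ Q, Q.filter (fun w => r w < r u ∧ D w u) = ∅ := by
        intro u hu
        rw [Finset.filter_eq_empty_iff]
        rintro w hw ⟨-, h⟩
        exact hQ w hw u hu h
      refine ⟨Q, hQN, rfl, r, ?_, ⟨Finset.Subset.refl _, fun _ _ v hv hv' => absurd hv hv'⟩,
        ?_, ?_, ?_⟩
      · intro v hv
        rw [hr v hv]
        exact (Q.equivFin ⟨v, hv⟩).isLt
      · intro u hu v hv he
        rw [hr u hu, hr v hv] at he
        have := Q.equivFin.injective (Fin.ext he)
        exact congrArg Subtype.val this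
      · intro u hu v hv _ h
        exact absurd h (hQ u hu v hv)
      · intro u hu x _
        rw [hz u hu]
        refine ⟨by simp, fun h => ?_⟩
        rw [Finset.card_empty, Finset.card_pos]
        exact ⟨u, mem_filter.2 ⟨hu, h⟩⟩
    | succ n _ ih =>
      intro hn
      obtain ⟨T, hTN, hTn, r, h1, ⟨hQT, hQr⟩, h2, h3, h4⟩ := ih (by omega)
      have hne : (N \ T).Nonempty := by
        rw [← Finset.card_pos, Finset.card_sdiff_of_subset hTN]
        omega
      obtain ⟨x, hx, hmin⟩ := Finset.exists_min_image (N \ T)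
        (fun x => #(T.filter fun w => D w x)) hne
      obtain ⟨hxN, hxT⟩ := Finset.mem_sdiff.1 hx
      have hcard : #(insert x T) = #T + 1 := Finset.card_insert_of_notMem hxT
      obtain ⟨r', hr'⟩ : ∃ r', r' = Function.update r x #T := ⟨_, rfl⟩
      have rx : r' x = #T := by rw [hr', Function.update_self]
      have rT : ∀ v ∈ T, r' v = r v := by
        intro v hv
        rw [hr', Function.update_of_ne]
        rintro rfl
        exact hxT hv
      have eold : ∀ v ∈ T, (insert x T).filter (fun w => r' w < r' v ∧ D w v) =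
          T.filter fun w => r w < r v ∧ D w v := by
        intro v hv
        ext w
        simp only [Finset.mem_filter, Finset.mem_insert]
        constructor
        · rintro ⟨rfl | hw, h, h'⟩
          · rw [rx, rT v hv] at h
            have := h1 v hv
            omega
          · rw [rT w hw, rT v hv] at h
            exact ⟨hw, h, h'⟩
        · rintro ⟨hw, h, h'⟩
          rw [rT w hw, rT v hv]
          exact ⟨Or.inr hw, h, h'⟩
      have enew : (insert x T).filter (fun w => r' w < r' x ∧ D w x) =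
          T.filter fun w => D w x := by
        ext w
        simp only [Finset.mem_filter, Finset.mem_insert]
        constructor
        · rintro ⟨rfl | hw, h, h'⟩
          · omega
          · exact ⟨hw, h'⟩
        · rintro ⟨hw, h'⟩
          rw [rT w hw, rx]
          exact ⟨Or.inr hw, h1 w hw, h'⟩
      have efil : ∀ y, #((insert x T).filter fun w => D w y) =
          #(T.filter fun w => D w y) + if D x y then 1 else 0 := by
        intro y
        rw [Finset.filter_insert]
        split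
        · rw [Finset.card_insert_of_notMem]
          intro h
          exact hxT (Finset.mem_filter.1 h).1
        · rfl
      have hxQ : x ∉ Q := fun h => hxT (hQT h)
      refine ⟨insert x T, Finset.insert_subset hxN hTN, by rw [hcard, hTn], r', ?_,
        ⟨hQT.trans (Finset.subset_insert _ _), ?_⟩, ?_, ?_, ?_⟩
      · intro v hv
        rw [hcard]
        rcases Finset.mem_insert.1 hv with rfl | hv
        · omega
        · rw [rT v hv]
          have := h1 v hv
          omega
      · intro q hq v hv hvQ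
        rcases Finset.mem_insert.1 hv with ev | hv'
        · rw [ev, rx, rT q (hQT hq)]
          exact h1 q (hQT hq)
        · rw [rT q (hQT hq), rT v hv']
          exact hQr q hq v hv' hvQ
      · intro u hu v hv he
        rcases Finset.mem_insert.1 hu with eu | hu' <;> rcases Finset.mem_insert.1 hv with ev | hv'
        · rw [eu, ev]
        · rw [eu, rx, rT v hv'] at he
          have := h1 v hv'
          omega
        · rw [ev, rx, rT u hu'] at he
          have := h1 u hu'
          omega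
        · rw [rT u hu', rT v hv'] at he
          exact h2 u hu' v hv' he
      · intro u hu v hv hlt huv
        rcases Finset.mem_insert.1 hu with eu | hu'
        · exfalso
          rcases Finset.mem_insert.1 hv with ev | hv'
          · rw [eu, ev] at hlt
            omega
          · rw [eu, rx, rT v hv'] at hlt
            have := h1 v hv'
            omega
        · rcases Finset.mem_insert.1 hv with ev | hv'
          · rw [eold u hu', ev, enew]
            exact (h4 u hu' x hx).2 (ev ▸ huv)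
          · rw [eold u hu', eold v hv']
            rw [rT u hu', rT v hv'] at hlt
            exact h3 u hu' v hv' hlt huv
      · intro u hu y hy
        have hy' : y ∈ N \ T := by
          rw [Finset.mem_sdiff] at hy ⊢
          exact ⟨hy.1, fun h => hy.2 (Finset.mem_insert_of_mem h)⟩
        rcases Finset.mem_insert.1 hu with eu | hu
        · rw [eu, enew, efil]
          have := hmin y hy'
          refine ⟨by omega, fun h => ?_⟩
          rw [if_pos h]
          omega
        · rw [eold u hu, efil]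
          have := h4 u hu y hy'
          exact ⟨by omega, fun h => by have := this.2 h; omega⟩
  obtain ⟨T, hTN, hTn, r, -, ⟨-, h5⟩, h2, h3, -⟩ := main #N (Finset.card_le_card hQN) le_rfl
  have hT : T = N := Finset.eq_of_subset_of_card_le hTN hTn.ge
  subst hT
  exact ⟨r, h2, h5, h3⟩

/-- labels of a vertex and its arcs of colour `0` -/
structure Lb (V : Type) where
  a : ℕ
  b : ℕ
  T : Finset V

/-- labels with at most one conflict at each vertex: a vertex without good label sends all its arcs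
in the colour `σ v`; if `m v` it has one more arc in this colour, and no conflict -/
theorem exists_labels [DecidableEq V] (ρ : V → ℕ) (S : V → Finset V) (hS : ∀ v, ∀ w ∈ S v, ρ w < ρ v)
    (σ : V → Fin 2) (m : V → Prop) :
    ∃ g : V → Lb V, ∀ v, (g v).T ⊆ S v ∧
      (((g v).a = #(g v).T ∧ (g v).b = #(S v \ (g v).T) ∧
        (∀ w ∈ S v, w ∈ (g v).T → (g w).a ≠ (g v).a) ∧
        ∀ w ∈ S v, w ∉ (g v).T → (g w).b ≠ (g v).b) ∨
      (((∀ w ∈ S v, (g w).a ≠ 0) ∧ (S v).Nonempty) ∧
      ((σ v = 0 ∧ ¬ m v ∧ (g v).T = S v ∧ (g v).a = #(S v) ∧ (g v).b = 0 ∧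
          ∃ y ∈ S v, ∀ w ∈ S v, w ≠ y → (g w).a ≠ (g v).a) ∨
      (σ v = 1 ∧ ¬ m v ∧ (g v).T = ∅ ∧ (g v).a = 0 ∧ (g v).b = #(S v) ∧
          ∃ y ∈ S v, ∀ w ∈ S v, w ≠ y → (g w).b ≠ (g v).b) ∨
      (σ v = 0 ∧ m v ∧ (g v).T = S v ∧ (g v).a = #(S v) + 1 ∧ (g v).b = 0 ∧
          ∀ w ∈ S v, (g w).a ≠ (g v).a) ∨
      (σ v = 1 ∧ m v ∧ (g v).T = ∅ ∧ (g v).a = 0 ∧ (g v).b = #(S v) + 1 ∧
          ∀ w ∈ S v, (g w).b ≠ (g v).b)))) := by
  apply exists_rec ρ (fun v (x : Lb V) g => x.T ⊆ S v ∧
      ((x.a = #x.T ∧ x.b = #(S v \ x.T) ∧ (∀ w ∈ S v, w ∈ x.T → (g w).a ≠ x.a) ∧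
        ∀ w ∈ S v, w ∉ x.T → (g w).b ≠ x.b) ∨
      (((∀ w ∈ S v, (g w).a ≠ 0) ∧ (S v).Nonempty) ∧
      ((σ v = 0 ∧ ¬ m v ∧ x.T = S v ∧ x.a = #(S v) ∧ x.b = 0 ∧
          ∃ y ∈ S v, ∀ w ∈ S v, w ≠ y → (g w).a ≠ x.a) ∨
      (σ v = 1 ∧ ¬ m v ∧ x.T = ∅ ∧ x.a = 0 ∧ x.b = #(S v) ∧
          ∃ y ∈ S v, ∀ w ∈ S v, w ≠ y → (g w).b ≠ x.b) ∨
      (σ v = 0 ∧ m v ∧ x.T = S v ∧ x.a = #(S v) + 1 ∧ x.b = 0 ∧
          ∀ w ∈ S v, (g w).a ≠ x.a) ∨
      (σ v = 1 ∧ m v ∧ x.T = ∅ ∧ x.a = 0 ∧ x.b = #(S v) + 1 ∧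
          ∀ w ∈ S v, (g w).b ≠ x.b)))))
  · intro v X g g' hg h
    have hgS : ∀ w ∈ S v, g w = g' w := fun w hw => hg w (hS v w hw)
    obtain ⟨h1, h⟩ := h
    refine ⟨h1, ?_⟩
    rcases h with ⟨h2, h3, h4, h5⟩ | ⟨⟨h0, hne⟩, h⟩
    · exact Or.inl ⟨h2, h3, fun w hw hX => by rw [← hgS w hw]; exact h4 w hw hX,
        fun w hw hX => by rw [← hgS w hw]; exact h5 w hw hX⟩
    · refine Or.inr ⟨⟨fun w hw => by rw [← hgS w hw]; exact h0 w hw, hne⟩, ?_⟩
      rcases h with ⟨h2, h3, h4, h5, h6, y, hy, h7⟩ | ⟨h2, h3, h4, h5, h6, y, hy, h7⟩ |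
        ⟨h2, h3, h4, h5, h6, h7⟩ | ⟨h2, h3, h4, h5, h6, h7⟩
      · exact Or.inl ⟨h2, h3, h4, h5, h6, y, hy,
          fun w hw hne => by rw [← hgS w hw]; exact h7 w hw hne⟩
      · exact Or.inr (Or.inl ⟨h2, h3, h4, h5, h6, y, hy,
          fun w hw hne => by rw [← hgS w hw]; exact h7 w hw hne⟩)
      · exact Or.inr (Or.inr (Or.inl ⟨h2, h3, h4, h5, h6,
          fun w hw => by rw [← hgS w hw]; exact h7 w hw⟩))
      · exact Or.inr (Or.inr (Or.inr ⟨h2, h3, h4, h5, h6,
          fun w hw => by rw [← hgS w hw]; exact h7 w hw⟩))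
  · exact fun _ => ⟨0, 0, ∅⟩
  · intro v g _
    rcases split_or_dead (S v) (fun w => (g w).a) (fun w => (g w).b) with
      ⟨X, hX, h1, h2⟩ | ⟨hpos, hdead⟩
    · exact ⟨⟨#X, #(S v \ X), X⟩, hX, Or.inl ⟨rfl, rfl, h1, h2⟩⟩
    · obtain ⟨h1, h2, h00⟩ := dead_unique (S v) _ _ hpos hdead
      have hz : (∀ w ∈ S v, (g w).a ≠ 0) ∧ (S v).Nonempty :=
        ⟨fun w hw => (h00 w hw).1, Finset.card_pos.1 hpos⟩
      rw [Finset.card_eq_one] at h1 h2
      obtain ⟨y, hy⟩ := h1
      obtain ⟨z, hz'⟩ := h2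
      have hy' : y ∈ (S v).filter fun w => (g w).a = #(S v) := by rw [hy]; exact mem_singleton_self y
      have hz'' : z ∈ (S v).filter fun w => (g w).b = #(S v) := by
        rw [hz']; exact mem_singleton_self z
      have hσ : σ v = 0 ∨ σ v = 1 := by
        rcases σ v with ⟨i, hi⟩
        interval_cases i
        · exact Or.inl rfl
        · exact Or.inr rfl
      by_cases hm : m v
      · rcases hσ with hσ | hσ
        · refine ⟨⟨#(S v) + 1, 0, S v⟩, Finset.Subset.refl _, Or.inr ⟨hz, Or.inr (Or.inr (Or.inl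
            ⟨hσ, hm, rfl, rfl, rfl, fun w hw he => ?_⟩))⟩⟩
          have := (h00 w hw).2.1
          simp only at he
          omega
        · refine ⟨⟨0, #(S v) + 1, ∅⟩, Finset.empty_subset _, Or.inr ⟨hz, Or.inr (Or.inr (Or.inr
            ⟨hσ, hm, rfl, rfl, rfl, fun w hw he => ?_⟩))⟩⟩
          have := (h00 w hw).2.2
          simp only at he
          omega
      · rcases hσ with hσ | hσ
        · refine ⟨⟨#(S v), 0, S v⟩, Finset.Subset.refl _, Or.inr ⟨hz, Or.inl
            ⟨hσ, hm, rfl, rfl, rfl, y, (mem_filter.1 hy').1, ?_⟩⟩⟩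
          intro w hw hne he
          apply hne
          rw [← Finset.mem_singleton, ← hy]
          exact mem_filter.2 ⟨hw, he⟩
        · refine ⟨⟨0, #(S v), ∅⟩, Finset.empty_subset _, Or.inr ⟨hz, Or.inr (Or.inl
            ⟨hσ, hm, rfl, rfl, rfl, z, (mem_filter.1 hz'').1, ?_⟩)⟩⟩
          intro w hw hne he
          apply hne
          rw [← Finset.mem_singleton, ← hz']
          exact mem_filter.2 ⟨hw, he⟩

end Pool.Agent.H35.Lir.TM
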