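import Pool.Agent.H35.Lir.ToggleM

/-!
Three colours for digraphs with a dominating set of two types and an independent absorbing set.
-/

namespace Pool.Agent.H35.Lir

open Finset

/-- Two disjoint classes (`t v = none`: `v` is in no class), a set `M` of vertices of the classes and
an independent set `Q` of vertices in no class, such that every other vertex which is neither a
source nor a sink has an inneighbour in a class, not in `M`, or an outneighbour in `M` or `Q`; no
vertex of `M` has an outneighbour in its own class, and the ends of each arc inside a class whose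
head is not in `M` have different numbers of inneighbours in the classes. -/
structure DomAbs {V : Type} (D : V → V → Prop) (t : V → Option (Fin 2)) (M Q : Set V) : Prop where
  dom : ∀ v, t v = none → v ∉ Q → inDeg D v ≠ 0 → outDeg D v ≠ 0 →
    (∃ p, D p v ∧ t p ≠ none ∧ p ∉ M) ∨ (∃ m ∈ M, D v m) ∨ ∃ q ∈ Q, D v q
  cls : ∀ q ∈ Q, t q = none
  clm : ∀ m ∈ M, t m ≠ none
  ind : ∀ x ∈ Q, ∀ y ∈ Q, ¬ D x y
  head : ∀ m ∈ M, ∀ y, D m y → t m ≠ t y
  irr : ∀ x y i, D x y → t x = some i → t y = some i → y ∉ M →
    inDeg (fun a b => D a b ∧ t a ≠ none) x ≠ inDeg (fun a b => D a b ∧ t a ≠ none) y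

variable {V : Type} [Fintype V]

theorem outDeg_pos' {A : V → V → Prop} {x y : V} (h : A x y) : outDeg A x ≠ 0 := by
  intro h0
  rw [outDeg, Set.ncard_eq_zero (Set.toFinite _), Set.eq_empty_iff_forall_notMem] at h0
  exact h0 y h

theorem inDeg_pos' {A : V → V → Prop} {x y : V} (h : A x y) : inDeg A y ≠ 0 := by
  intro h0
  rw [inDeg, Set.ncard_eq_zero (Set.toFinite _), Set.eq_empty_iff_forall_notMem] at h0
  exact h0 x h

theorem outDeg_zero' {A : V → V → Prop} {x : V} (h : ∀ w, ¬ A x w) : outDeg A x = 0 := by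
  rw [outDeg, Set.ncard_eq_zero (Set.toFinite _), Set.eq_empty_iff_forall_notMem]
  exact h

theorem inDeg_zero' {A : V → V → Prop} {x : V} (h : ∀ w, ¬ A w x) : inDeg A x = 0 := by
  rw [inDeg, Set.ncard_eq_zero (Set.toFinite _), Set.eq_empty_iff_forall_notMem]
  exact h

open Classical in
theorem exists_three_domAbs (D : V → V → Prop) (hD : ∀ x, ¬ D x x)
    (t : V → Option (Fin 2)) (M Q : Set V) (h : DomAbs D t M Q) :
    ∃ c : V → V → Fin 3, IsWLIColouring D c := by
  obtain ⟨hdom, hcls, hclm, hind, hhead, hirr⟩ := h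
  obtain ⟨N, hN⟩ : ∃ N : Finset V, N = ({v | t v = none} : Finset V) := ⟨_, rfl⟩
  have memN : ∀ v, v ∈ N ↔ t v = none := by intro v; rw [hN]; simp
  obtain ⟨Q', hQ'⟩ : ∃ Q' : Finset V, Q' = ({v | v ∈ Q} : Finset V) := ⟨_, rfl⟩
  have memQ : ∀ v, v ∈ Q' ↔ v ∈ Q := by intro v; rw [hQ']; simp
  obtain ⟨r, rinj, rQ, rlt⟩ := TM.exists_order D N Q'
    (fun v hv => (memN v).2 (hcls v ((memQ v).1 hv)))
    (fun x hx y hy => hind x ((memQ x).1 hx) y ((memQ y).1 hy))
  have hp0 : ∀ v, ∃ p, (∃ q, D q v ∧ t q ≠ none ∧ q ∉ M) → D p v ∧ t p ≠ none ∧ p ∉ M := by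
    intro v
    by_cases h1 : ∃ q, D q v ∧ t q ≠ none ∧ q ∉ M
    · obtain ⟨p, hp⟩ := h1
      exact ⟨p, fun _ => hp⟩
    · exact ⟨v, fun h => absurd h h1⟩
  choose p hp using hp0
  obtain ⟨mode, hmode⟩ : ∃ mode : V → Prop, ∀ v, mode v ↔ ∃ m ∈ M, D v m := ⟨_, fun _ => Iff.rfl⟩
  have hm0 : ∀ v, ∃ m, mode v → m ∈ M ∧ D v m := by
    intro v
    by_cases h1 : mode v
    · obtain ⟨m, hm⟩ := (hmode v).1 h1
      exact ⟨m, fun _ => hm⟩
    · exact ⟨v, fun h => absurd h h1⟩
  choose mv hmv using hm0
  obtain ⟨B, hB⟩ : ∃ B : V → Prop, ∀ v, B v ↔ if t v = none then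
      (if mode v then t (mv v) = some 0 else t (p v) = some 1) else t v = some 1 :=
    ⟨_, fun _ => Iff.rfl⟩
  obtain ⟨σ, hσ⟩ : ∃ σ : V → Fin 2, ∀ v, σ v = if B v then 1 else 0 := ⟨_, fun _ => rfl⟩
  obtain ⟨sg, hsg⟩ : ∃ sg : V → Fin 3, ∀ v, sg v = if B v then 1 else 0 := ⟨_, fun _ => rfl⟩
  obtain ⟨og, hog⟩ : ∃ og : V → Fin 3, ∀ v, og v = if B v then 0 else 1 := ⟨_, fun _ => rfl⟩
  have hso : ∀ v, sg v ≠ og v := by
    intro v; rw [hsg, hog]; split <;> decide
  have hs2 : ∀ v, sg v ≠ 2 := by
    intro v; rw [hsg]; split <;> decide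
  have ho2 : ∀ v, og v ≠ 2 := by
    intro v; rw [hog]; split <;> decide
  have hBB : ∀ x y, sg x = sg y → (B x ↔ B y) := by
    intro x y h
    rw [hsg, hsg] at h
    by_cases h1 : B x <;> by_cases h2 : B y <;> simp [h1, h2] at h ⊢
  have hoo : ∀ x y, sg x = sg y → og x = og y := by
    intro x y h
    rw [hog, hog]
    simp only [hBB x y h]
  have hso' : ∀ x y, sg x ≠ sg y → sg x = og y := by
    intro x y h
    rw [hsg, hog]
    rw [hsg, hsg] at h
    by_cases h1 : B x <;> by_cases h2 : B y <;> simp [h1, h2] at h ⊢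
  have htt : ∀ x y, t x ≠ none → t y ≠ none → sg x = sg y → t x = t y := by
    intro x y hx hy h
    have h' := hBB x y h
    rw [hB, hB, if_neg hx, if_neg hy] at h'
    obtain ⟨i, hi⟩ := Option.ne_none_iff_exists'.1 hx
    obtain ⟨j, hj⟩ := Option.ne_none_iff_exists'.1 hy
    rw [hi, hj] at h' ⊢
    simp only [Option.some.injEq] at h' ⊢
    revert h'
    fin_cases i <;> fin_cases j <;> simp
  have hmsg : ∀ v, t v = none → mode v → og (mv v) = sg v := by
    intro v h1 h3
    have h4 := hclm _ (hmv v h3).1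
    have : B v ↔ ¬ B (mv v) := by
      rw [hB, hB, if_neg h4, if_pos h1, if_pos h3]
      obtain ⟨i, hi⟩ := Option.ne_none_iff_exists'.1 h4
      rw [hi]
      fin_cases i <;> simp
    rw [hsg, hog]
    by_cases h5 : B (mv v)
    · rw [if_pos h5, if_neg (fun h => this.1 h h5)]
    · rw [if_neg h5, if_pos (this.2 h5)]
  have hpsg : ∀ v, t v = none → t (p v) ≠ none → ¬ mode v → sg (p v) = sg v := by
    intro v h1 h3 h4
    have : B (p v) ↔ B v := by
      rw [hB, hB, if_neg h3, if_pos h1, if_neg h4]
    rw [hsg, hsg]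
    simp only [this]
  obtain ⟨S, hS⟩ : ∃ S : V → Finset V, ∀ v, S v = N.filter (fun w => v ∈ N ∧ D v w ∧ r w < r v) :=
    ⟨_, fun _ => rfl⟩
  have memS : ∀ v w, w ∈ S v ↔ w ∈ N ∧ v ∈ N ∧ D v w ∧ r w < r v := by
    intro v w; rw [hS]; simp
  obtain ⟨g, hT⟩ := TM.exists_labels r S (fun v w hw => ((memS v w).1 hw).2.2.2) σ mode
  obtain ⟨T, hTg⟩ : ∃ T : V → Finset V, ∀ v, T v = (g v).T := ⟨_, fun _ => rfl⟩
  obtain ⟨lab, hlab⟩ : ∃ lab : Fin 3 → V → ℕ, ∀ i v, lab i v = if i = 0 then (g v).a else
      (g v).b := ⟨_, fun _ _ => rfl⟩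
  have lab0 : ∀ v, lab 0 v = (g v).a := fun v => by rw [hlab, if_pos rfl]
  have lab1 : ∀ v, lab 1 v = (g v).b := fun v => by rw [hlab, if_neg (by decide)]
  obtain ⟨good, hgood⟩ : ∃ good : V → Prop, ∀ v, good v ↔ ((g v).a = #(g v).T ∧
        (g v).b = #(S v \ (g v).T) ∧
        (∀ w ∈ S v, w ∈ (g v).T → (g w).a ≠ (g v).a) ∧
        ∀ w ∈ S v, w ∉ (g v).T → (g w).b ≠ (g v).b) := ⟨_, fun _ => Iff.rfl⟩
  have hσB : ∀ v, (σ v = 0 → ¬ B v) ∧ (σ v = 1 → B v) := by
    intro v
    rw [hσ]
    by_cases h : B v
    · rw [if_pos h]; exact ⟨fun h => absurd h (by decide), fun _ => h⟩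
    · rw [if_neg h]; exact ⟨fun _ => h, fun h => absurd h (by decide)⟩
  have hst : ∀ v, ∃ y, ¬ good v → (¬ mode v → y ∈ S v ∧
      ∀ w ∈ S v, w ≠ y → lab (sg v) w ≠ lab (sg v) v) ∧
      (mode v → ∀ w ∈ S v, lab (sg v) w ≠ lab (sg v) v) ∧
      (∀ w ∈ S v, (if w ∈ T v then (0 : Fin 3) else 1) = sg v) ∧ lab (og v) v = 0 ∧
      (∀ w ∈ S v, (g w).a ≠ 0) ∧ (S v).Nonempty ∧
      lab (sg v) v = #(S v) + (if mode v then 1 else 0) := by
    intro v
    obtain ⟨-, h1 | ⟨⟨h0, hne⟩, h⟩⟩ := hT v
    · exact ⟨v, fun h => absurd ((hgood v).2 h1) h⟩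
    · rcases h with ⟨h1, h2, h3, h4, h5, y, hy, h6⟩ | ⟨h1, h2, h3, h4, h5, y, hy, h6⟩ |
        ⟨h1, h2, h3, h4, h5, h6⟩ | ⟨h1, h2, h3, h4, h5, h6⟩
      · have hB' := (hσB v).1 h1
        have e1 : sg v = 0 := by rw [hsg, if_neg hB']
        have e2 : og v = 1 := by rw [hog, if_neg hB']
        refine ⟨y, fun _ => ⟨fun _ => ⟨hy, ?_⟩, fun h => absurd h h2, ?_, ?_, h0, hne, ?_⟩⟩
        · intro w hw hne
          rw [e1, lab0, lab0]
          exact h6 w hw hne
        · intro w hw
          rw [e1, if_pos (by rw [hTg, h3]; exact hw)]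
        · rw [e2, lab1, h5]
        · rw [e1, lab0, h4, if_neg h2]
          rfl
      · have hB' := (hσB v).2 h1
        have e1 : sg v = 1 := by rw [hsg, if_pos hB']
        have e2 : og v = 0 := by rw [hog, if_pos hB']
        refine ⟨y, fun _ => ⟨fun _ => ⟨hy, ?_⟩, fun h => absurd h h2, ?_, ?_, h0, hne, ?_⟩⟩
        · intro w hw hne
          rw [e1, lab1, lab1]
          exact h6 w hw hne
        · intro w _
          rw [e1, if_neg (by rw [hTg, h3]; exact Finset.notMem_empty w)]
        · rw [e2, lab0, h4]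
        · rw [e1, lab1, h5, if_neg h2]
          rfl
      · have hB' := (hσB v).1 h1
        have e1 : sg v = 0 := by rw [hsg, if_neg hB']
        have e2 : og v = 1 := by rw [hog, if_neg hB']
        refine ⟨v, fun _ => ⟨fun h => absurd h2 h, fun _ => ?_, ?_, ?_, h0, hne, ?_⟩⟩
        · intro w hw
          rw [e1, lab0, lab0]
          exact h6 w hw
        · intro w hw
          rw [e1, if_pos (by rw [hTg, h3]; exact hw)]
        · rw [e2, lab1, h5]
        · rw [e1, lab0, h4, if_pos h2]
      · have hB' := (hσB v).2 h1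
        have e1 : sg v = 1 := by rw [hsg, if_pos hB']
        have e2 : og v = 0 := by rw [hog, if_pos hB']
        refine ⟨v, fun _ => ⟨fun h => absurd h2 h, fun _ => ?_, ?_, ?_, h0, hne, ?_⟩⟩
        · intro w hw
          rw [e1, lab1, lab1]
          exact h6 w hw
        · intro w _
          rw [e1, if_neg (by rw [hTg, h3]; exact Finset.notMem_empty w)]
        · rw [e2, lab0, h4]
        · rw [e1, lab1, h5, if_pos h2]
  choose y hy using hst
  obtain ⟨K, hK⟩ : ∃ K : V → Prop, ∀ v, K v ↔ (t v = none ∧ inDeg D v ≠ 0 ∧ ¬ good v ∧ ¬ mode v) :=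
    ⟨_, fun _ => Iff.rfl⟩
  have hSQ : ∀ v ∈ Q, S v = ∅ := by
    intro v hv
    rw [Finset.eq_empty_iff_forall_notMem]
    intro w hw
    obtain ⟨h1, h2, h3, h4⟩ := (memS v w).1 hw
    by_cases hwQ : w ∈ Q
    · exact hind v hv w hwQ h3
    · have := rQ v ((memQ v).2 hv) w h1 (fun h => hwQ ((memQ w).1 h))
      omega
  have hTS : ∀ v, T v ⊆ S v := fun v => by rw [hTg]; exact (hT v).1
  have hKp : ∀ v, K v → D (p v) v ∧ t (p v) ≠ none ∧ p v ∉ M := by
    intro v hKv
    obtain ⟨h1, h2, h3, h3'⟩ := (hK v).1 hKv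
    obtain ⟨y1, -, -, -, y5, -, -⟩ := hy v h3
    have y1 := (y1 h3').1
    have hvQ : v ∉ Q := by
      intro hvQ
      rw [hSQ v hvQ] at y1
      exact absurd y1 (Finset.notMem_empty _)
    have hout : outDeg D v ≠ 0 := outDeg_pos' ((memS v _).1 y1).2.2.1
    rcases hdom v h1 hvQ h2 hout with h | h | ⟨q, hq, hvq⟩
    · exact hp v h
    · exact absurd ((hmode v).2 h) h3'
    · exfalso
      have hqN : q ∈ N := (memN q).2 (hcls q hq)
      have := rQ q ((memQ q).2 hq) v ((memN v).2 h1) (fun h => hvQ ((memQ v).1 h))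
      apply y5 q ((memS v q).2 ⟨hqN, (memN v).2 h1, hvq, this⟩)
      have hgq : good q := by
        by_contra hgq
        obtain ⟨-, -, -, -, -, hne, -⟩ := hy q hgq
        rw [hSQ q hq] at hne
        exact Finset.not_nonempty_empty hne
      have hsub := (hT q).1
      rw [hSQ q hq] at hsub
      rw [((hgood q).1 hgq).1, Finset.subset_empty.1 hsub, Finset.card_empty]
  obtain ⟨cc, hcc⟩ : ∃ cc : Bool → V → V → Fin 3, ∀ b x v, cc b x v =
      if t x = none then
        (if t v = none then (if r x < r v then 2 else if v ∈ T x then 0 else 1) else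
          if v = mv x ∧ mode x ∧ ¬ good x then og v else 2)
      else (if t v = none then (if x = p v ∧ K v ∧ b = true then og v else sg x) else og v) :=
    ⟨_, fun _ _ _ => rfl⟩
  obtain ⟨τ, hτ⟩ := exists_rec (W := Bool) r
    (fun v b g => K v → {x | D x v ∧ cc b x v = sg v}.ncard ≠
      {x | D x (y v) ∧ cc (g (y v)) x (y v) = sg v}.ncard)
    (by
      intro v b g g' hg hQ hKv
      have := ((memS v _).1 ((hy v ((hK v).1 hKv).2.2.1).1 ((hK v).1 hKv).2.2.2).1).2.2.2
      rw [← hg _ this]
      exact hQ hKv)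
    (fun _ => false)
    (by
      intro v g _
      by_cases hKv : K v
      · by_cases he : {x | D x v ∧ cc false x v = sg v}.ncard =
            {x | D x (y v) ∧ cc (g (y v)) x (y v) = sg v}.ncard
        · refine ⟨true, fun _ => ?_⟩
          rw [← he]
          obtain ⟨h1, h2, h3, h3'⟩ := (hK v).1 hKv
          obtain ⟨h4, h5, -⟩ := hKp v hKv
          have e : {x | D x v ∧ cc true x v = sg v} =
              {x | D x v ∧ cc false x v = sg v} \ {p v} := by
            ext x
            simp only [Set.mem_setOf_eq, Set.mem_diff, Set.mem_singleton_iff]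
            by_cases hx : x = p v
            · rw [hx]
              have : cc true (p v) v = og v := by
                rw [hcc, if_neg h5, if_pos h1, if_pos ⟨rfl, hKv, rfl⟩]
              rw [this]
              constructor
              · rintro ⟨_, h⟩
                exact absurd h.symm (hso v)
              · rintro ⟨_, h⟩
                exact absurd rfl h
            · have : cc true x v = cc false x v := by
                rw [hcc, hcc]
                simp [hx]
              rw [this]
              tauto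
          rw [e]
          apply ne_of_lt
          apply Set.ncard_diff_singleton_lt_of_mem _ (Set.toFinite _)
          refine ⟨h4, ?_⟩
          rw [hcc, if_neg h5, if_pos h1, if_neg (by simp)]
          exact hpsg v h1 h5 h3'
        · exact ⟨false, fun _ => he⟩
      · exact ⟨false, fun h => absurd h hKv⟩)
  obtain ⟨C, hC⟩ : ∃ C : V → V → Fin 3, ∀ x v, C x v = cc (τ v) x v := ⟨_, fun _ _ => rfl⟩
  have cNN : ∀ x v, t x = none → t v = none →
      C x v = if r x < r v then 2 else if v ∈ T x then 0 else 1 := by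
    intro x v h1 h2
    rw [hC, hcc, if_pos h1, if_pos h2]
  have cNP : ∀ x v, t x = none → t v ≠ none →
      C x v = if v = mv x ∧ mode x ∧ ¬ good x then og v else 2 := by
    intro x v h1 h2
    rw [hC, hcc, if_pos h1, if_neg h2]
  have cPN : ∀ x v, t x ≠ none → t v = none →
      C x v = if x = p v ∧ K v ∧ τ v = true then og v else sg x := by
    intro x v h1 h2
    rw [hC, hcc, if_neg h1, if_pos h2]
  have cPP : ∀ x v, t x ≠ none → t v ≠ none → C x v = og v := by
    intro x v h1 h2
    rw [hC, hcc, if_neg h1, if_neg h2]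
  have cP2 : ∀ x v, t x ≠ none → C x v ≠ 2 := by
    intro x v h1
    by_cases h2 : t v = none
    · rw [cPN x v h1 h2]
      split
      · exact ho2 _
      · exact hs2 _
    · rw [cPP x v h1 h2]
      exact ho2 _
  have rne : ∀ x v, t x = none → t v = none → D x v → ¬ r x < r v → r v < r x := by
    intro x v h1 h2 h3 h4
    rcases lt_or_eq_of_le (not_lt.1 h4) with h | h
    · exact h
    · exfalso
      have := rinj v ((memN v).2 h2) x ((memN x).2 h1) h
      rw [this] at h3
      exact hD x h3
  -- arcs of colour `i ≠ 2` leaving a vertex in no class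
  have outA : ∀ x, t x = none → ¬ (mode x ∧ ¬ good x) → ∀ i : Fin 3, i ≠ 2 →
      outDeg (fun a b => D a b ∧ C a b = i) x =
        #((S x).filter fun w => (if w ∈ T x then (0 : Fin 3) else 1) = i) := by
    intro x hx hmg i hi
    rw [outDeg, ← Set.ncard_coe_finset]
    congr 1
    ext w
    simp only [Set.mem_setOf_eq, Finset.mem_coe, Finset.mem_filter]
    constructor
    · rintro ⟨h1, h2⟩
      by_cases hw : t w = none
      · rw [cNN x w hx hw] at h2
        by_cases h3 : r x < r w
        · rw [if_pos h3] at h2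
          exact absurd h2.symm hi
        · rw [if_neg h3] at h2
          exact ⟨(memS x w).2 ⟨(memN w).2 hw, (memN x).2 hx, h1, rne x w hx hw h1 h3⟩, h2⟩
      · rw [cNP x w hx hw, if_neg (fun h => hmg h.2)] at h2
        exact absurd h2.symm hi
    · rintro ⟨hw, hwi⟩
      obtain ⟨h1, h2, h3, h4⟩ := (memS x w).1 hw
      refine ⟨h3, ?_⟩
      rw [cNN x w hx ((memN w).1 h1), if_neg (by omega)]
      exact hwi
  have outB : ∀ x, t x = none → mode x → ¬ good x →
      outDeg (fun a b => D a b ∧ C a b = sg x) x = #(S x) + 1 := by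
    intro x hx hm hg
    obtain ⟨hm1, hm2⟩ := hmv x hm
    have hmS : mv x ∉ S x := by
      intro h
      exact hclm _ hm1 ((memN _).1 ((memS x _).1 h).1)
    rw [outDeg, ← Finset.card_insert_of_notMem hmS, ← Set.ncard_coe_finset]
    congr 1
    ext w
    simp only [Set.mem_setOf_eq, Finset.mem_coe, Finset.mem_insert]
    constructor
    · rintro ⟨h1, h2⟩
      by_cases hw : t w = none
      · rw [cNN x w hx hw] at h2
        by_cases h3 : r x < r w
        · rw [if_pos h3] at h2
          exact absurd h2.symm (hs2 x)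
        · exact Or.inr ((memS x w).2 ⟨(memN w).2 hw, (memN x).2 hx, h1, rne x w hx hw h1 h3⟩)
      · rw [cNP x w hx hw] at h2
        by_cases h3 : w = mv x ∧ mode x ∧ ¬ good x
        · exact Or.inl h3.1
        · rw [if_neg h3] at h2
          exact absurd h2.symm (hs2 x)
    · rintro (rfl | hw)
      · refine ⟨hm2, ?_⟩
        rw [cNP x _ hx (hclm _ hm1), if_pos ⟨rfl, hm, hg⟩]
        exact hmsg x hx hm
      · obtain ⟨h1, h2, h3, h4⟩ := (memS x w).1 hw
        refine ⟨h3, ?_⟩
        rw [cNN x w hx ((memN w).1 h1), if_neg (by omega)]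
        exact (hy x hg).2.2.1 w hw
  have outC : ∀ x, t x = none → ¬ good x →
      outDeg (fun a b => D a b ∧ C a b = og x) x = 0 := by
    intro x hx hg
    apply outDeg_zero'
    rintro w ⟨h1, h2⟩
    by_cases hw : t w = none
    · rw [cNN x w hx hw] at h2
      by_cases h3 : r x < r w
      · rw [if_pos h3] at h2
        exact ho2 x h2.symm
      · rw [if_neg h3, (hy x hg).2.2.1 w
          ((memS x w).2 ⟨(memN w).2 hw, (memN x).2 hx, h1, rne x w hx hw h1 h3⟩)] at h2
        exact hso x h2
    · rw [cNP x w hx hw] at h2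
      by_cases h3 : w = mv x ∧ mode x ∧ ¬ good x
      · rw [if_pos h3, h3.1, hmsg x hx h3.2.1] at h2
        exact hso x h2
      · rw [if_neg h3] at h2
        exact ho2 x h2.symm
  have i01 : ∀ i : Fin 3, i ≠ 2 → ∀ x, i = sg x ∨ i = og x := by
    intro i hi x
    rw [hsg, hog]
    by_cases h : B x <;> simp only [h, if_true, if_false] <;> fin_cases i <;> simp at hi ⊢
  have outlab : ∀ i : Fin 3, i ≠ 2 → ∀ x, t x = none →
      outDeg (fun a b => D a b ∧ C a b = i) x = lab i x := by
    intro i hi x hx
    by_cases hg : good x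
    · rw [outA x hx (fun h => h.2 hg) i hi]
      obtain ⟨g1, g2, -, -⟩ := (hgood x).1 hg
      have hTx := hTS x
      fin_cases i
      · show _ = lab 0 x
        rw [lab0, g1, ← hTg]
        congr 1
        ext w
        rw [Finset.mem_filter]
        constructor
        · rintro ⟨h1, h2⟩
          by_contra h3
          rw [if_neg h3] at h2
          exact absurd h2 (by decide)
        · intro h
          exact ⟨hTx h, by rw [if_pos h]; rfl⟩
      · show _ = lab 1 x
        rw [lab1, g2, ← hTg]
        congr 1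
        ext w
        rw [Finset.mem_filter, Finset.mem_sdiff]
        constructor
        · rintro ⟨h1, h2⟩
          refine ⟨h1, fun h3 => ?_⟩
          rw [if_pos h3] at h2
          exact absurd h2 (by decide)
        · rintro ⟨h, h'⟩
          exact ⟨h, by rw [if_neg h']; rfl⟩
      · exact absurd rfl hi
    · obtain ⟨-, -, y3, y4, -, -, y7⟩ := hy x hg
      rcases i01 i hi x with h | h
      · rw [h, y7]
        by_cases hm : mode x
        · rw [outB x hx hm hg, if_pos hm]
        · rw [outA x hx (fun h => hm h.1) (sg x) (hs2 x), if_neg hm, Finset.filter_true_of_mem y3]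
          rfl
      · rw [h, y4, outC x hx hg]
  have in2 : ∀ x, t x = none → inDeg (fun a b => D a b ∧ C a b = 2) x =
      #(N.filter fun w => r w < r x ∧ D w x) := by
    intro x hx
    rw [inDeg, ← Set.ncard_coe_finset]
    congr 1
    ext w
    simp only [Set.mem_setOf_eq, Finset.mem_coe, Finset.mem_filter]
    constructor
    · rintro ⟨h1, h2⟩
      by_cases hw : t w = none
      · rw [cNN w x hw hx] at h2
        by_cases h3 : r w < r x
        · exact ⟨(memN w).2 hw, h3, h1⟩
        · rw [if_neg h3] at h2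
          exfalso
          revert h2
          split <;> decide
      · exact absurd h2 (cP2 w x hw)
    · rintro ⟨h1, h2, h3⟩
      refine ⟨h3, ?_⟩
      rw [cNN w x ((memN w).1 h1) hx, if_pos h2]
  -- a vertex of a class receives no arc of its own colour
  have inP : ∀ x, t x ≠ none → inDeg (fun a b => D a b ∧ C a b = sg x) x = 0 := by
    intro x hx
    apply inDeg_zero'
    rintro w ⟨h1, h2⟩
    by_cases hw : t w = none
    · rw [cNP w x hw hx] at h2
      by_cases h3 : x = mv w ∧ mode w ∧ ¬ good w
      · rw [if_pos h3] at h2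
        exact hso x h2.symm
      · rw [if_neg h3] at h2
        exact hs2 x h2.symm
    · rw [cPP w x hw hx] at h2
      exact hso x h2.symm
  have inP' : ∀ x, t x ≠ none → x ∉ M → inDeg (fun a b => D a b ∧ C a b = og x) x =
      inDeg (fun a b => D a b ∧ t a ≠ none) x := by
    intro x hx hxM
    unfold inDeg
    congr 1
    ext w
    simp only [Set.mem_setOf_eq]
    refine and_congr_right fun h1 => ?_
    by_cases hw : t w = none
    · rw [cNP w x hw hx, if_neg (fun h => hxM (by rw [h.1]; exact (hmv w h.2.1).1))]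
      constructor
      · intro h
        exact absurd h.symm (ho2 x)
      · intro h
        exact absurd hw h
    · rw [cPP w x hw hx]
      exact ⟨fun _ => hw, fun _ => rfl⟩
  -- a vertex of `M` emits no arc of the other colour
  have outM : ∀ x ∈ M, outDeg (fun a b => D a b ∧ C a b = og x) x = 0 := by
    intro x hxM
    have hx := hclm x hxM
    apply outDeg_zero'
    rintro w ⟨h1, h2⟩
    by_cases hw : t w = none
    · rw [cPN x w hx hw] at h2
      by_cases h3 : x = p w ∧ K w ∧ τ w = true
      · exact (hKp w h3.2.1).2.2 (by rw [← h3.1]; exact hxM)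
      · rw [if_neg h3] at h2
        exact hso x h2
    · rw [cPP x w hx hw] at h2
      by_cases h3 : sg x = sg w
      · exact hhead x hxM w h1 (htt x w hx hw h3)
      · rw [← hso' x w h3] at h2
        exact hso x h2
  refine ⟨C, fun i x v hxv heq => ?_⟩
  obtain ⟨hxv, hc⟩ := hxv
  have hO : outDeg (fun a b => D a b ∧ C a b = i) x = outDeg (fun a b => D a b ∧ C a b = i) v :=
    (Prod.ext_iff.1 heq).1
  have hI : inDeg (fun a b => D a b ∧ C a b = i) x = inDeg (fun a b => D a b ∧ C a b = i) v :=
    (Prod.ext_iff.1 heq).2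
  have hOx : outDeg (fun a b => D a b ∧ C a b = i) x ≠ 0 := outDeg_pos' ⟨hxv, hc⟩
  have hIv : inDeg (fun a b => D a b ∧ C a b = i) v ≠ 0 := inDeg_pos' ⟨hxv, hc⟩
  by_cases hx : t x = none
  · by_cases hv : t v = none
    · by_cases hr : r x < r v
      · rw [cNN x v hx hv, if_pos hr] at hc
        subst hc
        rw [in2 x hx, in2 v hv] at hI
        have := rlt x ((memN x).2 hx) v ((memN v).2 hv) hr hxv
        omega
      · have hrv := rne x v hx hv hxv hr
        have hvS : v ∈ S x := (memS x v).2 ⟨(memN v).2 hv, (memN x).2 hx, hxv, hrv⟩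
        rw [cNN x v hx hv, if_neg hr] at hc
        have hi2 : i ≠ 2 := by
          rw [← hc]
          split <;> decide
        have hlabeq : lab i x = lab i v := by
          rw [← outlab i hi2 x hx, ← outlab i hi2 v hv]
          exact hO
        by_cases hg : good x
        · obtain ⟨-, -, g1, g2⟩ := (hgood x).1 hg
          rw [← hTg] at g1 g2
          by_cases hvT : v ∈ T x
          · rw [if_pos hvT] at hc
            subst hc
            rw [lab0, lab0] at hlabeq
            exact g1 v hvS hvT hlabeq.symm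
          · rw [if_neg hvT] at hc
            subst hc
            rw [lab1, lab1] at hlabeq
            exact g2 v hvS hvT hlabeq.symm
        · obtain ⟨y1, y1', y3, y4, -⟩ := hy x hg
          have hi : i = sg x := by rw [← hc]; exact y3 v hvS
          by_cases hm : mode x
          · rw [hi] at hlabeq
            exact y1' hm v hvS hlabeq.symm
          obtain ⟨-, y2⟩ := y1 hm
          by_cases hvy : v = y x
          · by_cases hsrc : inDeg D x = 0
            · apply hIv
              rw [← hI]
              apply inDeg_zero'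
              rintro w ⟨h1, -⟩
              exact inDeg_pos' h1 hsrc
            · have := hτ x ((hK x).2 ⟨hx, hsrc, hg, hm⟩)
              apply this
              have e1 : {w | D w x ∧ cc (τ x) w x = sg x}.ncard =
                  inDeg (fun a b => D a b ∧ C a b = i) x := by
                rw [hi]
                unfold inDeg
                simp only [hC]
              have e2 : {w | D w (y x) ∧ cc (τ (y x)) w (y x) = sg x}.ncard =
                  inDeg (fun a b => D a b ∧ C a b = i) v := by
                rw [hi, hvy]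
                unfold inDeg
                simp only [hC]
              rw [e1, e2]
              exact hI
          · rw [hi] at hlabeq
            exact y2 v hvS hvy hlabeq.symm
    · rw [cNP x v hx hv] at hc
      by_cases hmo : v = mv x ∧ mode x ∧ ¬ good x
      · rw [if_pos hmo] at hc
        apply hOx
        rw [hO, ← hc]
        exact outM v (by rw [hmo.1]; exact (hmv x hmo.2.1).1)
      rw [if_neg hmo] at hc
      subst hc
      apply hOx
      rw [hO]
      apply outDeg_zero'
      rintro w ⟨-, h⟩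
      exact cP2 v w hv h
  · by_cases hv : t v = none
    · rw [cPN x v hx hv] at hc
      by_cases htog : x = p v ∧ K v ∧ τ v = true
      · rw [if_pos htog] at hc
        obtain ⟨-, hKv, -⟩ := htog
        obtain ⟨-, -, h3, -⟩ := (hK v).1 hKv
        apply hOx
        rw [hO, ← hc]
        exact outC v hv h3
      · rw [if_neg htog] at hc
        apply hIv
        rw [← hI, ← hc]
        exact inP x hx
    · rw [cPP x v hx hv] at hc
      by_cases hs : sg x = sg v
      · by_cases hvM : v ∈ M
        · apply hOx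
          rw [hO, ← hc]
          exact outM v hvM
        obtain ⟨j, hj⟩ := Option.ne_none_iff_exists'.1 hx
        have hj' : t v = some j := by rw [← htt x v hx hv hs, hj]
        have hxM : x ∉ M := fun h => hhead x h v hxv (htt x v hx hv hs)
        apply hirr x v j hxv hj hj' hvM
        rw [← inP' x hx hxM, ← inP' v hv hvM, hoo x v hs, hc]
        exact hI
      · apply hIv
        rw [← hI, ← hc, ← hso' x v hs]
        exact inP x hx

end Pool.Agent.H35.Lir
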