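import Pool.Agent.H35.Lir.Conds
import Pool.Agent.H35.Lir.Typed

/-!
Digraphs whose ascending vertices induce a bipartite skeleton.
-/

namespace Pool.Agent.H35.Lir

open Finset

variable {V : Type}

open Classical in
theorem goodTyping_of_ascending [Finite V] (D : V → V → Prop) (ρ : V → Fin 2)
    (hρ : ∀ x y, D x y → Ascending D x → Ascending D y → ρ x ≠ ρ y)
    (hac : ∀ x, ¬ Relation.TransGen
      (fun a b => D a b ∧ ¬ Ascending D a ∧ ¬ Ascending D b) x x) :
    GoodTyping D (fun v => if Ascending D v then some (ρ v) else none) := by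
  have hsome : ∀ v i, (if Ascending D v then some (ρ v) else none) = some i →
      Ascending D v ∧ ρ v = i := by
    intro v i h
    split_ifs at h with h1
    · exact ⟨h1, by simpa using h⟩
  have hnone : ∀ v, (if Ascending D v then some (ρ v) else none) = none → ¬ Ascending D v := by
    intro v h
    split_ifs at h with h1
    exact h1
  refine ⟨fun x hx => ?_, fun v w i hvw hv hw => ?_, fun v w i _ _ _ hw => ?_,
    fun v hv hsrc hp => ?_⟩
  · exact hac x (Relation.TransGen.mono (fun a b h => ⟨h.1, hnone a h.2.1, hnone b h.2.2⟩) x x hx)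
  · obtain ⟨h1, h2⟩ := hsome v i hv
    obtain ⟨h3, h4⟩ := hsome w i hw
    exact absurd (h2.trans h4.symm) (hρ v w hvw h1 h3)
  · left
    obtain ⟨h1, h2⟩ := hsome w i hw
    rw [typeDeg, Set.ncard_eq_zero (Set.toFinite _), Set.eq_empty_iff_forall_notMem]
    rintro x ⟨hwx, hx⟩
    obtain ⟨h3, h4⟩ := hsome x i hx
    exact hρ w x hwx h1 h3 (h2.trans h4.symm)
  · have hna := hnone v hv
    have hle : ∀ w, D v w → outDeg D w ≤ outDeg D v := by
      intro w hvw
      by_contra h
      exact hna ⟨hsrc, w, hvw, not_le.1 h⟩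
    rcases hp with ⟨p, hp, h1, -⟩ | ⟨h3, p, q, r, hp, -, -, -, -, -, -, h | h⟩
    · have h4 := hle p hp.1
      have h5 : 0 < {w | D v w ∧
          w ∉ {w | (if Ascending D w then some (ρ w) else none) ≠ none}}.ncard := by
        rw [Set.ncard_pos (Set.toFinite _)]
        exact ⟨p, hp⟩
      omega
    · have h4 := hle p hp.1
      omega
    · have h4 := hle p hp.1
      omega

theorem exists_bip_of_acyclic [Fintype V] (D : V → V → Prop)
    (hac : ∀ x, ¬ Relation.TransGen D x x)
    (h : ∀ x y z, Ascending D x → D x y → Ascending D y → D x z → Ascending D z → y = z) :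
    ∃ ρ : V → Fin 2, ∀ x y, D x y → Ascending D x → Ascending D y → ρ x ≠ ρ y := by
  classical
  obtain ⟨r, hr⟩ := exists_rank D hac
  obtain ⟨F, hF⟩ := exists_rec r
    (fun v (x : Fin 2) g => ∀ w, D v w → Ascending D v → Ascending D w → x ≠ g w)
    (by
      intro v x g g' hg h1 w hvw hv hw
      rw [← hg w (hr v w hvw)]
      exact h1 w hvw hv hw)
    (fun _ => 0)
    (by
      intro v g _
      by_cases hex : ∃ w, D v w ∧ Ascending D w
      · obtain ⟨w, hvw, hw⟩ := hex
        refine ⟨fl (g w), fun z hvz hv hz => ?_⟩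
        rw [h v w z hv hvw hw hvz hz]
        exact fl_ne _
      · exact ⟨0, fun z hvz _ hz => absurd ⟨z, hvz, hz⟩ hex⟩)
  exact ⟨F, fun x y hxy hx hy => hF x y hxy hx hy⟩

/-- if no vertex but the sources has outdegree more than three, then each ascending vertex has at
most one ascending outneighbour -/
theorem ascending_unique [Finite V] (D : V → V → Prop)
    (h : ∀ x, inDeg D x ≠ 0 → outDeg D x ≤ 3) (x y z : V) (hx : Ascending D x) (hy : D x y)
    (hy' : Ascending D y) (hz : D x z) (hz' : Ascending D z) : y = z := by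
  by_contra hne
  have hpos : ∀ u v, D u v → inDeg D v ≠ 0 := by
    intro u v huv h0
    rw [inDeg, Set.ncard_eq_zero (Set.toFinite _), Set.eq_empty_iff_forall_notMem] at h0
    exact h0 u huv
  have h2 : 2 ≤ outDeg D x := by
    rw [← Set.ncard_pair hne]
    apply Set.ncard_le_ncard _ (Set.toFinite _)
    rintro w (rfl | rfl)
    · exact hy
    · exact hz
  obtain ⟨-, u, hxu, hlt⟩ := hx
  have hu3 := h u (hpos x u hxu)
  have hna : ¬ Ascending D u := by
    rintro ⟨-, w, huw, hlt'⟩
    have := h w (hpos u w huw)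
    omega
  have huy : u ≠ y := fun h => hna (h ▸ hy')
  have huz : u ≠ z := fun h => hna (h ▸ hz')
  have h3 : 3 ≤ outDeg D x := by
    have : ({u, y, z} : Set V).ncard = 3 := by
      rw [Set.ncard_eq_three]
      exact ⟨u, y, z, huy, huz, hne, rfl⟩
    rw [← this]
    apply Set.ncard_le_ncard _ (Set.toFinite _)
    rintro w (rfl | rfl | rfl)
    · exact hxu
    · exact hy
    · exact hz
  omega

theorem two_of_outDeg_three [Fintype V] (D : V → V → Prop)
    (hac : ∀ x, ¬ Relation.TransGen D x x) (h : ∀ x, inDeg D x ≠ 0 → outDeg D x ≤ 3) :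
    ∃ c : V → V → Fin 2, IsWLIColouring D c := by
  obtain ⟨ρ, hρ⟩ := exists_bip_of_acyclic D hac fun x y z => ascending_unique D h x y z
  refine exists_typed D _ (goodTyping_of_ascending D ρ hρ fun x hx => hac x ?_)
  exact Relation.TransGen.mono (fun a b h => h.1) x x hx

end Pool.Agent.H35.Lir
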