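import Pool.Agent.H35.Lir.Energy

/-!
The exponential potential `∑ exp (u (α * outdegree - γ * indegree))` over colours and vertices,
where `u ≠ 0` solves `exp (γ u) + exp (-α u) = 2`.
-/

namespace Pool.Agent.H35.Lir

open Finset

/-- the equation `exp (γ u) + exp (- α u) = 2` has a nonzero (positive) solution if `γ < α`. -/
theorem exists_root_pos {α γ : ℝ} (hγ : 0 < γ) (h : γ < α) :
    ∃ u : ℝ, 0 < u ∧ Real.exp (γ * u) + Real.exp (-(α * u)) = 2 := by
  have hα : 0 < α := hγ.trans h
  set s := α ^ 2 + γ ^ 2 with hs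
  have hspos : 0 < s := by positivity
  set u₁ := (α - γ) / (2 * s) with hu₁
  have hu₁pos : 0 < u₁ := div_pos (by linarith) (by positivity)
  have hmul : s * u₁ = (α - γ) / 2 := by
    rw [hu₁]; field_simp
  have b1 : γ * u₁ ≤ 1 := by
    rw [hu₁, ← mul_div_assoc, div_le_one (by positivity), hs]
    nlinarith [sq_nonneg (α - γ)]
  have b2 : α * u₁ ≤ 1 := by
    rw [hu₁, ← mul_div_assoc, div_le_one (by positivity), hs]
    nlinarith [sq_nonneg (α - γ), mul_pos hα hγ]
  have e1 := Real.abs_exp_sub_one_sub_id_le (x := γ * u₁)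
    (by rw [abs_of_pos (by positivity)]; exact b1)
  have e2 := Real.abs_exp_sub_one_sub_id_le (x := -(α * u₁))
    (by rw [abs_neg, abs_of_pos (by positivity)]; exact b2)
  have hneg : Real.exp (γ * u₁) + Real.exp (-(α * u₁)) ≤ 2 := by
    have f1 := (abs_le.1 e1).2
    have f2 := (abs_le.1 e2).2
    have : (γ * u₁) ^ 2 + (-(α * u₁)) ^ 2 = u₁ * (s * u₁) := by rw [hs]; ring
    rw [hmul] at this
    nlinarith [mul_pos hu₁pos (sub_pos.2 h)]
  have hle : u₁ ≤ 1 / γ := by
    rw [le_div_iff₀ hγ]; linarith [mul_comm γ u₁]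
  have hpos : 2 ≤ Real.exp (γ * (1 / γ)) + Real.exp (-(α * (1 / γ))) := by
    have : γ * (1 / γ) = 1 := by field_simp
    rw [this]
    have := Real.add_one_le_exp (1 : ℝ)
    have := Real.exp_pos (-(α * (1 / γ)))
    linarith
  have hcont : ContinuousOn (fun u : ℝ => Real.exp (γ * u) + Real.exp (-(α * u)))
      (Set.Icc u₁ (1 / γ)) := by fun_prop
  obtain ⟨u, hu, hu2⟩ := intermediate_value_Icc hle hcont ⟨hneg, hpos⟩
  exact ⟨u, lt_of_lt_of_le hu₁pos hu.1, hu2⟩

theorem exists_root {α γ : ℝ} (hα : 0 < α) (hγ : 0 < γ) (h : α ≠ γ) :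
    ∃ u : ℝ, u ≠ 0 ∧ Real.exp (γ * u) + Real.exp (-(α * u)) = 2 := by
  rcases lt_or_gt_of_ne h with h | h
  · obtain ⟨u, hu, h2⟩ := exists_root_pos hα h
    refine ⟨-u, by linarith [hu] |> fun h : -u < 0 => h.ne, ?_⟩
    rw [add_comm]
    have e1 : -(α * -u) = α * u := by ring
    have e2 : γ * -u = -(γ * u) := by ring
    rw [e1, e2]
    exact h2
  · obtain ⟨u, hu, h2⟩ := exists_root_pos hγ h
    exact ⟨u, hu.ne', h2⟩

/-- A function suitable as a potential. -/
theorem exists_potential {α γ : ℝ} (hα : 0 < α) (hγ : 0 < γ) :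
    ∃ g : ℝ → ℝ, ∀ E X Y : ℝ, X < Y + (α + γ) →
      0 < (g (E - α) - g E) + (g (Y + α) - g Y) + ((g (E + γ) - g E) + (g (X - γ) - g X)) := by
  by_cases h : α = γ
  · subst h
    refine ⟨fun z => z ^ 2, fun E X Y hXY => ?_⟩
    have : 0 < 2 * α * (Y + (α + α) - X) := by
      apply mul_pos (by linarith) (by linarith)
    nlinarith
  · obtain ⟨u, hu, h2⟩ := exists_root hα hγ h
    refine ⟨fun z => Real.exp (u * z), fun E X Y hXY => ?_⟩
    set G := Real.exp (γ * u) with hG
    set A := Real.exp (-(α * u)) with hA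
    have hGpos : 0 < G := Real.exp_pos _
    have hApos : 0 < A := Real.exp_pos _
    have e1 : Real.exp (u * (E - α)) = Real.exp (u * E) * A := by
      rw [hA, ← Real.exp_add]; congr 1; ring
    have e2 : Real.exp (u * (E + γ)) = Real.exp (u * E) * G := by
      rw [hG, ← Real.exp_add]; congr 1; ring
    have e3 : Real.exp (u * Y) = Real.exp (u * (Y + α)) * A := by
      rw [hA, ← Real.exp_add]; congr 1; ring
    have e4 : Real.exp (u * X) = Real.exp (u * (X - γ)) * G := by
      rw [hG, ← Real.exp_add]; congr 1; ring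
    have key : (Real.exp (u * (E - α)) - Real.exp (u * E)) +
        (Real.exp (u * (Y + α)) - Real.exp (u * Y)) +
        ((Real.exp (u * (E + γ)) - Real.exp (u * E)) +
        (Real.exp (u * (X - γ)) - Real.exp (u * X))) =
        (G - 1) * (Real.exp (u * (Y + α)) - Real.exp (u * (X - γ))) := by
      rw [e1, e2, e3, e4]
      have hA2 : A = 2 - G := by linarith
      rw [hA2]; ring
    show 0 < (Real.exp (u * (E - α)) - Real.exp (u * E)) +
        (Real.exp (u * (Y + α)) - Real.exp (u * Y)) +
        ((Real.exp (u * (E + γ)) - Real.exp (u * E)) +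
        (Real.exp (u * (X - γ)) - Real.exp (u * X)))
    rw [key]
    rcases lt_or_gt_of_ne hu with hu | hu
    · apply mul_pos_of_neg_of_neg
      · have : G < 1 := by
          rw [hG, ← Real.exp_zero]; exact Real.exp_lt_exp.2 (mul_neg_of_pos_of_neg hγ hu)
        linarith
      · have : Real.exp (u * (Y + α)) < Real.exp (u * (X - γ)) := by
          rw [Real.exp_lt_exp]
          exact mul_lt_mul_of_neg_left (by linarith) hu
        linarith
    · apply mul_pos
      · have : 1 < G := by
          rw [hG]; exact Real.one_lt_exp_iff.2 (mul_pos hγ hu)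
        linarith
      · have : Real.exp (u * (X - γ)) < Real.exp (u * (Y + α)) := by
          rw [Real.exp_lt_exp]
          exact mul_lt_mul_of_pos_left (by linarith) hu
        linarith

variable {V : Type} [Fintype V]

open Classical in
/-- `α * outdegree - γ * indegree` in colour `i` -/
noncomputable def pw (α γ : ℝ) (D : V → V → Prop) {k : ℕ} (c : V → V → Fin k) (i : Fin k)
    (v : V) : ℝ :=
  α * (∑ w, if D v w ∧ c v w = i then (1 : ℝ) else 0) -
    γ * ∑ w, if D w v ∧ c w v = i then (1 : ℝ) else 0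

open Classical in
theorem outDeg_eqR (A : V → V → Prop) (v : V) :
    (outDeg A v : ℝ) = ∑ w, if A v w then (1 : ℝ) else 0 := by
  unfold outDeg
  rw [Set.ncard_eq_toFinset_card', Finset.sum_boole]
  congr 2
  ext w
  simp

open Classical in
theorem inDeg_eqR (A : V → V → Prop) (v : V) :
    (inDeg A v : ℝ) = ∑ w, if A w v then (1 : ℝ) else 0 := by
  unfold inDeg
  rw [Set.ncard_eq_toFinset_card', Finset.sum_boole]
  congr 2
  ext w
  simp

theorem pw_eq (α γ : ℝ) (D : V → V → Prop) {k : ℕ} (c : V → V → Fin k) (i : Fin k) (v : V) :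
    pw α γ D c i v = α * (outDeg (fun x y => D x y ∧ c x y = i) v : ℝ) -
      γ * inDeg (fun x y => D x y ∧ c x y = i) v := by
  rw [outDeg_eqR, inDeg_eqR]
  unfold pw
  congr 2 <;> refine Finset.sum_congr rfl fun w _ => ?_ <;> congr

open Classical in
theorem sum_pw (α γ : ℝ) (D : V → V → Prop) {k : ℕ} (c : V → V → Fin k) (v : V) :
    ∑ i, pw α γ D c i v = α * (outDeg D v : ℝ) - γ * inDeg D v := by
  rw [outDeg_eqR, inDeg_eqR]
  unfold pw
  rw [Finset.sum_sub_distrib, ← Finset.mul_sum, ← Finset.mul_sum, Finset.sum_comm,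
    Finset.sum_comm (s := univ (α := Fin k))]
  congr 2
  · refine Finset.sum_congr rfl fun w _ => ?_
    by_cases h : D v w
    · simp [h]
    · simp [h]
  · refine Finset.sum_congr rfl fun w _ => ?_
    by_cases h : D w v
    · simp [h]
    · simp [h]

open Classical in
theorem pw_recol (α γ : ℝ) (D : V → V → Prop) {k : ℕ} (c : V → V → Fin k) {x y : V}
    (hxy : D x y) (j l : Fin k) (v : V) :
    pw α γ D (recol c x y j) l v = pw α γ D c l v +
      ((if l = j then (1 : ℝ) else 0) - (if l = c x y then 1 else 0)) *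
        ((if v = x then α else 0) - (if v = y then γ else 0)) := by
  have h1 : (∑ w, if D v w ∧ recol c x y j v w = l then (1 : ℝ) else 0) =
      (∑ w, if D v w ∧ c v w = l then (1 : ℝ) else 0) +
        ((if l = j then (1 : ℝ) else 0) - (if l = c x y then 1 else 0)) *
          (if v = x then 1 else 0) := by
    by_cases hv : v = x
    · subst hv
      have : ∀ w, (if D v w ∧ recol c v y j v w = l then (1 : ℝ) else 0) =
          (if D v w ∧ c v w = l then (1 : ℝ) else 0) +
            (if w = y then ((if l = j then (1 : ℝ) else 0) - (if l = c v y then 1 else 0))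
              else 0) := by
        intro w
        unfold recol
        by_cases hw : w = y
        · subst hw
          simp only [and_self, if_true, hxy, true_and]
          by_cases h1 : j = l
          · by_cases h2 : c v w = l
            · simp [h1, h2]
            · simp [h1, h2, Ne.symm h2]
          · by_cases h2 : c v w = l
            · simp [h1, h2, Ne.symm h1]
            · simp [h1, h2, Ne.symm h2, Ne.symm h1]
        · simp [hw]
      rw [Finset.sum_congr rfl fun w _ => this w, Finset.sum_add_distrib]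
      simp
    · simp [hv, recol]
  have h2 : (∑ w, if D w v ∧ recol c x y j w v = l then (1 : ℝ) else 0) =
      (∑ w, if D w v ∧ c w v = l then (1 : ℝ) else 0) +
        ((if l = j then (1 : ℝ) else 0) - (if l = c x y then 1 else 0)) *
          (if v = y then 1 else 0) := by
    by_cases hv : v = y
    · subst hv
      have : ∀ w, (if D w v ∧ recol c x v j w v = l then (1 : ℝ) else 0) =
          (if D w v ∧ c w v = l then (1 : ℝ) else 0) +
            (if w = x then ((if l = j then (1 : ℝ) else 0) - (if l = c x v then 1 else 0))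
              else 0) := by
        intro w
        unfold recol
        by_cases hw : w = x
        · subst hw
          simp only [and_self, if_true, hxy, true_and]
          by_cases h1 : j = l
          · by_cases h2 : c w v = l
            · simp [h1, h2]
            · simp [h1, h2, Ne.symm h2]
          · by_cases h2 : c w v = l
            · simp [h1, h2, Ne.symm h1]
            · simp [h1, h2, Ne.symm h2, Ne.symm h1]
        · simp [hw]
      rw [Finset.sum_congr rfl fun w _ => this w, Finset.sum_add_distrib]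
      simp
    · simp [hv, recol]
  unfold pw
  rw [h1, h2]
  split_ifs <;> ring

/-- the potential -/
noncomputable def pot (g : ℝ → ℝ) (α γ : ℝ) (D : V → V → Prop) {k : ℕ}
    (c : V → V → Fin k) : ℝ :=
  ∑ v, ∑ i, g (pw α γ D c i v)

open Classical in
theorem pot_recol (g : ℝ → ℝ) (α γ : ℝ) (D : V → V → Prop) {k : ℕ} (c : V → V → Fin k)
    {x y : V} (hne : x ≠ y) (hxy : D x y) (j : Fin k) (hj : j ≠ c x y) :
    pot g α γ D (recol c x y j) = pot g α γ D c +
      ((g (pw α γ D c (c x y) x - α) - g (pw α γ D c (c x y) x)) +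
        (g (pw α γ D c j x + α) - g (pw α γ D c j x)) +
       ((g (pw α γ D c (c x y) y + γ) - g (pw α γ D c (c x y) y)) +
        (g (pw α γ D c j y - γ) - g (pw α γ D c j y)))) := by
  unfold pot
  set i := c x y with hi
  have key : ∀ v, ∑ l, g (pw α γ D (recol c x y j) l v) =
      (∑ l, g (pw α γ D c l v)) +
        ((if v = x then (g (pw α γ D c i x - α) - g (pw α γ D c i x)) +
          (g (pw α γ D c j x + α) - g (pw α γ D c j x)) else 0) +
        (if v = y then (g (pw α γ D c i y + γ) - g (pw α γ D c i y)) +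
          (g (pw α γ D c j y - γ) - g (pw α γ D c j y)) else 0)) := by
    intro v
    have hexp : ∀ l, g (pw α γ D (recol c x y j) l v) = g (pw α γ D c l v) +
        ((if l = i then (if v = x then g (pw α γ D c i x - α) - g (pw α γ D c i x) else 0) +
            (if v = y then g (pw α γ D c i y + γ) - g (pw α γ D c i y) else 0) else 0) +
        (if l = j then (if v = x then g (pw α γ D c j x + α) - g (pw α γ D c j x) else 0) +
            (if v = y then g (pw α γ D c j y - γ) - g (pw α γ D c j y) else 0) else 0)) := by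
      intro l
      rw [pw_recol α γ D c hxy j l v, ← hi]
      by_cases h1 : l = j
      · have h2 : l ≠ i := by rw [h1]; exact hj
        rw [if_pos h1, if_neg h2, if_neg h2, if_pos h1]
        subst h1
        by_cases h3 : v = x
        · have h4 : v ≠ y := by rw [h3]; exact hne
          subst h3
          rw [if_pos rfl, if_neg h4, if_pos rfl, if_neg h4]
          have : pw α γ D c l v + (1 - 0) * (α - 0) = pw α γ D c l v + α := by ring
          rw [this]; ring
        · by_cases h4 : v = y
          · subst h4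
            rw [if_neg h3, if_pos rfl, if_neg h3, if_pos rfl]
            have : pw α γ D c l v + (1 - 0) * (0 - γ) = pw α γ D c l v - γ := by ring
            rw [this]; ring
          · rw [if_neg h3, if_neg h4, if_neg h3, if_neg h4]
            simp
      · by_cases h2 : l = i
        · rw [if_neg h1, if_pos h2, if_pos h2, if_neg h1, h2]
          by_cases h3 : v = x
          · have h4 : v ≠ y := by rw [h3]; exact hne
            rw [if_pos h3, if_neg h4, if_pos h3, if_neg h4, h3]
            have : pw α γ D c i x + (0 - 1) * (α - 0) = pw α γ D c i x - α := by ring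
            rw [this]; ring
          · by_cases h4 : v = y
            · rw [if_neg h3, if_pos h4, if_neg h3, if_pos h4, h4]
              have : pw α γ D c i y + (0 - 1) * (0 - γ) = pw α γ D c i y + γ := by ring
              rw [this]; ring
            · rw [if_neg h3, if_neg h4, if_neg h3, if_neg h4]
              simp
        · rw [if_neg h1, if_neg h2, if_neg h2, if_neg h1]
          simp
    rw [Finset.sum_congr rfl fun l _ => hexp l, Finset.sum_add_distrib, Finset.sum_add_distrib,
      Finset.sum_ite_eq' univ i, Finset.sum_ite_eq' univ j]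
    simp only [Finset.mem_univ, if_true]
    split_ifs <;> ring
  rw [Finset.sum_congr rfl fun v _ => key v, Finset.sum_add_distrib, Finset.sum_add_distrib,
    Finset.sum_ite_eq' univ x, Finset.sum_ite_eq' univ y]
  simp only [Finset.mem_univ, if_true]

/-- Optimal colourings of the arcs in `M`, the colours of all other arcs being fixed. -/
theorem exists_max_pot (D : V → V → Prop) (hD : ∀ x, ¬ D x x) (M : V → V → Prop)
    (hM : ∀ x y, M x y → D x y) {k : ℕ} {α γ : ℝ} (hα : 0 < α) (hγ : 0 < γ)
    (c₀ : V → V → Fin k) :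
    ∃ c : V → V → Fin k, (∀ x y, ¬ M x y → c x y = c₀ x y) ∧
      ∀ x y, M x y → pw α γ D c (c x y) x = pw α γ D c (c x y) y →
        ∀ j, j ≠ c x y → pw α γ D c j x + (α + γ) ≤ pw α γ D c j y := by
  classical
  obtain ⟨g, hg⟩ := exists_potential hα hγ
  let T := {c : V → V → Fin k // ∀ x y, ¬ M x y → c x y = c₀ x y}
  have : Nonempty T := ⟨⟨c₀, fun _ _ _ => rfl⟩⟩
  obtain ⟨c, hc⟩ := Finite.exists_max (fun c : T => pot g α γ D c.1)
  refine ⟨c.1, c.2, fun x y hxy heq j hj => ?_⟩
  have hne : x ≠ y := by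
    rintro rfl
    exact hD x (hM _ _ hxy)
  have h0 : ∀ a b, ¬ M a b → recol c.1 x y j a b = c₀ a b := by
    intro a b hab
    have : ¬ (a = x ∧ b = y) := by
      rintro ⟨rfl, rfl⟩
      exact hab hxy
    unfold recol
    rw [if_neg this]
    exact c.2 a b hab
  have h1 := hc ⟨recol c.1 x y j, h0⟩
  by_contra hcon
  push Not at hcon
  have h2 := hg (pw α γ D c.1 (c.1 x y) x) (pw α γ D c.1 j y) (pw α γ D c.1 j x) hcon
  have h3 := pot_recol g α γ D c.1 hne (hM _ _ hxy) j hj
  rw [← heq] at h3
  have h4 : pot g α γ D (recol c.1 x y j) ≤ pot g α γ D c.1 := h1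
  rw [h3] at h4
  linarith

/-- **Weighted energy theorem**, relative to a set `M` of arcs. -/
theorem exists_colouring_weighted_rel (D : V → V → Prop) (hD : ∀ x, ¬ D x x)
    (M : V → V → Prop) (hM : ∀ x y, M x y → D x y) {k : ℕ} (hk : 1 ≤ k) {α γ : ℝ} (hα : 0 < α)
    (hγ : 0 < γ)
    (h : ∀ x y, M x y → α * ((outDeg D y : ℝ) - outDeg D x) +
      γ * ((inDeg D x : ℝ) - inDeg D y) < ((k : ℝ) - 1) * (α + γ))
    (c₀ : V → V → Fin k) :
    ∃ c : V → V → Fin k, (∀ x y, ¬ M x y → c x y = c₀ x y) ∧
      ∀ x y, M x y →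
        (outDeg (fun a b => D a b ∧ c a b = c x y) x,
          inDeg (fun a b => D a b ∧ c a b = c x y) x) ≠
        (outDeg (fun a b => D a b ∧ c a b = c x y) y,
          inDeg (fun a b => D a b ∧ c a b = c x y) y) := by
  classical
  obtain ⟨c, hc0, hc⟩ := exists_max_pot D hD M hM hα hγ c₀
  refine ⟨c, hc0, ?_⟩
  intro x y hxy heq
  simp only [Prod.mk.injEq] at heq
  have hs : pw α γ D c (c x y) x = pw α γ D c (c x y) y := by
    rw [pw_eq, pw_eq, heq.1, heq.2]
  have h1 := hc x y hxy hs
  have h2 := h x y hxy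
  have h5 : α * ((outDeg D y : ℝ) - outDeg D x) + γ * ((inDeg D x : ℝ) - inDeg D y) =
      ∑ j, (pw α γ D c j y - pw α γ D c j x) := by
    rw [Finset.sum_sub_distrib, sum_pw, sum_pw]
    ring
  rw [h5, ← Finset.add_sum_erase univ _ (Finset.mem_univ (c x y))] at h2
  have h3 : ∑ j ∈ univ.erase (c x y), (α + γ) ≤
      ∑ j ∈ univ.erase (c x y), (pw α γ D c j y - pw α γ D c j x) := by
    refine Finset.sum_le_sum fun j hj => ?_
    have := h1 j (Finset.ne_of_mem_erase hj)
    linarith
  rw [Finset.sum_const, Finset.card_erase_of_mem (Finset.mem_univ (c x y)), Finset.card_univ,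
    Fintype.card_fin, nsmul_eq_mul] at h3
  have h4 : ((k - 1 : ℕ) : ℝ) = (k : ℝ) - 1 := by
    rw [Nat.cast_sub hk]
    simp
  rw [h4] at h3
  rw [hs] at h2
  linarith

open Topology Filter in
/-- The same with weights `t`, `1 - t` and `0 ≤ t ≤ 1`. -/
theorem exists_colouring_weighted_rel' (D : V → V → Prop) (hD : ∀ x, ¬ D x x)
    (M : V → V → Prop) (hM : ∀ x y, M x y → D x y) {k : ℕ} (hk : 1 ≤ k) {t : ℝ} (ht0 : 0 ≤ t)
    (ht1 : t ≤ 1)
    (h : ∀ x y, M x y → t * ((outDeg D y : ℝ) - outDeg D x) +
      (1 - t) * ((inDeg D x : ℝ) - inDeg D y) < (k : ℝ) - 1)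
    (c₀ : V → V → Fin k) :
    ∃ c : V → V → Fin k, (∀ x y, ¬ M x y → c x y = c₀ x y) ∧
      ∀ x y, M x y →
        (outDeg (fun a b => D a b ∧ c a b = c x y) x,
          inDeg (fun a b => D a b ∧ c a b = c x y) x) ≠
        (outDeg (fun a b => D a b ∧ c a b = c x y) y,
          inDeg (fun a b => D a b ∧ c a b = c x y) y) := by
  have hev : ∀ᶠ s in 𝓝[Set.Ioo (0 : ℝ) 1] t, ∀ x y, M x y →
      s * ((outDeg D y : ℝ) - outDeg D x) +
      (1 - s) * ((inDeg D x : ℝ) - inDeg D y) < (k : ℝ) - 1 := by
    rw [eventually_all]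
    intro x
    rw [eventually_all]
    intro y
    by_cases hxy : M x y
    · have hcont : Continuous (fun s : ℝ => s * ((outDeg D y : ℝ) - outDeg D x) +
        (1 - s) * ((inDeg D x : ℝ) - inDeg D y)) := by fun_prop
      have := (hcont.tendsto t).eventually_lt_const (h x y hxy)
      filter_upwards [this.filter_mono nhdsWithin_le_nhds] with s hs _ using hs
    · exact Eventually.of_forall fun s hM => absurd hM hxy
  have hne : (𝓝[Set.Ioo (0 : ℝ) 1] t).NeBot := by
    rw [← mem_closure_iff_nhdsWithin_neBot, closure_Ioo (by norm_num)]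
    exact ⟨ht0, ht1⟩
  obtain ⟨s, hs, hs01⟩ := (hev.and self_mem_nhdsWithin).exists
  refine exists_colouring_weighted_rel D hD M hM hk (α := s) (γ := 1 - s) hs01.1
    (by linarith [hs01.2]) ?_ c₀
  intro x y hxy
  have := hs x y hxy
  have h1 : ((k : ℝ) - 1) * (s + (1 - s)) = (k : ℝ) - 1 := by ring
  rw [h1]
  exact this

/-- **Weighted energy theorem.** -/
theorem exists_colouring_weighted (D : V → V → Prop) (hD : ∀ x, ¬ D x x) {k : ℕ} (hk : 1 ≤ k)
    {t : ℝ} (ht0 : 0 ≤ t) (ht1 : t ≤ 1)
    (h : ∀ x y, D x y → t * ((outDeg D y : ℝ) - outDeg D x) +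
      (1 - t) * ((inDeg D x : ℝ) - inDeg D y) < (k : ℝ) - 1) :
    ∃ c : V → V → Fin k, IsWLIColouring D c := by
  obtain ⟨c, -, hc⟩ := exists_colouring_weighted_rel' D hD D (fun _ _ h => h) hk ht0 ht1 h
    (fun _ _ => ⟨0, hk⟩)
  refine ⟨c, ?_⟩
  rintro i x y ⟨hxy, rfl⟩
  exact hc x y hxy

end Pool.Agent.H35.Lir
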